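import Pool.Agent.Work.MP_bd00dd_co.Defs

/-!
Arithmetic of vertex types for triangles with largest angle 2/3 or 1/2.
-/

namespace Pool.Agent.Work.MP_bd00dd_co

/-- Largest angle 2/3. Proof: 3 α (m - l) = 6 - l - 2 j - 3 st. Suppose s = l + 2 j + 3 st - 6 >= 1.
Then k = l - m = s/(3 α) >= 2 s (as α <= 1/6) and k <= l <= s + 6. So 1 <= s <= 6,
2 s <= k <= s + 6, α = s/(3 k): one of the excluded values. So l + 2 j + 3 st <= 6 and
m - l = (6 - l - 2 j - 3 st)/(3 α) >= 0. -/
theorem ar23 {α β : ℝ} (hα : 0 < α) (hαβ : α ≤ β) (hs : α + β = 1 / 3)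
    (h1 : α ≠ 1 / 6) (h2 : α ≠ 1 / 9) (h3 : α ≠ 1 / 12) (h4 : α ≠ 1 / 15) (h5 : α ≠ 1 / 18)
    (h6 : α ≠ 1 / 21) (h7 : α ≠ 2 / 15) (h8 : α ≠ 2 / 21) (h9 : α ≠ 3 / 21) (h10 : α ≠ 3 / 24)
    (h11 : α ≠ 4 / 27) (h12 : α ≠ 5 / 33) {m l j st : ℕ} (h : Ty α β (2 / 3) m l j st) :
    l ≤ m ∧ (l = m → l + 2 * j + 3 * st = 6) := by
  obtain ⟨hsum, hst, h3v⟩ := h
  have hα6 : α ≤ 1 / 6 := by linarith
  have hβ : β = 1 / 3 - α := by linarith
  have key : 3 * α * ((m : ℝ) - l) = 6 - l - 2 * j - 3 * st := by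
    rw [hβ] at hsum
    linarith
  constructor
  · by_contra hc
    push Not at hc
    obtain ⟨k, hk⟩ : ∃ k : ℕ, l = m + k := ⟨l - m, by omega⟩
    have hk1 : 1 ≤ k := by omega
    have hk1' : (1 : ℝ) ≤ k := by exact_mod_cast hk1
    have hkl : (l : ℝ) = m + k := by exact_mod_cast hk
    have key2 : 3 * α * k = (l : ℝ) + 2 * j + 3 * st - 6 := by
      rw [hkl] at key ⊢
      linarith
    have hpos : (6 : ℝ) < (l : ℝ) + 2 * j + 3 * st := by
      have : 0 < 3 * α * k := by positivity
      linarith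
    have hpos' : 6 < l + 2 * j + 3 * st := by exact_mod_cast hpos
    obtain ⟨s, hs'⟩ : ∃ s : ℕ, l + 2 * j + 3 * st = 6 + s := ⟨l + 2 * j + 3 * st - 6, by omega⟩
    have hs1 : 1 ≤ s := by omega
    have hsr : (l : ℝ) + 2 * j + 3 * st = 6 + s := by exact_mod_cast hs'
    have key3 : 3 * α * k = s := by linarith
    have h2s : 2 * s ≤ k := by
      have : 2 * (s : ℝ) ≤ k := by
        rw [← key3]
        nlinarith
      exact_mod_cast this
    have hks : k ≤ s + 6 := by omega
    have hs6 : s ≤ 6 := by omega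
    have hα' : α = s / (3 * k) := by
      field_simp
      linarith
    have hkk : k ≤ 12 := by omega
    clear hkl key2 hpos hsr key3 key hsum hk hpos' hs' hst h3v
    interval_cases s <;> interval_cases k <;>
      first
      | omega
      | (push_cast at hα'
         first
         | (apply h1; rw [hα']; norm_num; done)
         | (apply h2; rw [hα']; norm_num; done)
         | (apply h3; rw [hα']; norm_num; done)
         | (apply h4; rw [hα']; norm_num; done)
         | (apply h5; rw [hα']; norm_num; done)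
         | (apply h6; rw [hα']; norm_num; done)
         | (apply h7; rw [hα']; norm_num; done)
         | (apply h8; rw [hα']; norm_num; done)
         | (apply h9; rw [hα']; norm_num; done)
         | (apply h10; rw [hα']; norm_num; done)
         | (apply h11; rw [hα']; norm_num; done)
         | (apply h12; rw [hα']; norm_num; done))
  · intro hlm
    have h1 : (l : ℝ) = m := by exact_mod_cast hlm
    have h2 : (l : ℝ) + 2 * j + 3 * st = 6 := by
      rw [h1] at key ⊢
      linarith
    exact_mod_cast h2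

/-- Largest angle 1/2. Proof: 2 α (m - l) = 4 - l - j - 2 st. Suppose s = l + j + 2 st - 4 >= 1.
Then k = l - m = s/(2 α) >= 2 s (as α <= 1/4), k <= l <= s + 4, so 1 <= s <= 4,
2 s <= k <= s + 4, α = s/(2 k): excluded. -/
theorem ar12 {α β : ℝ} (hα : 0 < α) (hαβ : α ≤ β) (hs : α + β = 1 / 2)
    (h1 : α ≠ 1 / 4) (h2 : α ≠ 1 / 6) (h3 : α ≠ 1 / 8) (h4 : α ≠ 1 / 10) (h5 : α ≠ 2 / 10)
    (h6 : α ≠ 3 / 14) {m l j st : ℕ} (h : Ty α β (1 / 2) m l j st) :
    l ≤ m ∧ (l = m → l + j + 2 * st = 4) := by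
  obtain ⟨hsum, hst, h3v⟩ := h
  have hα6 : α ≤ 1 / 4 := by linarith
  have hβ : β = 1 / 2 - α := by linarith
  have key : 2 * α * ((m : ℝ) - l) = 4 - l - j - 2 * st := by
    rw [hβ] at hsum
    linarith
  constructor
  · by_contra hc
    push Not at hc
    obtain ⟨k, hk⟩ : ∃ k : ℕ, l = m + k := ⟨l - m, by omega⟩
    have hk1 : 1 ≤ k := by omega
    have hk1' : (1 : ℝ) ≤ k := by exact_mod_cast hk1
    have hkl : (l : ℝ) = m + k := by exact_mod_cast hk
    have key2 : 2 * α * k = (l : ℝ) + j + 2 * st - 4 := by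
      rw [hkl] at key ⊢
      linarith
    have hpos : (4 : ℝ) < (l : ℝ) + j + 2 * st := by
      have : 0 < 2 * α * k := by positivity
      linarith
    have hpos' : 4 < l + j + 2 * st := by exact_mod_cast hpos
    obtain ⟨s, hs'⟩ : ∃ s : ℕ, l + j + 2 * st = 4 + s := ⟨l + j + 2 * st - 4, by omega⟩
    have hs1 : 1 ≤ s := by omega
    have hsr : (l : ℝ) + j + 2 * st = 4 + s := by exact_mod_cast hs'
    have key3 : 2 * α * k = s := by linarith
    have h2s : 2 * s ≤ k := by
      have : 2 * (s : ℝ) ≤ k := by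
        rw [← key3]
        nlinarith
      exact_mod_cast this
    have hks : k ≤ s + 4 := by omega
    have hs6 : s ≤ 4 := by omega
    have hα' : α = s / (2 * k) := by
      field_simp
      linarith
    have hkk : k ≤ 8 := by omega
    clear hkl key2 hpos hsr key3 key hsum hk hpos' hs' hst h3v
    interval_cases s <;> interval_cases k <;>
      first
      | omega
      | (push_cast at hα'
         first
         | (apply h1; rw [hα']; norm_num; done)
         | (apply h2; rw [hα']; norm_num; done)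
         | (apply h3; rw [hα']; norm_num; done)
         | (apply h4; rw [hα']; norm_num; done)
         | (apply h5; rw [hα']; norm_num; done)
         | (apply h6; rw [hα']; norm_num; done))
  · intro hlm
    have h1 : (l : ℝ) = m := by exact_mod_cast hlm
    have h2 : (l : ℝ) + j + 2 * st = 4 := by
      rw [h1] at key ⊢
      linarith
    exact_mod_cast h2

end Pool.Agent.Work.MP_bd00dd_co
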