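import Pool.Agent.Work.MP_bd00dd_co.Defs

/-!
Basic facts about degrees and labels (write deg v for (ts v).card; v is a vertex if 3 <= deg v).
-/

namespace Pool.Agent.Work.MP_bd00dd_co

variable {ι : Type*} {n : ℕ} {S : Finset Pl} {θ : Pl → ℝ} {Sd : Pl → Pl → Prop}
  {g : ι → Pl ≃ᵢ Pl} {vs : ι → Finset Pl} {ts : Pl → Finset ι}

/-- Every sum of (deg v - 2) over a set F of vertices of the tile i is at most n.
Proof: D.cnt and D.mem (every v in vs i has 3 <= deg v, so the other terms are >= 1 each). -/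
theorem sub_le (D : Dat n S θ Sd g vs ts) {i : ι} {F : Finset Pl} (hF : F ⊆ vs i) :
    ∑ v ∈ F, (ts v).card + (vs i).card ≤ n + 3 * F.card := by
  classical
  have h1 := D.cnt i
  have h2 : ∑ v ∈ vs i \ F, (ts v).card + ∑ v ∈ F, (ts v).card = ∑ v ∈ vs i, (ts v).card :=
    Finset.sum_sdiff hF
  have h3 : (vs i \ F).card * 3 ≤ ∑ v ∈ vs i \ F, (ts v).card := by
    rw [← smul_eq_mul]
    refine Finset.card_nsmul_le_sum _ _ _ fun v hv => ?_
    exact ((D.mem i v).1 (Finset.mem_sdiff.1 hv).1).2
  have h4 : (vs i \ F).card = (vs i).card - F.card := Finset.card_sdiff_of_subset hF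
  have h5 := Finset.card_le_card hF
  omega

/-- vs i has at least as many elements as S. -/
theorem card_vs (D : Dat n S θ Sd g vs ts) (i : ι) : S.card ≤ (vs i).card := by
  refine Finset.card_le_card_of_injOn (fun s => g i s) (fun s hs => D.cmem i s hs) ?_
  intro s _ t _ h
  exact (g i).injective h

/-- Degrees are at most n. Proof: v lies in some tile i (ts v is nonempty), v ∈ vs i, and
(vs i).card >= S.card >= 3 by D.cmem and injectivity of g i; use sub_le with F = {v}. -/
theorem deg_le (D : Dat n S θ Sd g vs ts) {v : Pl} (hv : 3 ≤ (ts v).card) : (ts v).card ≤ n := by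
  have hne : (ts v).Nonempty := Finset.card_pos.1 (by omega)
  obtain ⟨i, hi⟩ := hne
  have hvi : v ∈ vs i := (D.mem i v).2 ⟨hi, hv⟩
  have h1 := sub_le D (i := i) (F := {v}) (Finset.singleton_subset_iff.2 hvi)
  rw [Finset.sum_singleton, Finset.card_singleton] at h1
  have h2 := card_vs D i
  have h3 := D.three
  omega

/-- The degree is the number of corners plus the number of straight tiles. -/
theorem deg_eq (S : Finset Pl) (g : ι → Pl ≃ᵢ Pl) (ts : Pl → Finset ι) (v : Pl) :
    (ts v).card = ∑ s ∈ S, N g ts s v + stc S g ts v := by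
  classical
  have h1 : (ts v).card = ((ts v).filter (fun i => (g i).symm v ∈ S)).card +
      ((ts v).filter (fun i => ¬ (g i).symm v ∈ S)).card :=
    (Finset.card_filter_add_card_filter_not _).symm
  have h2 : ((ts v).filter (fun i => (g i).symm v ∈ S)).card =
      ∑ s ∈ S, (((ts v).filter (fun i => (g i).symm v ∈ S)).filter
        (fun i => (g i).symm v = s)).card :=
    Finset.card_eq_sum_card_fiberwise (fun i hi => (Finset.mem_filter.1 hi).2)
  rw [h1, h2]
  congr 1
  · refine Finset.sum_congr rfl fun s hs => ?_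
    unfold N
    congr 1
    ext i
    simp only [Finset.mem_filter]
    constructor
    · rintro ⟨⟨h, -⟩, h'⟩; exact ⟨h, h'⟩
    · rintro ⟨h, h'⟩; exact ⟨⟨h, by rw [h']; exact hs⟩, h'⟩

/-- The angle sum in terms of the numbers of labels. Proof: D.tot; the definition of A splits
the sum over ts v into the corners s ∈ S and the straight tiles. -/
theorem tot_eq (D : Dat n S θ Sd g vs ts) {v : Pl} (hv : 3 ≤ (ts v).card) :
    ∑ s ∈ S, (N g ts s v : ℝ) * θ s + stc S g ts v = 2 := by
  classical
  rw [← D.tot v hv]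
  have h1 : ∑ i ∈ ts v, A S θ g i v =
      ∑ i ∈ (ts v).filter (fun i => (g i).symm v ∈ S), A S θ g i v +
      ∑ i ∈ (ts v).filter (fun i => ¬ (g i).symm v ∈ S), A S θ g i v :=
    (Finset.sum_filter_add_sum_filter_not _ _ _).symm
  have h2 : ∑ i ∈ (ts v).filter (fun i => (g i).symm v ∈ S), A S θ g i v =
      ∑ s ∈ S, ∑ i ∈ ((ts v).filter (fun i => (g i).symm v ∈ S)).filter
        (fun i => (g i).symm v = s), A S θ g i v :=
    (Finset.sum_fiberwise_of_maps_to (fun i hi => (Finset.mem_filter.1 hi).2) _).symm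
  rw [h1, h2]
  congr 1
  · refine Finset.sum_congr rfl fun s hs => ?_
    have h3 : ∀ i ∈ ((ts v).filter (fun i => (g i).symm v ∈ S)).filter
        (fun i => (g i).symm v = s), A S θ g i v = θ s := by
      intro i hi
      have hi' := (Finset.mem_filter.1 hi).2
      unfold A
      rw [hi', if_pos hs]
    rw [Finset.sum_congr rfl h3, Finset.sum_const, nsmul_eq_mul]
    congr 2
    unfold N
    congr 1
    ext i
    simp only [Finset.mem_filter]
    constructor
    · rintro ⟨h, h'⟩; exact ⟨⟨h, by rw [h']; exact hs⟩, h'⟩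
    · rintro ⟨⟨h, -⟩, h'⟩; exact ⟨h, h'⟩
  · have h3 : ∀ i ∈ (ts v).filter (fun i => ¬ (g i).symm v ∈ S), A S θ g i v = 1 := by
      intro i hi
      have hi' := (Finset.mem_filter.1 hi).2
      unfold A
      rw [if_neg hi']
    rw [Finset.sum_congr rfl h3, Finset.sum_const, nsmul_eq_mul, mul_one]
    unfold stc
    norm_cast

/-- At most one tile is straight at a vertex: two of them have angle sum 2 and the third tile
has positive angle. -/
theorem stc_le (D : Dat n S θ Sd g vs ts) {v : Pl} (hv : 3 ≤ (ts v).card) :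
    stc S g ts v ≤ 1 := by
  by_contra hlt
  push Not at hlt
  have h1 := tot_eq D hv
  have h2 := deg_eq S g ts v
  have hnn : ∀ s ∈ S, 0 ≤ (N g ts s v : ℝ) * θ s := fun s hs =>
    mul_nonneg (Nat.cast_nonneg _) (D.pos s hs).le
  have hst : (2 : ℝ) ≤ stc S g ts v := by exact_mod_cast hlt
  have hz : ∑ s ∈ S, (N g ts s v : ℝ) * θ s = 0 :=
    le_antisymm (by linarith) (Finset.sum_nonneg hnn)
  have hz' := (Finset.sum_eq_zero_iff_of_nonneg hnn).1 hz
  have hN : ∑ s ∈ S, N g ts s v = 0 := by
    refine Finset.sum_eq_zero fun s hs => ?_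
    rcases mul_eq_zero.1 (hz' s hs) with h | h
    · exact_mod_cast h
    · exact absurd h (D.pos s hs).ne'
  have hst2 : (stc S g ts v : ℝ) = 2 := by linarith
  have hst3 : stc S g ts v = 2 := by exact_mod_cast hst2
  omega

/-- Half means that exactly one tile is straight. -/
theorem half_iff (D : Dat n S θ Sd g vs ts) {v : Pl} (hv : 3 ≤ (ts v).card) :
    Half S g ts v ↔ stc S g ts v = 1 := by
  classical
  have h1 : Half S g ts v ↔ 0 < stc S g ts v := by
    unfold Half stc
    rw [Finset.card_pos]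
    constructor
    · rintro ⟨j, hj, hj'⟩
      exact ⟨j, Finset.mem_filter.2 ⟨hj, hj'⟩⟩
    · rintro ⟨j, hj⟩
      exact ⟨j, (Finset.mem_filter.1 hj).1, (Finset.mem_filter.1 hj).2⟩
  have h2 := stc_le D hv
  rw [h1]
  omega

/-- Sum over the corners of a tile. Proof: g i is injective and maps S onto the set of v ∈ vs i
with (g i).symm v ∈ S (D.cmem). -/
theorem corner_sum (D : Dat n S θ Sd g vs ts) (i : ι) (f h : Pl → ℝ) :
    ∑ v ∈ vs i, (if (g i).symm v ∈ S then f ((g i).symm v) else h v) =
      ∑ s ∈ S, f s + ∑ v ∈ (vs i).filter (fun v => (g i).symm v ∉ S), h v := by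
  rw [Finset.sum_ite]
  congr 1
  refine Finset.sum_nbij' (fun v => (g i).symm v) (fun s => g i s) ?_ ?_ ?_ ?_ ?_
  · intro v hv
    exact (Finset.mem_filter.1 hv).2
  · intro s hs
    refine Finset.mem_filter.2 ⟨D.cmem i s hs, ?_⟩
    rw [(g i).symm_apply_apply]
    exact hs
  · intro v _
    exact (g i).apply_symm_apply v
  · intro s _
    exact (g i).symm_apply_apply s
  · intro v _
    rfl

end Pool.Agent.Work.MP_bd00dd_co
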