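import Pool.Agent.Work.MP_bd00dd_co.C.Mism

/-!
Certificates with the mismatch lemma. Proof of both: take M from mism1 (mism2) and apply D.ap to
F i v = (deg v - 2) - (x, y or z if the corner a, b or c of the tile i is at v)
+ (k μ if the tile i is straight at v, k = 1 or 2) - μ M i v.
Vertex sums: d (d - 2) - (x m + y l + z j) + k μ st - μ [Mix] <= 0. Tile sums:
n - (x + y + z) + μ (k scount - ∑ M) >= n - (x + y + z).
-/

namespace Pool.Agent.Work.MP_bd00dd_co

variable {ι : Type*} {n : ℕ} {S : Finset Pl} {θ : Pl → ℝ} {Sd : Pl → Pl → Prop}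
  {g : ι → Pl ≃ᵢ Pl} {vs : ι → Finset Pl} {ts : Pl → Finset ι}

open Classical in
private theorem certM_core (D : Dat n S θ Sd g vs ts) {a b c : Pl} (T : Tri S θ a b c)
    (k μ x y z : ℝ) (hμ : 0 ≤ μ) (M : ι → Pl → ℝ) (hM : ∀ i v, M i v = 0 ∨ M i v = 1)
    (hM1 : ∀ v, 3 ≤ (ts v).card → Mix (N g ts a v) (N g ts b v) (N g ts c v) (stc S g ts v) →
        ∑ i ∈ ts v, M i v = 1)
    (hM0 : ∀ v, 3 ≤ (ts v).card → ¬ Mix (N g ts a v) (N g ts b v) (N g ts c v) (stc S g ts v) →
        ∑ i ∈ ts v, M i v = 0)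
    (hMs : ∀ i, ∑ v ∈ vs i, M i v ≤ k * scount S g vs i)
    (h : ∀ v, 3 ≤ (ts v).card → ((ts v).card : ℝ) * ((ts v).card - 2) + k * μ * stc S g ts v ≤
      x * N g ts a v + y * N g ts b v + z * N g ts c v +
        (if Mix (N g ts a v) (N g ts b v) (N g ts c v) (stc S g ts v) then μ else 0)) :
    (n : ℝ) ≤ x + y + z := by
  have ha : a ∈ S := (T.mem a).2 (Or.inl rfl)
  have hb : b ∈ S := (T.mem b).2 (Or.inr (Or.inl rfl))
  have hc : c ∈ S := (T.mem c).2 (Or.inr (Or.inr rfl))
  let F : ι → Pl → ℝ := fun i v => (((ts v).card : ℝ) - 2) -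
    ((if (g i).symm v = a then x else 0) + (if (g i).symm v = b then y else 0) +
      (if (g i).symm v = c then z else 0)) + (if (g i).symm v ∉ S then k * μ else 0) - μ * M i v
  let Q : Finset ℝ := ((Finset.range (n + 1)) ×ˢ (({x, 0} : Finset ℝ) ×ˢ (({y, 0} : Finset ℝ) ×ˢ
    (({z, 0} : Finset ℝ) ×ˢ (({k * μ, 0} : Finset ℝ) ×ˢ ({0, 1} : Finset ℝ)))))).image
    (fun p => ((p.1 : ℝ) - 2) - (p.2.1 + p.2.2.1 + p.2.2.2.1) + p.2.2.2.2.1 -
      μ * p.2.2.2.2.2)
  obtain ⟨i, hi⟩ := D.ap F Q (by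
    intro i v hv
    have hdeg := deg_le D ((D.mem i v).1 hv).2
    refine Finset.mem_image.2 ⟨((ts v).card, (if (g i).symm v = a then x else 0),
      (if (g i).symm v = b then y else 0), (if (g i).symm v = c then z else 0),
      (if (g i).symm v ∉ S then k * μ else 0), M i v), ?_, rfl⟩
    simp only [Finset.mem_product, Finset.mem_range, Finset.mem_insert, Finset.mem_singleton]
    refine ⟨by omega, ?_, ?_, ?_, ?_, hM i v⟩ <;> split_ifs <;> simp) (by
    intro v hv
    have e1 : ∀ (s : Pl) (w : ℝ), ∑ i ∈ ts v, (if (g i).symm v = s then w else 0) =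
        w * N g ts s v := by
      intro s w
      rw [← Finset.sum_filter, Finset.sum_const, nsmul_eq_mul, mul_comm]
      unfold N
      rfl
    have e2 : ∑ i ∈ ts v, (if (g i).symm v ∉ S then k * μ else 0) = k * μ * stc S g ts v := by
      rw [← Finset.sum_filter, Finset.sum_const, nsmul_eq_mul, mul_comm]
      unfold stc
      congr!
    have e3 : ∑ i ∈ ts v, M i v =
        (if Mix (N g ts a v) (N g ts b v) (N g ts c v) (stc S g ts v) then (1 : ℝ) else 0) := by
      split_ifs with hm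
      · exact hM1 v hv hm
      · exact hM0 v hv hm
    have e4 : ∑ i ∈ ts v, F i v = ((ts v).card : ℝ) * ((ts v).card - 2) -
        (x * N g ts a v + y * N g ts b v + z * N g ts c v) + k * μ * stc S g ts v -
        μ * (if Mix (N g ts a v) (N g ts b v) (N g ts c v) (stc S g ts v) then (1 : ℝ) else 0) := by
      simp only [F]
      rw [Finset.sum_sub_distrib, Finset.sum_add_distrib, Finset.sum_sub_distrib,
        Finset.sum_add_distrib, Finset.sum_add_distrib, e1, e1, e1, e2, ← Finset.mul_sum, e3,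
        Finset.sum_const, nsmul_eq_mul]
    rw [e4]
    have := h v hv
    split_ifs at this ⊢ <;> linarith)
  have f1 : ∀ s ∈ S, ∀ w : ℝ, ∑ v ∈ vs i, (if (g i).symm v = s then w else 0) = w := by
    intro s hs w
    rw [Finset.sum_eq_single (g i s)]
    · simp
    · intro v _ hv
      rw [if_neg]
      intro he
      apply hv
      rw [← he, (g i).apply_symm_apply]
    · intro hn
      exact absurd (D.cmem i s hs) hn
  have f2 : ∑ v ∈ vs i, (if (g i).symm v ∉ S then k * μ else 0) = k * μ * scount S g vs i := by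
    rw [← Finset.sum_filter, Finset.sum_const, nsmul_eq_mul, mul_comm]
    unfold scount
    congr!
  have f3 : ∑ v ∈ vs i, (((ts v).card : ℝ) - 2) = n := by
    rw [Finset.sum_sub_distrib, Finset.sum_const, nsmul_eq_mul]
    have := D.cnt i
    have h2 : (∑ v ∈ vs i, ((ts v).card : ℝ)) = n + 2 * (vs i).card := by exact_mod_cast this
    rw [h2]
    ring
  have f4 : ∑ v ∈ vs i, F i v = n - (x + y + z) + k * μ * scount S g vs i -
      μ * ∑ v ∈ vs i, M i v := by
    simp only [F]
    rw [Finset.sum_sub_distrib, Finset.sum_add_distrib, Finset.sum_sub_distrib,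
      Finset.sum_add_distrib, Finset.sum_add_distrib, f1 a ha, f1 b hb, f1 c hc, f2, f3,
      ← Finset.mul_sum]
  rw [f4] at hi
  have := mul_le_mul_of_nonneg_left (hMs i) hμ
  linarith

open Classical in
theorem certM1 (D : Dat n S θ Sd g vs ts) {a b c : Pl} (T : Tri S θ a b c)
    (hab : θ a < θ b) (hbc : θ b < θ c) (h1 : 2 * dist b c ≠ dist a c)
    (h2 : 2 * dist b c ≠ dist a b) (μ x y z : ℝ) (hμ : 0 ≤ μ)
    (h : ∀ v, 3 ≤ (ts v).card → ((ts v).card : ℝ) * ((ts v).card - 2) + μ * stc S g ts v ≤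
      x * N g ts a v + y * N g ts b v + z * N g ts c v +
        (if Mix (N g ts a v) (N g ts b v) (N g ts c v) (stc S g ts v) then μ else 0)) :
    (n : ℝ) ≤ x + y + z := by
  obtain ⟨M, hM, hM1, hM0, hMs⟩ := mism1 D T hab hbc h1 h2
  apply certM_core D T 1 μ x y z hμ M hM hM1 hM0
  · intro i
    rw [one_mul]
    exact hMs i
  · intro v hv
    rw [one_mul]
    exact h v hv

open Classical in
theorem certM2 (D : Dat n S θ Sd g vs ts) {a b c : Pl} (T : Tri S θ a b c)
    (hab : θ a < θ b) (hbc : θ b < θ c) (μ x y z : ℝ) (hμ : 0 ≤ μ)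
    (h : ∀ v, 3 ≤ (ts v).card → ((ts v).card : ℝ) * ((ts v).card - 2) + 2 * μ * stc S g ts v ≤
      x * N g ts a v + y * N g ts b v + z * N g ts c v +
        (if Mix (N g ts a v) (N g ts b v) (N g ts c v) (stc S g ts v) then μ else 0)) :
    (n : ℝ) ≤ x + y + z := by
  obtain ⟨M, hM, hM1, hM0, hMs⟩ := mism2 D T hab hbc
  exact certM_core D T 2 μ x y z hμ M hM hM1 hM0 hMs h

end Pool.Agent.Work.MP_bd00dd_co
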