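import Pool.Agent.Work.MP_bd00dd_co.C.CertM

/-!
Certificates for triangles with rational angles A/N, B/N, C/N (in units of π), checked by the
kernel. chk runs over all vertex types: m A + l B + j C + st N = 2 N, st <= 1, degree
d = m + l + j + st with 3 <= d <= cap.
-/

namespace Pool.Agent.Work.MP_bd00dd_co

/-- The inequality of one vertex type. -/
def chk1 (κ : ℕ) (q x y z μ : ℤ) (m l j st : ℕ) : Bool :=
  decide (q * (((m + l + j + st : ℕ) : ℤ) * (((m + l + j + st : ℕ) : ℤ) - 2)) + κ * μ * st ≤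
    x * m + y * l + z * j +
      (if st = 0 ∧ ((m + l) % 2 = 1 ∨ (l + j) % 2 = 1 ∨ (m + j) % 2 = 1) then μ else 0))

/-- All vertex types. For given l, j, st the number m is determined. -/
def chk (A B C N cap κ : ℕ) (q x y z μ : ℤ) : Bool :=
  (List.range 2).all fun st => (List.range (2 * N / C + 1)).all fun j =>
    (List.range (2 * N / B + 1)).all fun l =>
      decide (2 * N < l * B + j * C + st * N) ||
      decide ((2 * N - (l * B + j * C + st * N)) % A ≠ 0) ||
      decide ((2 * N - (l * B + j * C + st * N)) / A + l + j + st < 3) ||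
      decide (cap < (2 * N - (l * B + j * C + st * N)) / A + l + j + st) ||
      chk1 κ q x y z μ ((2 * N - (l * B + j * C + st * N)) / A) l j st

theorem chk_sound {A B C N cap κ : ℕ} {q x y z μ : ℤ} (hA : 0 < A) (hB : 0 < B) (hC : 0 < C)
    (h : chk A B C N cap κ q x y z μ = true) {m l j st : ℕ}
    (he : m * A + l * B + j * C + st * N = 2 * N) (hst : st ≤ 1) (h3 : 3 ≤ m + l + j + st)
    (hcap : m + l + j + st ≤ cap) : chk1 κ q x y z μ m l j st = true := by
  unfold chk at h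
  rw [List.all_eq_true] at h
  have h1 := h st (List.mem_range.2 (by omega))
  rw [List.all_eq_true] at h1
  have hj : j * C ≤ 2 * N := by
    have : j * C ≤ m * A + l * B + j * C + st * N := by
      have := Nat.zero_le (m * A + l * B)
      have := Nat.zero_le (st * N)
      omega
    omega
  have hl : l * B ≤ 2 * N := by
    have := Nat.zero_le (m * A)
    have := Nat.zero_le (j * C)
    have := Nat.zero_le (st * N)
    omega
  have h2 := h1 j (List.mem_range.2 (by
    have := (Nat.le_div_iff_mul_le hC).2 hj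
    omega))
  rw [List.all_eq_true] at h2
  have h4 := h2 l (List.mem_range.2 (by
    have := (Nat.le_div_iff_mul_le hB).2 hl
    omega))
  have hm : 2 * N - (l * B + j * C + st * N) = m * A := by omega
  rw [hm, Nat.mul_mod_left, Nat.mul_div_cancel m hA] at h4
  have e1 : ¬ (2 * N < l * B + j * C + st * N) := by
    have := Nat.zero_le (m * A)
    omega
  have e3 : ¬ (m + l + j + st < 3) := by omega
  have e4 : ¬ (cap < m + l + j + st) := by omega
  simpa [e1, e3, e4] using h4

private theorem chk_mix (m l j st : ℕ) :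
    (st = 0 ∧ ((m + l) % 2 = 1 ∨ (l + j) % 2 = 1 ∨ (m + j) % 2 = 1)) ↔ Mix m l j st := by
  unfold Mix
  rw [Nat.even_iff, Nat.even_iff, Nat.even_iff]
  omega

variable {ι : Type*} {n : ℕ} {S : Finset Pl} {θ : Pl → ℝ} {Sd : Pl → Pl → Prop}
  {g : ι → Pl ≃ᵢ Pl} {vs : ι → Finset Pl} {ts : Pl → Finset ι}

open Classical in
private theorem chk_vertex (D : Dat n S θ Sd g vs ts) {a b c : Pl} (T : Tri S θ a b c)
    (A B C N' cap κ : ℕ)
    (hA : 0 < A) (hB : 0 < B) (hC : 0 < C) (hN : 0 < N')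
    (ha : θ a = (A : ℝ) / N') (hb : θ b = (B : ℝ) / N') (hc : θ c = (C : ℝ) / N')
    (hcap : ∀ v, 3 ≤ (ts v).card → (ts v).card ≤ cap) (q x y z μ : ℤ) (hq : 0 < q)
    (h : chk A B C N' cap κ q x y z μ = true) (v : Pl) (hv : 3 ≤ (ts v).card) :
    ((ts v).card : ℝ) * ((ts v).card - 2) + κ * ((μ : ℝ) / q) * stc S g ts v ≤
      (x : ℝ) / q * N g ts a v + (y : ℝ) / q * N g ts b v + (z : ℝ) / q * N g ts c v +
        (if Mix (N g ts a v) (N g ts b v) (N g ts c v) (stc S g ts v) then (μ : ℝ) / q else 0) := by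
  obtain ⟨t1, t2, t3⟩ := T.ty D hv
  have hdeg := T.deg g ts v
  have hcapv := hcap v hv
  set m := N g ts a v with hm
  set l := N g ts b v with hl
  set j := N g ts c v with hj
  set st := stc S g ts v with hst
  have hN0 : (N' : ℝ) ≠ 0 := by exact_mod_cast hN.ne'
  have he : m * A + l * B + j * C + st * N' = 2 * N' := by
    rw [ha, hb, hc] at t1
    have e : ((m * A + l * B + j * C + st * N' : ℕ) : ℝ) = ((2 * N' : ℕ) : ℝ) := by
      push_cast
      field_simp at t1
      linarith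
    exact_mod_cast e
  have hchk := chk_sound hA hB hC h he t2 t3 (by rw [← hdeg]; exact hcapv)
  unfold chk1 at hchk
  rw [decide_eq_true_eq, if_congr (chk_mix m l j st) rfl rfl] at hchk
  have hq' : (0 : ℝ) < q := by exact_mod_cast hq
  have hR : (q : ℝ) * (((ts v).card : ℝ) * ((ts v).card - 2)) + κ * μ * st ≤
      x * m + y * l + z * j + (if Mix m l j st then (μ : ℝ) else 0) := by
    have h5 : ((q * (((m + l + j + st : ℕ) : ℤ) * (((m + l + j + st : ℕ) : ℤ) - 2)) +
        κ * μ * st : ℤ) : ℝ) ≤ ((x * m + y * l + z * j + (if Mix m l j st then μ else 0) : ℤ) : ℝ) := by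
      exact_mod_cast hchk
    rw [← hdeg] at h5
    push_cast at h5
    exact h5
  have h6 : ((ts v).card : ℝ) * ((ts v).card - 2) + κ * ((μ : ℝ) / q) * st =
      ((q : ℝ) * (((ts v).card : ℝ) * ((ts v).card - 2)) + κ * μ * st) / q := by
    field_simp
  have h7 : (x : ℝ) / q * m + (y : ℝ) / q * l + (z : ℝ) / q * j +
      (if Mix m l j st then (μ : ℝ) / q else 0) =
      (x * m + y * l + z * j + (if Mix m l j st then (μ : ℝ) else 0)) / q := by
    split_ifs
    · field_simp
    · field_simp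
      ring
  rw [h6, h7]
  exact div_le_div_of_nonneg_right hR hq'.le

private theorem chk_fin {x y z q : ℤ} {n : ℕ} (hq : 0 < q)
    (h : (n : ℝ) ≤ (x : ℝ) / q + (y : ℝ) / q + (z : ℝ) / q) : (q : ℝ) * n ≤ x + y + z := by
  have hq' : (0 : ℝ) < q := by exact_mod_cast hq
  have h1 : (x : ℝ) / q + (y : ℝ) / q + (z : ℝ) / q = (x + y + z) / q := by ring
  rw [h1, le_div_iff₀ hq'] at h
  linarith

/-- Certificate without the mismatch lemma (Tri.cert, Tri.ty, chk_sound). -/
theorem spec0 (D : Dat n S θ Sd g vs ts) {a b c : Pl} (T : Tri S θ a b c) (A B C N cap : ℕ)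
    (hA : 0 < A) (hB : 0 < B) (hC : 0 < C) (hN : 0 < N)
    (ha : θ a = (A : ℝ) / N) (hb : θ b = (B : ℝ) / N) (hc : θ c = (C : ℝ) / N)
    (hcap : ∀ v, 3 ≤ (ts v).card → (ts v).card ≤ cap) (q x y z : ℤ) (hq : 0 < q)
    (h : chk A B C N cap 1 q x y z 0 = true) : (q : ℝ) * n ≤ x + y + z := by
  classical
  refine chk_fin hq (T.cert D _ _ _ fun v hv => ?_)
  have h1 := chk_vertex D T A B C N cap 1 hA hB hC hN ha hb hc hcap q x y z 0 hq h v hv
  simpa using h1

/-- Certificate with mism1 (certM1). -/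
theorem spec1 (D : Dat n S θ Sd g vs ts) {a b c : Pl} (T : Tri S θ a b c) (A B C N cap : ℕ)
    (hA : 0 < A) (hAB : A < B) (hBC : B < C) (hN : 0 < N)
    (ha : θ a = (A : ℝ) / N) (hb : θ b = (B : ℝ) / N) (hc : θ c = (C : ℝ) / N)
    (h1 : 2 * dist b c ≠ dist a c) (h2 : 2 * dist b c ≠ dist a b)
    (hcap : ∀ v, 3 ≤ (ts v).card → (ts v).card ≤ cap) (q x y z μ : ℤ) (hq : 0 < q)
    (hμ : 0 ≤ μ) (h : chk A B C N cap 1 q x y z μ = true) : (q : ℝ) * n ≤ x + y + z := by
  have hq' : (0 : ℝ) < q := by exact_mod_cast hq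
  have hN' : (0 : ℝ) < N := by exact_mod_cast hN
  have hab : θ a < θ b := by
    rw [ha, hb]
    exact div_lt_div_of_pos_right (by exact_mod_cast hAB) hN'
  have hbc : θ b < θ c := by
    rw [hb, hc]
    exact div_lt_div_of_pos_right (by exact_mod_cast hBC) hN'
  have hμ' : (0 : ℝ) ≤ (μ : ℝ) / q := div_nonneg (by exact_mod_cast hμ) hq'.le
  refine chk_fin hq (certM1 D T hab hbc h1 h2 ((μ : ℝ) / q) _ _ _ hμ' fun v hv => ?_)
  have h3 := chk_vertex D T A B C N cap 1 hA (hA.trans hAB) (hA.trans (hAB.trans hBC)) hN ha hb hc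
    hcap q x y z μ hq h v hv
  rw [Nat.cast_one, one_mul] at h3
  exact h3

/-- Certificate with mism2 (certM2). -/
theorem spec2 (D : Dat n S θ Sd g vs ts) {a b c : Pl} (T : Tri S θ a b c) (A B C N cap : ℕ)
    (hA : 0 < A) (hAB : A < B) (hBC : B < C) (hN : 0 < N)
    (ha : θ a = (A : ℝ) / N) (hb : θ b = (B : ℝ) / N) (hc : θ c = (C : ℝ) / N)
    (hcap : ∀ v, 3 ≤ (ts v).card → (ts v).card ≤ cap) (q x y z μ : ℤ) (hq : 0 < q)
    (hμ : 0 ≤ μ) (h : chk A B C N cap 2 q x y z μ = true) : (q : ℝ) * n ≤ x + y + z := by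
  have hq' : (0 : ℝ) < q := by exact_mod_cast hq
  have hN' : (0 : ℝ) < N := by exact_mod_cast hN
  have hab : θ a < θ b := by
    rw [ha, hb]
    exact div_lt_div_of_pos_right (by exact_mod_cast hAB) hN'
  have hbc : θ b < θ c := by
    rw [hb, hc]
    exact div_lt_div_of_pos_right (by exact_mod_cast hBC) hN'
  have hμ' : (0 : ℝ) ≤ (μ : ℝ) / q := div_nonneg (by exact_mod_cast hμ) hq'.le
  refine chk_fin hq (certM2 D T hab hbc ((μ : ℝ) / q) _ _ _ hμ' fun v hv => ?_)
  have h3 := chk_vertex D T A B C N cap 2 hA (hA.trans hAB) (hA.trans (hAB.trans hBC)) hN ha hb hc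
    hcap q x y z μ hq h v hv
  exact h3

end Pool.Agent.Work.MP_bd00dd_co
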