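import Pool.Agent.Work.MP_bd00dd_co.C.Tri0

/-!
Triangles with largest angle 2/3 (in units of π): degrees.
-/

namespace Pool.Agent.Work.MP_bd00dd_co

variable {ι : Type*} {n : ℕ} {S : Finset Pl} {θ : Pl → ℝ} {Sd : Pl → Pl → Prop}
  {g : ι → Pl ≃ᵢ Pl} {vs : ι → Finset Pl} {ts : Pl → Finset ι}

/-- A tile contains its corners. -/
theorem s0_mem (D : Dat n S θ Sd g vs ts) {i : ι} {s : Pl} (hs : s ∈ S) :
    i ∈ ts (g i s) ∧ 3 ≤ (ts (g i s)).card ∧ 1 ≤ N g ts s (g i s) := by
  classical
  have h := (D.mem i _).1 (D.cmem i s hs)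
  refine ⟨h.1, h.2, ?_⟩
  unfold N
  apply Finset.card_pos.2
  exact ⟨i, Finset.mem_filter.2 ⟨h.1, (g i).symm_apply_apply s⟩⟩

/-- The corners a and b lie at vertices of degree >= 4. Proof: at a vertex of degree 3 the three
values of A have sum 2 (D.tot) and are in {α, β, 2/3, 1} with at most one 1 (stc_le), where
α + β = 1/3, α ≤ β < 1/3. If one of them is β (or α): with a 1 the third is 1 - β > 2/3, without
it the sum is at most β + 4/3 < 2. (Use Tri.ty with m + l + j + st = 3.) -/
theorem deg_ab (D : Dat n S θ Sd g vs ts) {a b c : Pl} (T : Tri S θ a b c) (hc : θ c = 2 / 3)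
    (i : ι) : 4 ≤ (ts (g i a)).card ∧ 4 ≤ (ts (g i b)).card := by
  have key : ∀ v, 3 ≤ (ts v).card → 1 ≤ N g ts a v + N g ts b v → 4 ≤ (ts v).card := by
    intro v hv hN
    by_contra hcon
    have hd : (ts v).card = 3 := by omega
    have pa := D.pos a ((T.mem a).2 (Or.inl rfl))
    have hs := T.sum
    have l1 := T.le1
    obtain ⟨t1, t2, _⟩ := T.ty D hv
    have t3 := T.deg g ts v
    rw [hd] at t3
    rw [hc] at t1 hs
    generalize N g ts a v = m at *
    generalize N g ts b v = l at *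
    generalize N g ts c v = q at *
    generalize stc S g ts v = r at *
    have hm : m ≤ 3 := by omega
    have hl : l ≤ 3 := by omega
    have hq : q ≤ 3 := by omega
    interval_cases m <;> interval_cases l <;> interval_cases q <;> interval_cases r <;>
      first
      | omega
      | (norm_num at t1; linarith)
  obtain ⟨_, h1, h2⟩ := s0_mem D (i := i) ((T.mem a).2 (Or.inl rfl))
  obtain ⟨_, h3, h4⟩ := s0_mem D (i := i) ((T.mem b).2 (Or.inr (Or.inl rfl)))
  exact ⟨key _ h1 (by omega), key _ h3 (by omega)⟩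

/-- All degrees are at most n - 1. Proof: some tile i has a corner s at v (stc_le). sub_le with F =
the three corners of the tile i: if s = a: (deg v - 2) + 2 + 1 <= n (deg_ab for b), similarly
s = b; if s = c: (deg v - 2) + 2 + 2 <= n. -/
theorem cap23 (D : Dat n S θ Sd g vs ts) {a b c : Pl} (T : Tri S θ a b c) (hc : θ c = 2 / 3)
    {v : Pl} (hv : 3 ≤ (ts v).card) : (ts v).card + 1 ≤ n := by
  classical
  have hdeg := T.deg g ts v
  have hst := stc_le D hv
  have hex : ∃ i, ∃ s ∈ S, g i s = v := by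
    by_contra hcon
    push Not at hcon
    have hN : ∀ s ∈ S, N g ts s v = 0 := by
      intro s hs
      unfold N
      rw [Finset.card_eq_zero, Finset.filter_eq_empty_iff]
      intro i _ he
      apply hcon i s hs
      rw [← he]
      exact (g i).apply_symm_apply v
    rw [hN a ((T.mem a).2 (Or.inl rfl)), hN b ((T.mem b).2 (Or.inr (Or.inl rfl))),
      hN c ((T.mem c).2 (Or.inr (Or.inr rfl)))] at hdeg
    omega
  obtain ⟨i, s, hs, hgi⟩ := hex
  have hS : S = {a, b, c} := by
    ext s
    rw [T.mem s]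
    simp
  have h3 : S.card = 3 := by
    rw [hS]
    exact Finset.card_eq_three.2 ⟨a, b, c, T.ab, T.ac, T.bc, rfl⟩
  have hsub : S.image (g i) ⊆ vs i := by
    intro w hw
    obtain ⟨s, hs, rfl⟩ := Finset.mem_image.1 hw
    exact D.cmem i s hs
  have hFs : ∑ w ∈ S.image (g i), (ts w).card =
      (ts (g i a)).card + (ts (g i b)).card + (ts (g i c)).card := by
    rw [Finset.sum_image (fun x _ y _ h => (g i).injective h), hS,
      Finset.sum_insert (by simp [T.ab, T.ac]), Finset.sum_insert (by simp [T.bc]),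
      Finset.sum_singleton]
    ring
  have hle := sub_le D hsub
  have hKc : (S.image (g i)).card = 3 := by
    rw [Finset.card_image_of_injective _ (g i).injective, h3]
  have hcv := card_vs D i
  rw [hFs, hKc] at hle
  obtain ⟨d1, d2⟩ := deg_ab D T hc i
  have d3 := (s0_mem D (i := i) ((T.mem c).2 (Or.inr (Or.inr rfl)))).2.1
  rcases (T.mem s).1 hs with rfl | rfl | rfl <;> rw [hgi] at * <;> omega

/-- Side lengths if α <= 2/21 (D.tritwo, D.trilt). -/
theorem ne23 (D : Dat n S θ Sd g vs ts) {a b c : Pl} (T : Tri S θ a b c) (hc : θ c = 2 / 3)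
    (ha : θ a ≤ 2 / 21) : 2 * dist b c ≠ dist a c ∧ 2 * dist b c ≠ dist a b := by
  have ha' : a ∈ S := (T.mem a).2 (Or.inl rfl)
  have hb' : b ∈ S := (T.mem b).2 (Or.inr (Or.inl rfl))
  have hc' : c ∈ S := (T.mem c).2 (Or.inr (Or.inr rfl))
  have hS : S = {a, b, c} := by
    classical
    ext s
    rw [T.mem s]
    simp
  have h3 : S.card = 3 := by
    rw [hS]
    exact Finset.card_eq_three.2 ⟨a, b, c, T.ab, T.ac, T.bc, rfl⟩
  have h1 := D.tritwo h3 a ha' b hb' c hc' T.ab T.bc T.ac hc ha
  have h2 := D.trilt h3 b hb' c hc' a ha' T.bc T.ac.symm T.ab.symm (by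
    have := T.sum
    have := T.le1
    have := D.pos a ha'
    linarith)
  rw [dist_comm c a, dist_comm b a] at h2
  exact ⟨h1.ne, (h1.trans h2).ne⟩

end Pool.Agent.Work.MP_bd00dd_co
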