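import Pool.Agent.Work.MP_bd00dd_co.C.Chk
import Pool.Agent.Work.MP_bd00dd_co.C.S0

/-!
Special triangles, certificates without the mismatch lemma.
-/

namespace Pool.Agent.Work.MP_bd00dd_co

variable {ι : Type*} {n : ℕ} {S : Finset Pl} {θ : Pl → ℝ} {Sd : Pl → Pl → Prop}
  {g : ι → Pl ≃ᵢ Pl} {vs : ι → Finset Pl} {ts : Pl → Finset ι}

/-- Degree bound from the type equation. -/
theorem degb_5_6_22 (D : Dat n S θ Sd g vs ts) {a b c : Pl} (T : Tri S θ a b c)
    (ha : θ a = 5 / 33) (hb : θ b = 6 / 33) (hc : θ c = 22 / 33) {v : Pl}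
    (hv : 3 ≤ (ts v).card) : ∃ m l j st : ℕ, m * 5 + l * 6 + j * 22 + st * 33 = 66 ∧
      (ts v).card = m + l + j + st := by
  have h1 := (T.ty D hv).1
  have h2 := T.deg g ts v
  refine ⟨_, _, _, _, ?_, h2⟩
  rw [ha, hb, hc] at h1
  have h3 : ((N g ts a v * 5 + N g ts b v * 6 + N g ts c v * 22 + stc S g ts v * 33 : ℕ) : ℝ)
      = (66 : ℕ) := by
    push_cast
    linarith
  exact_mod_cast h3

/-- Angles 5/33, 6/33, 22/33: n <= 21.17. -/
theorem sp_5_33 (D : Dat n S θ Sd g vs ts) {a b c : Pl} (T : Tri S θ a b c) (hn : 22 ≤ n)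
    (ha : θ a = 5 / 33) (hc : θ c = 2 / 3) : False := by
  have hb : θ b = 6 / 33 := by
    have := T.sum
    rw [ha, hc] at this
    linarith
  have hc : θ c = 22 / 33 := by rw [hc]; norm_num
  have h := spec0 D T 5 6 22 33 14 (by norm_num) (by norm_num) (by norm_num) (by norm_num)
    (by rw [ha]; norm_num) (by rw [hb]; norm_num) (by rw [hc]; norm_num)
    (fun v hv => by
      obtain ⟨m, l, j, st, h1, h2⟩ := degb_5_6_22 D T ha hb hc hv
      omega) (6) (67) (54) (6) (by norm_num) (by decide +kernel)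
  have h2 : (22 : ℝ) ≤ n := by exact_mod_cast hn
  norm_num at h
  linarith

/-- Degree bound from the type equation. -/
theorem degb_4_5_18 (D : Dat n S θ Sd g vs ts) {a b c : Pl} (T : Tri S θ a b c)
    (ha : θ a = 4 / 27) (hb : θ b = 5 / 27) (hc : θ c = 18 / 27) {v : Pl}
    (hv : 3 ≤ (ts v).card) : ∃ m l j st : ℕ, m * 4 + l * 5 + j * 18 + st * 27 = 54 ∧
      (ts v).card = m + l + j + st := by
  have h1 := (T.ty D hv).1
  have h2 := T.deg g ts v
  refine ⟨_, _, _, _, ?_, h2⟩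
  rw [ha, hb, hc] at h1
  have h3 : ((N g ts a v * 4 + N g ts b v * 5 + N g ts c v * 18 + stc S g ts v * 27 : ℕ) : ℝ)
      = (54 : ℕ) := by
    push_cast
    linarith
  exact_mod_cast h3

/-- Angles 4/27, 5/27, 18/27: n <= 21.17. -/
theorem sp_4_27 (D : Dat n S θ Sd g vs ts) {a b c : Pl} (T : Tri S θ a b c) (hn : 22 ≤ n)
    (ha : θ a = 4 / 27) (hc : θ c = 2 / 3) : False := by
  have hb : θ b = 5 / 27 := by
    have := T.sum
    rw [ha, hc] at this
    linarith
  have hc : θ c = 18 / 27 := by rw [hc]; norm_num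
  have h := spec0 D T 4 5 18 27 14 (by norm_num) (by norm_num) (by norm_num) (by norm_num)
    (by rw [ha]; norm_num) (by rw [hb]; norm_num) (by rw [hc]; norm_num)
    (fun v hv => by
      obtain ⟨m, l, j, st, h1, h2⟩ := degb_4_5_18 D T ha hb hc hv
      omega) (54) (616) (473) (54) (by norm_num) (by decide +kernel)
  have h2 : (22 : ℝ) ≤ n := by exact_mod_cast hn
  norm_num at h
  linarith

/-- Degree bound from the type equation. -/
theorem degb_3_4_14 (D : Dat n S θ Sd g vs ts) {a b c : Pl} (T : Tri S θ a b c)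
    (ha : θ a = 3 / 21) (hb : θ b = 4 / 21) (hc : θ c = 14 / 21) {v : Pl}
    (hv : 3 ≤ (ts v).card) : ∃ m l j st : ℕ, m * 3 + l * 4 + j * 14 + st * 21 = 42 ∧
      (ts v).card = m + l + j + st := by
  have h1 := (T.ty D hv).1
  have h2 := T.deg g ts v
  refine ⟨_, _, _, _, ?_, h2⟩
  rw [ha, hb, hc] at h1
  have h3 : ((N g ts a v * 3 + N g ts b v * 4 + N g ts c v * 14 + stc S g ts v * 21 : ℕ) : ℝ)
      = (42 : ℕ) := by
    push_cast
    linarith
  exact_mod_cast h3

/-- Angles 3/21, 4/21, 14/21: n <= 21.33. -/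
theorem sp_1_7 (D : Dat n S θ Sd g vs ts) {a b c : Pl} (T : Tri S θ a b c) (hn : 22 ≤ n)
    (ha : θ a = 3 / 21) (hc : θ c = 2 / 3) : False := by
  have hb : θ b = 4 / 21 := by
    have := T.sum
    rw [ha, hc] at this
    linarith
  have hc : θ c = 14 / 21 := by rw [hc]; norm_num
  have h := spec0 D T 3 4 14 21 15 (by norm_num) (by norm_num) (by norm_num) (by norm_num)
    (by rw [ha]; norm_num) (by rw [hb]; norm_num) (by rw [hc]; norm_num)
    (fun v hv => by
      obtain ⟨m, l, j, st, h1, h2⟩ := degb_3_4_14 D T ha hb hc hv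
      omega) (3) (36) (25) (3) (by norm_num) (by decide +kernel)
  have h2 : (22 : ℝ) ≤ n := by exact_mod_cast hn
  norm_num at h
  linarith

/-- Degree bound from the type equation. -/
theorem degb_1_1_4 (D : Dat n S θ Sd g vs ts) {a b c : Pl} (T : Tri S θ a b c)
    (ha : θ a = 1 / 6) (hb : θ b = 1 / 6) (hc : θ c = 4 / 6) {v : Pl}
    (hv : 3 ≤ (ts v).card) : ∃ m l j st : ℕ, m * 1 + l * 1 + j * 4 + st * 6 = 12 ∧
      (ts v).card = m + l + j + st := by
  have h1 := (T.ty D hv).1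
  have h2 := T.deg g ts v
  refine ⟨_, _, _, _, ?_, h2⟩
  rw [ha, hb, hc] at h1
  have h3 : ((N g ts a v * 1 + N g ts b v * 1 + N g ts c v * 4 + stc S g ts v * 6 : ℕ) : ℝ)
      = (12 : ℕ) := by
    push_cast
    linarith
  exact_mod_cast h3

/-- Angles 1/6, 1/6, 4/6: n <= 21.00. -/
theorem sp_1_6 (D : Dat n S θ Sd g vs ts) {a b c : Pl} (T : Tri S θ a b c) (hn : 22 ≤ n)
    (ha : θ a = 1 / 6) (hc : θ c = 2 / 3) : False := by
  have hb : θ b = 1 / 6 := by
    have := T.sum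
    rw [ha, hc] at this
    linarith
  have hc : θ c = 4 / 6 := by rw [hc]; norm_num
  have h := spec0 D T 1 1 4 6 13 (by norm_num) (by norm_num) (by norm_num) (by norm_num)
    (by rw [ha]; norm_num) (by rw [hb]; norm_num) (by rw [hc]; norm_num)
    (fun v hv => by
      obtain ⟨m, l, j, st, h1, h2⟩ := degb_1_1_4 D T ha hb hc hv
      omega) (1) (10) (10) (1) (by norm_num) (by decide +kernel)
  have h2 : (22 : ℝ) ≤ n := by exact_mod_cast hn
  norm_num at h
  linarith

/-- Degree bound from the type equation. -/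
theorem degb_1_1_2 (D : Dat n S θ Sd g vs ts) {a b c : Pl} (T : Tri S θ a b c)
    (ha : θ a = 1 / 4) (hb : θ b = 1 / 4) (hc : θ c = 2 / 4) {v : Pl}
    (hv : 3 ≤ (ts v).card) : ∃ m l j st : ℕ, m * 1 + l * 1 + j * 2 + st * 4 = 8 ∧
      (ts v).card = m + l + j + st := by
  have h1 := (T.ty D hv).1
  have h2 := T.deg g ts v
  refine ⟨_, _, _, _, ?_, h2⟩
  rw [ha, hb, hc] at h1
  have h3 : ((N g ts a v * 1 + N g ts b v * 1 + N g ts c v * 2 + stc S g ts v * 4 : ℕ) : ℝ)
      = (8 : ℕ) := by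
    push_cast
    linarith
  exact_mod_cast h3

/-- Angles 1/4, 1/4, 1/2: n <= 14.00. -/
theorem sq_1_4 (D : Dat n S θ Sd g vs ts) {a b c : Pl} (T : Tri S θ a b c) (hn : 22 ≤ n)
    (ha : θ a = 1 / 4) (hc : θ c = 1 / 2) : False := by
  have hb : θ b = 1 / 4 := by
    have := T.sum
    rw [ha, hc] at this
    linarith
  have hc : θ c = 2 / 4 := by rw [hc]; norm_num
  have h := spec0 D T 1 1 2 4 9 (by norm_num) (by norm_num) (by norm_num) (by norm_num)
    (by rw [ha]; norm_num) (by rw [hb]; norm_num) (by rw [hc]; norm_num)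
    (fun v hv => by
      obtain ⟨m, l, j, st, h1, h2⟩ := degb_1_1_2 D T ha hb hc hv
      omega) (1) (6) (6) (2) (by norm_num) (by decide +kernel)
  have h2 : (22 : ℝ) ≤ n := by exact_mod_cast hn
  norm_num at h
  linarith

/-- Degree bound from the type equation. -/
theorem degb_1_2_3 (D : Dat n S θ Sd g vs ts) {a b c : Pl} (T : Tri S θ a b c)
    (ha : θ a = 1 / 6) (hb : θ b = 2 / 6) (hc : θ c = 3 / 6) {v : Pl}
    (hv : 3 ≤ (ts v).card) : ∃ m l j st : ℕ, m * 1 + l * 2 + j * 3 + st * 6 = 12 ∧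
      (ts v).card = m + l + j + st := by
  have h1 := (T.ty D hv).1
  have h2 := T.deg g ts v
  refine ⟨_, _, _, _, ?_, h2⟩
  rw [ha, hb, hc] at h1
  have h3 : ((N g ts a v * 1 + N g ts b v * 2 + N g ts c v * 3 + stc S g ts v * 6 : ℕ) : ℝ)
      = (12 : ℕ) := by
    push_cast
    linarith
  exact_mod_cast h3

/-- Angles 1/6, 2/6, 3/6: n <= 16.00. -/
theorem sq_1_6 (D : Dat n S θ Sd g vs ts) {a b c : Pl} (T : Tri S θ a b c) (hn : 22 ≤ n)
    (ha : θ a = 1 / 6) (hc : θ c = 1 / 2) : False := by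
  have hb : θ b = 2 / 6 := by
    have := T.sum
    rw [ha, hc] at this
    linarith
  have hc : θ c = 3 / 6 := by rw [hc]; norm_num
  have h := spec0 D T 1 2 3 6 13 (by norm_num) (by norm_num) (by norm_num) (by norm_num)
    (by rw [ha]; norm_num) (by rw [hb]; norm_num) (by rw [hc]; norm_num)
    (fun v hv => by
      obtain ⟨m, l, j, st, h1, h2⟩ := degb_1_2_3 D T ha hb hc hv
      omega) (1) (10) (4) (2) (by norm_num) (by decide +kernel)
  have h2 : (22 : ℝ) ≤ n := by exact_mod_cast hn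
  norm_num at h
  linarith

/-- Degree bound from the type equation. -/
theorem degb_1_3_4 (D : Dat n S θ Sd g vs ts) {a b c : Pl} (T : Tri S θ a b c)
    (ha : θ a = 1 / 8) (hb : θ b = 3 / 8) (hc : θ c = 4 / 8) {v : Pl}
    (hv : 3 ≤ (ts v).card) : ∃ m l j st : ℕ, m * 1 + l * 3 + j * 4 + st * 8 = 16 ∧
      (ts v).card = m + l + j + st := by
  have h1 := (T.ty D hv).1
  have h2 := T.deg g ts v
  refine ⟨_, _, _, _, ?_, h2⟩
  rw [ha, hb, hc] at h1
  have h3 : ((N g ts a v * 1 + N g ts b v * 3 + N g ts c v * 4 + stc S g ts v * 8 : ℕ) : ℝ)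
      = (16 : ℕ) := by
    push_cast
    linarith
  exact_mod_cast h3

/-- Angles 1/8, 3/8, 4/8: n <= 19.25. -/
theorem sq_1_8 (D : Dat n S θ Sd g vs ts) {a b c : Pl} (T : Tri S θ a b c) (hn : 22 ≤ n)
    (ha : θ a = 1 / 8) (hc : θ c = 1 / 2) : False := by
  have hb : θ b = 3 / 8 := by
    have := T.sum
    rw [ha, hc] at this
    linarith
  have hc : θ c = 4 / 8 := by rw [hc]; norm_num
  have h := spec0 D T 1 3 4 8 17 (by norm_num) (by norm_num) (by norm_num) (by norm_num)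
    (by rw [ha]; norm_num) (by rw [hb]; norm_num) (by rw [hc]; norm_num)
    (fun v hv => by
      obtain ⟨m, l, j, st, h1, h2⟩ := degb_1_3_4 D T ha hb hc hv
      omega) (4) (56) (13) (8) (by norm_num) (by decide +kernel)
  have h2 : (22 : ℝ) ≤ n := by exact_mod_cast hn
  norm_num at h
  linarith

/-- Degree bound from the type equation. -/
theorem degb_2_3_5 (D : Dat n S θ Sd g vs ts) {a b c : Pl} (T : Tri S θ a b c)
    (ha : θ a = 2 / 10) (hb : θ b = 3 / 10) (hc : θ c = 5 / 10) {v : Pl}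
    (hv : 3 ≤ (ts v).card) : ∃ m l j st : ℕ, m * 2 + l * 3 + j * 5 + st * 10 = 20 ∧
      (ts v).card = m + l + j + st := by
  have h1 := (T.ty D hv).1
  have h2 := T.deg g ts v
  refine ⟨_, _, _, _, ?_, h2⟩
  rw [ha, hb, hc] at h1
  have h3 : ((N g ts a v * 2 + N g ts b v * 3 + N g ts c v * 5 + stc S g ts v * 10 : ℕ) : ℝ)
      = (20 : ℕ) := by
    push_cast
    linarith
  exact_mod_cast h3

/-- Angles 2/10, 3/10, 5/10: n <= 14.50. -/
theorem sq_1_5 (D : Dat n S θ Sd g vs ts) {a b c : Pl} (T : Tri S θ a b c) (hn : 22 ≤ n)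
    (ha : θ a = 2 / 10) (hc : θ c = 1 / 2) : False := by
  have hb : θ b = 3 / 10 := by
    have := T.sum
    rw [ha, hc] at this
    linarith
  have hc : θ c = 5 / 10 := by rw [hc]; norm_num
  have h := spec0 D T 2 3 5 10 11 (by norm_num) (by norm_num) (by norm_num) (by norm_num)
    (by rw [ha]; norm_num) (by rw [hb]; norm_num) (by rw [hc]; norm_num)
    (fun v hv => by
      obtain ⟨m, l, j, st, h1, h2⟩ := degb_2_3_5 D T ha hb hc hv
      omega) (2) (16) (9) (4) (by norm_num) (by decide +kernel)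
  have h2 : (22 : ℝ) ≤ n := by exact_mod_cast hn
  norm_num at h
  linarith

/-- Degree bound from the type equation. -/
theorem degb_3_4_7 (D : Dat n S θ Sd g vs ts) {a b c : Pl} (T : Tri S θ a b c)
    (ha : θ a = 3 / 14) (hb : θ b = 4 / 14) (hc : θ c = 7 / 14) {v : Pl}
    (hv : 3 ≤ (ts v).card) : ∃ m l j st : ℕ, m * 3 + l * 4 + j * 7 + st * 14 = 28 ∧
      (ts v).card = m + l + j + st := by
  have h1 := (T.ty D hv).1
  have h2 := T.deg g ts v
  refine ⟨_, _, _, _, ?_, h2⟩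
  rw [ha, hb, hc] at h1
  have h3 : ((N g ts a v * 3 + N g ts b v * 4 + N g ts c v * 7 + stc S g ts v * 14 : ℕ) : ℝ)
      = (28 : ℕ) := by
    push_cast
    linarith
  exact_mod_cast h3

/-- Angles 3/14, 4/14, 7/14: n <= 14.25. -/
theorem sq_3_14 (D : Dat n S θ Sd g vs ts) {a b c : Pl} (T : Tri S θ a b c) (hn : 22 ≤ n)
    (ha : θ a = 3 / 14) (hc : θ c = 1 / 2) : False := by
  have hb : θ b = 4 / 14 := by
    have := T.sum
    rw [ha, hc] at this
    linarith
  have hc : θ c = 7 / 14 := by rw [hc]; norm_num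
  have h := spec0 D T 3 4 7 14 10 (by norm_num) (by norm_num) (by norm_num) (by norm_num)
    (by rw [ha]; norm_num) (by rw [hb]; norm_num) (by rw [hc]; norm_num)
    (fun v hv => by
      obtain ⟨m, l, j, st, h1, h2⟩ := degb_3_4_7 D T ha hb hc hv
      omega) (4) (29) (20) (8) (by norm_num) (by decide +kernel)
  have h2 : (22 : ℝ) ≤ n := by exact_mod_cast hn
  norm_num at h
  linarith

end Pool.Agent.Work.MP_bd00dd_co
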