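import Pool.Agent.Work.MP_bd00dd_co.C.Tri0

/-!
The triangle with angles 1/10, 4/10, 5/10 and n = 22, part 1. Labels: a 1/10, b 2/5, c 1/2;
lengths dist b c < dist a c < dist a b (D.trilt). Types: m + 4 l + 5 j + 10 st = 20. A vertex of
degree 20 is (20,0,0,0); degree 3 only (0,0,2,1), so corners a, b have degree >= 4.
-/

namespace Pool.Agent.Work.MP_bd00dd_co

variable {ι : Type*} {n : ℕ} {S : Finset Pl} {θ : Pl → ℝ} {Sd : Pl → Pl → Prop}
  {g : ι → Pl ≃ᵢ Pl} {vs : ι → Finset Pl} {ts : Pl → Finset ι}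

theorem p22a_card {a b c : Pl} (T : Tri S θ a b c) : S.card = 3 := by
  classical
  have hS : S = {a, b, c} := by
    ext s
    rw [T.mem s]
    simp
  rw [hS, Finset.card_insert_of_notMem (by simp [T.ab, T.ac]), Finset.card_pair T.bc]

theorem p22a_len (D : Dat n S θ Sd g vs ts) {a b c : Pl} (T : Tri S θ a b c) (hab : θ a < θ b)
    (hbc : θ b < θ c) : dist b c < dist a c ∧ dist a c < dist a b := by
  have haS : a ∈ S := (T.mem a).2 (Or.inl rfl)
  have hbS : b ∈ S := (T.mem b).2 (Or.inr (Or.inl rfl))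
  have hcS : c ∈ S := (T.mem c).2 (Or.inr (Or.inr rfl))
  refine ⟨D.trilt (p22a_card T) a haS b hbS c hcS T.ab T.bc T.ac hab, ?_⟩
  have h := D.trilt (p22a_card T) b hbS c hcS a haS T.bc T.ac.symm T.ab.symm hbc
  rw [dist_comm c a, dist_comm b a] at h
  exact h

/-- at a vertex with two tiles which have the same label there -/
theorem p22a_two {v s : Pl} {i j : ι} (hij : i ≠ j) (hi : i ∈ ts v) (hj : j ∈ ts v)
    (hi' : g i s = v) (hj' : g j s = v) : 2 ≤ N g ts s v := by
  classical
  unfold N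
  have h : ({i, j} : Finset ι) ⊆ (ts v).filter (fun i => (g i).symm v = s) := by
    intro x hx
    rw [Finset.mem_insert, Finset.mem_singleton] at hx
    rcases hx with rfl | rfl
    · exact Finset.mem_filter.2 ⟨hi, by rw [← hi', (g x).symm_apply_apply]⟩
    · exact Finset.mem_filter.2 ⟨hj, by rw [← hj', (g x).symm_apply_apply]⟩
  have h2 := Finset.card_le_card h
  rw [Finset.card_pair hij] at h2
  convert h2

theorem p22a_one {v s : Pl} {i : ι} (hi : i ∈ ts v) (hi' : g i s = v) : 1 ≤ N g ts s v := by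
  classical
  unfold N
  have h : i ∈ (ts v).filter (fun i => (g i).symm v = s) :=
    Finset.mem_filter.2 ⟨hi, by rw [← hi', (g i).symm_apply_apply]⟩
  exact Finset.card_pos.2 ⟨i, h⟩

/-- a vertex all whose tiles have the same label -/
theorem p22a_all {v s : Pl} (h : (ts v).card ≤ N g ts s v) : ∀ i ∈ ts v, g i s = v := by
  classical
  intro i hi
  unfold N at h
  have h2 := Finset.eq_of_subset_of_card_le
    (Finset.filter_subset (fun i => (g i).symm v = s) (ts v)) (by convert h)
  rw [← h2] at hi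
  have h3 := (Finset.mem_filter.1 hi).2
  rw [← h3, (g i).apply_symm_apply]

/-- the end of a shorter side is a side vertex of the tile with the longer side -/
theorem p22a_lt (D : Dat n S θ Sd g vs ts) {i j : ι} {s t s' t' : Pl}
    (h : Prt Sd g i s t j s' t') (hlt : dist s t < dist s' t') :
    g i t ∈ vs j ∧ (g j).symm (g i t) ∉ S := by
  obtain ⟨-, hst, hst', hv, hray⟩ := h
  have e1 : ‖g i t - g i s‖ = dist s t := by
    rw [← dist_eq_norm, (g i).dist_eq, dist_comm]
  have e2 : ‖g j t' - g j s'‖ = dist s' t' := by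
    rw [← dist_eq_norm, (g j).dist_eq, dist_comm]
  have hs0 : 0 < dist s t := dist_pos.2 (D.sd s t hst).2.2
  have hs0' : 0 < dist s' t' := hs0.trans hlt
  have h1 := hray.norm_smul_eq
  rw [e1, e2] at h1
  have hopen : g i t ∈ openSegment ℝ (g j s') (g j t') := by
    rw [openSegment_eq_image']
    refine ⟨dist s t / dist s' t', ⟨div_pos hs0 hs0', (div_lt_one hs0').2 hlt⟩, ?_⟩
    show g j s' + (dist s t / dist s' t') • (g j t' - g j s') = g i t
    rw [div_eq_inv_mul, mul_smul, h1, smul_smul, inv_mul_cancel₀ hs0'.ne', one_smul, ← hv]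
    abel
  have h2 : j ∈ ts (g i t) :=
    D.seg j s' t' (D.sd s' t' hst').1 (D.sd s' t' hst').2.1 _ (openSegment_subset_segment ℝ _ _ hopen)
  have h3 := (D.mem i _).1 (D.cmem i t (D.sd s t hst).2.1)
  refine ⟨(D.mem j _).2 ⟨h2, h3.2⟩, fun h5 => ?_⟩
  have h6 := D.openc j s' t' ((g j).symm (g i t)) hst' h5
  rw [(g j).apply_symm_apply] at h6
  exact h6 hopen

theorem p22a_eq (D : Dat n S θ Sd g vs ts) {i j : ι} {s t s' t' : Pl}
    (h : Prt Sd g i s t j s' t') (hd : dist s t = dist s' t') : g i t = g j t' := by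
  obtain ⟨-, hst, hst', hv, hray⟩ := h
  have e1 : ‖g i t - g i s‖ = dist s t := by
    rw [← dist_eq_norm, (g i).dist_eq, dist_comm]
  have e2 : ‖g j t' - g j s'‖ = dist s' t' := by
    rw [← dist_eq_norm, (g j).dist_eq, dist_comm]
  have h1 := hray.norm_smul_eq
  rw [e1, e2, hd] at h1
  have hs0 : dist s' t' ≠ 0 := (dist_pos.2 (D.sd s' t' hst').2.2).ne'
  have h2 := smul_right_injective Pl hs0 h1
  rw [hv] at h2
  exact (sub_left_inj.1 h2).symm

theorem p22a_symm {i j : ι} {s t s' t' : Pl} (D : Dat n S θ Sd g vs ts)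
    (h : Prt Sd g i s t j s' t') : Prt Sd g j s' t' i s t := by
  obtain ⟨a1, a2, a3, a4, a5⟩ := h
  exact ⟨a1.symm, a3, a2, a4.symm, a5.symm⟩

/-- a tile with at most three vertices has no side vertices -/
theorem p22a_ns (D : Dat n S θ Sd g vs ts) {a b c : Pl} (T : Tri S θ a b c) {i : ι}
    (h : (vs i).card ≤ 3) : NS S g vs i := by
  classical
  have hsub : S.image (g i) ⊆ vs i := by
    intro w hw
    obtain ⟨s, hs, rfl⟩ := Finset.mem_image.1 hw
    exact D.cmem i s hs
  have hcard : (S.image (g i)).card = 3 := by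
    rw [Finset.card_image_of_injective _ (g i).injective, p22a_card T]
  have h6 : S.image (g i) = vs i := Finset.eq_of_subset_of_card_le hsub (by rw [hcard]; exact h)
  intro w hw
  rw [← h6] at hw
  obtain ⟨s, hs, rfl⟩ := Finset.mem_image.1 hw
  rw [(g i).symm_apply_apply]
  exact hs

/-- the degrees of the corners of a tile -/
theorem p22a_sum (D : Dat n S θ Sd g vs ts) {a b c : Pl} (T : Tri S θ a b c) (i : ι) :
    (ts (g i a)).card + (ts (g i b)).card + (ts (g i c)).card + (vs i).card ≤ n + 9 := by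
  classical
  have haS : a ∈ S := (T.mem a).2 (Or.inl rfl)
  have hbS : b ∈ S := (T.mem b).2 (Or.inr (Or.inl rfl))
  have hcS : c ∈ S := (T.mem c).2 (Or.inr (Or.inr rfl))
  have hab : g i a ≠ g i b := fun h => T.ab ((g i).injective h)
  have hac : g i a ≠ g i c := fun h => T.ac ((g i).injective h)
  have hbc : g i b ≠ g i c := fun h => T.bc ((g i).injective h)
  have hF : ({g i a, g i b, g i c} : Finset Pl) ⊆ vs i := by
    intro w hw
    simp only [Finset.mem_insert, Finset.mem_singleton] at hw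
    rcases hw with rfl | rfl | rfl
    · exact D.cmem i a haS
    · exact D.cmem i b hbS
    · exact D.cmem i c hcS
  have h1 := sub_le D hF
  rw [Finset.sum_insert (by simp [hab, hac]), Finset.sum_pair hbc,
    Finset.card_insert_of_notMem (by simp [hab, hac]), Finset.card_pair hbc] at h1
  omega

/-- a tile and its vertices -/
theorem p22a_deg (D : Dat n S θ Sd g vs ts) (i : ι) {s : Pl} (hs : s ∈ S) :
    i ∈ ts (g i s) ∧ 3 ≤ (ts (g i s)).card := (D.mem i _).1 (D.cmem i s hs)

/-- the equation of a vertex -/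
theorem p22a_ty (D : Dat n S θ Sd g vs ts) {a b c : Pl} (T : Tri S θ a b c)
    (ha : θ a = 1 / 10) (hb : θ b = 2 / 5) (hc : θ c = 1 / 2) {v : Pl}
    (hv : 3 ≤ (ts v).card) :
    N g ts a v + 4 * N g ts b v + 5 * N g ts c v + 10 * stc S g ts v = 20 ∧
      stc S g ts v ≤ 1 ∧
      (ts v).card = N g ts a v + N g ts b v + N g ts c v + stc S g ts v := by
  obtain ⟨t1, t2, -⟩ := T.ty D hv
  refine ⟨?_, t2, T.deg g ts v⟩
  rw [ha, hb, hc] at t1
  have e : ((N g ts a v + 4 * N g ts b v + 5 * N g ts c v + 10 * stc S g ts v : ℕ) : ℝ) =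
      ((20 : ℕ) : ℝ) := by
    push_cast
    linarith
  exact_mod_cast e

/-- Let the corner a of the tile i have degree 20. Then the corner c has degree 3 and the corner b
has degree 4 or 5. Proof: the other vertices of the tile contribute 4 = 22 - 18 to ∑ (deg - 2), b
at least 2, c at least 1. If deg c >= 4 then deg b = deg c = 4 and there are no side vertices. The
partner j of i for the side a b at v = g i a (D.ray; all tiles at v have the corner a there) has
the side a b or a c there; a c is shorter, then g j c would be a side vertex of i (D.seg, D.openc);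
so g j b = g i b is a vertex of degree 4 with two corners b: 4/5 + y + z = 2 is impossible with
y, z in {1/10, 2/5, 1/2, 1}. -/
theorem p22c (D : Dat n S θ Sd g vs ts) {a b c : Pl} (T : Tri S θ a b c) (hn : n = 22)
    (ha : θ a = 1 / 10) (hb : θ b = 2 / 5) (hc : θ c = 1 / 2) {i : ι}
    (hi : (ts (g i a)).card = 20) :
    (ts (g i c)).card = 3 ∧ 4 ≤ (ts (g i b)).card ∧ (ts (g i b)).card ≤ 5 := by
  have haS : a ∈ S := (T.mem a).2 (Or.inl rfl)
  have hbS : b ∈ S := (T.mem b).2 (Or.inr (Or.inl rfl))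
  have hcS : c ∈ S := (T.mem c).2 (Or.inr (Or.inr rfl))
  obtain ⟨ib1, ib2⟩ := p22a_deg D i hbS
  obtain ⟨ic1, ic2⟩ := p22a_deg D i hcS
  obtain ⟨ia1, ia2⟩ := p22a_deg D i haS
  have hsum := p22a_sum D T i
  have hcard := card_vs D i
  rw [p22a_card T] at hcard
  obtain ⟨b1, b2, b3⟩ := p22a_ty D T ha hb hc ib2
  have hNb := p22a_one (g := g) (ts := ts) ib1 (rfl : g i b = g i b)
  have hb4 : 4 ≤ (ts (g i b)).card := by omega
  by_cases hc3 : (ts (g i c)).card = 3
  · exact ⟨hc3, hb4, by omega⟩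
  exfalso
  have hb4' : (ts (g i b)).card = 4 := by omega
  have hns : NS S g vs i := p22a_ns D T (by omega)
  obtain ⟨a1, a2, a3⟩ := p22a_ty D T ha hb hc (v := g i a) (by omega)
  have hall : ∀ k ∈ ts (g i a), g k a = g i a := p22a_all (s := a) (by omega)
  obtain ⟨j, s', t', hP⟩ := D.ray i a b (T.side D haS hbS T.ab) (by
    intro k hk
    rw [← hall k hk, (g k).symm_apply_apply]
    exact haS)
  have hij := hP.1
  have hst' := hP.2.2.1
  have hs'S := (D.sd s' t' hst').1
  have hja : j ∈ ts (g i a) := by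
    rw [hP.2.2.2.1]
    exact (p22a_deg D j hs'S).1
  have hs' : s' = a := by
    apply (g j).injective
    rw [← hP.2.2.2.1, hall j hja]
  subst hs'
  obtain ⟨hl1, hl2⟩ := p22a_len D T (by rw [ha, hb]; norm_num) (by rw [hb, hc]; norm_num)
  rcases (T.mem t').1 (D.sd s' t' hst').2.1 with rfl | rfl | rfl
  · exact (D.sd _ _ hst').2.2 rfl
  · have hge := p22a_eq D hP rfl
    have h2 := p22a_two (g := g) (ts := ts) hij ib1
      (by rw [hge]; exact (p22a_deg D j hbS).1) rfl hge.symm
    omega
  · have h7 := p22a_lt D (p22a_symm D hP) hl2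
    exact h7.2 (hns _ h7.1)

/-- In the situation of p22c with deg b = 5 the tile i has no side vertices (18 + 3 + 1 = 22). -/
theorem p22s (D : Dat n S θ Sd g vs ts) {a b c : Pl} (T : Tri S θ a b c) (hn : n = 22)
    (ha : θ a = 1 / 10) (hb : θ b = 2 / 5) (hc : θ c = 1 / 2) {i : ι}
    (hi : (ts (g i a)).card = 20) (hi5 : (ts (g i b)).card = 5) : NS S g vs i := by
  have hsum := p22a_sum D T i
  obtain ⟨h1, -, -⟩ := p22c D T hn ha hb hc hi
  exact p22a_ns D T (by omega)

end Pool.Agent.Work.MP_bd00dd_co
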