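import Pool.Agent.Work.MP_bd00dd_co.C.Basic

/-!
Local structure at a hub of a quadrilateral tiling (structure Hub4).
-/

namespace Pool.Agent.Work.MP_bd00dd_co

variable {ι : Type*} {n : ℕ} {S : Finset Pl} {θ : Pl → ℝ} {Sd : Pl → Pl → Prop}
  {g : ι → Pl ≃ᵢ Pl} {vs : ι → Finset Pl} {ts : Pl → Finset ι}

/-- The value of A is the angle of a corner or 1 (unfold A). -/
theorem A_cases (θ : Pl → ℝ) (S : Finset Pl) (g : ι → Pl ≃ᵢ Pl) (i : ι) (v : Pl) :
    (∃ s ∈ S, g i s = v ∧ A S θ g i v = θ s) ∨ ((g i).symm v ∉ S ∧ A S θ g i v = 1) := by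
  by_cases h : (g i).symm v ∈ S
  · left
    refine ⟨(g i).symm v, h, (g i).apply_symm_apply v, ?_⟩
    unfold A
    rw [if_pos h]
  · right
    refine ⟨h, ?_⟩
    unfold A
    rw [if_neg h]

private theorem ring4_A (θ : Pl → ℝ) {S : Finset Pl} (g : ι → Pl ≃ᵢ Pl) (i : ι) {s : Pl}
    (hs : s ∈ S) : A S θ g i (g i s) = θ s := by
  unfold A
  rw [(g i).symm_apply_apply, if_pos hs]

private theorem ring4_lt (D : Dat n S θ Sd g vs ts) {i j : ι} {s t s' t' : Pl}
    (h : Prt Sd g i s t j s' t') (hj : NS S g vs j) (hlt : dist s t < dist s' t') : False := by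
  obtain ⟨-, hst, hst', hv, hray⟩ := h
  have e1 : ‖g i t - g i s‖ = dist s t := by
    rw [← dist_eq_norm, (g i).dist_eq, dist_comm]
  have e2 : ‖g j t' - g j s'‖ = dist s' t' := by
    rw [← dist_eq_norm, (g j).dist_eq, dist_comm]
  have hs0 : 0 < dist s t := dist_pos.2 (D.sd s t hst).2.2
  have hs0' : 0 < dist s' t' := hs0.trans hlt
  have h1 := hray.norm_smul_eq
  rw [e1, e2] at h1
  have hopen : g i t ∈ openSegment ℝ (g j s') (g j t') := by
    rw [openSegment_eq_image']
    refine ⟨dist s t / dist s' t', ⟨div_pos hs0 hs0', (div_lt_one hs0').2 hlt⟩, ?_⟩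
    show g j s' + (dist s t / dist s' t') • (g j t' - g j s') = g i t
    rw [div_eq_inv_mul, mul_smul, h1, smul_smul, inv_mul_cancel₀ hs0'.ne', one_smul, ← hv]
    abel
  have h2 : j ∈ ts (g i t) :=
    D.seg j s' t' (D.sd s' t' hst').1 (D.sd s' t' hst').2.1 _ (openSegment_subset_segment ℝ _ _ hopen)
  have h3 := (D.mem i _).1 (D.cmem i t (D.sd s t hst).2.1)
  have h4 : g i t ∈ vs j := (D.mem j _).2 ⟨h2, h3.2⟩
  have h5 := D.openc j s' t' ((g j).symm (g i t)) hst' (hj _ h4)
  rw [(g j).apply_symm_apply] at h5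
  exact h5 hopen

/-- Two tiles without side vertices which have sides in the same direction from the same point:
these sides are equal. Proof. Let Prt Sd g i s t j s' t'. If dist s t < dist s' t' then g i t lies
in openSegment (g j s') (g j t') (same ray, isometries preserve distances), so j ∈ ts (g i t)
(D.seg), g i t ∈ vs j (D.cmem, D.mem), and (g j).symm (g i t) ∉ S by D.openc, against NS j.
Symmetric if dist s' t' < dist s t. So the distances are equal and g i t = g j t'. -/
theorem ns_eq (D : Dat n S θ Sd g vs ts) {i j : ι} {s t s' t' : Pl}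
    (h : Prt Sd g i s t j s' t') (hi : NS S g vs i) (hj : NS S g vs j) :
    dist s t = dist s' t' ∧ g i t = g j t' := by
  have hd : dist s t = dist s' t' := by
    rcases lt_trichotomy (dist s t) (dist s' t') with h1 | h1 | h1
    · exact (ring4_lt D h hj h1).elim
    · exact h1
    · obtain ⟨a1, a2, a3, a4, a5⟩ := h
      exact (ring4_lt D ⟨a1.symm, a3, a2, a4.symm, a5.symm⟩ hi h1).elim
  refine ⟨hd, ?_⟩
  obtain ⟨-, hst, hst', hv, hray⟩ := h
  have e1 : ‖g i t - g i s‖ = dist s t := by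
    rw [← dist_eq_norm, (g i).dist_eq, dist_comm]
  have e2 : ‖g j t' - g j s'‖ = dist s' t' := by
    rw [← dist_eq_norm, (g j).dist_eq, dist_comm]
  have h1 := hray.norm_smul_eq
  rw [e1, e2, hd] at h1
  have hs0 : dist s' t' ≠ 0 := (dist_pos.2 (D.sd s' t' hst').2.2).ne'
  have h2 := smul_right_injective Pl hs0 h1
  rw [hv] at h2
  exact (sub_left_inj.1 h2).symm

private theorem ring4_nb (D : Dat n S θ Sd g vs ts) {v0 a o p q : Pl}
    (H : Hub4 S Sd g vs ts v0 a o p q) {x : Pl} (hx : Sd a x) :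
    x ∈ S ∧ x ≠ a ∧ x ≠ o ∧ Sd x o := by
  have h1 := D.sd a x hx
  refine ⟨h1.2.1, h1.2.2.symm, ?_, ?_⟩
  · rintro rfl
    exact H.nao hx
  · rcases (H.mem x).1 h1.2.1 with rfl | rfl | rfl | rfl
    · exact absurd rfl h1.2.2
    · exact absurd hx H.nao
    · exact H.spo
    · exact H.sqo

private theorem ring4_across (D : Dat n S θ Sd g vs ts) {j : ι} (hns : NS S g vs j) {x y : Pl}
    (hxy : Sd x y) : ∃ X, X ≠ j ∧ X ∈ ts (g j x) ∧ X ∈ ts (g j y) ∧
      ∀ Y, Y ≠ j → Y ∈ ts (g j x) → Y ∈ ts (g j y) → Y = X := by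
  refine D.across j x y hxy fun w hw hwo => ?_
  have h1 := D.openc j x y ((g j).symm w) hxy (hns w hw)
  rw [(g j).apply_symm_apply] at h1
  exact h1 hwo

/-- Let j be a tile at the hub, x a neighbour of a. There are a tile X ≠ j which contains the
corners x and o of j, and a tile j' ≠ j at the hub with corner x' (neighbour of a) at g j x; X
contains also the corner o of j', the tiles at g j x are j, j', X, and the corners o of j and of j'
are different points.
Proof. D.ray for the side a x of j at v0 (all tiles at v0 have a corner there) gives j', s', x'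
with Prt; s' = a by H.lab and injectivity (g j' s' = v0); ns_eq: g j x = g j' x'. X: D.across for
the side x o of j (H.ns: no vertex in the open side, D.openc). X ≠ j' since otherwise j and j'
share the three vertices v0, g j x, g j o (D.share). So ts (g j x) = {j, j', X} (degree 3), which
gives the angle sum (D.tot, A at corners). The tile across the side x' o of j' contains g j' x',
so it is j or X; not j by D.share (v0, g j x, g j' o if it is different...: if g j o = g j' o then
j, j' share v0, g j x, g j o, against D.share, so g j o ≠ g j' o; if the tile across were j then j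
and j' share v0, g j x, g j' o). -/
theorem ring4 (D : Dat n S θ Sd g vs ts) {v0 a o p q : Pl} (H : Hub4 S Sd g vs ts v0 a o p q)
    {j : ι} (hj : j ∈ ts v0) {x : Pl} (hx : Sd a x) :
    ∃ X, X ≠ j ∧ X ∈ ts (g j x) ∧ X ∈ ts (g j o) ∧
      (∀ Y, Y ≠ j → Y ∈ ts (g j x) → Y ∈ ts (g j o) → Y = X) ∧
      ∃ j' ∈ ts v0, ∃ x', Sd a x' ∧ j' ≠ j ∧ j' ≠ X ∧ g j x = g j' x' ∧ X ∈ ts (g j' o) ∧
        g j o ≠ g j' o ∧ θ x + θ x' + A S θ g X (g j x) = 2 := by
  classical
  have haS : a ∈ S := (H.mem a).2 (Or.inl rfl)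
  have hoS : o ∈ S := (H.mem o).2 (Or.inr (Or.inl rfl))
  obtain ⟨hxS, hxa, hxo, hSxo⟩ := ring4_nb D H hx
  -- the partner
  obtain ⟨j', s', x', hP⟩ := D.ray j a x hx (by
    intro k hk
    rw [H.lab j hj] at hk ⊢
    have h1 : (g k).symm v0 = a := by
      rw [← H.lab k hk, (g k).symm_apply_apply]
    rw [h1]
    exact haS)
  have hP' := hP
  obtain ⟨hjj', -, hs'x', hga, -⟩ := hP
  rw [H.lab j hj] at hga
  have hj' : j' ∈ ts v0 := by
    have h1 := (D.mem j' _).1 (D.cmem j' s' (D.sd s' x' hs'x').1)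
    rw [← hga] at h1
    exact h1.1
  have hs' : s' = a := by
    apply (g j').injective
    rw [← hga, H.lab j' hj']
  subst hs'
  obtain ⟨hx'S, hx'a, hx'o, hSx'o⟩ := ring4_nb D H hs'x'
  have hgx : g j x = g j' x' := (ns_eq D hP' (H.ns j hj) (H.ns j' hj')).2
  -- the tile across
  obtain ⟨X, hXj, hXx, hXo, hXu⟩ := ring4_across D (H.ns j hj) hSxo
  obtain ⟨X', hX'j, hX'x, hX'o, -⟩ := ring4_across D (H.ns j' hj') hSx'o
  have hdx : (ts (g j x)).card = 3 := H.deg j hj x hxS hxa
  have hdo : (ts (g j o)).card = 3 := H.deg j hj o hoS H.ao.symm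
  have hdo' : (ts (g j' o)).card = 3 := H.deg j' hj' o hoS H.ao.symm
  have hv0j : v0 ∈ vs j := by
    have := D.cmem j s' haS
    rwa [H.lab j hj] at this
  have hv0j' : v0 ∈ vs j' := by
    have := D.cmem j' s' haS
    rwa [H.lab j' hj'] at this
  have hxj : g j x ∈ vs j := D.cmem j x hxS
  have hxj' : g j x ∈ vs j' := by rw [hgx]; exact D.cmem j' x' hx'S
  have hne1 : v0 ≠ g j x := by
    rw [← H.lab j hj]
    exact fun h => hxa ((g j).injective h).symm
  have hne2 : v0 ≠ g j o := by
    rw [← H.lab j hj]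
    exact fun h => H.ao ((g j).injective h)
  have hne3 : g j x ≠ g j o := fun h => hxo ((g j).injective h)
  have hne2' : v0 ≠ g j' o := by
    rw [← H.lab j' hj']
    exact fun h => H.ao ((g j').injective h)
  have hne3' : g j x ≠ g j' o := by
    rw [hgx]
    exact fun h => hx'o ((g j').injective h)
  have hno : j' ∉ ts (g j o) := by
    intro h
    exact D.share j j' hjj' v0 hv0j (g j x) hxj (g j o) (D.cmem j o hoS) hv0j' hxj'
      ((D.mem j' _).2 ⟨h, by omega⟩) hne1 hne3 hne2
  have hno' : j ∉ ts (g j' o) := by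
    intro h
    exact D.share j j' hjj' v0 hv0j (g j x) hxj (g j' o) ((D.mem j _).2 ⟨h, by omega⟩) hv0j' hxj'
      (D.cmem j' o hoS) hne1 hne3' hne2'
  have hj'X : j' ≠ X := by
    rintro rfl
    exact hno hXo
  have hjx : j ∈ ts (g j x) := ((D.mem j _).1 hxj).1
  have hj'x : j' ∈ ts (g j x) := ((D.mem j' _).1 hxj').1
  have hts : ts (g j x) = {j, j', X} := by
    symm
    apply Finset.eq_of_subset_of_card_le
    · intro y hy
      simp only [Finset.mem_insert, Finset.mem_singleton] at hy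
      rcases hy with rfl | rfl | rfl
      · exact hjx
      · exact hj'x
      · exact hXx
    · rw [hdx, Finset.card_eq_three.2 ⟨j, j', X, hjj', hXj.symm, hj'X, rfl⟩]
  have hXX' : X' = X := by
    rw [← hgx, hts] at hX'x
    simp only [Finset.mem_insert, Finset.mem_singleton] at hX'x
    rcases hX'x with rfl | rfl | rfl
    · exact (hno' hX'o).elim
    · exact (hX'j rfl).elim
    · rfl
  subst hXX'
  refine ⟨X', hXj, hXx, hXo, hXu, j', hj', x', hs'x', hjj'.symm, hj'X, hgx, hX'o, ?_, ?_⟩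
  · intro h
    apply hno
    rw [h]
    exact ((D.mem j' _).1 (D.cmem j' o hoS)).1
  · have h1 := D.tot (g j x) (by omega)
    rw [hts, Finset.sum_insert (by simp [hjj', hXj.symm]), Finset.sum_insert (by simp [hj'X]),
      Finset.sum_singleton, ring4_A θ g j hxS] at h1
    have h2 : A S θ g j' (g j x) = θ x' := by
      rw [hgx, ring4_A θ g j' hx'S]
    rw [h2] at h1
    linarith

/-- Let X, Y be the tiles which share the sides p o and q o with the tile j at the hub. Then X ≠ Y
(otherwise X and j share three vertices) and the tiles at g j o are j, X, Y. -/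
theorem opp4 (D : Dat n S θ Sd g vs ts) {v0 a o p q : Pl} (H : Hub4 S Sd g vs ts v0 a o p q)
    {j : ι} (hj : j ∈ ts v0) {X Y : ι} (hX : X ≠ j) (hX1 : X ∈ ts (g j p)) (hX2 : X ∈ ts (g j o))
    (hY : Y ≠ j) (hY1 : Y ∈ ts (g j q)) (hY2 : Y ∈ ts (g j o)) :
    X ≠ Y ∧ θ o + A S θ g X (g j o) + A S θ g Y (g j o) = 2 := by
  classical
  have hoS : o ∈ S := (H.mem o).2 (Or.inr (Or.inl rfl))
  have hpS : p ∈ S := (H.mem p).2 (Or.inr (Or.inr (Or.inl rfl)))
  have hqS : q ∈ S := (H.mem q).2 (Or.inr (Or.inr (Or.inr rfl)))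
  have hdo : (ts (g j o)).card = 3 := H.deg j hj o hoS H.ao.symm
  have hdp : (ts (g j p)).card = 3 := H.deg j hj p hpS H.ap.symm
  have hdq : (ts (g j q)).card = 3 := H.deg j hj q hqS H.aq.symm
  have hXY : X ≠ Y := by
    rintro rfl
    exact D.share X j hX (g j p) ((D.mem X _).2 ⟨hX1, by omega⟩) (g j o)
      ((D.mem X _).2 ⟨hX2, by omega⟩) (g j q) ((D.mem X _).2 ⟨hY1, by omega⟩) (D.cmem j p hpS)
      (D.cmem j o hoS) (D.cmem j q hqS) (fun h => H.op ((g j).injective h).symm)
      (fun h => H.oq ((g j).injective h)) (fun h => H.pq ((g j).injective h))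
  refine ⟨hXY, ?_⟩
  have hjo : j ∈ ts (g j o) := ((D.mem j _).1 (D.cmem j o hoS)).1
  have hts : ts (g j o) = {j, X, Y} := by
    symm
    apply Finset.eq_of_subset_of_card_le
    · intro y hy
      simp only [Finset.mem_insert, Finset.mem_singleton] at hy
      rcases hy with rfl | rfl | rfl
      · exact hjo
      · exact hX2
      · exact hY2
    · rw [hdo, Finset.card_eq_three.2 ⟨j, X, Y, hX.symm, hY.symm, hXY, rfl⟩]
  have h1 := D.tot (g j o) (by omega)
  rw [hts, Finset.sum_insert (by simp [hX.symm, hY.symm]), Finset.sum_insert (by simp [hXY]),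
    Finset.sum_singleton, ring4_A θ g j hoS] at h1
  linarith

/-- The roles of p and q can be exchanged. -/
theorem Hub4.swap (D : Dat n S θ Sd g vs ts) {v0 a o p q : Pl}
    (H : Hub4 S Sd g vs ts v0 a o p q) : Hub4 S Sd g vs ts v0 a o q p where
  mem := by
    intro s
    rw [H.mem s]
    tauto
  ao := H.ao
  ap := H.aq
  aq := H.ap
  op := H.oq
  oq := H.op
  pq := H.pq.symm
  sap := H.saq
  saq := H.sap
  spo := H.sqo
  sqo := H.spo
  nao := H.nao
  npq := fun h => H.npq (D.sdsymm _ _ h)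
  lab := H.lab
  ne := H.ne
  vx := H.vx
  ns := H.ns
  deg := H.deg

end Pool.Agent.Work.MP_bd00dd_co
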