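import Pool.Agent.Work.MP_bd00dd_co.C.S0
import Pool.Agent.Work.MP_bd00dd_co.C.P22a
import Pool.Agent.Work.MP_bd00dd_co.C.Ring4

/-!
The triangle with angles 1/12, 3/12, 8/12 (in units of π): three kinds of hubs do not exist.
Labels: a 1/12, b 1/4, c 2/3; lengths dist b c < dist a c < dist a b (D.trilt).
Local facts: a full vertex of degree d has m + 3 l + 8 j = 24, m + l + j = d; a half one
m + 3 l + 8 j = 12. Half vertices have degree >= 4. Corners a, b have degree >= 4 (deg_ab).
Two tiles at a full vertex v without side vertices which have sides in the same direction from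
v have the same side there (D.ray, as in ns_eq of C/Ring4.lean; it may be imported).
-/

namespace Pool.Agent.Work.MP_bd00dd_co

variable {ι : Type*} {n : ℕ} {S : Finset Pl} {θ : Pl → ℝ} {Sd : Pl → Pl → Prop}
  {g : ι → Pl ≃ᵢ Pl} {vs : ι → Finset Pl} {ts : Pl → Finset ι}

/-- partners of tiles without side vertices in a scalene triangle tiling -/
private theorem ex12_pp (D : Dat n S θ Sd g vs ts) {a b c : Pl} (T : Tri S θ a b c)
    (hab : θ a < θ b) (hbc : θ b < θ c) {i j : ι} {s t s' t' : Pl}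
    (h : Prt Sd g i s t j s' t') (hi : NS S g vs i) (hj : NS S g vs j) :
    (s' = s ∧ t' = t ∧ g i t = g j t) ∨ (s' = t ∧ t' = s ∧ g i t = g j s) := by
  obtain ⟨hl1, hl2⟩ := p22a_len D T hab hbc
  obtain ⟨hd, hg⟩ := ns_eq D h hi hj
  have hS := D.sd _ _ h.2.1
  have hS' := D.sd _ _ h.2.2.1
  have hst := hS.2.2
  have hst' := hS'.2.2
  have c1 : dist b a = dist a b := dist_comm _ _
  have c2 : dist c a = dist a c := dist_comm _ _
  have c3 : dist c b = dist b c := dist_comm _ _
  have key : (s' = s ∧ t' = t) ∨ (s' = t ∧ t' = s) := by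
    rcases (T.mem s).1 hS.1 with e1 | e1 | e1 <;>
    rcases (T.mem t).1 hS.2.1 with e2 | e2 | e2 <;>
    rcases (T.mem s').1 hS'.1 with e3 | e3 | e3 <;>
    rcases (T.mem t').1 hS'.2.1 with e4 | e4 | e4 <;>
    first
      | exact absurd (e1.trans e2.symm) hst
      | exact absurd (e3.trans e4.symm) hst'
      | exact Or.inl ⟨e3.trans e1.symm, e4.trans e2.symm⟩
      | exact Or.inr ⟨e3.trans e2.symm, e4.trans e1.symm⟩
      | (exfalso; rw [e1, e2, e3, e4] at hd; linarith)
  rcases key with ⟨k1, k2⟩ | ⟨k1, k2⟩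
  · subst k2; exact Or.inl ⟨k1, rfl, hg⟩
  · rw [k2] at hg; exact Or.inr ⟨k1, k2, hg⟩

private theorem ex12_ty (D : Dat n S θ Sd g vs ts) {a b c : Pl} (T : Tri S θ a b c)
    (ha : θ a = 1 / 12) (hb : θ b = 1 / 4) (hc : θ c = 2 / 3) {v : Pl}
    (hv : 3 ≤ (ts v).card) :
    N g ts a v + 3 * N g ts b v + 8 * N g ts c v + 12 * stc S g ts v = 24 ∧
      stc S g ts v ≤ 1 ∧
      (ts v).card = N g ts a v + N g ts b v + N g ts c v + stc S g ts v := by
  obtain ⟨t1, t2, -⟩ := T.ty D hv
  refine ⟨?_, t2, T.deg g ts v⟩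
  rw [ha, hb, hc] at t1
  have e : ((N g ts a v + 3 * N g ts b v + 8 * N g ts c v + 12 * stc S g ts v : ℕ) : ℝ) =
      ((24 : ℕ) : ℝ) := by
    push_cast
    linarith
  exact_mod_cast e

private theorem ex12_ar {m l j st d : ℕ} (h : m + 3 * l + 8 * j + 12 * st = 24) (hst : st ≤ 1)
    (hd : d = m + l + j + st) (h4 : 4 ≤ d) (h5 : d ≤ 5) (hm : 1 ≤ m) (hl : 1 ≤ l) : d = 4 := by
  have hj : j ≤ 3 := by omega
  interval_cases st <;> interval_cases j <;> omega

private theorem ex12_ar2 {m l j st d : ℕ} (h : m + 3 * l + 8 * j + 12 * st = 24) (hst : st ≤ 1)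
    (hd : d = m + l + j + st) (h4 : d = 4) (hj : 2 ≤ j) : False := by
  have hj : j ≤ 3 := by omega
  interval_cases st <;> interval_cases j <;> omega

private theorem ex12_ar3 {m l j st d : ℕ} (h : m + 3 * l + 8 * j + 12 * st = 24) (hst : st ≤ 1)
    (hd : d = m + l + j + st) (h4 : d = 20) : l = 2 ∧ j = 0 ∧ st = 0 := by
  have hj : j ≤ 3 := by omega
  interval_cases st <;> interval_cases j <;> omega

/-- the partner of a side at a vertex without straight tiles -/
private theorem ex12_ray (D : Dat n S θ Sd g vs ts) {a b c : Pl} (T : Tri S θ a b c) {v : Pl}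
    (hv : 3 ≤ (ts v).card) (hst : stc S g ts v = 0) {i : ι} {s t : Pl} (hs : s ∈ S) (ht : t ∈ S)
    (hsne : s ≠ t) (his : g i s = v) :
    ∃ j s' t', Prt Sd g i s t j s' t' ∧ j ∈ ts v ∧ g j s' = v := by
  have hnh : ¬ Half S g ts v := by
    intro h
    have := (half_iff D hv).1 h
    omega
  obtain ⟨j, s', t', hP⟩ := D.ray i s t (T.side D hs ht hsne) (by
    intro k hk
    rw [his] at hk ⊢
    by_contra hcon
    exact hnh ⟨k, hk, hcon⟩)
  have h1 : g j s' = v := by rw [← hP.2.2.2.1, his]
  refine ⟨j, s', t', hP, ?_, h1⟩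
  have h2 := (p22a_deg D j (D.sd _ _ hP.2.2.1).1).1
  rwa [h1] at h2

/-- a corner a or b at a vertex of degree at least n - 1: no side vertices -/
private theorem ex12_ns (D : Dat n S θ Sd g vs ts) {a b c : Pl} (T : Tri S θ a b c)
    (hc : θ c = 2 / 3) {v : Pl} (hv : n ≤ (ts v).card + 1) {i : ι}
    (h : g i a = v ∨ g i b = v) : NS S g vs i := by
  have hcS : c ∈ S := (T.mem c).2 (Or.inr (Or.inr rfl))
  have h1 := deg_ab D T hc i
  have h2 := (p22a_deg D i hcS).2
  have h3 := p22a_sum D T i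
  refine p22a_ns D T ?_
  rcases h with h | h
  · rw [h] at h1 h3; omega
  · rw [h] at h1 h3; omega

/-- n = 25: a vertex v of degree 24 is (24,0,0). Every tile i at v has its corner a at v, and
22 + (deg - 2) of b (>= 2) + of c (>= 1) = 25 at least: so no side vertices, b has degree 4. The
partner j of i for the side a b also has its corner a at v, so g i b = g j b is a vertex of degree
4 with two corners b: 1/4 + 1/4 + y + z = 2 with y, z in {1/12, 1/4, 2/3, 1} is impossible. -/
theorem ex25 (D : Dat n S θ Sd g vs ts) {a b c : Pl} (T : Tri S θ a b c) (hn : n = 25)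
    (ha : θ a = 1 / 12) (hb : θ b = 1 / 4) (hc : θ c = 2 / 3) {v : Pl}
    (hv : (ts v).card = 24) : False := by
  have haS : a ∈ S := (T.mem a).2 (Or.inl rfl)
  have hbS : b ∈ S := (T.mem b).2 (Or.inr (Or.inl rfl))
  have hcS : c ∈ S := (T.mem c).2 (Or.inr (Or.inr rfl))
  have hab : θ a < θ b := by rw [ha, hb]; norm_num
  have hbc : θ b < θ c := by rw [hb, hc]; norm_num
  obtain ⟨t1, t2, t3⟩ := ex12_ty D T ha hb hc (v := v) (by omega)
  have hall : ∀ k ∈ ts v, g k a = v := p22a_all (s := a) (by omega)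
  obtain ⟨i, hi⟩ : (ts v).Nonempty := Finset.card_pos.1 (by omega)
  have hia := hall i hi
  have hnsi := ex12_ns D T hc (v := v) (by omega) (Or.inl hia)
  obtain ⟨j, s', t', hP, hj, hjs⟩ := ex12_ray D T (by omega) (by omega) haS hbS T.ab hia
  have hja := hall j hj
  have hnsj := ex12_ns D T hc (v := v) (by omega) (Or.inl hja)
  have hs'a : s' = a := (g j).injective (hjs.trans hja.symm)
  rcases ex12_pp D T hab hbc hP hnsi hnsj with ⟨-, -, h⟩ | ⟨h, -, -⟩
  · obtain ⟨hib, hib3⟩ := p22a_deg D i hbS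
    obtain ⟨hjb, -⟩ := p22a_deg D j hbS
    have h2 := p22a_two (g := g) (ts := ts) hP.1 hib (by rw [h]; exact hjb) rfl h.symm
    have hsum := p22a_sum D T i
    rw [hia, hv, hn] at hsum
    have hdc := (p22a_deg D i hcS).2
    have hcard := card_vs D i
    rw [p22a_card T] at hcard
    obtain ⟨y1, y2, y3⟩ := ex12_ty D T ha hb hc hib3
    omega
  · exact T.ab (hs'a.symm.trans h)

/-- n = 23: a vertex v of degree 22 is (21,1,0). 20 + 2 + 1 = 23, so the tiles at v have no side
vertices. The tile i with its corner b at v: the partner j for the side b c has its corner a at v,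
so its side is longer than dist b c: contradiction. -/
theorem ex23 (D : Dat n S θ Sd g vs ts) {a b c : Pl} (T : Tri S θ a b c) (hn : n = 23)
    (ha : θ a = 1 / 12) (hb : θ b = 1 / 4) (hc : θ c = 2 / 3) {v : Pl}
    (hv : (ts v).card = 22) : False := by
  classical
  have haS : a ∈ S := (T.mem a).2 (Or.inl rfl)
  have hbS : b ∈ S := (T.mem b).2 (Or.inr (Or.inl rfl))
  have hcS : c ∈ S := (T.mem c).2 (Or.inr (Or.inr rfl))
  have hab : θ a < θ b := by rw [ha, hb]; norm_num
  have hbc : θ b < θ c := by rw [hb, hc]; norm_num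
  obtain ⟨t1, t2, t3⟩ := ex12_ty D T ha hb hc (v := v) (by omega)
  have hN : N g ts b v = 1 ∧ N g ts c v = 0 ∧ stc S g ts v = 0 := by omega
  obtain ⟨i, hi, hib⟩ : ∃ i ∈ ts v, g i b = v := by
    have h1 : 0 < N g ts b v := by omega
    unfold N at h1
    obtain ⟨i, hi⟩ := Finset.card_pos.1 h1
    refine ⟨i, (Finset.mem_filter.1 hi).1, ?_⟩
    rw [← (Finset.mem_filter.1 hi).2, (g i).apply_symm_apply]
  have hnsi := ex12_ns D T hc (v := v) (by omega) (Or.inr hib)
  obtain ⟨j, s', t', hP, hj, hjs⟩ := ex12_ray D T (by omega) hN.2.2 hbS hcS T.bc hib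
  rcases (T.mem s').1 (D.sd _ _ hP.2.2.1).1 with e | e | e
  · rw [e] at hjs
    have hnsj := ex12_ns D T hc (v := v) (by omega) (Or.inl hjs)
    rcases ex12_pp D T hab hbc hP hnsi hnsj with ⟨h, -, -⟩ | ⟨h, -, -⟩
    · exact T.ab (e.symm.trans h)
    · exact T.ac (e.symm.trans h)
  · rw [e] at hjs
    have h2 := p22a_two (g := g) (ts := ts) hP.1 hi hj hib hjs
    omega
  · rw [e] at hjs
    have h2 := p22a_one (g := g) (ts := ts) hj hjs
    omega

/-- n = 22: a vertex v of degree 20 is (18,2,0). 18 + 2 + 1 = 21, a side vertex would add 2 (half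
vertices have degree >= 4), so there are no side vertices. Let i1 have its corner b at v: its
partner for b c is the second such tile i2; its partner for b a cannot be i2 again (then i1 and i2
share v, g i1 c, g i1 a, D.share), so it is a tile i3 with corner a at v and g i1 a = g i3 b =: w.
deg w - 2 <= 22 - 18 - 1 = 3, so deg w is 4 or 5; w has labels a and b: 1/12 + 1/4 + rest = 2:
degree 5 is impossible, degree 4 is (1,1,1;1). So the corner c of i3 has degree exactly 4; its
partner i4 for the side a c has the corner a at v (no corner c at v), g i3 c = g i4 c is a vertex of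
degree 4 with two corners c: 4/3 + y + z = 2 with y, z in {1/12, 1/4, 2/3, 1} is impossible. -/
theorem ex22 (D : Dat n S θ Sd g vs ts) {a b c : Pl} (T : Tri S θ a b c) (hn : n = 22)
    (ha : θ a = 1 / 12) (hb : θ b = 1 / 4) (hc : θ c = 2 / 3) {v : Pl}
    (hv : (ts v).card = 20) : False := by
  classical
  have haS : a ∈ S := (T.mem a).2 (Or.inl rfl)
  have hbS : b ∈ S := (T.mem b).2 (Or.inr (Or.inl rfl))
  have hcS : c ∈ S := (T.mem c).2 (Or.inr (Or.inr rfl))
  have hab : θ a < θ b := by rw [ha, hb]; norm_num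
  have hbc : θ b < θ c := by rw [hb, hc]; norm_num
  obtain ⟨t1, t2, t3⟩ := ex12_ty D T ha hb hc (v := v) (by omega)
  have hN : N g ts b v = 2 ∧ N g ts c v = 0 ∧ stc S g ts v = 0 := ex12_ar3 t1 t2 t3 hv
  have hst0 := hN.2.2
  -- no side vertices
  have hns : ∀ i, (g i a = v ∨ g i b = v) → NS S g vs i := by
    intro i h w hw
    by_contra hwS
    have h1 := deg_ab D T hc i
    have h2 := (p22a_deg D i hcS).2
    have hw3 := ((D.mem i w).1 hw).2
    have hwi := ((D.mem i w).1 hw).1
    have hwH : Half S g ts w := ⟨i, hwi, hwS⟩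
    have hw1 := (half_iff D hw3).1 hwH
    obtain ⟨u1, u2, u3⟩ := ex12_ty D T ha hb hc hw3
    have hw4 : 4 ≤ (ts w).card := by omega
    have hwK : ∀ s ∈ S, w ≠ g i s := by
      rintro s hs rfl
      rw [(g i).symm_apply_apply] at hwS
      exact hwS hs
    have nab : g i a ≠ g i b := fun h => T.ab ((g i).injective h)
    have nac : g i a ≠ g i c := fun h => T.ac ((g i).injective h)
    have nbc : g i b ≠ g i c := fun h => T.bc ((g i).injective h)
    have hF : ({w, g i a, g i b, g i c} : Finset Pl) ⊆ vs i := by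
      intro y hy
      simp only [Finset.mem_insert, Finset.mem_singleton] at hy
      rcases hy with rfl | rfl | rfl | rfl
      · exact hw
      · exact D.cmem i a haS
      · exact D.cmem i b hbS
      · exact D.cmem i c hcS
    have h3 := sub_le D hF
    have h4 := Finset.card_le_card hF
    have e1 : w ∉ ({g i a, g i b, g i c} : Finset Pl) := by
      simp [hwK a haS, hwK b hbS, hwK c hcS]
    have e2 : g i a ∉ ({g i b, g i c} : Finset Pl) := by
      simp [T.ab, T.ac]
    rw [Finset.card_insert_of_notMem e1, Finset.card_insert_of_notMem e2,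
      Finset.card_pair nbc] at h3 h4
    rw [Finset.sum_insert e1, Finset.sum_insert e2, Finset.sum_pair nbc] at h3
    rcases h with h | h
    · rw [h] at h1 h3; omega
    · rw [h] at h1 h3; omega
  -- no corner c at v
  have hnc : ∀ j ∈ ts v, g j c ≠ v := by
    intro j hj h
    have h2 := p22a_one (g := g) (ts := ts) hj h
    omega
  have hlabel : ∀ {j : ι} {s' : Pl}, j ∈ ts v → s' ∈ S → g j s' = v → g j a = v ∨ g j b = v := by
    intro j s' hj hs' h
    rcases (T.mem s').1 hs' with e | e | e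
    · rw [e] at h; exact Or.inl h
    · rw [e] at h; exact Or.inr h
    · rw [e] at h; exact (hnc j hj h).elim
  obtain ⟨i1, hi1, hi1b⟩ : ∃ i ∈ ts v, g i b = v := by
    have h1 : 0 < N g ts b v := by omega
    unfold N at h1
    obtain ⟨i, hi⟩ := Finset.card_pos.1 h1
    refine ⟨i, (Finset.mem_filter.1 hi).1, ?_⟩
    rw [← (Finset.mem_filter.1 hi).2, (g i).apply_symm_apply]
  have hns1 := hns i1 (Or.inr hi1b)
  -- the second tile i2 with corner b at v
  obtain ⟨i2, s2, t2', hP2, hi2, hi2s⟩ := ex12_ray D T (by omega) hst0 hbS hcS T.bc hi1b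
  have hns2 := hns i2 (hlabel hi2 (D.sd _ _ hP2.2.2.1).1 hi2s)
  have h12 := hP2.1
  rcases ex12_pp D T hab hbc hP2 hns1 hns2 with ⟨es, -, hg2⟩ | ⟨es, -, -⟩
  swap
  · rw [es] at hi2s; exact hnc i2 hi2 hi2s
  rw [es] at hi2s
  -- the partner for b a
  obtain ⟨i3, s3, t3', hP3, hi3, hi3s⟩ := ex12_ray D T (by omega) hst0 hbS haS T.ab.symm hi1b
  have hns3 := hns i3 (hlabel hi3 (D.sd _ _ hP3.2.2.1).1 hi3s)
  have h13 := hP3.1
  rcases ex12_pp D T hab hbc hP3 hns1 hns3 with ⟨es, -, hg3⟩ | ⟨es, -, hg3⟩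
  · rw [es] at hi3s
    have h32 : i3 = i2 := by
      by_contra hne
      have h5 : ({i1, i2, i3} : Finset ι) ⊆ (ts v).filter (fun i => (g i).symm v = b) := by
        intro x hx
        simp only [Finset.mem_insert, Finset.mem_singleton] at hx
        rcases hx with rfl | rfl | rfl
        · exact Finset.mem_filter.2 ⟨hi1, by rw [← hi1b, (g x).symm_apply_apply]⟩
        · exact Finset.mem_filter.2 ⟨hi2, by rw [← hi2s, (g x).symm_apply_apply]⟩
        · exact Finset.mem_filter.2 ⟨hi3, by rw [← hi3s, (g x).symm_apply_apply]⟩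
      have h6 := Finset.card_le_card h5
      rw [Finset.card_eq_three.2 ⟨i1, i2, i3, h12, h13, fun h => hne h.symm, rfl⟩] at h6
      have h7 := hN.1
      unfold N at h7
      have h8 : ((ts v).filter (fun i => (g i).symm v = b)).card = 2 := by
        convert h7
      omega
    rw [h32] at hg3
    have v1 : v ∈ vs i1 := by rw [← hi1b]; exact D.cmem i1 b hbS
    have v2 : v ∈ vs i2 := by rw [← hi2s]; exact D.cmem i2 b hbS
    refine D.share i1 i2 h12 v v1 (g i1 c) (D.cmem i1 c hcS) (g i1 a) (D.cmem i1 a haS) v2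
      (by rw [hg2]; exact D.cmem i2 c hcS) (by rw [hg3]; exact D.cmem i2 a haS) ?_ ?_ ?_
    · rw [← hi1b]; exact fun h => T.bc ((g i1).injective h)
    · exact fun h => T.ac ((g i1).injective h).symm
    · rw [← hi1b]; exact fun h => T.ab ((g i1).injective h).symm
  · rw [es] at hi3s
    -- the vertex w
    obtain ⟨w1, w2⟩ := p22a_deg D i1 haS
    obtain ⟨w3, w4⟩ := p22a_deg D i3 hbS
    have na := p22a_one (g := g) (ts := ts) w1 (rfl : g i1 a = g i1 a)
    have nb := p22a_one (g := g) (ts := ts) (s := b) (i := i3) (v := g i1 a)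
      (by rw [hg3]; exact w3) hg3.symm
    obtain ⟨y1, y2, y3⟩ := ex12_ty D T ha hb hc w2
    have hsum := p22a_sum D T i3
    have hcard := card_vs D i3
    rw [p22a_card T] at hcard
    have hc3 := (p22a_deg D i3 hcS).2
    rw [hi3s, hv, ← hg3, hn] at hsum
    have hw4 : (ts (g i1 a)).card = 4 :=
      ex12_ar y1 y2 y3 (deg_ab D T hc i1).1 (by omega) na nb
    -- the corner c of i3 has degree 4
    have hvs3 : vs i3 = {g i3 a, g i3 b, g i3 c} := by
      apply Finset.Subset.antisymm
      · intro y hy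
        have h5 := hns3 y hy
        rcases (T.mem _).1 h5 with h6 | h6 | h6
        · rw [← h6, (g i3).apply_symm_apply]; simp
        · rw [← h6, (g i3).apply_symm_apply]; simp
        · rw [← h6, (g i3).apply_symm_apply]; simp
      · intro y hy
        simp only [Finset.mem_insert, Finset.mem_singleton] at hy
        rcases hy with rfl | rfl | rfl
        · exact D.cmem i3 a haS
        · exact D.cmem i3 b hbS
        · exact D.cmem i3 c hcS
    have nab : g i3 a ≠ g i3 b := fun h => T.ab ((g i3).injective h)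
    have nac : g i3 a ≠ g i3 c := fun h => T.ac ((g i3).injective h)
    have nbc : g i3 b ≠ g i3 c := fun h => T.bc ((g i3).injective h)
    have e2 : g i3 a ∉ ({g i3 b, g i3 c} : Finset Pl) := by
      simp [T.ab, T.ac]
    have hcnt := D.cnt i3
    rw [hvs3, Finset.card_insert_of_notMem e2, Finset.card_pair nbc, Finset.sum_insert e2,
      Finset.sum_pair nbc, hi3s, hv, ← hg3, hw4, hn] at hcnt
    have hc4 : (ts (g i3 c)).card = 4 := by omega
    -- the partner for a c
    obtain ⟨i4, s4, t4', hP4, hi4, hi4s⟩ := ex12_ray D T (by omega) hst0 haS hcS T.ac hi3s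
    have hns4 := hns i4 (hlabel hi4 (D.sd _ _ hP4.2.2.1).1 hi4s)
    rcases ex12_pp D T hab hbc hP4 hns3 hns4 with ⟨es4, -, hg4⟩ | ⟨es4, -, -⟩
    · obtain ⟨x1, x2⟩ := p22a_deg D i3 hcS
      obtain ⟨x3, -⟩ := p22a_deg D i4 hcS
      have h2 := p22a_two (g := g) (ts := ts) hP4.1 x1 (by rw [hg4]; exact x3) rfl hg4.symm
      obtain ⟨z1, z2, z3⟩ := ex12_ty D T ha hb hc x2
      exact ex12_ar2 z1 z2 z3 hc4 h2
    · rw [es4] at hi4s
      exact hnc i4 hi4 hi4s

end Pool.Agent.Work.MP_bd00dd_co
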