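import Pool.Agent.Work.MP_bd00dd_co.C.Chk
import Pool.Agent.Work.MP_bd00dd_co.C.Ex12

/-!
The triangle with angles 1/12, 3/12, 8/12.
-/

namespace Pool.Agent.Work.MP_bd00dd_co

variable {ι : Type*} {n : ℕ} {S : Finset Pl} {θ : Pl → ℝ} {Sd : Pl → Pl → Prop}
  {g : ι → Pl ≃ᵢ Pl} {vs : ι → Finset Pl} {ts : Pl → Finset ι}

/-- Degree bound from the type equation. -/
theorem degb_1_3_8 (D : Dat n S θ Sd g vs ts) {a b c : Pl} (T : Tri S θ a b c)
    (ha : θ a = 1 / 12) (hb : θ b = 3 / 12) (hc : θ c = 8 / 12) {v : Pl}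
    (hv : 3 ≤ (ts v).card) : ∃ m l j st : ℕ, m * 1 + l * 3 + j * 8 + st * 12 = 24 ∧
      (ts v).card = m + l + j + st := by
  have h1 := (T.ty D hv).1
  have h2 := T.deg g ts v
  refine ⟨_, _, _, _, ?_, h2⟩
  rw [ha, hb, hc] at h1
  have h3 : ((N g ts a v * 1 + N g ts b v * 3 + N g ts c v * 8 + stc S g ts v * 12 : ℕ) : ℝ)
      = (24 : ℕ) := by
    push_cast
    linarith
  exact_mod_cast h3

/-- Angles 1/12, 3/12, 8/12. -/
theorem sp_1_12 (D : Dat n S θ Sd g vs ts) {a b c : Pl} (T : Tri S θ a b c) (hn : 22 ≤ n)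
    (ha : θ a = 1 / 12) (hc : θ c = 2 / 3) : False := by
  have hb : θ b = 3 / 12 := by
    have := T.sum
    rw [ha, hc] at this
    linarith
  obtain ⟨hx, hy⟩ := ne23 D T hc (le_of_eq_of_le ha (by norm_num))
  have hcap : ∀ v, 3 ≤ (ts v).card → (ts v).card + 1 ≤ n := fun v hv => cap23 D T hc hv
  have hex25 : n = 25 → ∀ v, (ts v).card ≠ 24 := fun h v hv =>
    ex25 D T h (by rw [ha]) (by rw [hb]; norm_num) hc hv
  have hex23 : n = 23 → ∀ v, (ts v).card ≠ 22 := fun h v hv =>
    ex23 D T h (by rw [ha]) (by rw [hb]; norm_num) hc hv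
  have hex22 : n = 22 → ∀ v, (ts v).card ≠ 20 := fun h v hv =>
    ex22 D T h (by rw [ha]) (by rw [hb]; norm_num) hc hv
  have hc : θ c = 8 / 12 := by rw [hc]; norm_num
  have hdeg := fun v (hv : 3 ≤ (ts v).card) => degb_1_3_8 D T ha hb hc hv
  by_cases hn22 : n ≤ 22
  · have h := spec1 D T 1 3 8 12 19 (by norm_num) (by norm_num) (by norm_num) (by norm_num)
      (ha.trans (by norm_num)) (hb.trans (by norm_num)) (hc.trans (by norm_num)) hx hy 
      (fun v hv => by
        obtain ⟨m, l, j, st, h1, h2⟩ := hdeg v hv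
        have := hcap v hv
        have := hex22 (by omega) v
        rcases Nat.eq_zero_or_pos j with hj | hj <;> rcases Nat.eq_zero_or_pos st with hs | hs <;>
          omega) (36) (611) (249) (-116) (456) (by norm_num) (by norm_num) (by decide +kernel)
    have h2 : (22 : ℝ) ≤ n := by exact_mod_cast hn
    norm_num at h
    linarith
  replace hn : 23 ≤ n := by omega
  by_cases hn23 : n ≤ 23
  · have h := spec1 D T 1 3 8 12 21 (by norm_num) (by norm_num) (by norm_num) (by norm_num)
      (ha.trans (by norm_num)) (hb.trans (by norm_num)) (hc.trans (by norm_num)) hx hy 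
      (fun v hv => by
        obtain ⟨m, l, j, st, h1, h2⟩ := hdeg v hv
        have := hcap v hv
        have := hex23 (by omega) v
        rcases Nat.eq_zero_or_pos j with hj | hj <;> rcases Nat.eq_zero_or_pos st with hs | hs <;>
          omega) (40) (767) (297) (-156) (588) (by norm_num) (by norm_num) (by decide +kernel)
    have h2 : (23 : ℝ) ≤ n := by exact_mod_cast hn
    norm_num at h
    linarith
  replace hn : 24 ≤ n := by omega
  by_cases hn24 : n ≤ 24
  · have h := spec1 D T 1 3 8 12 23 (by norm_num) (by norm_num) (by norm_num) (by norm_num)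
      (ha.trans (by norm_num)) (hb.trans (by norm_num)) (hc.trans (by norm_num)) hx hy 
      (fun v hv => by
        obtain ⟨m, l, j, st, h1, h2⟩ := hdeg v hv
        have := hcap v hv
        omega) (36) (715) (273) (-148) (552) (by norm_num) (by norm_num) (by decide +kernel)
    have h2 : (24 : ℝ) ≤ n := by exact_mod_cast hn
    norm_num at h
    linarith
  replace hn : 25 ≤ n := by omega
  by_cases hn25 : n ≤ 25
  · have h := spec1 D T 1 3 8 12 23 (by norm_num) (by norm_num) (by norm_num) (by norm_num)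
      (ha.trans (by norm_num)) (hb.trans (by norm_num)) (hc.trans (by norm_num)) hx hy 
      (fun v hv => by
        obtain ⟨m, l, j, st, h1, h2⟩ := hdeg v hv
        have := hcap v hv
        have := hex25 (by omega) v
        rcases Nat.eq_zero_or_pos j with hj | hj <;> rcases Nat.eq_zero_or_pos st with hs | hs <;>
          omega) (36) (715) (273) (-148) (552) (by norm_num) (by norm_num) (by decide +kernel)
    have h2 : (25 : ℝ) ≤ n := by exact_mod_cast hn
    norm_num at h
    linarith
  replace hn : 26 ≤ n := by omega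
  have h := spec1 D T 1 3 8 12 25 (by norm_num) (by norm_num) (by norm_num) (by norm_num)
      (ha.trans (by norm_num)) (hb.trans (by norm_num)) (hc.trans (by norm_num)) hx hy 
      (fun v hv => by
        obtain ⟨m, l, j, st, h1, h2⟩ := hdeg v hv
        have := hcap v hv
        omega) (13) (286) (105) (-62) (225) (by norm_num) (by norm_num) (by decide +kernel)
  have h2 : (26 : ℝ) ≤ n := by exact_mod_cast hn
  norm_num at h
  linarith

end Pool.Agent.Work.MP_bd00dd_co
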