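import Pool.Agent.Work.MP_bd00dd_co.C.Chk
import Pool.Agent.Work.MP_bd00dd_co.C.S0

/-!
Special triangles with largest angle 2/3, certificates with the mismatch lemma.
-/

namespace Pool.Agent.Work.MP_bd00dd_co

variable {ι : Type*} {n : ℕ} {S : Finset Pl} {θ : Pl → ℝ} {Sd : Pl → Pl → Prop}
  {g : ι → Pl ≃ᵢ Pl} {vs : ι → Finset Pl} {ts : Pl → Finset ι}

/-- Degree bound from the type equation. -/
theorem degb_1_6_14 (D : Dat n S θ Sd g vs ts) {a b c : Pl} (T : Tri S θ a b c)
    (ha : θ a = 1 / 21) (hb : θ b = 6 / 21) (hc : θ c = 14 / 21) {v : Pl}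
    (hv : 3 ≤ (ts v).card) : ∃ m l j st : ℕ, m * 1 + l * 6 + j * 14 + st * 21 = 42 ∧
      (ts v).card = m + l + j + st := by
  have h1 := (T.ty D hv).1
  have h2 := T.deg g ts v
  refine ⟨_, _, _, _, ?_, h2⟩
  rw [ha, hb, hc] at h1
  have h3 : ((N g ts a v * 1 + N g ts b v * 6 + N g ts c v * 14 + stc S g ts v * 21 : ℕ) : ℝ)
      = (42 : ℕ) := by
    push_cast
    linarith
  exact_mod_cast h3

/-- Angles 1/21, 6/21, 14/21. -/
theorem sp_1_21 (D : Dat n S θ Sd g vs ts) {a b c : Pl} (T : Tri S θ a b c) (hn : 22 ≤ n)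
    (ha : θ a = 1 / 21) (hc : θ c = 2 / 3) : False := by
  have hb : θ b = 6 / 21 := by
    have := T.sum
    rw [ha, hc] at this
    linarith
  obtain ⟨hx, hy⟩ := ne23 D T hc (le_of_eq_of_le ha (by norm_num))
  have hcap : ∀ v, 3 ≤ (ts v).card → (ts v).card + 1 ≤ n := fun v hv => cap23 D T hc hv
  have hc : θ c = 14 / 21 := by rw [hc]; norm_num
  have hdeg := fun v (hv : 3 ≤ (ts v).card) => degb_1_6_14 D T ha hb hc hv
  by_cases hn22 : n ≤ 22
  · have h := spec1 D T 1 6 14 21 21 (by norm_num) (by norm_num) (by norm_num) (by norm_num)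
      (ha.trans (by norm_num)) (hb.trans (by norm_num)) (hc.trans (by norm_num)) hx hy 
      (fun v hv => by
        obtain ⟨m, l, j, st, h1, h2⟩ := hdeg v hv
        have := hcap v hv
        omega) (9) (173) (30) (-26) (105) (by norm_num) (by norm_num) (by decide +kernel)
    have h2 : (22 : ℝ) ≤ n := by exact_mod_cast hn
    norm_num at h
    linarith
  replace hn : 23 ≤ n := by omega
  by_cases hn27 : n ≤ 27
  · have h := spec1 D T 1 6 14 21 26 (by norm_num) (by norm_num) (by norm_num) (by norm_num)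
      (ha.trans (by norm_num)) (hb.trans (by norm_num)) (hc.trans (by norm_num)) hx hy 
      (fun v hv => by
        obtain ⟨m, l, j, st, h1, h2⟩ := hdeg v hv
        have := hcap v hv
        omega) (91) (2166) (263) (-357) (1344) (by norm_num) (by norm_num) (by decide +kernel)
    have h2 : (23 : ℝ) ≤ n := by exact_mod_cast hn
    norm_num at h
    linarith
  replace hn : 28 ≤ n := by omega
  by_cases hn28 : n ≤ 28
  · have h := spec1 D T 1 6 14 21 27 (by norm_num) (by norm_num) (by norm_num) (by norm_num)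
      (ha.trans (by norm_num)) (hb.trans (by norm_num)) (hc.trans (by norm_num)) hx hy 
      (fun v hv => by
        obtain ⟨m, l, j, st, h1, h2⟩ := hdeg v hv
        have := hcap v hv
        omega) (21) (569) (54) (-98) (357) (by norm_num) (by norm_num) (by decide +kernel)
    have h2 : (28 : ℝ) ≤ n := by exact_mod_cast hn
    norm_num at h
    linarith
  replace hn : 29 ≤ n := by omega
  by_cases hn33 : n ≤ 33
  · have h := spec1 D T 1 6 14 21 32 (by norm_num) (by norm_num) (by norm_num) (by norm_num)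
      (ha.trans (by norm_num)) (hb.trans (by norm_num)) (hc.trans (by norm_num)) hx hy 
      (fun v hv => by
        obtain ⟨m, l, j, st, h1, h2⟩ := hdeg v hv
        have := hcap v hv
        omega) (462) (14719) (975) (-2653) (9345) (by norm_num) (by norm_num) (by decide +kernel)
    have h2 : (29 : ℝ) ≤ n := by exact_mod_cast hn
    norm_num at h
    linarith
  replace hn : 34 ≤ n := by omega
  have h := spec1 D T 1 6 14 21 43 (by norm_num) (by norm_num) (by norm_num) (by norm_num)
      (ha.trans (by norm_num)) (hb.trans (by norm_num)) (hc.trans (by norm_num)) hx hy 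
      (fun v hv => by
        obtain ⟨m, l, j, st, h1, h2⟩ := hdeg v hv
        have := hcap v hv
        omega) (31) (1240) (41) (-235) (798) (by norm_num) (by norm_num) (by decide +kernel)
  have h2 : (34 : ℝ) ≤ n := by exact_mod_cast hn
  norm_num at h
  linarith

/-- Degree bound from the type equation. -/
theorem degb_1_5_12 (D : Dat n S θ Sd g vs ts) {a b c : Pl} (T : Tri S θ a b c)
    (ha : θ a = 1 / 18) (hb : θ b = 5 / 18) (hc : θ c = 12 / 18) {v : Pl}
    (hv : 3 ≤ (ts v).card) : ∃ m l j st : ℕ, m * 1 + l * 5 + j * 12 + st * 18 = 36 ∧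
      (ts v).card = m + l + j + st := by
  have h1 := (T.ty D hv).1
  have h2 := T.deg g ts v
  refine ⟨_, _, _, _, ?_, h2⟩
  rw [ha, hb, hc] at h1
  have h3 : ((N g ts a v * 1 + N g ts b v * 5 + N g ts c v * 12 + stc S g ts v * 18 : ℕ) : ℝ)
      = (36 : ℕ) := by
    push_cast
    linarith
  exact_mod_cast h3

/-- Angles 1/18, 5/18, 12/18. -/
theorem sp_1_18 (D : Dat n S θ Sd g vs ts) {a b c : Pl} (T : Tri S θ a b c) (hn : 22 ≤ n)
    (ha : θ a = 1 / 18) (hc : θ c = 2 / 3) : False := by
  have hb : θ b = 5 / 18 := by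
    have := T.sum
    rw [ha, hc] at this
    linarith
  obtain ⟨hx, hy⟩ := ne23 D T hc (le_of_eq_of_le ha (by norm_num))
  have hcap : ∀ v, 3 ≤ (ts v).card → (ts v).card + 1 ≤ n := fun v hv => cap23 D T hc hv
  have hc : θ c = 12 / 18 := by rw [hc]; norm_num
  have hdeg := fun v (hv : 3 ≤ (ts v).card) => degb_1_5_12 D T ha hb hc hv
  by_cases hn22 : n ≤ 22
  · have h := spec1 D T 1 5 12 18 21 (by norm_num) (by norm_num) (by norm_num) (by norm_num)
      (ha.trans (by norm_num)) (hb.trans (by norm_num)) (hc.trans (by norm_num)) hx hy 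
      (fun v hv => by
        obtain ⟨m, l, j, st, h1, h2⟩ := hdeg v hv
        have := hcap v hv
        omega) (39) (859) (74) (-126) (495) (by norm_num) (by norm_num) (by decide +kernel)
    have h2 : (22 : ℝ) ≤ n := by exact_mod_cast hn
    norm_num at h
    linarith
  replace hn : 23 ≤ n := by omega
  by_cases hn28 : n ≤ 28
  · have h := spec1 D T 1 5 12 18 27 (by norm_num) (by norm_num) (by norm_num) (by norm_num)
      (ha.trans (by norm_num)) (hb.trans (by norm_num)) (hc.trans (by norm_num)) hx hy 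
      (fun v hv => by
        obtain ⟨m, l, j, st, h1, h2⟩ := hdeg v hv
        have := hcap v hv
        omega) (18) (437) (25) (-66) (252) (by norm_num) (by norm_num) (by decide +kernel)
    have h2 : (23 : ℝ) ≤ n := by exact_mod_cast hn
    norm_num at h
    linarith
  replace hn : 29 ≤ n := by omega
  have h := spec1 D T 1 5 12 18 37 (by norm_num) (by norm_num) (by norm_num) (by norm_num)
      (ha.trans (by norm_num)) (hb.trans (by norm_num)) (hc.trans (by norm_num)) hx hy 
      (fun v hv => by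
        obtain ⟨m, l, j, st, h1, h2⟩ := hdeg v hv
        have := hcap v hv
        omega) (31) (1054) (-25) (-172) (609) (by norm_num) (by norm_num) (by decide +kernel)
  have h2 : (29 : ℝ) ≤ n := by exact_mod_cast hn
  norm_num at h
  linarith

/-- Degree bound from the type equation. -/
theorem degb_1_4_10 (D : Dat n S θ Sd g vs ts) {a b c : Pl} (T : Tri S θ a b c)
    (ha : θ a = 1 / 15) (hb : θ b = 4 / 15) (hc : θ c = 10 / 15) {v : Pl}
    (hv : 3 ≤ (ts v).card) : ∃ m l j st : ℕ, m * 1 + l * 4 + j * 10 + st * 15 = 30 ∧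
      (ts v).card = m + l + j + st := by
  have h1 := (T.ty D hv).1
  have h2 := T.deg g ts v
  refine ⟨_, _, _, _, ?_, h2⟩
  rw [ha, hb, hc] at h1
  have h3 : ((N g ts a v * 1 + N g ts b v * 4 + N g ts c v * 10 + stc S g ts v * 15 : ℕ) : ℝ)
      = (30 : ℕ) := by
    push_cast
    linarith
  exact_mod_cast h3

/-- Angles 1/15, 4/15, 10/15. -/
theorem sp_1_15 (D : Dat n S θ Sd g vs ts) {a b c : Pl} (T : Tri S θ a b c) (hn : 22 ≤ n)
    (ha : θ a = 1 / 15) (hc : θ c = 2 / 3) : False := by
  have hb : θ b = 4 / 15 := by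
    have := T.sum
    rw [ha, hc] at this
    linarith
  obtain ⟨hx, hy⟩ := ne23 D T hc (le_of_eq_of_le ha (by norm_num))
  have hcap : ∀ v, 3 ≤ (ts v).card → (ts v).card + 1 ≤ n := fun v hv => cap23 D T hc hv
  have hc : θ c = 10 / 15 := by rw [hc]; norm_num
  have hdeg := fun v (hv : 3 ≤ (ts v).card) => degb_1_4_10 D T ha hb hc hv
  by_cases hn22 : n ≤ 22
  · have h := spec1 D T 1 4 10 15 21 (by norm_num) (by norm_num) (by norm_num) (by norm_num)
      (ha.trans (by norm_num)) (hb.trans (by norm_num)) (hc.trans (by norm_num)) hx hy 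
      (fun v hv => by
        obtain ⟨m, l, j, st, h1, h2⟩ := hdeg v hv
        have := hcap v hv
        omega) (45) (944) (131) (-145) (570) (by norm_num) (by norm_num) (by decide +kernel)
    have h2 : (22 : ℝ) ≤ n := by exact_mod_cast hn
    norm_num at h
    linarith
  replace hn : 23 ≤ n := by omega
  by_cases hn27 : n ≤ 27
  · have h := spec1 D T 1 4 10 15 26 (by norm_num) (by norm_num) (by norm_num) (by norm_num)
      (ha.trans (by norm_num)) (hb.trans (by norm_num)) (hc.trans (by norm_num)) hx hy 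
      (fun v hv => by
        obtain ⟨m, l, j, st, h1, h2⟩ := hdeg v hv
        have := hcap v hv
        omega) (240) (5702) (638) (-925) (3495) (by norm_num) (by norm_num) (by decide +kernel)
    have h2 : (23 : ℝ) ≤ n := by exact_mod_cast hn
    norm_num at h
    linarith
  replace hn : 28 ≤ n := by omega
  have h := spec1 D T 1 4 10 15 31 (by norm_num) (by norm_num) (by norm_num) (by norm_num)
      (ha.trans (by norm_num)) (hb.trans (by norm_num)) (hc.trans (by norm_num)) hx hy 
      (fun v hv => by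
        obtain ⟨m, l, j, st, h1, h2⟩ := hdeg v hv
        have := hcap v hv
        omega) (11) (308) (25) (-53) (192) (by norm_num) (by norm_num) (by decide +kernel)
  have h2 : (28 : ℝ) ≤ n := by exact_mod_cast hn
  norm_num at h
  linarith

/-- Degree bound from the type equation. -/
theorem degb_2_5_14 (D : Dat n S θ Sd g vs ts) {a b c : Pl} (T : Tri S θ a b c)
    (ha : θ a = 2 / 21) (hb : θ b = 5 / 21) (hc : θ c = 14 / 21) {v : Pl}
    (hv : 3 ≤ (ts v).card) : ∃ m l j st : ℕ, m * 2 + l * 5 + j * 14 + st * 21 = 42 ∧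
      (ts v).card = m + l + j + st := by
  have h1 := (T.ty D hv).1
  have h2 := T.deg g ts v
  refine ⟨_, _, _, _, ?_, h2⟩
  rw [ha, hb, hc] at h1
  have h3 : ((N g ts a v * 2 + N g ts b v * 5 + N g ts c v * 14 + stc S g ts v * 21 : ℕ) : ℝ)
      = (42 : ℕ) := by
    push_cast
    linarith
  exact_mod_cast h3

/-- Angles 2/21, 5/21, 14/21. -/
theorem sp_2_21 (D : Dat n S θ Sd g vs ts) {a b c : Pl} (T : Tri S θ a b c) (hn : 22 ≤ n)
    (ha : θ a = 2 / 21) (hc : θ c = 2 / 3) : False := by
  have hb : θ b = 5 / 21 := by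
    have := T.sum
    rw [ha, hc] at this
    linarith
  obtain ⟨hx, hy⟩ := ne23 D T hc (le_of_eq_of_le ha (by norm_num))
  have hcap : ∀ v, 3 ≤ (ts v).card → (ts v).card + 1 ≤ n := fun v hv => cap23 D T hc hv
  have hc : θ c = 14 / 21 := by rw [hc]; norm_num
  have hdeg := fun v (hv : 3 ≤ (ts v).card) => degb_2_5_14 D T ha hb hc hv
  have h := spec1 D T 2 5 14 21 22 (by norm_num) (by norm_num) (by norm_num) (by norm_num)
      (ha.trans (by norm_num)) (hb.trans (by norm_num)) (hc.trans (by norm_num)) hx hy 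
      (fun v hv => by
        obtain ⟨m, l, j, st, h1, h2⟩ := hdeg v hv
        have := hcap v hv
        omega) (9) (166) (37) (-26) (105) (by norm_num) (by norm_num) (by decide +kernel)
  have h2 : (22 : ℝ) ≤ n := by exact_mod_cast hn
  norm_num at h
  linarith

/-- Degree bound from the type equation. -/
theorem degb_1_2_6 (D : Dat n S θ Sd g vs ts) {a b c : Pl} (T : Tri S θ a b c)
    (ha : θ a = 1 / 9) (hb : θ b = 2 / 9) (hc : θ c = 6 / 9) {v : Pl}
    (hv : 3 ≤ (ts v).card) : ∃ m l j st : ℕ, m * 1 + l * 2 + j * 6 + st * 9 = 18 ∧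
      (ts v).card = m + l + j + st := by
  have h1 := (T.ty D hv).1
  have h2 := T.deg g ts v
  refine ⟨_, _, _, _, ?_, h2⟩
  rw [ha, hb, hc] at h1
  have h3 : ((N g ts a v * 1 + N g ts b v * 2 + N g ts c v * 6 + stc S g ts v * 9 : ℕ) : ℝ)
      = (18 : ℕ) := by
    push_cast
    linarith
  exact_mod_cast h3

/-- Angles 1/9, 2/9, 6/9. -/
theorem sp_1_9 (D : Dat n S θ Sd g vs ts) {a b c : Pl} (T : Tri S θ a b c) (hn : 22 ≤ n)
    (ha : θ a = 1 / 9) (hc : θ c = 2 / 3) : False := by
  have hb : θ b = 2 / 9 := by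
    have := T.sum
    rw [ha, hc] at this
    linarith
  have hcap : ∀ v, 3 ≤ (ts v).card → (ts v).card + 1 ≤ n := fun v hv => cap23 D T hc hv
  have hc : θ c = 6 / 9 := by rw [hc]; norm_num
  have hdeg := fun v (hv : 3 ≤ (ts v).card) => degb_1_2_6 D T ha hb hc hv
  have h := spec2 D T 1 2 6 9 19 (by norm_num) (by norm_num) (by norm_num) (by norm_num)
      (ha.trans (by norm_num)) (hb.trans (by norm_num)) (hc.trans (by norm_num)) 
      (fun v hv => by
        obtain ⟨m, l, j, st, h1, h2⟩ := hdeg v hv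
        have := hcap v hv
        omega) (11) (176) (69) (-13) (72) (by norm_num) (by norm_num) (by decide +kernel)
  have h2 : (22 : ℝ) ≤ n := by exact_mod_cast hn
  norm_num at h
  linarith

/-- Degree bound from the type equation. -/
theorem degb_3_5_16 (D : Dat n S θ Sd g vs ts) {a b c : Pl} (T : Tri S θ a b c)
    (ha : θ a = 3 / 24) (hb : θ b = 5 / 24) (hc : θ c = 16 / 24) {v : Pl}
    (hv : 3 ≤ (ts v).card) : ∃ m l j st : ℕ, m * 3 + l * 5 + j * 16 + st * 24 = 48 ∧
      (ts v).card = m + l + j + st := by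
  have h1 := (T.ty D hv).1
  have h2 := T.deg g ts v
  refine ⟨_, _, _, _, ?_, h2⟩
  rw [ha, hb, hc] at h1
  have h3 : ((N g ts a v * 3 + N g ts b v * 5 + N g ts c v * 16 + stc S g ts v * 24 : ℕ) : ℝ)
      = (48 : ℕ) := by
    push_cast
    linarith
  exact_mod_cast h3

/-- Angles 3/24, 5/24, 16/24. -/
theorem sp_1_8 (D : Dat n S θ Sd g vs ts) {a b c : Pl} (T : Tri S θ a b c) (hn : 22 ≤ n)
    (ha : θ a = 3 / 24) (hc : θ c = 2 / 3) : False := by
  have hb : θ b = 5 / 24 := by
    have := T.sum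
    rw [ha, hc] at this
    linarith
  have hcap : ∀ v, 3 ≤ (ts v).card → (ts v).card + 1 ≤ n := fun v hv => cap23 D T hc hv
  have hc : θ c = 16 / 24 := by rw [hc]; norm_num
  have hdeg := fun v (hv : 3 ≤ (ts v).card) => degb_3_5_16 D T ha hb hc hv
  have h := spec2 D T 3 5 16 24 17 (by norm_num) (by norm_num) (by norm_num) (by norm_num)
      (ha.trans (by norm_num)) (hb.trans (by norm_num)) (hc.trans (by norm_num)) 
      (fun v hv => by
        obtain ⟨m, l, j, st, h1, h2⟩ := hdeg v hv
        have := hcap v hv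
        omega) (22) (308) (147) (-21) (129) (by norm_num) (by norm_num) (by decide +kernel)
  have h2 : (22 : ℝ) ≤ n := by exact_mod_cast hn
  norm_num at h
  linarith

/-- Degree bound from the type equation. -/
theorem degb_2_3_10 (D : Dat n S θ Sd g vs ts) {a b c : Pl} (T : Tri S θ a b c)
    (ha : θ a = 2 / 15) (hb : θ b = 3 / 15) (hc : θ c = 10 / 15) {v : Pl}
    (hv : 3 ≤ (ts v).card) : ∃ m l j st : ℕ, m * 2 + l * 3 + j * 10 + st * 15 = 30 ∧
      (ts v).card = m + l + j + st := by
  have h1 := (T.ty D hv).1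
  have h2 := T.deg g ts v
  refine ⟨_, _, _, _, ?_, h2⟩
  rw [ha, hb, hc] at h1
  have h3 : ((N g ts a v * 2 + N g ts b v * 3 + N g ts c v * 10 + stc S g ts v * 15 : ℕ) : ℝ)
      = (30 : ℕ) := by
    push_cast
    linarith
  exact_mod_cast h3

/-- Angles 2/15, 3/15, 10/15. -/
theorem sp_2_15 (D : Dat n S θ Sd g vs ts) {a b c : Pl} (T : Tri S θ a b c) (hn : 22 ≤ n)
    (ha : θ a = 2 / 15) (hc : θ c = 2 / 3) : False := by
  have hb : θ b = 3 / 15 := by
    have := T.sum
    rw [ha, hc] at this
    linarith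
  have hcap : ∀ v, 3 ≤ (ts v).card → (ts v).card + 1 ≤ n := fun v hv => cap23 D T hc hv
  have hc : θ c = 10 / 15 := by rw [hc]; norm_num
  have hdeg := fun v (hv : 3 ≤ (ts v).card) => degb_2_3_10 D T ha hb hc hv
  have h := spec2 D T 2 3 10 15 16 (by norm_num) (by norm_num) (by norm_num) (by norm_num)
      (ha.trans (by norm_num)) (hb.trans (by norm_num)) (hc.trans (by norm_num)) 
      (fun v hv => by
        obtain ⟨m, l, j, st, h1, h2⟩ := hdeg v hv
        have := hcap v hv
        omega) (21) (266) (168) (-20) (123) (by norm_num) (by norm_num) (by decide +kernel)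
  have h2 : (22 : ℝ) ≤ n := by exact_mod_cast hn
  norm_num at h
  linarith

end Pool.Agent.Work.MP_bd00dd_co
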