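import Pool.Agent.Work.MP_bd00dd_co.C.P22b

/-!
The triangle with angles 1/10, 4/10, 5/10 and n = 22: contradiction.

Proof: D.ap with F i v = 46 (deg v - 2) - (721, 194 or 92 if the corner a, b or c of the tile i is
at v) + E i v, where E i v = 0 unless deg (g i a) = 20, and then E i v = -107 at v = g i a, 84 at
v = g i b, 23 at v = g i c (and 0 at side vertices). Tile sum: 46 * 22 - 1007 = 5 > 0
(corner_sum, D.cnt). Vertex sums <= 0, for a vertex v of type (m, l, j, st), degree d:
d = 20: (20,0,0,0): 46 * 360 - 721 * 20 - 107 * 20 = 0.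
d ≠ 20: all E i v with g i a = v vanish; by p22c E i v = 84 only if d = 4 or 5, E i v = 23 only if
d = 3. d = 3: (0,0,2,1): 138 - 184 + 46 = 0. d = 4: (0,0,4,0): 368 - 368 = 0; (1,1,1,1):
368 - 1007 + 84 < 0. d = 5: (0,5,0,0): 690 - 970 + 84 * 3 < 0 by p22n; (1,1,3,0): 690 - 1191 + 84;
(2,2,0,1): 690 - 1830 + 168 < 0. d >= 6: E = 0 and 46 d (d - 2) <= 721 m + 194 l + 92 j for all
types (finite check, the numbers m, l, j, st satisfy m + 4 l + 5 j + 10 st = 20).
-/

namespace Pool.Agent.Work.MP_bd00dd_co

variable {ι : Type*} {n : ℕ} {S : Finset Pl} {θ : Pl → ℝ} {Sd : Pl → Pl → Prop}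
  {g : ι → Pl ≃ᵢ Pl} {vs : ι → Finset Pl} {ts : Pl → Finset ι}

private theorem p22_label {ι : Type*} (g : ι → Pl ≃ᵢ Pl) (ts : Pl → Finset ι)
    [DecidableEq Pl] (s v : Pl) (x : ℝ) :
    ∑ i ∈ ts v, (if (g i).symm v = s then x else 0) = x * N g ts s v := by
  rw [← Finset.sum_filter, Finset.sum_const, nsmul_eq_mul, mul_comm]
  congr 2
  unfold N
  congr 1
  ext i
  simp only [Finset.mem_filter]

private theorem p22_S {S : Finset Pl} {θ : Pl → ℝ} {a b c : Pl} (T : Tri S θ a b c)
    (f : Pl → ℝ) : ∑ s ∈ S, f s = f a + f b + f c := by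
  classical
  have hS : S = {a, b, c} := by
    ext s
    rw [T.mem s]
    simp
  rw [hS, Finset.sum_insert (by simp [T.ab, T.ac]), Finset.sum_insert (by simp [T.bc]),
    Finset.sum_singleton, add_assoc]

/-- the finite check -/
private theorem p22_check (m l j st d nb nc : ℕ) (h1 : m + 4 * l + 5 * j + 10 * st = 20)
    (h2 : st ≤ 1) (h3 : d = m + l + j + st) (hd : 3 ≤ d) (h20 : d ≠ 20) (hnb : nb ≤ l)
    (hnc : nc ≤ j) (hnb' : 0 < nb → 4 ≤ d ∧ d ≤ 5) (hnc' : 0 < nc → d = 3)
    (hnb5 : d = 5 → l = 5 → nb ≤ 3) :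
    46 * ((d : ℤ) * ((d : ℤ) - 2)) + 84 * nb + 23 * nc ≤ 721 * m + 194 * l + 92 * j := by
  have hl : l ≤ 5 := by omega
  have hj : j ≤ 4 := by omega
  interval_cases st <;> interval_cases j <;> interval_cases l <;>
    first
      | omega
      | (obtain ⟨m', rfl⟩ : ∃ m', m = m' := ⟨m, rfl⟩
         have hm : m ≤ 20 := by omega
         interval_cases m <;> first | omega | (subst h3; norm_num at *; omega))

theorem p22 (D : Dat n S θ Sd g vs ts) {a b c : Pl} (T : Tri S θ a b c) (hn : n = 22)
    (ha : θ a = 1 / 10) (hb : θ b = 2 / 5) (hc : θ c = 1 / 2) : False := by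
  classical
  have haS : a ∈ S := (T.mem a).2 (Or.inl rfl)
  have hbS : b ∈ S := (T.mem b).2 (Or.inr (Or.inl rfl))
  have hcS : c ∈ S := (T.mem c).2 (Or.inr (Or.inr rfl))
  set f : Pl → ℝ := fun s => (if s = a then 721 else 0) + (if s = b then 194 else 0) +
    (if s = c then 92 else 0) with hf
  set e : Pl → ℝ := fun s => if s = a then -107 else if s = b then 84 else
    if s = c then 23 else 0 with he
  have hfS : ∀ s, s ∉ S → f s = 0 := by
    intro s hs
    have h1 : s ≠ a := fun e => hs ((T.mem s).2 (Or.inl e))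
    have h2 : s ≠ b := fun e => hs ((T.mem s).2 (Or.inr (Or.inl e)))
    have h3 : s ≠ c := fun e => hs ((T.mem s).2 (Or.inr (Or.inr e)))
    simp [hf, h1, h2, h3]
  have heS : ∀ s, s ∉ S → e s = 0 := by
    intro s hs
    have h1 : s ≠ a := fun e => hs ((T.mem s).2 (Or.inl e))
    have h2 : s ≠ b := fun e => hs ((T.mem s).2 (Or.inr (Or.inl e)))
    have h3 : s ≠ c := fun e => hs ((T.mem s).2 (Or.inr (Or.inr e)))
    simp [he, h1, h2, h3]
  have hfa : f a = 721 := by simp [hf, T.ab, T.ac]
  have hfb : f b = 194 := by simp [hf, T.ab.symm, T.bc]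
  have hfc : f c = 92 := by simp [hf, T.ac.symm, T.bc.symm]
  have hea : e a = -107 := by simp [he]
  have heb : e b = 84 := by simp [he, T.ab.symm]
  have hec : e c = 23 := by simp [he, T.ac.symm, T.bc.symm]
  set E : ι → Pl → ℝ := fun i v => if (ts (g i a)).card = 20 then e ((g i).symm v) else 0 with hE
  set F : ι → Pl → ℝ := fun i v => 46 * (((ts v).card : ℝ) - 2) - f ((g i).symm v) + E i v
    with hF
  set A1 : Finset ℝ := (Finset.range (n + 1)).image (fun d : ℕ => 46 * ((d : ℝ) - 2)) with hA1
  set A2 : Finset ℝ := insert 0 (S.image f) with hA2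
  set A3 : Finset ℝ := insert 0 (S.image e) with hA3
  set Q' : Finset ℝ := (A1 ×ˢ A2 ×ˢ A3).image (fun w => w.1 - w.2.1 + w.2.2) with hQ'
  have key1 : ∀ i, ∀ v ∈ vs i, F i v ∈ Q' := by
    intro i v hv
    have hd : (ts v).card ≤ n := deg_le D ((D.mem i v).1 hv).2
    rw [hQ', Finset.mem_image]
    refine ⟨(46 * (((ts v).card : ℝ) - 2), f ((g i).symm v), E i v), ?_, rfl⟩
    rw [Finset.mem_product, Finset.mem_product]
    refine ⟨?_, ?_, ?_⟩
    · show 46 * (((ts v).card : ℝ) - 2) ∈ A1
      rw [hA1, Finset.mem_image]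
      exact ⟨(ts v).card, Finset.mem_range.2 (by omega), rfl⟩
    · show f ((g i).symm v) ∈ A2
      rw [hA2, Finset.mem_insert, Finset.mem_image]
      by_cases hh : (g i).symm v ∈ S
      · right; exact ⟨_, hh, rfl⟩
      · left; exact hfS _ hh
    · show E i v ∈ A3
      rw [hA3, Finset.mem_insert, Finset.mem_image]
      simp only [hE]
      split_ifs with h1
      · by_cases hh : (g i).symm v ∈ S
        · right; exact ⟨_, hh, rfl⟩
        · left; exact heS _ hh
      · left; rfl
  have key2 : ∀ v, 3 ≤ (ts v).card → ∑ i ∈ ts v, F i v ≤ 0 := by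
    intro v hv
    have h1 : ∑ i ∈ ts v, f ((g i).symm v) =
        721 * N g ts a v + 194 * N g ts b v + 92 * N g ts c v := by
      simp only [hf]
      rw [Finset.sum_add_distrib, Finset.sum_add_distrib, p22_label, p22_label, p22_label]
    have h2 : ∑ i ∈ ts v, F i v = 46 * (((ts v).card : ℝ) * ((ts v).card - 2)) -
        ∑ i ∈ ts v, f ((g i).symm v) + ∑ i ∈ ts v, E i v := by
      simp only [hF]
      rw [Finset.sum_add_distrib, Finset.sum_sub_distrib, Finset.sum_const, nsmul_eq_mul]
      ring
    rw [h2, h1]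
    obtain ⟨t1, t2, t3⟩ := p22a_ty D T ha hb hc hv
    by_cases h20 : (ts v).card = 20
    · have hm : N g ts a v = 20 ∧ N g ts b v = 0 ∧ N g ts c v = 0 := by omega
      have hall : ∀ k ∈ ts v, g k a = v := p22a_all (s := a) (by omega)
      have hEs : ∑ i ∈ ts v, E i v = 20 * (-107) := by
        have h4 : ∀ i ∈ ts v, E i v = -107 := by
          intro i hi
          simp only [hE]
          have h5 : (g i).symm v = a := by rw [← hall i hi, (g i).symm_apply_apply]
          rw [hall i hi, if_pos h20, h5, hea]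
        rw [Finset.sum_congr rfl h4, Finset.sum_const, nsmul_eq_mul, h20]
        norm_num
      rw [hEs, h20, hm.1, hm.2.1, hm.2.2]
      norm_num
    · set nb := ((ts v).filter (fun i => g i b = v ∧ (ts (g i a)).card = 20)).card with hnb
      set nc := ((ts v).filter (fun i => g i c = v ∧ (ts (g i a)).card = 20)).card with hnc
      have hEs : ∑ i ∈ ts v, E i v ≤ 84 * nb + 23 * nc := by
        have h4 : ∀ i ∈ ts v, E i v ≤ 84 * (if g i b = v ∧ (ts (g i a)).card = 20 then 1 else 0) +
            23 * (if g i c = v ∧ (ts (g i a)).card = 20 then 1 else 0) := by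
          intro i hi
          simp only [hE]
          by_cases h5 : (ts (g i a)).card = 20
          · rw [if_pos h5]
            simp only [he]
            by_cases h6 : (g i).symm v = a
            · exfalso
              apply h20
              rw [← h5, ← h6, (g i).apply_symm_apply]
            rw [if_neg h6]
            by_cases h7 : (g i).symm v = b
            · have h8 : g i b = v := by rw [← h7, (g i).apply_symm_apply]
              have h9 : ¬ (g i c = v ∧ (ts (g i a)).card = 20) := by
                rintro ⟨h10, -⟩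
                exact T.bc ((g i).injective (h8.trans h10.symm))
              rw [if_pos h7, if_pos ⟨h8, h5⟩, if_neg h9]
              norm_num
            rw [if_neg h7]
            by_cases h8 : (g i).symm v = c
            · have h9 : g i c = v := by rw [← h8, (g i).apply_symm_apply]
              have h10 : ¬ (g i b = v ∧ (ts (g i a)).card = 20) := by
                rintro ⟨h10, -⟩
                exact T.bc ((g i).injective (h10.trans h9.symm))
              rw [if_pos h8, if_neg h10, if_pos ⟨h9, h5⟩]
              norm_num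
            rw [if_neg h8]
            positivity
          · rw [if_neg h5]
            positivity
        refine (Finset.sum_le_sum h4).trans (le_of_eq ?_)
        rw [Finset.sum_add_distrib, ← Finset.mul_sum, ← Finset.mul_sum, Finset.sum_boole,
          Finset.sum_boole]
      have hnbl : nb ≤ N g ts b v := by
        rw [hnb]
        unfold N
        refine Finset.card_le_card ?_
        intro i hi
        obtain ⟨i1, i2, -⟩ := Finset.mem_filter.1 hi
        exact Finset.mem_filter.2 ⟨i1, by rw [← i2, (g i).symm_apply_apply]⟩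
      have hncj : nc ≤ N g ts c v := by
        rw [hnc]
        unfold N
        refine Finset.card_le_card ?_
        intro i hi
        obtain ⟨i1, i2, -⟩ := Finset.mem_filter.1 hi
        exact Finset.mem_filter.2 ⟨i1, by rw [← i2, (g i).symm_apply_apply]⟩
      have hnb' : 0 < nb → 4 ≤ (ts v).card ∧ (ts v).card ≤ 5 := by
        intro h
        obtain ⟨i, hi⟩ := Finset.card_pos.1 h
        obtain ⟨-, i2, i3⟩ := Finset.mem_filter.1 hi
        have := (p22c D T hn ha hb hc i3).2
        rwa [i2] at this
      have hnc' : 0 < nc → (ts v).card = 3 := by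
        intro h
        obtain ⟨i, hi⟩ := Finset.card_pos.1 h
        obtain ⟨-, i2, i3⟩ := Finset.mem_filter.1 hi
        have := (p22c D T hn ha hb hc i3).1
        rwa [i2] at this
      have hnb5 : (ts v).card = 5 → N g ts b v = 5 → nb ≤ 3 := by
        intro h5 h6
        have := p22n D T hn ha hb hc h5 h6
        convert this
      have hchk := p22_check (N g ts a v) (N g ts b v) (N g ts c v) (stc S g ts v) (ts v).card
        nb nc t1 t2 t3 hv h20 hnbl hncj hnb' hnc' hnb5
      have hR : 46 * (((ts v).card : ℝ) * ((ts v).card - 2)) + 84 * nb + 23 * nc ≤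
          721 * N g ts a v + 194 * N g ts b v + 92 * N g ts c v := by
        exact_mod_cast hchk
      linarith
  obtain ⟨i, hi⟩ := D.ap F Q' key1 key2
  have hgen : ∀ (u : Pl → ℝ), (∀ s, s ∉ S → u s = 0) →
      ∑ v ∈ vs i, u ((g i).symm v) = u a + u b + u c := by
    intro u hu
    have h2 := corner_sum D i u (fun _ => 0)
    rw [Finset.sum_const_zero, add_zero, p22_S T] at h2
    rw [← h2]
    refine Finset.sum_congr rfl fun v _ => ?_
    split_ifs with hh
    · rfl
    · exact hu _ hh
  have h1 : ∑ v ∈ vs i, f ((g i).symm v) = 1007 := by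
    rw [hgen f hfS, hfa, hfb, hfc]; norm_num
  have h1' : ∑ v ∈ vs i, E i v = 0 := by
    simp only [hE]
    by_cases h5 : (ts (g i a)).card = 20
    · simp only [h5, if_true]
      rw [hgen e heS, hea, heb, hec]; norm_num
    · simp only [h5, if_false]
      exact Finset.sum_const_zero
  have h2 : ∑ v ∈ vs i, (((ts v).card : ℝ) - 2) = 22 := by
    rw [Finset.sum_sub_distrib, Finset.sum_const, nsmul_eq_mul]
    have h3 : (∑ v ∈ vs i, ((ts v).card : ℝ)) = n + 2 * (vs i).card := by
      exact_mod_cast D.cnt i
    rw [h3, hn]; push_cast; ring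
  have h4 : ∑ v ∈ vs i, F i v = 5 := by
    simp only [hF]
    rw [Finset.sum_add_distrib, Finset.sum_sub_distrib, ← Finset.mul_sum, h1, h1', h2]
    norm_num
  rw [h4] at hi
  norm_num at hi

end Pool.Agent.Work.MP_bd00dd_co
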