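import Pool.Agent.Work.MP_bd00dd_co.C.Chk
import Pool.Agent.Work.MP_bd00dd_co.C.P22

/-!
The triangle with angles 1/10, 4/10, 5/10.
-/

namespace Pool.Agent.Work.MP_bd00dd_co

variable {ι : Type*} {n : ℕ} {S : Finset Pl} {θ : Pl → ℝ} {Sd : Pl → Pl → Prop}
  {g : ι → Pl ≃ᵢ Pl} {vs : ι → Finset Pl} {ts : Pl → Finset ι}

/-- Degree bound from the type equation. -/
theorem degb_1_4_5 (D : Dat n S θ Sd g vs ts) {a b c : Pl} (T : Tri S θ a b c)
    (ha : θ a = 1 / 10) (hb : θ b = 4 / 10) (hc : θ c = 5 / 10) {v : Pl}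
    (hv : 3 ≤ (ts v).card) : ∃ m l j st : ℕ, m * 1 + l * 4 + j * 5 + st * 10 = 20 ∧
      (ts v).card = m + l + j + st := by
  have h1 := (T.ty D hv).1
  have h2 := T.deg g ts v
  refine ⟨_, _, _, _, ?_, h2⟩
  rw [ha, hb, hc] at h1
  have h3 : ((N g ts a v * 1 + N g ts b v * 4 + N g ts c v * 5 + stc S g ts v * 10 : ℕ) : ℝ)
      = (20 : ℕ) := by
    push_cast
    linarith
  exact_mod_cast h3

/-- n >= 24: certificate with value 23; n = 23: certificate with value 22.90; n = 22: C/P22. -/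
theorem sq_1_10 (D : Dat n S θ Sd g vs ts) {a b c : Pl} (T : Tri S θ a b c) (hn : 22 ≤ n)
    (ha : θ a = 1 / 10) (hc : θ c = 1 / 2) : False := by
  have hb : θ b = 4 / 10 := by
    have := T.sum
    rw [ha, hc] at this
    linarith
  have h22 : n ≠ 22 := fun h => p22 D T h ha (hb.trans (by norm_num)) hc
  have hc : θ c = 5 / 10 := by rw [hc]; norm_num
  have hdeg := fun v (hv : 3 ≤ (ts v).card) => degb_1_4_5 D T ha hb hc hv
  have h := spec0 D T 1 4 5 10 21 (by norm_num) (by norm_num) (by norm_num) (by norm_num)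
    (ha.trans (by norm_num)) (hb.trans (by norm_num)) (hc.trans (by norm_num))
    (fun v hv => by
      obtain ⟨m, l, j, st, h1, h2⟩ := hdeg v hv
      omega) (1) (18) (3) (2) (by norm_num) (by decide +kernel)
  have h' := spec2 D T 1 4 5 10 21 (by norm_num) (by norm_num) (by norm_num) (by norm_num)
    (ha.trans (by norm_num)) (hb.trans (by norm_num)) (hc.trans (by norm_num))
    (fun v hv => by
      obtain ⟨m, l, j, st, h1, h2⟩ := hdeg v hv
      omega) (10) (180) (29) (20) (5) (by norm_num) (by norm_num) (by decide +kernel)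
  have h2 : (23 : ℝ) ≤ n := by
    have : 23 ≤ n := by omega
    exact_mod_cast this
  norm_num at h'
  linarith

end Pool.Agent.Work.MP_bd00dd_co
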