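import Pool.Agent.Work.MP_bd00dd_co.C.Ar
import Pool.Agent.Work.MP_bd00dd_co.C.Sp1
import Pool.Agent.Work.MP_bd00dd_co.C.Sp2
import Pool.Agent.Work.MP_bd00dd_co.C.Sp12
import Pool.Agent.Work.MP_bd00dd_co.C.Sq10

/-!
Triangles with largest angle 2/3 or 1/2: n <= 21.
-/

namespace Pool.Agent.Work.MP_bd00dd_co

variable {ι : Type*} {n : ℕ} {S : Finset Pl} {θ : Pl → ℝ} {Sd : Pl → Pl → Prop}
  {g : ι → Pl ≃ᵢ Pl} {vs : ι → Finset Pl} {ts : Pl → Finset ι}

/-- Proof: for the twelve special values of α = θ a use the special certificates. Otherwise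
Tri.cert with x = 10 + K, y = 10 - K, z = 1, K = n^2: for a vertex with l < m (ar23):
K (m - l) >= n^2 >= d^2 (deg_le) and 10 (m + l) + j >= 0. If l = m then l + 2 j + 3 st = 6, the
cases (j, st, l) = (0,0,6), (1,0,4), (2,0,2), (3,0,0), (0,1,3), (1,1,1) with d = 2 l + j + st:
120 <= 120, 63 <= 81, 24 <= 42, 3 <= 3, 35 <= 60, 8 <= 21. So n <= 21. -/
theorem k23 (D : Dat n S θ Sd g vs ts) {a b c : Pl} (T : Tri S θ a b c) (hn : 22 ≤ n)
    (hc : θ c = 2 / 3) : False := by
  by_cases x1 : θ a = 1 / 6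
  · exact sp_1_6 D T hn (by rw [x1]) hc
  by_cases x2 : θ a = 1 / 9
  · exact sp_1_9 D T hn (by rw [x2]) hc
  by_cases x3 : θ a = 1 / 12
  · exact sp_1_12 D T hn (by rw [x3]) hc
  by_cases x4 : θ a = 1 / 15
  · exact sp_1_15 D T hn (by rw [x4]) hc
  by_cases x5 : θ a = 1 / 18
  · exact sp_1_18 D T hn (by rw [x5]) hc
  by_cases x6 : θ a = 1 / 21
  · exact sp_1_21 D T hn (by rw [x6]) hc
  by_cases x7 : θ a = 2 / 15
  · exact sp_2_15 D T hn (by rw [x7]) hc
  by_cases x8 : θ a = 2 / 21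
  · exact sp_2_21 D T hn (by rw [x8]) hc
  by_cases x9 : θ a = 3 / 21
  · exact sp_1_7 D T hn (by rw [x9]) hc
  by_cases x10 : θ a = 3 / 24
  · exact sp_1_8 D T hn (by rw [x10]) hc
  by_cases x11 : θ a = 4 / 27
  · exact sp_4_27 D T hn (by rw [x11]) hc
  by_cases x12 : θ a = 5 / 33
  · exact sp_5_33 D T hn (by rw [x12]) hc
  have pa := D.pos a ((T.mem a).2 (Or.inl rfl))
  have hs := T.sum
  have hfin := T.cert D (10 + (n : ℝ) ^ 2) (10 - (n : ℝ) ^ 2) 1 (by
    intro v hv
    have hty := T.ty D hv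
    have hdeg := T.deg g ts v
    have hdn := deg_le D hv
    rw [hc] at hty
    obtain ⟨hlm, heq⟩ := ar23 pa T.le1 (by rw [hc] at hs; linarith) x1 x2 x3 x4 x5 x6 x7 x8 x9 x10
      x11 x12 hty
    have hst := hty.2.1
    generalize N g ts a v = m at *
    generalize N g ts b v = l at *
    generalize N g ts c v = q at *
    generalize stc S g ts v = r at *
    rcases Nat.lt_or_ge l m with hlt | hge
    · have f1 : ((ts v).card : ℝ) ≤ n := by exact_mod_cast hdn
      have f2 : (1 : ℝ) ≤ (m : ℝ) - l := by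
        have : (l : ℝ) + 1 ≤ m := by exact_mod_cast hlt
        linarith
      have f3 : (0 : ℝ) ≤ (ts v).card := Nat.cast_nonneg _
      have f4 : (0 : ℝ) ≤ m := Nat.cast_nonneg _
      have f5 : (0 : ℝ) ≤ l := Nat.cast_nonneg _
      have f6 : (0 : ℝ) ≤ q := Nat.cast_nonneg _
      have f7 : (n : ℝ) ^ 2 ≤ (n : ℝ) ^ 2 * ((m : ℝ) - l) :=
        le_mul_of_one_le_right (sq_nonneg _) f2
      have f8 : ((ts v).card : ℝ) * (ts v).card ≤ (n : ℝ) ^ 2 := by
        rw [sq]
        exact mul_le_mul f1 f1 f3 (f3.trans f1)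
      nlinarith
    · have hlm' : l = m := le_antisymm hlm hge
      have h6 := heq hlm'
      rw [hdeg, ← hlm']
      have hl : l ≤ 6 := by omega
      have hq : q ≤ 3 := by omega
      clear hty hdeg hdn hlm heq hge hlm'
      interval_cases r <;> interval_cases q <;> interval_cases l <;>
        first
        | (exfalso; omega)
        | (norm_num; done)
        | (norm_num; linarith))
  have : (22 : ℝ) ≤ n := by exact_mod_cast hn
  linarith

/-- Proof: for the six special values use the special certificates. Otherwise Tri.cert with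
x = 7 + K, y = 7 - K, z = 7, K = n^2 (ar12): if l = m then l + j + 2 st = 4; st = 0: d = 4 + l <= 8,
d (d - 2) <= 7 d; st = 1: d = l + 3, l <= 2, (l + 3)(l + 1) <= 7 (l + 2). So n <= 21. -/
theorem k12 (D : Dat n S θ Sd g vs ts) {a b c : Pl} (T : Tri S θ a b c) (hn : 22 ≤ n)
    (hc : θ c = 1 / 2) : False := by
  by_cases x1 : θ a = 1 / 4
  · exact sq_1_4 D T hn (by rw [x1]) hc
  by_cases x2 : θ a = 1 / 6
  · exact sq_1_6 D T hn (by rw [x2]) hc
  by_cases x3 : θ a = 1 / 8
  · exact sq_1_8 D T hn (by rw [x3]) hc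
  by_cases x4 : θ a = 1 / 10
  · exact sq_1_10 D T hn (by rw [x4]) hc
  by_cases x5 : θ a = 2 / 10
  · exact sq_1_5 D T hn (by rw [x5]) hc
  by_cases x6 : θ a = 3 / 14
  · exact sq_3_14 D T hn (by rw [x6]) hc
  have pa := D.pos a ((T.mem a).2 (Or.inl rfl))
  have hs := T.sum
  have hfin := T.cert D (7 + (n : ℝ) ^ 2) (7 - (n : ℝ) ^ 2) 7 (by
    intro v hv
    have hty := T.ty D hv
    have hdeg := T.deg g ts v
    have hdn := deg_le D hv
    rw [hc] at hty
    obtain ⟨hlm, heq⟩ := ar12 pa T.le1 (by rw [hc] at hs; linarith) x1 x2 x3 x4 x5 x6 hty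
    have hst := hty.2.1
    generalize N g ts a v = m at *
    generalize N g ts b v = l at *
    generalize N g ts c v = q at *
    generalize stc S g ts v = r at *
    rcases Nat.lt_or_ge l m with hlt | hge
    · have f1 : ((ts v).card : ℝ) ≤ n := by exact_mod_cast hdn
      have f2 : (1 : ℝ) ≤ (m : ℝ) - l := by
        have : (l : ℝ) + 1 ≤ m := by exact_mod_cast hlt
        linarith
      have f3 : (0 : ℝ) ≤ (ts v).card := Nat.cast_nonneg _
      have f4 : (0 : ℝ) ≤ m := Nat.cast_nonneg _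
      have f5 : (0 : ℝ) ≤ l := Nat.cast_nonneg _
      have f6 : (0 : ℝ) ≤ q := Nat.cast_nonneg _
      have f7 : (n : ℝ) ^ 2 ≤ (n : ℝ) ^ 2 * ((m : ℝ) - l) :=
        le_mul_of_one_le_right (sq_nonneg _) f2
      have f8 : ((ts v).card : ℝ) * (ts v).card ≤ (n : ℝ) ^ 2 := by
        rw [sq]
        exact mul_le_mul f1 f1 f3 (f3.trans f1)
      nlinarith
    · have hlm' : l = m := le_antisymm hlm hge
      have h6 := heq hlm'
      rw [hdeg, ← hlm']
      have hl : l ≤ 4 := by omega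
      have hq : q ≤ 4 := by omega
      clear hty hdeg hdn hlm heq hge hlm'
      interval_cases r <;> interval_cases q <;> interval_cases l <;>
        first
        | (exfalso; omega)
        | (norm_num; done)
        | (norm_num; linarith))
  have : (22 : ℝ) ≤ n := by exact_mod_cast hn
  linarith

end Pool.Agent.Work.MP_bd00dd_co
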