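import Pool.Agent.Work.MP_bd00dd_co.C.Ring4

/-!
Families 1 and 2 of quadrilaterals. Notation: α = θ a, X, Y as in ring4, opp4. All values of A
are in {α, θ o, θ p, θ q, 1} (A_cases). A corner label which occurs for X at two different points
is a contradiction: (g X) s = v and (g X) s = v' give v = v'.
-/

namespace Pool.Agent.Work.MP_bd00dd_co

variable {ι : Type*} {n : ℕ} {S : Finset Pl} {θ : Pl → ℝ} {Sd : Pl → Pl → Prop}
  {g : ι → Pl ≃ᵢ Pl} {vs : ι → Finset Pl} {ts : Pl → Finset ι}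

private theorem f1_vals {v0 a o p q : Pl}
    (H : Hub4 S Sd g vs ts v0 a o p q) (X : ι) (v : Pl) :
    A S θ g X v = 1 ∨ (g X a = v ∧ A S θ g X v = θ a) ∨ (g X o = v ∧ A S θ g X v = θ o) ∨
      (g X p = v ∧ A S θ g X v = θ p) ∨ (g X q = v ∧ A S θ g X v = θ q) := by
  rcases A_cases θ S g X v with ⟨s, hs, h1, h2⟩ | ⟨-, h⟩
  · rcases (H.mem s).1 hs with rfl | rfl | rfl | rfl
    · exact Or.inr (Or.inl ⟨h1, h2⟩)
    · exact Or.inr (Or.inr (Or.inl ⟨h1, h2⟩))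
    · exact Or.inr (Or.inr (Or.inr (Or.inl ⟨h1, h2⟩)))
    · exact Or.inr (Or.inr (Or.inr (Or.inr ⟨h1, h2⟩)))
  · exact Or.inl h

private theorem f1_nb (D : Dat n S θ Sd g vs ts) {v0 a o p q : Pl}
    (H : Hub4 S Sd g vs ts v0 a o p q) {x : Pl} (hx : Sd a x) : x = p ∨ x = q := by
  have h1 := D.sd a x hx
  rcases (H.mem x).1 h1.2.1 with rfl | rfl | rfl | rfl
  · exact absurd rfl h1.2.2
  · exact absurd hx H.nao
  · exact Or.inl rfl
  · exact Or.inr rfl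

/-- the angle sum at the corner o for a tile X across one of the two sides at o -/
private theorem f1_opp (D : Dat n S θ Sd g vs ts) {v0 a o p q : Pl}
    (H : Hub4 S Sd g vs ts v0 a o p q) {j : ι} (hj : j ∈ ts v0) {x : Pl} (hx : Sd a x) {X : ι}
    (h1 : X ≠ j) (h2 : X ∈ ts (g j x)) (h3 : X ∈ ts (g j o)) :
    ∃ Y, θ o + A S θ g X (g j o) + A S θ g Y (g j o) = 2 := by
  rcases f1_nb D H hx with rfl | rfl
  · obtain ⟨Y, e1, e2, e3, -⟩ := ring4 D H hj H.saq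
    exact ⟨Y, (opp4 D H hj h1 h2 h3 e1 e2 e3).2⟩
  · obtain ⟨Y, e1, e2, e3, -⟩ := ring4 D H hj H.sap
    refine ⟨Y, ?_⟩
    have := (opp4 D H hj e1 e2 e3 h1 h2 h3).2
    linarith

private theorem f1_pos (D : Dat n S θ Sd g vs ts) {v0 a o p q : Pl}
    (H : Hub4 S Sd g vs ts v0 a o p q) : 0 < θ a := D.pos a ((H.mem a).2 (Or.inl rfl))

/-- Family 1, first case: β = γ = B := (2 - 2α)/3 at p and q, δ = (2 + α)/3 at o. ring4 for any j,
x = p: 2 B + A = 2, A = (2 + 4α)/3, which is none of α, B, δ, 1 (α = 1/4 for 1). -/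
theorem fam1a (D : Dat n S θ Sd g vs ts) {v0 a o p q : Pl} (H : Hub4 S Sd g vs ts v0 a o p q)
    (h0 : θ a ≤ 2 / 21) (ho : θ o = (2 + θ a) / 3) (hp : θ p = (2 - 2 * θ a) / 3)
    (hq : θ q = (2 - 2 * θ a) / 3) : False := by
  have hpos := f1_pos D H
  obtain ⟨j, hj⟩ := H.ne
  obtain ⟨X, -, -, -, -, j', hj', x', hx', -, -, -, -, -, hA⟩ := ring4 D H hj H.sap
  have hx2 : θ x' = (2 - 2 * θ a) / 3 := by
    rcases f1_nb D H hx' with rfl | rfl
    · exact hp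
    · exact hq
  rw [hp, hx2] at hA
  rcases f1_vals (θ := θ) H X (g j p) with h | ⟨-, h⟩ | ⟨-, h⟩ | ⟨-, h⟩ | ⟨-, h⟩ <;>
    rw [h] at hA <;> linarith

/-- contradiction: the tile X has the same corner at two different points -/
private theorem f1_two (D : Dat n S θ Sd g vs ts) {v0 a o p q : Pl}
    (H : Hub4 S Sd g vs ts v0 a o p q) (s : Pl)
    (h : ∀ (X Y : ι) (v : Pl), θ o + A S θ g X v + A S θ g Y v = 2 → g X s = v) : False := by
  obtain ⟨j, hj⟩ := H.ne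
  obtain ⟨X, hXj, hXx, hXo, -, j', hj', x', hx', -, hj'X, hgx, hXo', hne, -⟩ :=
    ring4 D H hj H.sap
  obtain ⟨Y, hY⟩ := f1_opp D H hj H.sap hXj hXx hXo
  obtain ⟨Y', hY'⟩ := f1_opp D H hj' hx' hj'X.symm (by rw [← hgx]; exact hXx) hXo'
  exact hne ((h X Y _ hY).symm.trans (h X Y' _ hY'))

/-- Family 1, second case: B at o and p, δ at q. opp4 for any tile j at the hub:
A X + A Y = (4 + 2α)/3 at g j o, the only solution is A X = A Y = δ (others: 1 + y gives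
y = (1 + 2α)/3, no; B + δ = (4 - α)/3, no; ...). So the X of ring4 (x = p) has the corner q at
g j o and at g j' o, which are different. -/
theorem fam1b (D : Dat n S θ Sd g vs ts) {v0 a o p q : Pl} (H : Hub4 S Sd g vs ts v0 a o p q)
    (h0 : θ a ≤ 2 / 21) (ho : θ o = (2 - 2 * θ a) / 3) (hp : θ p = (2 - 2 * θ a) / 3)
    (hq : θ q = (2 + θ a) / 3) : False := by
  have hpos := f1_pos D H
  refine f1_two D H q fun X Y v hs => ?_
  rcases f1_vals (θ := θ) H X v with h | ⟨-, h⟩ | ⟨-, h⟩ | ⟨-, h⟩ | ⟨hg, h⟩ <;>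
    rcases f1_vals (θ := θ) H Y v with h' | ⟨-, h'⟩ | ⟨-, h'⟩ | ⟨-, h'⟩ | ⟨-, h'⟩ <;>
    first
      | exact hg
      | (exfalso; rw [h, h'] at hs; linarith)

/-- Family 2, o has the angle β = (2 - 4α)/3. At g j o: A X + A Y = (4 + 4α)/3, only
δ + δ (1 + y: y = (1 + 4α)/3 would give α = 1/8, 1/5, 1/2, ...). Same contradiction as in fam1b. -/
theorem fam2a (D : Dat n S θ Sd g vs ts) {v0 a o p q : Pl} (H : Hub4 S Sd g vs ts v0 a o p q)
    (h0 : θ a ≤ 2 / 21) (ho : θ o = (2 - 4 * θ a) / 3) (hp : θ p = (2 - θ a) / 3)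
    (hq : θ q = (2 + 2 * θ a) / 3) : False := by
  have hpos := f1_pos D H
  refine f1_two D H q fun X Y v hs => ?_
  rcases f1_vals (θ := θ) H X v with h | ⟨-, h⟩ | ⟨-, h⟩ | ⟨-, h⟩ | ⟨hg, h⟩ <;>
    rcases f1_vals (θ := θ) H Y v with h' | ⟨-, h'⟩ | ⟨-, h'⟩ | ⟨-, h'⟩ | ⟨-, h'⟩ <;>
    first
      | exact hg
      | (exfalso; rw [h, h'] at hs; linarith)

/-- Family 2, o has the angle γ = (2 - α)/3, p: β = (2 - 4α)/3, q: δ = (2 + 2α)/3. Take j at the
hub and ring4 with x = p: if x' = p then A = (2 + 8α)/3, impossible (α = 1/8 for 1, α = 0 for the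
angles), so x' = q and A = δ: X has its corner q at g j p. At g j o: A X + A Y = (4 + α)/3 with A X
≠ δ (the corner q of X is at g j p ≠ g j o): the only solution is A X = γ, A Y = δ. So X has its
corner o at g j o. The same computation for j' (side q o of j' shared with X, opp4 with the roles
of p and q exchanged): X has its corner o at g j' o ≠ g j o. Contradiction. -/
theorem fam2b (D : Dat n S θ Sd g vs ts) {v0 a o p q : Pl} (H : Hub4 S Sd g vs ts v0 a o p q)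
    (h0 : θ a ≤ 2 / 21) (ho : θ o = (2 - θ a) / 3) (hp : θ p = (2 - 4 * θ a) / 3)
    (hq : θ q = (2 + 2 * θ a) / 3) : False := by
  have hpos := f1_pos D H
  obtain ⟨j, hj⟩ := H.ne
  obtain ⟨X, hXj, hXx, hXo, -, j', hj', x', hx', -, hj'X, hgx, hXo', hne, hA⟩ :=
    ring4 D H hj H.sap
  obtain ⟨Y, hY⟩ := f1_opp D H hj H.sap hXj hXx hXo
  obtain ⟨Y', hY'⟩ := f1_opp D H hj' hx' hj'X.symm (by rw [← hgx]; exact hXx) hXo'
  rcases f1_nb D H hx' with rfl | rfl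
  · rcases f1_vals (θ := θ) H X (g j x') with h | ⟨-, h⟩ | ⟨-, h⟩ | ⟨-, h⟩ | ⟨-, h⟩ <;>
      rw [h] at hA <;> linarith
  · have hgq : g X x' = g j p := by
      rcases f1_vals (θ := θ) H X (g j p) with h | ⟨-, h⟩ | ⟨-, h⟩ | ⟨-, h⟩ | ⟨hg, h⟩ <;>
      first
        | exact hg
        | (exfalso; rw [h] at hA; linarith)
    have key : ∀ (v : Pl) (Z : ι), v ≠ g j p → θ o + A S θ g X v + A S θ g Z v = 2 →
        g X o = v := by
      intro v Z hv hs
      rcases f1_vals (θ := θ) H X v with h | ⟨-, h⟩ | ⟨hg, h⟩ | ⟨-, h⟩ | ⟨hg, h⟩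
      · exfalso
        rcases f1_vals (θ := θ) H Z v with h' | ⟨-, h'⟩ | ⟨-, h'⟩ | ⟨-, h'⟩ | ⟨-, h'⟩ <;>
          rw [h, h'] at hs <;> linarith
      · exfalso
        rcases f1_vals (θ := θ) H Z v with h' | ⟨-, h'⟩ | ⟨-, h'⟩ | ⟨-, h'⟩ | ⟨-, h'⟩ <;>
          rw [h, h'] at hs <;> linarith
      · exact hg
      · exfalso
        rcases f1_vals (θ := θ) H Z v with h' | ⟨-, h'⟩ | ⟨-, h'⟩ | ⟨-, h'⟩ | ⟨-, h'⟩ <;>
          rw [h, h'] at hs <;> linarith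
      · exact absurd (hg.symm.trans hgq) hv
    have k1 := key (g j o) Y (fun h => H.op ((g j).injective h)) hY
    have k2 := key (g j' o) Y' (by
      rw [hgx]
      exact fun h => H.oq ((g j').injective h)) hY'
    exact hne (k1.symm.trans k2)

/-- Family 2, o has the angle δ = (2 + 2α)/3, p: β, q: γ. ring4 with x = p: x' = p gives
A = (2 + 8α)/3, x' = q gives A = (2 + 5α)/3; both impossible. -/
theorem fam2c (D : Dat n S θ Sd g vs ts) {v0 a o p q : Pl} (H : Hub4 S Sd g vs ts v0 a o p q)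
    (h0 : θ a ≤ 2 / 21) (ho : θ o = (2 + 2 * θ a) / 3) (hp : θ p = (2 - 4 * θ a) / 3)
    (hq : θ q = (2 - θ a) / 3) : False := by
  have hpos := f1_pos D H
  obtain ⟨j, hj⟩ := H.ne
  obtain ⟨X, -, -, -, -, j', hj', x', hx', -, -, -, -, -, hA⟩ := ring4 D H hj H.sap
  rcases f1_nb D H hx' with rfl | rfl
  · rcases f1_vals (θ := θ) H X (g j x') with h | ⟨-, h⟩ | ⟨-, h⟩ | ⟨-, h⟩ | ⟨-, h⟩ <;>
      rw [h] at hA <;> linarith
  · rcases f1_vals (θ := θ) H X (g j p) with h | ⟨-, h⟩ | ⟨-, h⟩ | ⟨-, h⟩ | ⟨-, h⟩ <;>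
      rw [h] at hA <;> linarith

end Pool.Agent.Work.MP_bd00dd_co
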