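import Pool.Agent.Work.MP_bd00dd_co.C.Ring4

/-!
Family 3 of quadrilaterals: angles α = θ a, β = 2/3 - 2α, γ = 2/3, δ = 2/3 + α (see C/F1.lean for the
method).
-/

namespace Pool.Agent.Work.MP_bd00dd_co

variable {ι : Type*} {n : ℕ} {S : Finset Pl} {θ : Pl → ℝ} {Sd : Pl → Pl → Prop}
  {g : ι → Pl ≃ᵢ Pl} {vs : ι → Finset Pl} {ts : Pl → Finset ι}

private theorem f3_vals {v0 a o p q : Pl}
    (H : Hub4 S Sd g vs ts v0 a o p q) (X : ι) (v : Pl) :
    A S θ g X v = 1 ∨ (g X a = v ∧ A S θ g X v = θ a) ∨ (g X o = v ∧ A S θ g X v = θ o) ∨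
      (g X p = v ∧ A S θ g X v = θ p) ∨ (g X q = v ∧ A S θ g X v = θ q) := by
  rcases A_cases θ S g X v with ⟨s, hs, h1, h2⟩ | ⟨-, h⟩
  · rcases (H.mem s).1 hs with rfl | rfl | rfl | rfl
    · exact Or.inr (Or.inl ⟨h1, h2⟩)
    · exact Or.inr (Or.inr (Or.inl ⟨h1, h2⟩))
    · exact Or.inr (Or.inr (Or.inr (Or.inl ⟨h1, h2⟩)))
    · exact Or.inr (Or.inr (Or.inr (Or.inr ⟨h1, h2⟩)))
  · exact Or.inl h

private theorem f3_nb (D : Dat n S θ Sd g vs ts) {v0 a o p q : Pl}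
    (H : Hub4 S Sd g vs ts v0 a o p q) {x : Pl} (hx : Sd a x) : x = p ∨ x = q := by
  have h1 := D.sd a x hx
  rcases (H.mem x).1 h1.2.1 with rfl | rfl | rfl | rfl
  · exact absurd rfl h1.2.2
  · exact absurd hx H.nao
  · exact Or.inl rfl
  · exact Or.inr rfl

/-- the angle sum at the corner o for a tile X across one of the two sides at o -/
private theorem f3_opp (D : Dat n S θ Sd g vs ts) {v0 a o p q : Pl}
    (H : Hub4 S Sd g vs ts v0 a o p q) {j : ι} (hj : j ∈ ts v0) {x : Pl} (hx : Sd a x) {X : ι}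
    (h1 : X ≠ j) (h2 : X ∈ ts (g j x)) (h3 : X ∈ ts (g j o)) :
    ∃ Y, θ o + A S θ g X (g j o) + A S θ g Y (g j o) = 2 := by
  rcases f3_nb D H hx with rfl | rfl
  · obtain ⟨Y, e1, e2, e3, -⟩ := ring4 D H hj H.saq
    exact ⟨Y, (opp4 D H hj h1 h2 h3 e1 e2 e3).2⟩
  · obtain ⟨Y, e1, e2, e3, -⟩ := ring4 D H hj H.sap
    refine ⟨Y, ?_⟩
    have := (opp4 D H hj e1 e2 e3 h1 h2 h3).2
    linarith

private theorem f3_pos (D : Dat n S θ Sd g vs ts) {v0 a o p q : Pl}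
    (H : Hub4 S Sd g vs ts v0 a o p q) : 0 < θ a := D.pos a ((H.mem a).2 (Or.inl rfl))

/-- contradiction: the tile X has the same corner at two different points -/
private theorem f3_two (D : Dat n S θ Sd g vs ts) {v0 a o p q : Pl}
    (H : Hub4 S Sd g vs ts v0 a o p q) (s : Pl)
    (h : ∀ (X Y : ι) (v : Pl), θ o + A S θ g X v + A S θ g Y v = 2 → g X s = v) : False := by
  obtain ⟨j, hj⟩ := H.ne
  obtain ⟨X, hXj, hXx, hXo, -, j', hj', x', hx', -, hj'X, hgx, hXo', hne, -⟩ :=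
    ring4 D H hj H.sap
  obtain ⟨Y, hY⟩ := f3_opp D H hj H.sap hXj hXx hXo
  obtain ⟨Y', hY'⟩ := f3_opp D H hj' hx' hj'X.symm (by rw [← hgx]; exact hXx) hXo'
  exact hne ((h X Y _ hY).symm.trans (h X Y' _ hY'))

/-- a tile with its corners p and q at the points g j x, g j o (x a corner) gives a side p q -/
private theorem f3_adj (D : Dat n S θ Sd g vs ts) {v0 a o p q : Pl}
    (H : Hub4 S Sd g vs ts v0 a o p q) {j X : ι} (hXj : X ≠ j) {s t : Pl} (hs : s ∈ S)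
    (ht : t ∈ S) (h1 : g X p = g j s) (h2 : g X q = g j t) : False := by
  apply H.npq
  have hpS : p ∈ S := (H.mem p).2 (Or.inr (Or.inr (Or.inl rfl)))
  have hqS : q ∈ S := (H.mem q).2 (Or.inr (Or.inr (Or.inr rfl)))
  refine D.adj X j p q hXj hpS hqS H.pq ?_ ?_
  · rw [h1]
    exact ((D.mem j _).1 (D.cmem j s hs)).1
  · rw [h2]
    exact ((D.mem j _).1 (D.cmem j t ht)).1

/-- o has the angle β, p: γ, q: δ. At g j o: A X + A Y = 4/3 + 2α: either δ + δ or, if α = 1/12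
(β = 1/2), 1 + β. (1 + y: y = 1/3 + 2α is β iff α = 1/12, γ iff α = 1/6, δ iff α = 1/3.)
If α ≠ 1/12: contradiction as in fam1b. Let α = 1/12: angles a 1/12, o 1/2, p 2/3, q 3/4.
For a tile j at the hub write Xp, Xq for the tiles across the sides p o, q o of j.
ring4 with x = q: x' = q and Xq has its corner o at g j q (3/4 + 3/4 + 1/2; 3/4 + 2/3 + A is
impossible). ring4 with x = p: x' = p and Xp has its corner p at g j p (4/3 + 2/3).
At g j o (opp4): {A Xp, A Xq} sum 3/2: (3/4, 3/4) or (1, 1/2) or (1/2, 1). A Xq is not 1/2 (its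
corner o is at g j q), so A Xq is 3/4 or 1. Start with any j, X = Xq, j' the partner: X is also
the Xq of j'. At g j o and g j' o the value of X is 3/4 or 1 and not both times 3/4 (corner q of X
twice at different points). So for one of them, call it j, A Xq = 1 at g j o, hence A Xp = 1/2: Xp
has its corner o at g j o. Let j2 be the partner of j for x = p: Xp is also the Xp of j2. Value of
Xp at g j2 o: 1/2 impossible (its corner o is at g j o ≠ g j2 o); 3/4 impossible: Xp would have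
its corner q at g j2 o and its corner p at g j2 p, both in the tile j2, so Sd p q by D.adj,
against H.npq; so it is 1 and then the Xq of j2 has value 1/2 at g j2 o, i.e. its corner o is there,
but its corner o is at g j2 q. Contradiction. -/
theorem fam3a (D : Dat n S θ Sd g vs ts) {v0 a o p q : Pl} (H : Hub4 S Sd g vs ts v0 a o p q)
    (h0 : θ a ≤ 2 / 21) (ho : θ o = 2 / 3 - 2 * θ a) (hp : θ p = 2 / 3)
    (hq : θ q = 2 / 3 + θ a) : False := by
  have hpos := f3_pos D H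
  have hoS : o ∈ S := (H.mem o).2 (Or.inr (Or.inl rfl))
  have hpS : p ∈ S := (H.mem p).2 (Or.inr (Or.inr (Or.inl rfl)))
  by_cases hα : θ a = 1 / 12
  · rw [hα] at ho hq
    -- the tiles across q o
    have hQ : ∀ j ∈ ts v0, ∃ X, X ≠ j ∧ X ∈ ts (g j q) ∧ X ∈ ts (g j o) ∧ g X o = g j q ∧
        ∃ j' ∈ ts v0, X ≠ j' ∧ X ∈ ts (g j' q) ∧ X ∈ ts (g j' o) ∧ g X o = g j' q ∧
          g j o ≠ g j' o := by
      intro j hj
      obtain ⟨X, hXj, hXx, hXo, -, j', hj', x', hx', -, hj'X, hgx, hXo', hne, hA⟩ :=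
        ring4 D H hj H.saq
      rcases f3_nb D H hx' with rfl | rfl
      · exfalso
        rcases f3_vals (θ := θ) H X (g j q) with h | ⟨-, h⟩ | ⟨-, h⟩ | ⟨-, h⟩ | ⟨-, h⟩ <;>
          rw [h] at hA <;> linarith
      · have hgq : g X o = g j x' := by
          rcases f3_vals (θ := θ) H X (g j x') with h | ⟨-, h⟩ | ⟨hg, h⟩ | ⟨-, h⟩ | ⟨-, h⟩ <;>
          first
            | exact hg
            | (exfalso; rw [h] at hA; linarith)
        exact ⟨X, hXj, hXx, hXo, hgq, j', hj', hj'X.symm, by rw [← hgx]; exact hXx, hXo',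
          by rw [← hgx]; exact hgq, hne⟩
    -- the tiles across p o
    have hP : ∀ j ∈ ts v0, ∃ X, X ≠ j ∧ X ∈ ts (g j p) ∧ X ∈ ts (g j o) ∧ g X p = g j p ∧
        ∃ j' ∈ ts v0, X ≠ j' ∧ X ∈ ts (g j' p) ∧ X ∈ ts (g j' o) ∧ g X p = g j' p ∧
          g j o ≠ g j' o := by
      intro j hj
      obtain ⟨X, hXj, hXx, hXo, -, j', hj', x', hx', -, hj'X, hgx, hXo', hne, hA⟩ :=
        ring4 D H hj H.sap
      rcases f3_nb D H hx' with rfl | rfl
      · have hgq : g X x' = g j x' := by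
          rcases f3_vals (θ := θ) H X (g j x') with h | ⟨-, h⟩ | ⟨-, h⟩ | ⟨hg, h⟩ | ⟨-, h⟩ <;>
          first
            | exact hg
            | (exfalso; rw [h] at hA; linarith)
        exact ⟨X, hXj, hXx, hXo, hgq, j', hj', hj'X.symm, by rw [← hgx]; exact hXx, hXo',
          by rw [← hgx]; exact hgq, hne⟩
      · exfalso
        rcases f3_vals (θ := θ) H X (g j p) with h | ⟨-, h⟩ | ⟨-, h⟩ | ⟨-, h⟩ | ⟨-, h⟩ <;>
          rw [h] at hA <;> linarith
    -- the two values at o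
    have hO : ∀ j ∈ ts v0, ∀ X Y, X ≠ j → X ∈ ts (g j p) → X ∈ ts (g j o) →
        Y ≠ j → Y ∈ ts (g j q) → Y ∈ ts (g j o) → g Y o = g j q →
        (g X q = g j o ∧ g Y q = g j o) ∨ g X o = g j o := by
      intro j hj X Y x1 x2 x3 y1 y2 y3 y4
      have hs := (opp4 D H hj x1 x2 x3 y1 y2 y3).2
      rcases f3_vals (θ := θ) H X (g j o) with h | ⟨-, h⟩ | ⟨hg, h⟩ | ⟨-, h⟩ | ⟨hg, h⟩
      · rcases f3_vals (θ := θ) H Y (g j o) with h' | ⟨-, h'⟩ | ⟨hg', h'⟩ | ⟨-, h'⟩ | ⟨-, h'⟩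
        · rw [h, h'] at hs; linarith
        · rw [h, h'] at hs; linarith
        · exfalso
          have : g j q = g j o := y4.symm.trans hg'
          exact H.oq ((g j).injective this).symm
        · rw [h, h'] at hs; linarith
        · rw [h, h'] at hs; linarith
      · exfalso
        rcases f3_vals (θ := θ) H Y (g j o) with h' | ⟨-, h'⟩ | ⟨-, h'⟩ | ⟨-, h'⟩ | ⟨-, h'⟩ <;>
          rw [h, h'] at hs <;> linarith
      · exact Or.inr hg
      · exfalso
        rcases f3_vals (θ := θ) H Y (g j o) with h' | ⟨-, h'⟩ | ⟨-, h'⟩ | ⟨-, h'⟩ | ⟨-, h'⟩ <;>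
          rw [h, h'] at hs <;> linarith
      · left
        refine ⟨hg, ?_⟩
        rcases f3_vals (θ := θ) H Y (g j o) with h' | ⟨-, h'⟩ | ⟨-, h'⟩ | ⟨-, h'⟩ | ⟨hg', h'⟩ <;>
        first
          | exact hg'
          | (exfalso; rw [h, h'] at hs; linarith)
    -- no tile j has g Xp o = g j o
    have hbad : ∀ j ∈ ts v0, ∀ Y, Y ≠ j → Y ∈ ts (g j q) → Y ∈ ts (g j o) → g Y o = g j q →
        g Y q = g j o := by
      intro j hj Y y1 y2 y3 y4
      obtain ⟨X, x1, x2, x3, x4, j2, hj2, w1, w2, w3, w4, hne⟩ := hP j hj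
      rcases hO j hj X Y x1 x2 x3 y1 y2 y3 y4 with h | h
      · exact h.2
      · exfalso
        obtain ⟨Z, z1, z2, z3, z4, -⟩ := hQ j2 hj2
        rcases hO j2 hj2 X Z w1 w2 w3 z1 z2 z3 z4 with h' | h'
        · exact f3_adj D H w1 hpS hoS w4 h'.1
        · exact hne (h.symm.trans h')
    obtain ⟨j, hj⟩ := H.ne
    obtain ⟨X, x1, x2, x3, x4, j', hj', w1, w2, w3, w4, hne⟩ := hQ j hj
    exact hne ((hbad j hj X x1 x2 x3 x4).symm.trans (hbad j' hj' X w1 w2 w3 w4))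
  · refine f3_two D H q fun X Y v hs => ?_
    rcases f3_vals (θ := θ) H X v with h | ⟨-, h⟩ | ⟨-, h⟩ | ⟨-, h⟩ | ⟨hg, h⟩ <;>
      rcases f3_vals (θ := θ) H Y v with h' | ⟨-, h'⟩ | ⟨-, h'⟩ | ⟨-, h'⟩ | ⟨-, h'⟩ <;>
      first
        | exact hg
        | (exfalso; rw [h, h'] at hs; linarith)
        | (exfalso; rw [h, h'] at hs; exact hα (by linarith))

/-- o has the angle γ = 2/3, p: β, q: δ. At g j o: A X + A Y = 4/3, only γ + γ. So X (ring4,
x = p) has its corner o at g j o and at g j' o: contradiction. -/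
theorem fam3b (D : Dat n S θ Sd g vs ts) {v0 a o p q : Pl} (H : Hub4 S Sd g vs ts v0 a o p q)
    (h0 : θ a ≤ 2 / 21) (ho : θ o = 2 / 3) (hp : θ p = 2 / 3 - 2 * θ a)
    (hq : θ q = 2 / 3 + θ a) : False := by
  have hpos := f3_pos D H
  refine f3_two D H o fun X Y v hs => ?_
  rcases f3_vals (θ := θ) H X v with h | ⟨-, h⟩ | ⟨hg, h⟩ | ⟨-, h⟩ | ⟨-, h⟩ <;>
    rcases f3_vals (θ := θ) H Y v with h' | ⟨-, h'⟩ | ⟨-, h'⟩ | ⟨-, h'⟩ | ⟨-, h'⟩ <;>
    first
      | exact hg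
      | (exfalso; rw [h, h'] at hs; linarith)

/-- o has the angle δ = 2/3 + α, p: β, q: γ. ring4 with x = p: x' = p: A = 2/3 + 4α, possible only
if it is 1, α = 1/12; x' = q: A = 2/3 + 2α, impossible. So α = 1/12: p 1/2, q 2/3, o 3/4. ring4 with
x = q: x' = q and A = 2/3: Xq has its corner q at g j q (x' = p: A = 5/6, no). At g j o: the values
of Xp, Xq have sum 5/4: (1/2, 3/4) or (3/4, 1/2). Take any j, Y = Xq, j' the partner (x = q): Y is
also the Xq of j'. The values of Y at g j o ≠ g j' o are 1/2 (corner p) or 3/4 (corner o), and they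
are different; so for one of the two tiles, call it j2, Y has its corner p at g j2 o, and its
corner q at g j2 q. D.adj gives Sd p q, against H.npq. -/
theorem fam3c (D : Dat n S θ Sd g vs ts) {v0 a o p q : Pl} (H : Hub4 S Sd g vs ts v0 a o p q)
    (h0 : θ a ≤ 2 / 21) (ho : θ o = 2 / 3 + θ a) (hp : θ p = 2 / 3 - 2 * θ a)
    (hq : θ q = 2 / 3) : False := by
  have hpos := f3_pos D H
  have hoS : o ∈ S := (H.mem o).2 (Or.inr (Or.inl rfl))
  have hqS : q ∈ S := (H.mem q).2 (Or.inr (Or.inr (Or.inr rfl)))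
  have hα : θ a = 1 / 12 := by
    obtain ⟨j, hj⟩ := H.ne
    obtain ⟨X, -, -, -, -, j', hj', x', hx', -, -, -, -, -, hA⟩ := ring4 D H hj H.sap
    rcases f3_nb D H hx' with rfl | rfl
    · rcases f3_vals (θ := θ) H X (g j x') with h | ⟨-, h⟩ | ⟨-, h⟩ | ⟨-, h⟩ | ⟨-, h⟩ <;>
        rw [h] at hA <;> linarith
    · exfalso
      rcases f3_vals (θ := θ) H X (g j p) with h | ⟨-, h⟩ | ⟨-, h⟩ | ⟨-, h⟩ | ⟨-, h⟩ <;>
        rw [h] at hA <;> linarith
  rw [hα] at ho hp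
  obtain ⟨j, hj⟩ := H.ne
  obtain ⟨X, hXj, hXx, hXo, -, j', hj', x', hx', -, hj'X, hgx, hXo', hne, hA⟩ :=
    ring4 D H hj H.saq
  obtain ⟨Y, hY⟩ := f3_opp D H hj H.saq hXj hXx hXo
  obtain ⟨Y', hY'⟩ := f3_opp D H hj' hx' hj'X.symm (by rw [← hgx]; exact hXx) hXo'
  rcases f3_nb D H hx' with rfl | rfl
  · rcases f3_vals (θ := θ) H X (g j q) with h | ⟨-, h⟩ | ⟨-, h⟩ | ⟨-, h⟩ | ⟨-, h⟩ <;>
      rw [h] at hA <;> linarith
  · have hgq : g X x' = g j x' := by
      rcases f3_vals (θ := θ) H X (g j x') with h | ⟨-, h⟩ | ⟨-, h⟩ | ⟨-, h⟩ | ⟨hg, h⟩ <;>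
      first
        | exact hg
        | (exfalso; rw [h] at hA; linarith)
    have key : ∀ (v : Pl) (Z : ι), θ o + A S θ g X v + A S θ g Z v = 2 →
        g X o = v ∨ g X p = v := by
      intro v Z hs
      rcases f3_vals (θ := θ) H X v with h | ⟨-, h⟩ | ⟨hg, h⟩ | ⟨hg, h⟩ | ⟨-, h⟩
      · exfalso
        rcases f3_vals (θ := θ) H Z v with h' | ⟨-, h'⟩ | ⟨-, h'⟩ | ⟨-, h'⟩ | ⟨-, h'⟩ <;>
          rw [h, h'] at hs <;> linarith
      · exfalso
        rcases f3_vals (θ := θ) H Z v with h' | ⟨-, h'⟩ | ⟨-, h'⟩ | ⟨-, h'⟩ | ⟨-, h'⟩ <;>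
          rw [h, h'] at hs <;> linarith
      · exact Or.inl hg
      · exact Or.inr hg
      · exfalso
        rcases f3_vals (θ := θ) H Z v with h' | ⟨-, h'⟩ | ⟨-, h'⟩ | ⟨-, h'⟩ | ⟨-, h'⟩ <;>
          rw [h, h'] at hs <;> linarith
    rcases key _ _ hY with k1 | k1
    · rcases key _ _ hY' with k2 | k2
      · exact hne (k1.symm.trans k2)
      · exact f3_adj D H hj'X.symm hoS hqS k2 (hgq.trans hgx)
    · exact f3_adj D H hXj hoS hqS k1 hgq

end Pool.Agent.Work.MP_bd00dd_co
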