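import Pool.Agent.Work.MP_bd00dd_co.C.Q4
import Pool.Agent.Work.MP_bd00dd_co.C.F1
import Pool.Agent.Work.MP_bd00dd_co.C.F3

/-!
Quadrilaterals: n <= 21.
-/

namespace Pool.Agent.Work.MP_bd00dd_co

variable {ι : Type*} {n : ℕ} {S : Finset Pl} {θ : Pl → ℝ} {Sd : Pl → Pl → Prop}
  {g : ι → Pl ≃ᵢ Pl} {vs : ι → Finset Pl} {ts : Pl → Finset ι}

theorem k4 (D : Dat n S θ Sd g vs ts) (hn : 22 ≤ n) (hk : S.card = 4) : False := by
  obtain ⟨v0, a, o, p, q, H, h0, h⟩ := q4 D hn hk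
  rcases h with h | h | h | h | h | h | h | h
  · exact fam1a D H h0 h.1 h.2.1 h.2.2
  · exact fam1b D H h0 h.1 h.2.1 h.2.2
  · exact fam2a D H h0 h.1 h.2.1 h.2.2
  · exact fam2b D H h0 h.1 h.2.1 h.2.2
  · exact fam2c D H h0 h.1 h.2.1 h.2.2
  · exact fam3a D H h0 h.1 h.2.1 h.2.2
  · exact fam3b D H h0 h.1 h.2.1 h.2.2
  · exact fam3c D H h0 h.1 h.2.1 h.2.2

end Pool.Agent.Work.MP_bd00dd_co
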