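import Pool.Agent.Work.MP_bd00dd_co.Defs

/-!
Real inequalities about the vertices of one tile. s is the set of the vertices on the tile, K the
set of the corners, d the degrees, h v says that v is half (side vertices are half), and
∑ (d v - 2) = n. (phi d h = 1 - 5/(2d) if h, 1 - 3/d otherwise, so phi d h >= 1 - 3/d.)
-/

namespace Pool.Agent.Work.MP_bd00dd_co

/-- All degrees >= 4, three corners, cost <= 3/2. Proof. Put N = s.card, D = max d. Each cost is
at least 1 - 3/d >= 1/4 + 3 (d - 4)/(4 D) (concavity: (d - 4)(D - d) >= 0), so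
N/4 + (3/(4D)) (n - 2 N) <= 3/2 (note ∑ d = n + 2 N), and D - 2 + 2 (N - 1) <= n. For N = 4
this gives D >= 3 (n - 8)/2 > n - 4 >= D, for N = 5: D >= 3 (n - 10) > n, N >= 6: impossible.
So N = 3, s = K, n - 6 <= D <= n - 2. The other two degrees e, f satisfy e + f = n + 6 - D
<= 12: if (e,f) is not (4,4), (4,5), (5,4) then 3/e + 3/f <= 5/4 ((4,6): 5/4, (5,5): 6/5, ...)
and the cost is >= 3 - 3/D - 5/4 > 3/2 as D >= 16. (4,4): D = n - 2, if both are half the cost
is >= 1 - 3/D + 3/4 > 3/2. (4,5): D = n - 3; if D >= 21 the cost is >= 1 - 3/21 + 1/4 + 2/5 > 3/2,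
so D = 19, n = 22 or D = 20, n = 23; if the 4 is half the cost is >= 1 - 3/19 + 3/8 + 2/5 > 3/2. -/
private theorem tl_phi (d : ℕ) (h : Prop) (hd : 4 ≤ d) : 1 - 3 / (d : ℝ) ≤ phi d h := by
  have h1 : (4 : ℝ) ≤ d := by exact_mod_cast hd
  unfold phi
  split_ifs
  · have : 5 / (2 * (d : ℝ)) ≤ 3 / (d : ℝ) := by
      rw [div_le_div_iff₀ (by linarith) (by linarith)]
      nlinarith
    linarith
  · exact le_rfl

private theorem tl_last (a e f n : ℕ) (ha hef hff : Prop) (hn : 22 ≤ n) (he : 4 ≤ e) (hf : 4 ≤ f)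
    (hae : e ≤ a) (haf : f ≤ a) (hs : a + (e + f) = n + 6) (hD : n - 6 ≤ a)
    (hcost : phi a ha + (phi e hef + phi f hff) ≤ 3 / 2) :
    (e = 4 ∧ ¬ hef ∧ (a = n - 2 ∨ (a = 19 ∧ n = 22) ∨ (a = 20 ∧ n = 23))) ∨
    (f = 4 ∧ ¬ hff ∧ (a = n - 2 ∨ (a = 19 ∧ n = 22) ∨ (a = 20 ∧ n = 23))) := by
  have ha16 : 16 ≤ a := by omega
  have ha16' : (16 : ℝ) ≤ a := by exact_mod_cast ha16
  have p1 := tl_phi a ha (by omega)
  have p2 := tl_phi e hef he
  have p3 := tl_phi f hff hf
  have q1 : 3 / (a : ℝ) ≤ 3 / 16 := div_le_div_of_nonneg_left (by norm_num) (by norm_num) ha16'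
  have he12 : e ≤ 8 := by omega
  have hf12 : f ≤ 8 := by omega
  have hef12 : e + f ≤ 12 := by omega
  have q2 : 21 / 16 ≤ 3 / (e : ℝ) + 3 / (f : ℝ) := by linarith
  have h44 : (e = 4 ∧ f = 4) ∨ (e = 4 ∧ f = 5) ∨ (e = 5 ∧ f = 4) := by
    interval_cases e <;> interval_cases f <;> first | omega | (exfalso; norm_num at q2)
  rcases h44 with ⟨h1, h2⟩ | ⟨h1, h2⟩ | ⟨h1, h2⟩
  · subst h1 h2
    by_cases c1 : hef
    · by_cases c2 : hff
      · exfalso
        unfold phi at p1 hcost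
        rw [if_pos c1, if_pos c2] at hcost
        push_cast at hcost
        linarith
      · right
        exact ⟨rfl, c2, Or.inl (by omega)⟩
    · left
      exact ⟨rfl, c1, Or.inl (by omega)⟩
  · subst h1 h2
    have ha20 : (a : ℝ) ≤ 20 := by
      push_cast at p2 p3
      have h5 : 3 / 20 ≤ 3 / (a : ℝ) := by linarith
      rw [div_le_div_iff₀ (by norm_num) (by linarith)] at h5
      linarith
    have ha20' : a ≤ 20 := by exact_mod_cast ha20
    have ha19 : 19 ≤ a := by omega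
    have ha19' : (19 : ℝ) ≤ a := by exact_mod_cast ha19
    have q3 : 3 / (a : ℝ) ≤ 3 / 19 := div_le_div_of_nonneg_left (by norm_num) (by norm_num) ha19'
    left
    refine ⟨rfl, ?_, ?_⟩
    · intro c1
      have : phi 4 hef = 3 / 8 := by
        unfold phi
        rw [if_pos c1]
        norm_num
      rw [this] at hcost
      push_cast at p3
      linarith
    · right
      omega
  · subst h1 h2
    have ha20 : (a : ℝ) ≤ 20 := by
      push_cast at p2 p3
      have h5 : 3 / 20 ≤ 3 / (a : ℝ) := by linarith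
      rw [div_le_div_iff₀ (by norm_num) (by linarith)] at h5
      linarith
    have ha20' : a ≤ 20 := by exact_mod_cast ha20
    have ha19 : 19 ≤ a := by omega
    have ha19' : (19 : ℝ) ≤ a := by exact_mod_cast ha19
    have q3 : 3 / (a : ℝ) ≤ 3 / 19 := div_le_div_of_nonneg_left (by norm_num) (by norm_num) ha19'
    right
    refine ⟨rfl, ?_, ?_⟩
    · intro c1
      have : phi 4 hff = 3 / 8 := by
        unfold phi
        rw [if_pos c1]
        norm_num
      rw [this] at hcost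
      push_cast at p2
      linarith
    · right
      omega

theorem tl3 {V : Type*} (s K : Finset V) (hK : K ⊆ s) (hc : K.card = 3) (d : V → ℕ)
    (h : V → Prop) (n : ℕ) (hn : 22 ≤ n) (hd : ∀ v ∈ s, 4 ≤ d v) (hh : ∀ v ∈ s, v ∉ K → h v)
    (hs : ∑ v ∈ s, d v = n + 2 * s.card) (hcost : ∑ v ∈ s, phi (d v) (h v) ≤ 3 / 2) :
    s = K ∧ ∃ v0 ∈ K, ∃ v1 ∈ K, v1 ≠ v0 ∧ d v1 = 4 ∧ ¬ h v1 ∧
      (d v0 = n - 2 ∨ (d v0 = 19 ∧ n = 22) ∨ (d v0 = 20 ∧ n = 23)) := by
  classical
  have hN3 : 3 ≤ s.card := by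
    rw [← hc]
    exact Finset.card_le_card hK
  have hne : s.Nonempty := Finset.card_pos.1 (by omega)
  obtain ⟨v0, hv0, hmax⟩ := Finset.exists_max_image s d hne
  have hD4 : 4 ≤ d v0 := hd v0 hv0
  have hDr : (0 : ℝ) < d v0 := by exact_mod_cast (by omega : 0 < d v0)
  have hsr : (∑ v ∈ s, (d v : ℝ)) = (n : ℝ) + 2 * s.card := by exact_mod_cast hs
  -- lower bound of the cost
  have h1 : (s.card : ℝ) / 4 + 3 * ((n : ℝ) - 2 * s.card) / (4 * d v0) ≤ 3 / 2 := by
    have e1 : (s.card : ℝ) / 4 + 3 * ((n : ℝ) - 2 * s.card) / (4 * d v0) =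
        ∑ v ∈ s, (1 / 4 + 3 * ((d v : ℝ) - 4) / (4 * d v0)) := by
      rw [Finset.sum_add_distrib, Finset.sum_const, nsmul_eq_mul, ← Finset.sum_div,
        ← Finset.mul_sum, Finset.sum_sub_distrib, hsr, Finset.sum_const, nsmul_eq_mul]
      ring
    rw [e1]
    refine (Finset.sum_le_sum fun v hv => ?_).trans hcost
    refine le_trans ?_ (tl_phi (d v) (h v) (hd v hv))
    have h2 : (4 : ℝ) ≤ d v := by exact_mod_cast hd v hv
    have h3 : (d v : ℝ) ≤ d v0 := by exact_mod_cast hmax v hv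
    have h4 : 1 - 3 / (d v : ℝ) = 1 / 4 + 3 * ((d v : ℝ) - 4) / (4 * d v) := by
      field_simp
      ring
    rw [h4]
    have h5 : 3 * ((d v : ℝ) - 4) / (4 * d v0) ≤ 3 * ((d v : ℝ) - 4) / (4 * d v) :=
      div_le_div_of_nonneg_left (by linarith) (by linarith) (by linarith)
    linarith
  -- upper bound of the maximal degree
  have h2 : d v0 + 4 * (s.card - 1) ≤ n + 2 * s.card := by
    rw [← hs, ← Finset.add_sum_erase s d hv0]
    have h3 : ∑ v ∈ s.erase v0, 4 ≤ ∑ v ∈ s.erase v0, d v :=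
      Finset.sum_le_sum fun v hv => hd v (Finset.mem_of_mem_erase hv)
    rw [Finset.sum_const, Finset.card_erase_of_mem hv0, smul_eq_mul] at h3
    omega
  have h3 : (3 : ℝ) * ((n : ℝ) - 2 * s.card) ≤ (6 - s.card) * d v0 := by
    have h4 : 3 * ((n : ℝ) - 2 * s.card) / (4 * d v0) ≤ (6 - s.card) / 4 := by linarith
    rw [div_le_div_iff₀ (by positivity) (by norm_num)] at h4
    linarith
  have hx : 2 * s.card ≤ n := by omega
  have hcard : s.card = 3 := by
    have hz : (3 : ℤ) * ((n : ℤ) - 2 * s.card) ≤ (6 - s.card) * d v0 := by exact_mod_cast h3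
    have hz2 : (d v0 : ℤ) ≤ n - 2 * s.card + 4 := by omega
    by_contra hne3
    have hN4 : 4 ≤ s.card := by omega
    rcases Nat.lt_or_ge 6 s.card with h6 | h6
    · have : ((6 : ℤ) - s.card) * d v0 < 0 := by
        apply mul_neg_of_neg_of_pos <;> omega
      have : (0 : ℤ) ≤ 3 * ((n : ℤ) - 2 * s.card) := by omega
      omega
    · have : s.card = 4 ∨ s.card = 5 ∨ s.card = 6 := by omega
      rcases this with h7 | h7 | h7 <;> rw [h7] at hz hz2 <;> push_cast at hz hz2 <;> omega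
  have hsK : s = K := (Finset.eq_of_subset_of_card_le hK (by omega)).symm
  refine ⟨hsK, ?_⟩
  have hD6 : n - 6 ≤ d v0 := by
    rw [hcard] at h3
    push_cast at h3
    have : (n : ℝ) ≤ d v0 + 6 := by linarith
    have : n ≤ d v0 + 6 := by exact_mod_cast this
    omega
  have hcard2 : (s.erase v0).card = 2 := by
    rw [Finset.card_erase_of_mem hv0, hcard]
  obtain ⟨e, f, hef, hset⟩ := Finset.card_eq_two.1 hcard2
  have he : e ∈ s.erase v0 := by rw [hset]; simp
  have hf : f ∈ s.erase v0 := by rw [hset]; simp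
  have hes := Finset.mem_of_mem_erase he
  have hfs := Finset.mem_of_mem_erase hf
  have hsum2 : d v0 + (d e + d f) = n + 6 := by
    have := Finset.add_sum_erase s d hv0
    rw [hset, Finset.sum_pair hef, hs, hcard] at this
    omega
  have hcost2 : phi (d v0) (h v0) + (phi (d e) (h e) + phi (d f) (h f)) ≤ 3 / 2 := by
    have := Finset.add_sum_erase s (fun v => phi (d v) (h v)) hv0
    rw [hset, Finset.sum_pair hef] at this
    rw [this]
    exact hcost
  have hlast := tl_last (d v0) (d e) (d f) n (h v0) (h e) (h f) hn (hd e hes) (hd f hfs)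
    (hmax e hes) (hmax f hfs) hsum2 hD6 hcost2
  rw [← hsK]
  rcases hlast with ⟨g1, g2, g3⟩ | ⟨g1, g2, g3⟩
  · exact ⟨v0, hv0, e, hes, Finset.ne_of_mem_erase he, g1, g2, g3⟩
  · exact ⟨v0, hv0, f, hfs, Finset.ne_of_mem_erase hf, g1, g2, g3⟩

end Pool.Agent.Work.MP_bd00dd_co
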