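import Pool.Agent.Work.MP_bd00dd_co.C.Basic

/-!
Triangles: labels a, b, c and vertex types.
-/

namespace Pool.Agent.Work.MP_bd00dd_co

variable {ι : Type*} {n : ℕ} {S : Finset Pl} {θ : Pl → ℝ} {Sd : Pl → Pl → Prop}
  {g : ι → Pl ≃ᵢ Pl} {vs : ι → Finset Pl} {ts : Pl → Finset ι}

private theorem tri0_perm {S : Finset Pl} {θ : Pl → ℝ} {x y z : Pl} (hS : S = {x, y, z})
    (hxy : x ≠ y) (hxz : x ≠ z) (hyz : y ≠ z) (hsum : θ x + θ y + θ z = 1)
    (h1 : θ x ≤ θ y) (h2 : θ y ≤ θ z) : Tri S θ x y z where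
  mem := by
    intro s
    rw [hS]
    simp
  ab := hxy
  bc := hyz
  ac := hxz
  le1 := h1
  le2 := h2
  sum := hsum

/-- The corners of a triangle can be ordered by their angles. -/
theorem exists_tri (D : Dat n S θ Sd g vs ts) (h3 : S.card = 3) :
    ∃ a b c, Tri S θ a b c := by
  classical
  obtain ⟨x, y, z, hxy, hxz, hyz, hS⟩ := Finset.card_eq_three.1 h3
  have hsum : θ x + θ y + θ z = 1 := by
    have h := D.sum
    rw [h3, hS, Finset.sum_insert (by simp [hxy, hxz]), Finset.sum_insert (by simp [hyz]),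
      Finset.sum_singleton] at h
    push_cast at h
    linarith
  rcases le_total (θ x) (θ y) with h1 | h1 <;> rcases le_total (θ y) (θ z) with h2 | h2 <;>
    rcases le_total (θ x) (θ z) with h4 | h4
  · exact ⟨x, y, z, tri0_perm hS hxy hxz hyz hsum h1 h2⟩
  · exact ⟨x, y, z, tri0_perm hS hxy hxz hyz hsum h1 h2⟩
  · refine ⟨x, z, y, tri0_perm ?_ hxz hxy hyz.symm (by linarith) h4 h2⟩
    rw [hS]; ext s; simp; tauto
  · refine ⟨z, x, y, tri0_perm ?_ hxz.symm hyz.symm hxy (by linarith) h4 h1⟩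
    rw [hS]; ext s; simp; tauto
  · refine ⟨y, x, z, tri0_perm ?_ hxy.symm hyz hxz (by linarith) h1 h4⟩
    rw [hS]; ext s; simp; tauto
  · refine ⟨y, z, x, tri0_perm ?_ hyz hxy.symm hxz.symm (by linarith) h2 h4⟩
    rw [hS]; ext s; simp; tauto
  · refine ⟨z, y, x, tri0_perm ?_ hyz.symm hxz.symm hxy.symm (by linarith) h2 h1⟩
    rw [hS]; ext s; simp; tauto
  · refine ⟨z, y, x, tri0_perm ?_ hyz.symm hxz.symm hxy.symm (by linarith) h2 h1⟩
    rw [hS]; ext s; simp; tauto

/-- In a triangle any two different corners span a side. Proof: D.two, D.sd. -/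
theorem Tri.side (D : Dat n S θ Sd g vs ts) {a b c : Pl} (T : Tri S θ a b c) {s t : Pl}
    (hs : s ∈ S) (ht : t ∈ S) (h : s ≠ t) : Sd s t := by
  obtain ⟨p, q, hpq, hp, hq, -⟩ := D.two s hs
  have hp1 := D.sd s p hp
  have hq1 := D.sd s q hq
  have hs' := (T.mem s).1 hs
  have ht' := (T.mem t).1 ht
  have hp' := (T.mem p).1 hp1.2.1
  have hq' := (T.mem q).1 hq1.2.1
  have hsp := hp1.2.2
  have hsq := hq1.2.2
  have h3 : t = p ∨ t = q := by
    clear hp hq hp1 hq1
    grind
  rcases h3 with rfl | rfl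
  · exact hp
  · exact hq

private theorem tri0_sum {S : Finset Pl} {θ : Pl → ℝ} {a b c : Pl} (T : Tri S θ a b c)
    {R : Type*} [AddCommMonoid R] (f : Pl → R) : ∑ s ∈ S, f s = f a + f b + f c := by
  classical
  have hS : S = {a, b, c} := by
    ext s
    rw [T.mem s]
    simp
  rw [hS, Finset.sum_insert (by simp [T.ab, T.ac]), Finset.sum_insert (by simp [T.bc]),
    Finset.sum_singleton, add_assoc]

/-- Degree by labels. -/
theorem Tri.deg {a b c : Pl} (T : Tri S θ a b c) (g : ι → Pl ≃ᵢ Pl) (ts : Pl → Finset ι)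
    (v : Pl) :
    (ts v).card = N g ts a v + N g ts b v + N g ts c v + stc S g ts v := by
  rw [deg_eq S g ts v, tri0_sum T]

/-- Every vertex has a type (tot_eq, stc_le, Tri.deg). -/
theorem Tri.ty (D : Dat n S θ Sd g vs ts) {a b c : Pl} (T : Tri S θ a b c) {v : Pl}
    (hv : 3 ≤ (ts v).card) :
    Ty (θ a) (θ b) (θ c) (N g ts a v) (N g ts b v) (N g ts c v) (stc S g ts v) := by
  have h1 := tot_eq D hv
  rw [tri0_sum T] at h1
  refine ⟨h1, stc_le D hv, ?_⟩
  rw [← T.deg g ts v]
  exact hv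

private theorem tri0_sum_label {ι : Type*} (g : ι → Pl ≃ᵢ Pl) (ts : Pl → Finset ι)
    [DecidableEq Pl] (s v : Pl) (x : ℝ) :
    ∑ i ∈ ts v, (if (g i).symm v = s then x else 0) = x * N g ts s v := by
  rw [← Finset.sum_filter, Finset.sum_const, nsmul_eq_mul, mul_comm]
  congr 2
  unfold N
  congr 1
  ext i
  simp only [Finset.mem_filter]

/-- Certificate: if deg (deg - 2) <= x m + y l + z j at every vertex with m, l, j corners a, b, c
then n <= x + y + z. Proof: D.ap with F i v = (deg v - 2) - (x, y or z if the tile i has its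
corner a, b or c at v); the sum over the tile i is n - (x + y + z) by D.cnt and corner_sum. -/
theorem Tri.cert (D : Dat n S θ Sd g vs ts) {a b c : Pl} (T : Tri S θ a b c) (x y z : ℝ)
    (h : ∀ v, 3 ≤ (ts v).card → ((ts v).card : ℝ) * ((ts v).card - 2) ≤
      x * N g ts a v + y * N g ts b v + z * N g ts c v) : (n : ℝ) ≤ x + y + z := by
  classical
  set f : Pl → ℝ := fun s => (if s = a then x else 0) + (if s = b then y else 0) +
    (if s = c then z else 0) with hf
  have hfS : ∀ s, s ∉ S → f s = 0 := by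
    intro s hs
    have h1 : s ≠ a := fun e => hs ((T.mem s).2 (Or.inl e))
    have h2 : s ≠ b := fun e => hs ((T.mem s).2 (Or.inr (Or.inl e)))
    have h3 : s ≠ c := fun e => hs ((T.mem s).2 (Or.inr (Or.inr e)))
    simp [hf, h1, h2, h3]
  set A1 : Finset ℝ := (Finset.range (n + 1)).image (fun d : ℕ => (d : ℝ) - 2) with hA1
  set A2 : Finset ℝ := insert 0 (S.image f) with hA2
  set Q' : Finset ℝ := (A1 ×ˢ A2).image (fun w => w.1 - w.2) with hQ'
  set F : ι → Pl → ℝ := fun i v => ((ts v).card : ℝ) - 2 - f ((g i).symm v) with hF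
  have key1 : ∀ i, ∀ v ∈ vs i, F i v ∈ Q' := by
    intro i v hv
    have hd : (ts v).card ≤ n := deg_le D ((D.mem i v).1 hv).2
    rw [hQ', Finset.mem_image]
    refine ⟨(((ts v).card : ℝ) - 2, f ((g i).symm v)), ?_, rfl⟩
    rw [Finset.mem_product]
    refine ⟨?_, ?_⟩
    · show ((ts v).card : ℝ) - 2 ∈ A1
      rw [hA1, Finset.mem_image]
      exact ⟨(ts v).card, Finset.mem_range.2 (by omega), rfl⟩
    · show f ((g i).symm v) ∈ A2
      rw [hA2, Finset.mem_insert, Finset.mem_image]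
      by_cases hh : (g i).symm v ∈ S
      · right; exact ⟨_, hh, rfl⟩
      · left; exact hfS _ hh
  have key2 : ∀ v, 3 ≤ (ts v).card → ∑ i ∈ ts v, F i v ≤ 0 := by
    intro v hv
    have h1 : ∑ i ∈ ts v, f ((g i).symm v) =
        x * N g ts a v + y * N g ts b v + z * N g ts c v := by
      simp only [hf]
      rw [Finset.sum_add_distrib, Finset.sum_add_distrib, tri0_sum_label, tri0_sum_label,
        tri0_sum_label]
    have h2 : ∑ i ∈ ts v, F i v = ((ts v).card : ℝ) * ((ts v).card - 2) -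
        ∑ i ∈ ts v, f ((g i).symm v) := by
      simp only [hF]
      rw [Finset.sum_sub_distrib, Finset.sum_const, nsmul_eq_mul]
    rw [h2, h1]
    have := h v hv
    linarith
  obtain ⟨i, hi⟩ := D.ap F Q' key1 key2
  have h1 : ∑ v ∈ vs i, f ((g i).symm v) = x + y + z := by
    have h2 := corner_sum D i f (fun _ => 0)
    rw [Finset.sum_const_zero, add_zero, tri0_sum T] at h2
    have h3 : f a + f b + f c = x + y + z := by
      simp [hf, T.ab, T.ac, T.bc, T.ab.symm, T.ac.symm, T.bc.symm]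
    rw [← h3, ← h2]
    refine Finset.sum_congr rfl fun v _ => ?_
    split_ifs with hh
    · rfl
    · exact hfS _ hh
  have h2 : ∑ v ∈ vs i, (((ts v).card : ℝ) - 2) = n := by
    rw [Finset.sum_sub_distrib, Finset.sum_const, nsmul_eq_mul]
    have h3 : (∑ v ∈ vs i, ((ts v).card : ℝ)) = n + 2 * (vs i).card := by
      exact_mod_cast D.cnt i
    rw [h3]; ring
  have h4 : ∑ v ∈ vs i, F i v = n - (x + y + z) := by
    simp only [hF]
    rw [Finset.sum_sub_distrib, h1, h2]
  rw [h4] at hi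
  linarith

end Pool.Agent.Work.MP_bd00dd_co
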