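import Pool.Agent.Work.MP_bd00dd_co.C.Cost
import Pool.Agent.Work.MP_bd00dd_co.C.TL
import Pool.Agent.Work.MP_bd00dd_co.C.Tri0

/-!
Triangles whose largest angle is not 1/2 or 2/3 (in units of π): a hub exists.
-/

namespace Pool.Agent.Work.MP_bd00dd_co

variable {ι : Type*} {n : ℕ} {S : Finset Pl} {θ : Pl → ℝ} {Sd : Pl → Pl → Prop}
  {g : ι → Pl ≃ᵢ Pl} {vs : ι → Finset Pl} {ts : Pl → Finset ι}

/-- All degrees are >= 4. Proof: at a vertex of degree 3 (Tri.ty, m + l + j + st = 3): st = 1: two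
angles have sum 1 = α + β + γ, only γ + γ, γ = 1/2; st = 0: three angles have sum 2, only γ + γ + γ
(2 γ + β < 2 since γ < 1, γ + β < 1), γ = 2/3. -/
theorem deg4 (D : Dat n S θ Sd g vs ts) {a b c : Pl} (T : Tri S θ a b c) (h1 : θ c ≠ 1 / 2)
    (h2 : θ c ≠ 2 / 3) {v : Pl} (hv : 3 ≤ (ts v).card) : 4 ≤ (ts v).card := by
  by_contra hcon
  have hd : (ts v).card = 3 := by omega
  have pa := D.pos a ((T.mem a).2 (Or.inl rfl))
  have hs := T.sum
  have l1 := T.le1
  have l2 := T.le2
  obtain ⟨t1, t2, _⟩ := T.ty D hv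
  have t3 := T.deg g ts v
  rw [hd] at t3
  generalize N g ts a v = m at *
  generalize N g ts b v = l at *
  generalize N g ts c v = q at *
  generalize stc S g ts v = r at *
  have hm : m ≤ 3 := by omega
  have hl : l ≤ 3 := by omega
  have hq : q ≤ 3 := by omega
  interval_cases m <;> interval_cases l <;> interval_cases q <;> interval_cases r <;>
    first
    | omega
    | (norm_num at t1; linarith)
    | (norm_num at t1; exact h1 (by linarith))
    | (norm_num at t1; exact h2 (by linarith))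

/-- A full vertex of degree 4 is of type 3 γ + α = 2 or 3 γ + β = 2. Proof: m + l + j = 4,
m α + l β + j γ = 2: at most two γ give at most 2 γ + 2 β < 2; four γ: γ = 1/2. -/
theorem four (D : Dat n S θ Sd g vs ts) {a b c : Pl} (T : Tri S θ a b c) (h1 : θ c ≠ 1 / 2)
    {v : Pl} (hv : (ts v).card = 4) (hf : ¬ Half S g ts v) :
    3 * θ c + θ a = 2 ∨ 3 * θ c + θ b = 2 := by
  have hv3 : 3 ≤ (ts v).card := by omega
  have hst : stc S g ts v = 0 := by
    have k1 := stc_le D hv3
    have k2 := half_iff D hv3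
    by_contra hne
    exact hf (k2.2 (by omega))
  have pa := D.pos a ((T.mem a).2 (Or.inl rfl))
  have hs := T.sum
  have l1 := T.le1
  have l2 := T.le2
  obtain ⟨t1, t2, _⟩ := T.ty D hv3
  have t3 := T.deg g ts v
  rw [hst] at t1 t2 t3
  rw [hv] at t3
  generalize N g ts a v = m at *
  generalize N g ts b v = l at *
  generalize N g ts c v = q at *
  have hm : m ≤ 4 := by omega
  have hl : l ≤ 4 := by omega
  have hq : q ≤ 4 := by omega
  interval_cases m <;> interval_cases l <;> interval_cases q <;>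
    first
    | omega
    | (norm_num at t1; exfalso; linarith)
    | (norm_num at t1; exact absurd (show θ c = 1 / 2 by linarith) h1)
    | (norm_num at t1; left; linarith)
    | (norm_num at t1; right; linarith)

/-- Proof: cost with τ = 0 gives a tile i with cost <= 3/2; tl3 with s = vs i, K = S.image (g i)
gives v0, v1. v0 is not half: if the tile j is straight at v0 then v0 and the three corners of j
(degrees >= 4) are in vs j, so (deg v0 - 2) + 6 <= n (sub_le), against deg v0 >= n - 3. -/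
theorem hub3 (D : Dat n S θ Sd g vs ts) {a b c : Pl} (T : Tri S θ a b c) (hn : 22 ≤ n)
    (h1 : θ c ≠ 1 / 2) (h2 : θ c ≠ 2 / 3) :
    (3 * θ c + θ a = 2 ∨ 3 * θ c + θ b = 2) ∧ ∃ v0, 3 ≤ (ts v0).card ∧ ¬ Half S g ts v0 ∧
      ((ts v0).card = n - 2 ∨ ((ts v0).card = 19 ∧ n = 22) ∨ ((ts v0).card = 20 ∧ n = 23)) := by
  classical
  have h3 : S.card = 3 := by
    have hS : S = {a, b, c} := by
      ext s
      rw [T.mem s]
      simp
    rw [hS]
    exact Finset.card_eq_three.2 ⟨a, b, c, T.ab, T.ac, T.bc, rfl⟩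
  have hsub : ∀ i, S.image (g i) ⊆ vs i := by
    intro i w hw
    obtain ⟨s, hs, rfl⟩ := Finset.mem_image.1 hw
    exact D.cmem i s hs
  have hKc : ∀ i, (S.image (g i)).card = 3 := by
    intro i
    rw [Finset.card_image_of_injective _ (g i).injective, h3]
  have hhalf : ∀ i, ∀ v ∈ vs i, v ∉ S.image (g i) → Half S g ts v := by
    intro i v hv hvK
    refine ⟨i, ((D.mem i v).1 hv).1, ?_⟩
    intro hs
    exact hvK (Finset.mem_image.2 ⟨_, hs, (g i).apply_symm_apply v⟩)
  obtain ⟨i, hi⟩ := cost D (fun _ _ => 0) {0} (fun _ _ _ => by simp) (fun _ _ => by simp)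
  have hi' : ∑ v ∈ vs i, phi (ts v).card (Half S g ts v) ≤ 3 / 2 := by
    have e : ∑ v ∈ vs i, (phi (ts v).card (Half S g ts v) + 0) =
        ∑ v ∈ vs i, phi (ts v).card (Half S g ts v) := by
      apply Finset.sum_congr rfl
      intro v _
      rw [add_zero]
    rw [e, h3] at hi
    norm_num at hi
    linarith
  obtain ⟨_, v0, hv0, v1, hv1, _, hd1, hh1, hd0⟩ := tl3 (vs i) (S.image (g i)) (hsub i) (hKc i)
    (fun v => (ts v).card) (fun v => Half S g ts v) n hn
    (fun v hv => deg4 D T h1 h2 ((D.mem i v).1 hv).2) (hhalf i) (D.cnt i) hi'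
  refine ⟨four D T h1 hd1 hh1, v0, ((D.mem i v0).1 (hsub i hv0)).2, ?_, hd0⟩
  rintro ⟨j, hj, hjs⟩
  have hv03 := ((D.mem i v0).1 (hsub i hv0)).2
  have hvj : v0 ∈ vs j := (D.mem j v0).2 ⟨hj, hv03⟩
  have hnot : v0 ∉ S.image (g j) := by
    intro hm
    obtain ⟨s, hs, rfl⟩ := Finset.mem_image.1 hm
    rw [(g j).symm_apply_apply] at hjs
    exact hjs hs
  have hF : insert v0 (S.image (g j)) ⊆ vs j := by
    intro w hw
    rcases Finset.mem_insert.1 hw with rfl | hw
    · exact hvj
    · exact hsub j hw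
  have hle := sub_le D hF
  rw [Finset.sum_insert hnot, Finset.card_insert_of_notMem hnot, hKc j] at hle
  have hge : (S.image (g j)).card * 4 ≤ ∑ w ∈ S.image (g j), (ts w).card := by
    rw [← smul_eq_mul]
    apply Finset.card_nsmul_le_sum
    intro w hw
    exact deg4 D T h1 h2 ((D.mem j w).1 (hsub j hw)).2
  rw [hKc j] at hge
  have hcj : 4 ≤ (vs j).card := by
    have := Finset.card_le_card hF
    rw [Finset.card_insert_of_notMem hnot, hKc j] at this
    exact this
  have hd0' : (ts v0).card = n - 2 ∨ ((ts v0).card = 19 ∧ n = 22) ∨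
    ((ts v0).card = 20 ∧ n = 23) := hd0
  omega

end Pool.Agent.Work.MP_bd00dd_co
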