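import Pool.Agent.Work.MP_bd00dd_co.C.RingT
import Pool.Agent.Work.MP_bd00dd_co.C.G1

/-!
Triangles, generic case, hub of degree n - 2.

Proof. (1) The n - 2 >= 20 angles at v are >= α with sum 2, so α <= 1/10. From 3 γ + x = 2, x = α or
β, and x < γ: γ > 1/2, γ < 2/3; so β = 1 - α - γ > 7/30, and α < β < γ.
(2) A tile i at v: v and the two other corners in vs i have degrees n - 2, >= 4, >= 4 (deg4), so
(sub_le) the other corners have degree exactly 4 and there are no side vertices.
(3) Two tiles i, j at v with Prt i a b j a b: then g i b = g j b (ns_eq) is a vertex of degree 4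
with two corners b. Full: 2 β + y + z <= 2 β + 2 γ < 2. Half: 2 β + z = 1: z = α gives β = γ, z = γ
gives β = α, z = β gives β = 1/3, γ = 2/3 - α, so x = 2 - 3 γ = 3 α is α or β = 1/3, α = 1/9: all
excluded.
(4) So countT: m <= l for the type (m, l, j) of v, and l β + j γ <= 2 with β > 7/30, γ > 1/2 gives
m + l + j <= 2 l + j <= 2 * 8 + ... < 20: precisely 2 l + j <= (60/7) (l β + j γ) <= 120/7 < 18.
Contradiction.
-/

namespace Pool.Agent.Work.MP_bd00dd_co

variable {ι : Type*} {n : ℕ} {S : Finset Pl} {θ : Pl → ℝ} {Sd : Pl → Pl → Prop}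
  {g : ι → Pl ≃ᵢ Pl} {vs : ι → Finset Pl} {ts : Pl → Finset ι}

/-- The angles, when there is a full vertex with k corners, k >= 19. -/
theorem r3a_ang (D : Dat n S θ Sd g vs ts) {a b c : Pl} (T : Tri S θ a b c)
    (h1 : θ c ≠ 1 / 2)
    (h4 : 3 * θ c + θ a = 2 ∨ 3 * θ c + θ b = 2) {v : Pl} (k : ℕ) (hk : 19 ≤ k)
    (hv : (ts v).card = k) (hf : ¬ Half S g ts v) :
    0 < θ a ∧ (k : ℝ) * θ a ≤ 2 ∧ 1 / 2 < θ c ∧ θ c < 2 / 3 ∧ 1 / 3 - θ a < θ b ∧ θ a < θ b ∧
      θ b < θ c ∧ (N g ts a v : ℝ) * θ a + N g ts b v * θ b + N g ts c v * θ c = 2 ∧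
      N g ts a v + N g ts b v + N g ts c v = k := by
  have ha : a ∈ S := (T.mem a).2 (Or.inl rfl)
  have pa := D.pos a ha
  have hv3 : 3 ≤ (ts v).card := by omega
  have hst := (ringT_full hf).2
  have hty := (T.ty D hv3).1
  have hdeg := T.deg g ts v
  rw [hst] at hty hdeg
  rw [hv] at hdeg
  have e1 : (N g ts a v : ℝ) * θ a + N g ts b v * θ b + N g ts c v * θ c = 2 := by
    simpa using hty
  have e2 : N g ts a v + N g ts b v + N g ts c v = k := by omega
  have hl1 := T.le1
  have hl2 := T.le2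
  have hs := T.sum
  have hka : (k : ℝ) * θ a ≤ 2 := by
    rw [← e1, ← e2]
    push_cast
    have f1 : (N g ts b v : ℝ) * θ a ≤ N g ts b v * θ b :=
      mul_le_mul_of_nonneg_left hl1 (Nat.cast_nonneg _)
    have f2 : (N g ts c v : ℝ) * θ a ≤ N g ts c v * θ c :=
      mul_le_mul_of_nonneg_left (hl1.trans hl2) (Nat.cast_nonneg _)
    linarith
  have hk19 : (19 : ℝ) ≤ k := by exact_mod_cast hk
  have ha2 : 19 * θ a ≤ 2 := by
    have := mul_le_mul_of_nonneg_right hk19 pa.le
    linarith
  have hc1 : 1 / 2 < θ c := by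
    rcases h4 with h | h
    · linarith
    · apply lt_of_le_of_ne _ (Ne.symm h1)
      linarith
  have hc2 : θ c < 2 / 3 := by
    rcases h4 with h | h <;> linarith
  exact ⟨pa, hka, hc1, hc2, by linarith, by linarith, by linarith, e1, e2⟩

theorem r3a (D : Dat n S θ Sd g vs ts) {a b c : Pl} (T : Tri S θ a b c) (hn : 22 ≤ n)
    (h1 : θ c ≠ 1 / 2) (h2 : θ c ≠ 2 / 3)
    (h4 : 3 * θ c + θ a = 2 ∨ 3 * θ c + θ b = 2) {v : Pl} (hv : (ts v).card = n - 2)
    (hf : ¬ Half S g ts v) : False := by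
  have ha : a ∈ S := (T.mem a).2 (Or.inl rfl)
  have hb : b ∈ S := (T.mem b).2 (Or.inr (Or.inl rfl))
  have hc : c ∈ S := (T.mem c).2 (Or.inr (Or.inr rfl))
  obtain ⟨pa, hka, hc1, hc2, hb0, hab, hbc, e1, e2⟩ :=
    r3a_ang D T h1 h4 (n - 2) (by omega) hv hf
  have hv3 : 3 ≤ (ts v).card := by omega
  have hs := T.sum
  have hk20 : (20 : ℝ) ≤ ((n - 2 : ℕ) : ℝ) := by
    have : 20 ≤ n - 2 := by omega
    exact_mod_cast this
  have ha2 : 20 * θ a ≤ 2 := by
    have := mul_le_mul_of_nonneg_right hk20 pa.le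
    linarith
  have hall := (ringT_full hf).1
  -- step 2
  have hstep : ∀ i ∈ ts v, NS S g vs i ∧ ∀ s ∈ S, g i s ≠ v → (ts (g i s)).card = 4 := by
    intro i hi
    obtain ⟨k3, k1, k2⟩ := ringT_sum D T i
    have k2' := k2 (fun w hw => deg4 D T h1 h2 hw)
    have da := deg4 D T h1 h2 (ringT_mem D (i := i) ha).2
    have db := deg4 D T h1 h2 (ringT_mem D (i := i) hb).2
    have dc := deg4 D T h1 h2 (ringT_mem D (i := i) hc).2
    have hl := hall i hi
    have hgi : g i ((g i).symm v) = v := (g i).apply_symm_apply v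
    rcases (T.mem _).1 hl with h | h | h
    · rw [h] at hgi
      rw [hgi, hv] at k2' k1
      have hcard : (vs i).card = 3 := by omega
      refine ⟨(k1 hcard).1, ?_⟩
      intro s hs' hne
      have := (k1 hcard).2
      rcases (T.mem s).1 hs' with rfl | rfl | rfl
      · exact absurd hgi hne
      · omega
      · omega
    · rw [h] at hgi
      rw [hgi, hv] at k2' k1
      have hcard : (vs i).card = 3 := by omega
      refine ⟨(k1 hcard).1, ?_⟩
      intro s hs' hne
      have := (k1 hcard).2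
      rcases (T.mem s).1 hs' with rfl | rfl | rfl
      · omega
      · exact absurd hgi hne
      · omega
    · rw [h] at hgi
      rw [hgi, hv] at k2' k1
      have hcard : (vs i).card = 3 := by omega
      refine ⟨(k1 hcard).1, ?_⟩
      intro s hs' hne
      have := (k1 hcard).2
      rcases (T.mem s).1 hs' with rfl | rfl | rfl
      · omega
      · omega
      · exact absurd hgi hne
  -- step 3
  have hno : ∀ i ∈ ts v, ∀ j ∈ ts v, g i a = v → ¬ Prt Sd g i a b j a b := by
    intro i hi j hj hia hp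
    obtain ⟨_, hw⟩ := ns_eq D hp (hstep i hi).1 (hstep j hj).1
    have hwv : g i b ≠ v := by
      intro he
      exact T.ab ((g i).injective (hia.trans he.symm))
    have hd := (hstep i hi).2 b hb hwv
    have hm1 := (ringT_mem D (i := i) hb).1
    have hm2 := (ringT_mem D (i := j) hb).1
    rw [← hw] at hm2
    have hN := ringT_two hp.1 hm1 hm2 rfl hw.symm
    have hd3 : 3 ≤ (ts (g i b)).card := by omega
    obtain ⟨t1, t2, _⟩ := T.ty D hd3
    have t3 := T.deg g ts (g i b)
    rw [hd] at t3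
    generalize N g ts a (g i b) = m at *
    generalize N g ts b (g i b) = l at *
    generalize N g ts c (g i b) = q at *
    generalize stc S g ts (g i b) = r at *
    have hl : l ≤ 4 := by omega
    have hm : m ≤ 2 := by omega
    have hq : q ≤ 2 := by omega
    interval_cases l <;> interval_cases r <;> interval_cases m <;> interval_cases q <;>
      first
      | omega
      | (norm_num at t1; rcases h4 with h4 | h4 <;> linarith)
  have hcount := countT D T hab hbc hv3 hf (fun j hj => (hstep j hj).1) hno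
  have g1 : (20 : ℝ) ≤ 2 * N g ts b v + N g ts c v := by
    have : 20 ≤ 2 * N g ts b v + N g ts c v := by omega
    exact_mod_cast this
  have f1 : (N g ts b v : ℝ) * (7 / 30) ≤ N g ts b v * θ b :=
    mul_le_mul_of_nonneg_left (by linarith) (Nat.cast_nonneg _)
  have f2 : (N g ts c v : ℝ) * (1 / 2) ≤ N g ts c v * θ c :=
    mul_le_mul_of_nonneg_left (by linarith) (Nat.cast_nonneg _)
  have f3 : 0 ≤ (N g ts a v : ℝ) * θ a := mul_nonneg (Nat.cast_nonneg _) pa.le
  have f4 : (0 : ℝ) ≤ N g ts c v := Nat.cast_nonneg _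
  linarith

end Pool.Agent.Work.MP_bd00dd_co
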