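import Pool.Agent.Work.MP_bd00dd_co.C.RingT
import Pool.Agent.Work.MP_bd00dd_co.C.G1
import Pool.Agent.Work.MP_bd00dd_co.C.R3A

/-!
Triangles, generic case, hub of degree n - 3 (n = 22, 23).

Proof. (1) At least 19 angles at v: α <= 2/19. As in R3A: 1/2 < γ < 2/3, β > 1 - 2/19 - 2/3 = 13/57,
α < β < γ.
(2) The tiles at v have no side vertices and their other corners have degrees 4, 5 or 5, 4
((n - 5) + (d1 - 2) + (d2 - 2) + side vertices (>= 2 each) = n, d1, d2 >= 4).
(3) r3b1: if i, j at v have Prt i a b j a b then g i b = g j b has two corners b and degree 4 or 5.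
Degree 4 is impossible (as in R3A (3); there β = 1/3 gives α = 1/9 > 2/19). Degree 5, full:
2 β + x + y + z = 2; half: 2 β + x + y = 1. With 3 γ + β = 2: β = (1 - 3α)/2, γ = (1 + α)/2; the
type equation α (2 m - 3 l + j) = 4 - l - j - 2 st, m + l + j + st = 5, l >= 2 has only the
solutions α = 1/11 (l = 4, j = 1) and α = 1/15 (l = 5) with α <= 2/19. With 3 γ + α = 2:
β = (1 - 2α)/3, γ = (2 - α)/3: α (3 m - 2 l - j) = 6 - l - 2 j - 3 st has no solution.
(4) If no two tiles at v have Prt i a b j a b: countT gives m <= l, so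
deg v <= 2 l + j <= (114/13) (l β + j γ) <= 228/13 < 18, contradiction.
(5) So 3 γ + β = 2 and α = 1/11 or 1/15. α = 1/11 (β = 4/11, γ = 6/11): m + 4 l + 6 j = 22 and
m + l + j = 19 or 20: (18,1,0), deg 19. The tile i with corner b at v: its partner for the side b c
(ringT) has the corner b or c at v: impossible. α = 1/15 (β = 6/15, γ = 8/15): m + 6 l + 8 j = 30:
(18,2,0), deg 20, n = 23. The tile i1 with corner b at v: the partner for b c is the second such
tile i2, the partner for b a is not i2 (D.share with v, g i1 c, g i1 a), so it is a tile i3 with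
corner a at v and g i3 b = g i1 a =: w. w has corners a and b and degree 4 or 5; degree 5 is
impossible (15ths: 1 + 6 + x + y + z = 30 with x, y, z in {1, 6, 8, 15}, at most one 15). So
deg w = 4 and the corner c of i3 has degree 5: 8 + w + x + y + z = 30 in 15ths is impossible with
values in {1, 6, 8, 15}, at most one 15. Contradiction.
-/

namespace Pool.Agent.Work.MP_bd00dd_co

variable {ι : Type*} {n : ℕ} {S : Finset Pl} {θ : Pl → ℝ} {Sd : Pl → Pl → Prop}
  {g : ι → Pl ≃ᵢ Pl} {vs : ι → Finset Pl} {ts : Pl → Finset ι}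

/-- Steps (1), (2). -/
theorem r3b0 (D : Dat n S θ Sd g vs ts) {a b c : Pl} (T : Tri S θ a b c)
    (h1 : θ c ≠ 1 / 2) (h2 : θ c ≠ 2 / 3)
    (h4 : 3 * θ c + θ a = 2 ∨ 3 * θ c + θ b = 2) {v : Pl}
    (hv : ((ts v).card = 19 ∧ n = 22) ∨ ((ts v).card = 20 ∧ n = 23)) (hf : ¬ Half S g ts v) :
    θ a ≤ 2 / 19 ∧ 1 / 2 < θ c ∧ θ c < 2 / 3 ∧ θ a < θ b ∧ θ b < θ c ∧
      (∀ j ∈ ts v, NS S g vs j) ∧
      ∀ j ∈ ts v, ∀ s ∈ S, ∀ t ∈ S, s ≠ t → g j s ≠ v → g j t ≠ v →
        ((ts (g j s)).card = 4 ∧ (ts (g j t)).card = 5) ∨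
        ((ts (g j s)).card = 5 ∧ (ts (g j t)).card = 4) := by
  have ha : a ∈ S := (T.mem a).2 (Or.inl rfl)
  have hb : b ∈ S := (T.mem b).2 (Or.inr (Or.inl rfl))
  have hc : c ∈ S := (T.mem c).2 (Or.inr (Or.inr rfl))
  have hk : 19 ≤ (ts v).card := by omega
  obtain ⟨pa, hka, hc1, hc2, hb0, hab, hbc, e1, e2⟩ :=
    r3a_ang D T h1 h4 (ts v).card hk rfl hf
  have hk20 : (19 : ℝ) ≤ (ts v).card := by exact_mod_cast hk
  have ha2 : θ a ≤ 2 / 19 := by
    have := mul_le_mul_of_nonneg_right hk20 pa.le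
    linarith
  have hall := (ringT_full hf).1
  have hstep : ∀ i ∈ ts v, NS S g vs i ∧ ∀ s ∈ S, ∀ t ∈ S, s ≠ t → g i s ≠ v → g i t ≠ v →
        ((ts (g i s)).card = 4 ∧ (ts (g i t)).card = 5) ∨
        ((ts (g i s)).card = 5 ∧ (ts (g i t)).card = 4) := by
    intro i hi
    obtain ⟨k3, k1, k2⟩ := ringT_sum D T i
    have k2' := k2 (fun w hw => deg4 D T h1 h2 hw)
    have da := deg4 D T h1 h2 (ringT_mem D (i := i) ha).2
    have db := deg4 D T h1 h2 (ringT_mem D (i := i) hb).2
    have dc := deg4 D T h1 h2 (ringT_mem D (i := i) hc).2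
    have hl := hall i hi
    have hgi : g i ((g i).symm v) = v := (g i).apply_symm_apply v
    rcases (T.mem _).1 hl with h | h | h
    · rw [h] at hgi
      rw [hgi] at k2' k1
      have hcard : (vs i).card = 3 := by omega
      refine ⟨(k1 hcard).1, ?_⟩
      intro s hs' t ht' hst hne1 hne2
      have := (k1 hcard).2
      rcases (T.mem s).1 hs' with rfl | rfl | rfl <;>
        rcases (T.mem t).1 ht' with rfl | rfl | rfl <;>
        first
        | exact absurd rfl hst
        | exact absurd hgi hne1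
        | exact absurd hgi hne2
        | omega
    · rw [h] at hgi
      rw [hgi] at k2' k1
      have hcard : (vs i).card = 3 := by omega
      refine ⟨(k1 hcard).1, ?_⟩
      intro s hs' t ht' hst hne1 hne2
      have := (k1 hcard).2
      rcases (T.mem s).1 hs' with rfl | rfl | rfl <;>
        rcases (T.mem t).1 ht' with rfl | rfl | rfl <;>
        first
        | exact absurd rfl hst
        | exact absurd hgi hne1
        | exact absurd hgi hne2
        | omega
    · rw [h] at hgi
      rw [hgi] at k2' k1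
      have hcard : (vs i).card = 3 := by omega
      refine ⟨(k1 hcard).1, ?_⟩
      intro s hs' t ht' hst hne1 hne2
      have := (k1 hcard).2
      rcases (T.mem s).1 hs' with rfl | rfl | rfl <;>
        rcases (T.mem t).1 ht' with rfl | rfl | rfl <;>
        first
        | exact absurd rfl hst
        | exact absurd hgi hne1
        | exact absurd hgi hne2
        | omega
  exact ⟨ha2, hc1, hc2, hab, hbc, fun j hj => (hstep j hj).1, fun j hj => (hstep j hj).2⟩

/-- Steps (3), (4). -/
theorem r3b1 (D : Dat n S θ Sd g vs ts) {a b c : Pl} (T : Tri S θ a b c)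
    (h1 : θ c ≠ 1 / 2) (h2 : θ c ≠ 2 / 3)
    (h4 : 3 * θ c + θ a = 2 ∨ 3 * θ c + θ b = 2) {v : Pl}
    (hv : ((ts v).card = 19 ∧ n = 22) ∨ ((ts v).card = 20 ∧ n = 23)) (hf : ¬ Half S g ts v) :
    (θ a = 1 / 11 ∧ θ b = 4 / 11 ∧ θ c = 6 / 11) ∨
      (θ a = 1 / 15 ∧ θ b = 6 / 15 ∧ θ c = 8 / 15) := by
  have ha : a ∈ S := (T.mem a).2 (Or.inl rfl)
  have hb : b ∈ S := (T.mem b).2 (Or.inr (Or.inl rfl))
  have hc : c ∈ S := (T.mem c).2 (Or.inr (Or.inr rfl))
  have hv3 : 3 ≤ (ts v).card := by omega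
  obtain ⟨ha2, hc1, hc2, hab, hbc, hns, hdeg⟩ := r3b0 D T h1 h2 h4 hv hf
  obtain ⟨pa, hka, _, _, hb0, _, _, e1, e2⟩ :=
    r3a_ang D T h1 h4 (ts v).card (by omega) rfl hf
  have hs := T.sum
  by_cases hex : ∃ i ∈ ts v, ∃ j ∈ ts v, g i a = v ∧ Prt Sd g i a b j a b
  · obtain ⟨i, hi, j, hj, hia, hp⟩ := hex
    obtain ⟨_, hw⟩ := ns_eq D hp (hns i hi) (hns j hj)
    have hwv : g i b ≠ v := by
      intro he
      exact T.ab ((g i).injective (hia.trans he.symm))
    have hcv : g i c ≠ v := by
      intro he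
      exact T.ac ((g i).injective (hia.trans he.symm))
    have hd : (ts (g i b)).card = 4 ∨ (ts (g i b)).card = 5 := by
      rcases hdeg i hi b hb c hc T.bc hwv hcv with h | h
      · exact Or.inl h.1
      · exact Or.inr h.1
    have hm1 := (ringT_mem D (i := i) hb).1
    have hm2 := (ringT_mem D (i := j) hb).1
    rw [← hw] at hm2
    have hN := ringT_two hp.1 hm1 hm2 rfl hw.symm
    have hd3 : 3 ≤ (ts (g i b)).card := by omega
    obtain ⟨t1, t2, _⟩ := T.ty D hd3
    have t3 := T.deg g ts (g i b)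
    generalize N g ts a (g i b) = m at *
    generalize N g ts b (g i b) = l at *
    generalize N g ts c (g i b) = q at *
    generalize stc S g ts (g i b) = r at *
    have hl : l ≤ 5 := by omega
    have hm : m ≤ 3 := by omega
    have hq : q ≤ 3 := by omega
    have hd45 : m + l + q + r = 4 ∨ m + l + q + r = 5 := by omega
    clear t3 hd e2 e1 hd3 hdeg hns hka
    interval_cases l <;> interval_cases r <;> interval_cases m <;> interval_cases q <;>
      first
      | omega
      | (norm_num at t1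
         rcases h4 with h4 | h4 <;>
         first
         | (exfalso; linarith)
         | (left; exact ⟨by linarith, by linarith, by linarith⟩)
         | (right; exact ⟨by linarith, by linarith, by linarith⟩))
  · exfalso
    have hcount := countT D T hab hbc hv3 hf hns (fun i hi j hj hia hp =>
      hex ⟨i, hi, j, hj, hia, hp⟩)
    have g1 : (19 : ℝ) ≤ 2 * N g ts b v + N g ts c v := by
      have : 19 ≤ 2 * N g ts b v + N g ts c v := by omega
      exact_mod_cast this
    have f1 : (N g ts b v : ℝ) * (13 / 57) ≤ N g ts b v * θ b :=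
      mul_le_mul_of_nonneg_left (by linarith) (Nat.cast_nonneg _)
    have f2 : (N g ts c v : ℝ) * (1 / 2) ≤ N g ts c v * θ c :=
      mul_le_mul_of_nonneg_left (by linarith) (Nat.cast_nonneg _)
    have f3 : 0 ≤ (N g ts a v : ℝ) * θ a := mul_nonneg (Nat.cast_nonneg _) pa.le
    have f4 : (0 : ℝ) ≤ N g ts c v := Nat.cast_nonneg _
    linarith

private theorem r3b_ex {s v : Pl} (h : 1 ≤ N g ts s v) : ∃ i ∈ ts v, g i s = v := by
  classical
  unfold N at h
  obtain ⟨i, hi⟩ := Finset.card_pos.1 h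
  obtain ⟨h1, h2⟩ := Finset.mem_filter.1 hi
  refine ⟨i, h1, ?_⟩
  rw [← h2]
  exact (g i).apply_symm_apply v

/-- Step (5). -/
theorem r3b (D : Dat n S θ Sd g vs ts) {a b c : Pl} (T : Tri S θ a b c)
    (h1 : θ c ≠ 1 / 2) (h2 : θ c ≠ 2 / 3)
    (h4 : 3 * θ c + θ a = 2 ∨ 3 * θ c + θ b = 2) {v : Pl}
    (hv : ((ts v).card = 19 ∧ n = 22) ∨ ((ts v).card = 20 ∧ n = 23))
    (hf : ¬ Half S g ts v) : False := by
  classical
  have ha : a ∈ S := (T.mem a).2 (Or.inl rfl)
  have hb : b ∈ S := (T.mem b).2 (Or.inr (Or.inl rfl))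
  have hc : c ∈ S := (T.mem c).2 (Or.inr (Or.inr rfl))
  have hv3 : 3 ≤ (ts v).card := by omega
  obtain ⟨ha2, hc1, hc2, hab, hbc, hns, hdeg⟩ := r3b0 D T h1 h2 h4 hv hf
  have hst := (ringT_full hf).2
  have hty := (T.ty D hv3).1
  have hdv := T.deg g ts v
  rw [hst] at hty hdv
  rcases r3b1 D T h1 h2 h4 hv hf with ⟨xa, xb, xc⟩ | ⟨xa, xb, xc⟩
  · rw [xa, xb, xc] at hty
    have h3 : ((N g ts a v * 1 + N g ts b v * 4 + N g ts c v * 6 : ℕ) : ℝ) = (22 : ℕ) := by
      push_cast
      push_cast at hty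
      linarith
    have h5 : N g ts a v * 1 + N g ts b v * 4 + N g ts c v * 6 = 22 := by exact_mod_cast h3
    have hNb : N g ts b v = 1 := by omega
    have hNc : N g ts c v = 0 := by omega
    obtain ⟨i, hi, hib⟩ := r3b_ex (g := g) (ts := ts) (s := b) (v := v) (by omega)
    obtain ⟨j, hj, hji, hc' | hc'⟩ := ringT D T hab hbc hv3 hf hns hi hb hc T.bc hib
    · have := ringT_two (ts := ts) hji hj hi hc'.2.1 hib
      omega
    · have := ringT_one (g := g) (ts := ts) hj hc'.2.1
      omega
  · rw [xa, xb, xc] at hty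
    have h3 : ((N g ts a v * 1 + N g ts b v * 6 + N g ts c v * 8 : ℕ) : ℝ) = (30 : ℕ) := by
      push_cast
      push_cast at hty
      linarith
    have h5 : N g ts a v * 1 + N g ts b v * 6 + N g ts c v * 8 = 30 := by exact_mod_cast h3
    have hNb : N g ts b v = 2 := by omega
    have hNc : N g ts c v = 0 := by omega
    obtain ⟨i1, hi1, hib⟩ := r3b_ex (g := g) (ts := ts) (s := b) (v := v) (by omega)
    obtain ⟨i2, hi2, h21, hc' | hc'⟩ := ringT D T hab hbc hv3 hf hns hi1 hb hc T.bc hib
    swap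
    · have := ringT_one (g := g) (ts := ts) hi2 hc'.2.1
      omega
    obtain ⟨_, h2b, h2c⟩ := hc'
    obtain ⟨i3, hi3, h31, hd' | hd'⟩ := ringT D T hab hbc hv3 hf hns hi1 hb ha T.ab.symm hib
    · obtain ⟨_, h3b, h3a⟩ := hd'
      have h32 : i3 = i2 := by
        by_contra hne
        have hN3 : 2 < N g ts b v := by
          unfold N
          rw [Finset.two_lt_card_iff]
          refine ⟨i1, i2, i3, Finset.mem_filter.2 ⟨hi1, ?_⟩, Finset.mem_filter.2 ⟨hi2, ?_⟩,
            Finset.mem_filter.2 ⟨hi3, ?_⟩, h21.symm, h31.symm, Ne.symm hne⟩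
          · rw [← hib]
            exact (g i1).symm_apply_apply b
          · rw [← h2b]
            exact (g i2).symm_apply_apply b
          · rw [← h3b]
            exact (g i3).symm_apply_apply b
        omega
      rw [h32] at h3a
      have m1 : g i1 b ∈ vs i1 := D.cmem i1 b hb
      have m2 : g i1 c ∈ vs i1 := D.cmem i1 c hc
      have m3 : g i1 a ∈ vs i1 := D.cmem i1 a ha
      have m4 : g i1 b ∈ vs i2 := by
        rw [hib, ← h2b]
        exact D.cmem i2 b hb
      have m5 : g i1 c ∈ vs i2 := by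
        rw [← h2c]
        exact D.cmem i2 c hc
      have m6 : g i1 a ∈ vs i2 := by
        rw [← h3a]
        exact D.cmem i2 a ha
      exact D.share i1 i2 h21.symm _ m1 _ m2 _ m3 m4 m5 m6
        (fun h => T.bc ((g i1).injective h)) (fun h => T.ac.symm ((g i1).injective h))
        (fun h => T.ab.symm ((g i1).injective h))
    · obtain ⟨_, h3a, h3b⟩ := hd'
      have hnat : ∀ w, 3 ≤ (ts w).card → N g ts a w * 1 + N g ts b w * 6 + N g ts c w * 8 +
          stc S g ts w * 15 = 30 := by
        intro w hw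
        have t1 := (T.ty D hw).1
        rw [xa, xb, xc] at t1
        have h3 : ((N g ts a w * 1 + N g ts b w * 6 + N g ts c w * 8 +
            stc S g ts w * 15 : ℕ) : ℝ) = (30 : ℕ) := by
          push_cast
          linarith
        exact_mod_cast h3
      have hbv : g i3 b ≠ v := by
        intro he
        exact T.ab ((g i3).injective (h3a.trans he.symm))
      have hcv : g i3 c ≠ v := by
        intro he
        exact T.ac ((g i3).injective (h3a.trans he.symm))
      rcases hdeg i3 hi3 b hb c hc T.bc hbv hcv with h | h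
      · have hm := ringT_mem D (i := i3) hc
        have n1 := ringT_one (g := g) (ts := ts) hm.1 rfl
        have n2 := hnat _ hm.2
        have n3 := T.deg g ts (g i3 c)
        have n4 := (T.ty D hm.2).2.1
        omega
      · have hm := ringT_mem D (i := i3) hb
        have n1 := ringT_one (g := g) (ts := ts) hm.1 rfl
        have hm' := ringT_mem D (i := i1) ha
        rw [← h3b] at hm'
        have n5 := ringT_one (g := g) (ts := ts) hm'.1 h3b.symm
        have n2 := hnat _ hm.2
        have n3 := T.deg g ts (g i3 b)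
        have n4 := (T.ty D hm.2).2.1
        omega

end Pool.Agent.Work.MP_bd00dd_co
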