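import Pool.Agent.Work.MP_bd00dd_co.C.K5
import Pool.Agent.Work.MP_bd00dd_co.C.K4
import Pool.Agent.Work.MP_bd00dd_co.C.K3s
import Pool.Agent.Work.MP_bd00dd_co.C.R3A
import Pool.Agent.Work.MP_bd00dd_co.C.R3B

/-!
The counting part: n <= 21.
-/

namespace Pool.Agent.Work.MP_bd00dd_co

variable {ι : Type*} {n : ℕ} {S : Finset Pl} {θ : Pl → ℝ} {Sd : Pl → Pl → Prop}
  {g : ι → Pl ≃ᵢ Pl} {vs : ι → Finset Pl} {ts : Pl → Finset ι}

theorem comb (D : Dat n S θ Sd g vs ts) : n ≤ 21 := by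
  by_contra hn
  replace hn : 22 ≤ n := by omega
  have h3 := D.three
  by_cases h5 : 5 ≤ S.card
  · exact k5 D hn h5
  by_cases h4 : S.card = 4
  · exact k4 D hn h4
  obtain ⟨a, b, c, T⟩ := exists_tri D (by omega)
  by_cases h12 : θ c = 1 / 2
  · exact k12 D T hn h12
  by_cases h23 : θ c = 2 / 3
  · exact k23 D T hn h23
  obtain ⟨h4, v0, _, hf, hv⟩ := hub3 D T hn h12 h23
  rcases hv with hv | hv
  · exact r3a D T hn h12 h23 h4 hv hf
  · exact r3b D T h12 h23 h4 hv hf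

end Pool.Agent.Work.MP_bd00dd_co
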