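import Pool.Agent.Work.MP_bd00dd_co.C.Basic

/-!
The cost argument. A vertex of degree d costs 1 - 3/d if it is full and 1 - 5/(2d) if it is half
(function phi). The average cost of a tile is 3 - k/2, k = S.card. In the form needed here: for
every transport τ with nonpositive sums at the vertices some tile has cost + transport at most
3 - k/2.

Proof: apply D.ap to F i v = phi (deg v) (Half v) - (1 - (3/2) θ s) [if s = (g i).symm v ∈ S]
+ τ i v. At a vertex v with st = stc v straight tiles (st = 0 or 1 by stc_le, half_iff):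
full: d (1 - 3/d) - d + (3/2) * 2 = 0; half: d (1 - 5/(2d)) - (d - 1) + (3/2) * 1 = 0 (use
tot_eq, deg_eq). On a tile: the sum of the corrections is - k + (3/2)(k - 2) = -(3 - k/2)
(corner_sum, D.sum). The values are in a finite set: deg v <= n (deg_le), labels in S, Q.
-/

namespace Pool.Agent.Work.MP_bd00dd_co

variable {ι : Type*} {n : ℕ} {S : Finset Pl} {θ : Pl → ℝ} {Sd : Pl → Pl → Prop}
  {g : ι → Pl ≃ᵢ Pl} {vs : ι → Finset Pl} {ts : Pl → Finset ι}

theorem cost (D : Dat n S θ Sd g vs ts) (τ : ι → Pl → ℝ) (Q : Finset ℝ)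
    (hQ : ∀ i, ∀ v ∈ vs i, τ i v ∈ Q)
    (hτ : ∀ v, 3 ≤ (ts v).card → ∑ i ∈ ts v, τ i v ≤ 0) :
    ∃ i, ∑ v ∈ vs i, (phi (ts v).card (Half S g ts v) + τ i v) ≤ 3 - (S.card : ℝ) / 2 := by
  classical
  set A1 : Finset ℝ := (Finset.range (n + 1)).image (fun d : ℕ => 1 - 5 / (2 * (d : ℝ))) ∪
    (Finset.range (n + 1)).image (fun d : ℕ => 1 - 3 / (d : ℝ)) with hA1
  set A2 : Finset ℝ := insert 0 (S.image (fun s => 1 - 3 / 2 * θ s)) with hA2
  set Q' : Finset ℝ := (A1 ×ˢ A2 ×ˢ Q).image (fun x => x.1 - x.2.1 + x.2.2) with hQ'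
  set F : ι → Pl → ℝ := fun i v => phi (ts v).card (Half S g ts v) -
      (if (g i).symm v ∈ S then 1 - 3 / 2 * θ ((g i).symm v) else 0) + τ i v with hF
  have key1 : ∀ i, ∀ v ∈ vs i, F i v ∈ Q' := by
    intro i v hv
    have hd : (ts v).card ≤ n := deg_le D ((D.mem i v).1 hv).2
    rw [hQ', Finset.mem_image]
    refine ⟨(phi (ts v).card (Half S g ts v),
      (if (g i).symm v ∈ S then 1 - 3 / 2 * θ ((g i).symm v) else 0), τ i v), ?_, rfl⟩
    rw [Finset.mem_product, Finset.mem_product]
    refine ⟨?_, ?_, hQ i v hv⟩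
    · show phi (ts v).card (Half S g ts v) ∈ A1
      rw [hA1, Finset.mem_union, Finset.mem_image, Finset.mem_image]
      unfold phi
      split_ifs with hh
      · left; exact ⟨(ts v).card, Finset.mem_range.2 (by omega), rfl⟩
      · right; exact ⟨(ts v).card, Finset.mem_range.2 (by omega), rfl⟩
    · show (if (g i).symm v ∈ S then 1 - 3 / 2 * θ ((g i).symm v) else 0) ∈ A2
      rw [hA2, Finset.mem_insert, Finset.mem_image]
      split_ifs with hh
      · right; exact ⟨_, hh, rfl⟩
      · left; rfl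
  have key2 : ∀ v, 3 ≤ (ts v).card → ∑ i ∈ ts v, F i v ≤ 0 := by
    intro v hv
    have hA : ∀ i, (if (g i).symm v ∈ S then 1 - 3 / 2 * θ ((g i).symm v) else 0) =
        1 - 3 / 2 * A S θ g i v + 1 / 2 * (if (g i).symm v ∉ S then 1 else 0) := by
      intro i
      unfold A
      split_ifs with hh
      · ring
      · norm_num
    have hst : ∑ i ∈ ts v, (if (g i).symm v ∉ S then (1 : ℝ) else 0) = stc S g ts v := by
      rw [Finset.sum_boole]
      rfl
    have hsum : ∑ i ∈ ts v, (if (g i).symm v ∈ S then 1 - 3 / 2 * θ ((g i).symm v) else 0) =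
        (ts v).card - 3 + (stc S g ts v : ℝ) / 2 := by
      rw [Finset.sum_congr rfl fun i _ => hA i, Finset.sum_add_distrib, Finset.sum_sub_distrib,
        ← Finset.mul_sum, ← Finset.mul_sum, D.tot v hv, hst, Finset.sum_const, nsmul_eq_mul]
      ring
    rw [Finset.sum_add_distrib, Finset.sum_sub_distrib, hsum, Finset.sum_const, nsmul_eq_mul]
    have hd0 : ((ts v).card : ℝ) ≠ 0 := by
      have : (3 : ℝ) ≤ (ts v).card := by exact_mod_cast hv
      intro h; linarith
    have hphi : ((ts v).card : ℝ) * phi (ts v).card (Half S g ts v) =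
        (ts v).card - 3 + (stc S g ts v : ℝ) / 2 := by
      unfold phi
      split_ifs with hh
      · have h1 : stc S g ts v = 1 := (half_iff D hv).1 hh
        rw [h1]
        field_simp
        norm_num
        ring
      · have h1 : stc S g ts v = 0 := by
          have h2 := stc_le D hv
          have h3 : stc S g ts v ≠ 1 := fun h => hh ((half_iff D hv).2 h)
          omega
        rw [h1]
        field_simp
        norm_num
    have := hτ v hv
    linarith
  obtain ⟨i, hi⟩ := D.ap F Q' key1 key2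
  refine ⟨i, ?_⟩
  have h1 : ∑ v ∈ vs i, (if (g i).symm v ∈ S then 1 - 3 / 2 * θ ((g i).symm v) else 0) =
      3 - (S.card : ℝ) / 2 := by
    have h2 := corner_sum D i (fun s => 1 - 3 / 2 * θ s) (fun _ => 0)
    rw [Finset.sum_const_zero, add_zero] at h2
    rw [show (∑ v ∈ vs i, (if (g i).symm v ∈ S then 1 - 3 / 2 * θ ((g i).symm v) else 0)) =
      ∑ s ∈ S, (1 - 3 / 2 * θ s) from h2]
    rw [Finset.sum_sub_distrib, ← Finset.mul_sum, D.sum, Finset.sum_const, nsmul_eq_mul]
    ring
  have h3 : ∑ v ∈ vs i, (phi (ts v).card (Half S g ts v) + τ i v) -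
      ∑ v ∈ vs i, (if (g i).symm v ∈ S then 1 - 3 / 2 * θ ((g i).symm v) else 0) ≤ 0 := by
    rw [← Finset.sum_sub_distrib]
    refine le_trans (le_of_eq ?_) hi
    exact Finset.sum_congr rfl fun v _ => (by ring)
  rw [h1] at h3
  linarith

end Pool.Agent.Work.MP_bd00dd_co
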