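import Pool.Agent.Work.MP_bd00dd_co.Defs

/-!
Real inequality about the vertices of one tile with at least five corners (notation as in
C/TL.lean).
-/

namespace Pool.Agent.Work.MP_bd00dd_co

/-- At least five corners: the cost is > 1/2. Proof: suppose it is <= 1/2. Every vertex has
d v <= 6 (1 - 3/d <= 1/2), so 1 - 3/d >= (d - 3)/6 and ∑ (d v - 3) <= 3, hence
n + 2 N - 3 N <= 3 (N = s.card), N >= n - 3 >= 19. With k = K.card <= ... : the N - k side
vertices are half and cost >= 1/6 each, so N - k <= 3, k >= 16 -- this is impossible for k <= 6;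
so the theorem assumes K.card <= 6. -/
theorem tl5 {V : Type*} (s K : Finset V) (hK : K ⊆ s) (hc : K.card ≤ 6) (d : V → ℕ)
    (h : V → Prop) (n : ℕ) (hn : 22 ≤ n) (hd : ∀ v ∈ s, 3 ≤ d v) (hh : ∀ v ∈ s, v ∉ K → h v)
    (hs : ∑ v ∈ s, d v = n + 2 * s.card) : 1 / 2 < ∑ v ∈ s, phi (d v) (h v) := by
  classical
  by_contra hcon
  push Not at hcon
  have hd' : ∀ v ∈ s, (3 : ℝ) ≤ d v := fun v hv => by exact_mod_cast hd v hv
  have hphi : ∀ v ∈ s, 1 - 3 / (d v : ℝ) ≤ phi (d v) (h v) := by
    intro v hv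
    have h1 := hd' v hv
    unfold phi
    split_ifs
    · have : 5 / (2 * (d v : ℝ)) ≤ 3 / (d v : ℝ) := by
        rw [div_le_div_iff₀ (by linarith) (by linarith)]
        nlinarith
      linarith
    · exact le_rfl
  have hphi0 : ∀ v ∈ s, 0 ≤ phi (d v) (h v) := by
    intro v hv
    have h1 := hd' v hv
    have h2 : 3 / (d v : ℝ) ≤ 1 := by
      rw [div_le_one (by linarith)]
      exact h1
    have := hphi v hv
    linarith
  have h6 : ∀ v ∈ s, (d v : ℝ) ≤ 6 := by
    intro v hv
    have h1 := hd' v hv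
    have h2 := Finset.single_le_sum hphi0 hv
    have h3 := hphi v hv
    have h4 : 1 / 2 ≤ 3 / (d v : ℝ) := by linarith
    rw [div_le_div_iff₀ (by norm_num) (by linarith)] at h4
    linarith
  have hsum : ((n : ℝ) + 2 * s.card - 3 * s.card) / 6 ≤ 1 / 2 := by
    have e1 : ((n : ℝ) + 2 * s.card - 3 * s.card) / 6 = ∑ v ∈ s, ((d v : ℝ) - 3) / 6 := by
      rw [← Finset.sum_div, Finset.sum_sub_distrib]
      have : (∑ v ∈ s, (d v : ℝ)) = (n : ℝ) + 2 * s.card := by exact_mod_cast hs
      rw [this, Finset.sum_const, nsmul_eq_mul]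
      ring
    rw [e1]
    refine (Finset.sum_le_sum fun v hv => ?_).trans hcon
    refine le_trans ?_ (hphi v hv)
    have h1 := hd' v hv
    have h2 := h6 v hv
    have h3 : 1 - 3 / (d v : ℝ) = ((d v : ℝ) - 3) / d v := by
      field_simp
    rw [h3]
    exact div_le_div_of_nonneg_left (by linarith) (by linarith) h2
  have hN : (19 : ℝ) ≤ s.card := by
    have : (22 : ℝ) ≤ n := by exact_mod_cast hn
    linarith
  have hside : ((s \ K).card : ℝ) * (1 / 6) ≤ 1 / 2 := by
    calc ((s \ K).card : ℝ) * (1 / 6) = ∑ v ∈ s \ K, (1 / 6 : ℝ) := by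
          rw [Finset.sum_const, nsmul_eq_mul]
      _ ≤ ∑ v ∈ s \ K, phi (d v) (h v) := by
          refine Finset.sum_le_sum fun v hv => ?_
          rw [Finset.mem_sdiff] at hv
          have h1 := hd' v hv.1
          unfold phi
          rw [if_pos (hh v hv.1 hv.2)]
          have : 5 / (2 * (d v : ℝ)) ≤ 5 / 6 :=
            div_le_div_of_nonneg_left (by norm_num) (by norm_num) (by linarith)
          linarith
      _ ≤ ∑ v ∈ s, phi (d v) (h v) :=
          Finset.sum_le_sum_of_subset_of_nonneg Finset.sdiff_subset fun v hv _ => hphi0 v hv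
      _ ≤ 1 / 2 := hcon
  have hcard : (s.card : ℝ) ≤ (s \ K).card + 6 := by
    have h1 := Finset.card_sdiff_add_card_eq_card hK
    have h2 : s.card ≤ (s \ K).card + 6 := by omega
    exact_mod_cast h2
  linarith

end Pool.Agent.Work.MP_bd00dd_co
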