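import Pool.Agent.Work.MP_bd00dd_co.C.Cost
import Pool.Agent.Work.MP_bd00dd_co.C.TL5

/-!
No tiling with at least five corners and n >= 22.
Proof: cost with τ = 0 gives a tile i with ∑ phi <= 3 - k/2, k = S.card >= 5. If k >= 7 the right
side is negative, but all costs are >= 0 (degrees are >= 3). If k = 5, 6 apply tl5 with s = vs i,
K = S.image (g i) (card k <= 6), d v = (ts v).card, h v = Half S g ts v: a vertex in vs i which is
not in K is half (the tile i itself is straight there).
-/

namespace Pool.Agent.Work.MP_bd00dd_co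

variable {ι : Type*} {n : ℕ} {S : Finset Pl} {θ : Pl → ℝ} {Sd : Pl → Pl → Prop}
  {g : ι → Pl ≃ᵢ Pl} {vs : ι → Finset Pl} {ts : Pl → Finset ι}

theorem k5 (D : Dat n S θ Sd g vs ts) (hn : 22 ≤ n) (hk : 5 ≤ S.card) : False := by
  classical
  obtain ⟨i, hi⟩ := cost D (fun _ _ => 0) {0} (fun _ _ _ => by simp) (fun _ _ => by simp)
  have hi' : ∑ v ∈ vs i, phi (ts v).card (Half S g ts v) ≤ 3 - (S.card : ℝ) / 2 := by
    have e : ∑ v ∈ vs i, (phi (ts v).card (Half S g ts v) + 0) =
        ∑ v ∈ vs i, phi (ts v).card (Half S g ts v) := by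
      apply Finset.sum_congr rfl
      intro v _
      rw [add_zero]
    rw [e] at hi
    exact hi
  have hk' : (5 : ℝ) ≤ S.card := by exact_mod_cast hk
  have hsub : S.image (g i) ⊆ vs i := by
    intro w hw
    obtain ⟨s, hs, rfl⟩ := Finset.mem_image.1 hw
    exact D.cmem i s hs
  have hKc : (S.image (g i)).card = S.card :=
    Finset.card_image_of_injective _ (g i).injective
  have hhalf : ∀ v ∈ vs i, v ∉ S.image (g i) → Half S g ts v := by
    intro v hv hvK
    refine ⟨i, ((D.mem i v).1 hv).1, ?_⟩
    intro hs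
    exact hvK (Finset.mem_image.2 ⟨_, hs, (g i).apply_symm_apply v⟩)
  by_cases h6 : S.card ≤ 6
  · have := tl5 (vs i) (S.image (g i)) hsub (by rw [hKc]; exact h6) (fun v => (ts v).card)
      (fun v => Half S g ts v) n hn (fun v hv => ((D.mem i v).1 hv).2) hhalf (D.cnt i)
    linarith
  · have h7 : (7 : ℝ) ≤ S.card := by
      have : 7 ≤ S.card := by omega
      exact_mod_cast this
    have hnn : 0 ≤ ∑ v ∈ vs i, phi (ts v).card (Half S g ts v) := by
      apply Finset.sum_nonneg
      intro v hv
      have h3 : (3 : ℝ) ≤ (ts v).card := by exact_mod_cast ((D.mem i v).1 hv).2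
      unfold phi
      split_ifs
      · have : 5 / (2 * ((ts v).card : ℝ)) ≤ 1 := by
          rw [div_le_one (by linarith)]
          linarith
        linarith
      · have : 3 / ((ts v).card : ℝ) ≤ 1 := by
          rw [div_le_one (by linarith)]
          linarith
        linarith
    linarith

end Pool.Agent.Work.MP_bd00dd_co
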