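import Pool.Agent.Work.MP_bd00dd_co.C.Tri0

/-!
The mismatch lemma. Let a, b, c be the corners of the triangle with θ a < θ b < θ c, so that the
side lengths dist b c < dist a c < dist a b are different (D.trilt).

Call a vertex v mixed if it is full and the numbers m, l, j of its labels a, b, c do not satisfy
that m + l, l + j, m + j are all even (Mix). Then at some ray from v two tiles have sides of
different length, so the shorter side ends at a vertex w inside the longer side. Assign v to the
tile with the longer side: Mx i v = 1 for this tile and 0 for the other ones.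

Proof of the parity claim. For v full let R be the set of the pairs (i, t), i ∈ ts v, t ∈ S,
t ≠ s := (g i).symm v (2 deg v elements). By D.ray and D.rayu (note that Prt is symmetric) the
partner map (i, t) -> (j, t') is an involution on R without fixed points (i ≠ j). If
dist s t = dist s' t' for all partners then for each of the three lengths the number of the (i, t)
in R with this length is even (an involution without fixed points); but the numbers are
l + j (length dist b c), m + j (dist a c), m + l (dist a b). So a mixed vertex has a pair with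
dist s t < dist s' t' (up to symmetry), Prt i s t j s' t'. As both sides start at v and have the
same direction, w := g i t lies in openSegment (g j s') (g j t'), j ∈ ts w by D.seg,
w ∈ vs j by D.mem (w ∈ vs i by D.cmem), and (g j).symm w ∉ S by D.openc.
Choose such (i,t,j,s',t') for each mixed v; let Mx j v = 1.

Counting on the tile j: the side vertices w obtained from two different v, v' are different,
unless v, v' are the two ends of the side which contains w (D.same) and
dist v w + dist w v' = dist v v'. So each side vertex is obtained at most twice (mism2). In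
mism1 it is obtained at most once: dist v w = x, dist w v' = y, dist v v' = z are side lengths
with x + y = z; the triangle inequality D.tineq and the hypotheses exclude this: if x ≠ y then
x, y, z are the three different lengths, against D.tineq; if x = y = the smallest length then
2 x = z is excluded by h1, h2; x = y = dist a c, z = dist a b is excluded since
2 dist a c > dist b c + dist a c > dist a b.
-/

namespace Pool.Agent.Work.MP_bd00dd_co

variable {ι : Type*} {n : ℕ} {S : Finset Pl} {θ : Pl → ℝ} {Sd : Pl → Pl → Prop}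
  {g : ι → Pl ≃ᵢ Pl} {vs : ι → Finset Pl} {ts : Pl → Finset ι}

private theorem mism_symm {i : ι} {s t : Pl} {j : ι} {s' t' : Pl}
    (h : Prt Sd g i s t j s' t') : Prt Sd g j s' t' i s t :=
  ⟨h.1.symm, h.2.2.1, h.2.1, h.2.2.2.1.symm, h.2.2.2.2.symm⟩

/-- The shorter side ends inside the longer side. -/
private theorem mism_open (D : Dat n S θ Sd g vs ts) {i : ι} {s t : Pl} {j : ι} {s' t' : Pl}
    (h : Prt Sd g i s t j s' t') (hlt : dist s t < dist s' t') :
    g i t ∈ openSegment ℝ (g j s') (g j t') := by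
  obtain ⟨_, hst, hst', he, hr⟩ := h
  have hx : 0 < dist s t := dist_pos.2 (D.sd s t hst).2.2
  have h1 := sameRay_iff_norm_smul_eq.1 hr
  have n1 : ‖g i t - g i s‖ = dist s t := by
    rw [← dist_eq_norm, (g i).dist_eq, dist_comm]
  have n2 : ‖g j t' - g j s'‖ = dist s' t' := by
    rw [← dist_eq_norm, (g j).dist_eq, dist_comm]
  rw [n1, n2] at h1
  have hz : 0 < dist s' t' := hx.trans hlt
  rw [openSegment_eq_image']
  refine ⟨dist s t / dist s' t', ⟨div_pos hx hz, (div_lt_one hz).2 hlt⟩, ?_⟩
  have h2 : (dist s t / dist s' t') • (g j t' - g j s') = g i t - g i s := by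
    rw [div_eq_inv_mul, mul_smul, h1, smul_smul, inv_mul_cancel₀ hz.ne', one_smul]
  simp only
  rw [h2, ← he]
  abel

private theorem mism_len (D : Dat n S θ Sd g vs ts) {a b c : Pl} (T : Tri S θ a b c)
    (hab : θ a < θ b) (hbc : θ b < θ c) : S.card = 3 ∧ 0 < dist b c ∧
      dist b c < dist a c ∧ dist a c < dist a b ∧ dist a b < dist b c + dist a c := by
  classical
  have hS : S = {a, b, c} := by
    ext s
    rw [T.mem s]
    simp
  have h3 : S.card = 3 := by
    rw [hS]
    exact Finset.card_eq_three.2 ⟨a, b, c, T.ab, T.ac, T.bc, rfl⟩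
  have ha : a ∈ S := (T.mem a).2 (Or.inl rfl)
  have hb : b ∈ S := (T.mem b).2 (Or.inr (Or.inl rfl))
  have hc : c ∈ S := (T.mem c).2 (Or.inr (Or.inr rfl))
  have h1 := D.trilt h3 a ha b hb c hc T.ab T.bc T.ac hab
  have h2 := D.trilt h3 b hb c hc a ha T.bc T.ac.symm T.ab.symm hbc
  have h4 := D.tineq a ha c hc b hb T.ac T.bc.symm T.ab
  refine ⟨h3, dist_pos.2 T.bc, h1, ?_, ?_⟩
  · rw [dist_comm a c, dist_comm a b]
    exact h2
  · rw [dist_comm c b] at h4
    linarith

private theorem mism_pair (D : Dat n S θ Sd g vs ts) {a b c : Pl} (T : Tri S θ a b c)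
    (hab : θ a < θ b) (hbc : θ b < θ c) {s t s' t' : Pl} (hs : s ∈ S) (ht : t ∈ S)
    (hs' : s' ∈ S) (ht' : t' ∈ S) (hst : s ≠ t) (hst' : s' ≠ t')
    (h : dist s t = dist s' t') : (s = s' ∧ t = t') ∨ (s = t' ∧ t = s') := by
  obtain ⟨_, h0, h1, h2, h3⟩ := mism_len D T hab hbc
  have e1 := dist_comm a b
  have e2 := dist_comm a c
  have e3 := dist_comm b c
  rcases (T.mem s).1 hs with rfl | rfl | rfl <;> rcases (T.mem t).1 ht with rfl | rfl | rfl <;>
    first
    | exact absurd rfl hst
    | (rcases (T.mem s').1 hs' with rfl | rfl | rfl <;>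
        rcases (T.mem t').1 ht' with rfl | rfl | rfl <;>
        first
        | exact absurd rfl hst'
        | exact Or.inl ⟨rfl, rfl⟩
        | exact Or.inr ⟨rfl, rfl⟩
        | (exfalso; linarith))

/-- A side length is one of three. -/
private theorem mism_three (D : Dat n S θ Sd g vs ts) {a b c : Pl} (T : Tri S θ a b c)
    {s t : Pl} (hst : Sd s t) :
    dist s t = dist b c ∨ dist s t = dist a c ∨ dist s t = dist a b := by
  obtain ⟨hs, ht, hne⟩ := D.sd s t hst
  have e1 := dist_comm a b
  have e2 := dist_comm a c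
  have e3 := dist_comm b c
  rcases (T.mem s).1 hs with rfl | rfl | rfl <;> rcases (T.mem t).1 ht with rfl | rfl | rfl <;>
    first
    | exact absurd rfl hne
    | exact Or.inl rfl
    | exact Or.inr (Or.inl rfl)
    | exact Or.inr (Or.inr rfl)
    | exact Or.inl e3.symm
    | exact Or.inr (Or.inl e2.symm)
    | exact Or.inr (Or.inr e1.symm)

/-- Parity at a full vertex. -/
private theorem mism_even (D : Dat n S θ Sd g vs ts) {a b c : Pl} (T : Tri S θ a b c)
    {v : Pl} (hf : ∀ j ∈ ts v, (g j).symm v ∈ S) {x y : Pl} (hx : x ∈ S) (hy : y ∈ S)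
    (hxy : x ≠ y)
    (hall : ∀ i s t j s' t', g i s = v → Prt Sd g i s t j s' t' →
      (s = s' ∧ t = t') ∨ (s = t' ∧ t = s')) :
    Even (N g ts x v + N g ts y v) := by
  classical
  set U := (ts v).filter (fun i => (g i).symm v = x ∨ (g i).symm v = y) with hU
  have hcard : U.card = N g ts x v + N g ts y v := by
    unfold N
    rw [hU, Finset.filter_or, Finset.card_union_of_disjoint]
    rw [Finset.disjoint_filter]
    intro i _ h1 h2
    exact hxy (h1.symm.trans h2)
  rw [← hcard]
  -- the other label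
  let oth : Pl → Pl := fun z => if z = x then y else x
  have ox : oth x = y := by simp [oth]
  have oy : oth y = x := by simp [oth, hxy.symm]
  have hex : ∀ i ∈ U, ∃ j ∈ U, Prt Sd g i ((g i).symm v) (oth ((g i).symm v)) j
      ((g j).symm v) (oth ((g j).symm v)) := by
    intro i hi
    obtain ⟨hiv, hl⟩ := Finset.mem_filter.1 hi
    have hsd : Sd ((g i).symm v) (oth ((g i).symm v)) := by
      rcases hl with h | h
      · rw [h, ox]
        exact T.side D hx hy hxy
      · rw [h, oy]
        exact T.side D hy hx hxy.symm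
    have hgi : g i ((g i).symm v) = v := (g i).apply_symm_apply v
    obtain ⟨j, s', t', hp⟩ := D.ray i _ _ hsd (by rw [hgi]; exact hf)
    have hs' : g j s' = v := by
      rw [← hp.2.2.2.1, hgi]
    have hs'' : (g j).symm v = s' := by
      rw [← hs']
      exact (g j).symm_apply_apply s'
    have hjv : j ∈ ts v := by
      have h1 := D.cmem j s' (D.sd _ _ hp.2.2.1).1
      rw [hs'] at h1
      exact ((D.mem j v).1 h1).1
    have hc := hall i _ _ j s' t' hgi hp
    have key : (s' = x ∧ t' = y) ∨ (s' = y ∧ t' = x) := by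
      rcases hl with h | h
      · rw [h, ox] at hc
        rcases hc with hc | hc
        · exact Or.inl ⟨hc.1.symm, hc.2.symm⟩
        · exact Or.inr ⟨hc.2.symm, hc.1.symm⟩
      · rw [h, oy] at hc
        rcases hc with hc | hc
        · exact Or.inr ⟨hc.1.symm, hc.2.symm⟩
        · exact Or.inl ⟨hc.2.symm, hc.1.symm⟩
    refine ⟨j, Finset.mem_filter.2 ⟨hjv, ?_⟩, ?_⟩
    · rw [hs'']
      rcases key with h | h
      · exact Or.inl h.1
      · exact Or.inr h.1
    · rw [hs'']
      rcases key with h | h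
      · rw [h.1, ox]
        rw [h.1, h.2] at hp
        exact hp
      · rw [h.1, oy]
        rw [h.1, h.2] at hp
        exact hp
  choose! f hfU hfP using hex
  have hsum : ∑ _x ∈ U, (1 : ZMod 2) = 0 := by
    apply Finset.sum_involution (fun i _ => f i)
    · intro i _
      decide
    · intro i hi _ he
      have := (hfP i hi).1
      exact this he.symm
    · intro i hi
      exact hfU i hi
    · intro i hi
      have h1 := mism_symm (hfP i hi)
      have h2 := hfP (f i) (hfU i hi)
      exact (D.rayu _ _ _ _ _ _ _ _ _ h2 h1).1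
  rw [Finset.sum_const, nsmul_eq_mul, mul_one] at hsum
  exact (ZMod.natCast_eq_zero_iff_even).1 hsum

/-- The side vertex obtained from a mixed vertex. -/
private def MW (Sd : Pl → Pl → Prop) (g : ι → Pl ≃ᵢ Pl) (S : Finset Pl) (vs : ι → Finset Pl)
    (ts : Pl → Finset ι) (v : Pl) (j : ι) (w : Pl) : Prop :=
  j ∈ ts v ∧ w ∈ vs j ∧ (g j).symm w ∉ S ∧ ∃ s t s' t', Sd s t ∧ Sd s' t' ∧ g j s' = v ∧
    w ∈ openSegment ℝ (g j s') (g j t') ∧ dist v w = dist s t

private theorem mism_w (D : Dat n S θ Sd g vs ts) {i : ι} {s t : Pl} {j : ι} {s' t' : Pl}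
    (h : Prt Sd g i s t j s' t') (hlt : dist s t < dist s' t') :
    MW Sd g S vs ts (g i s) j (g i t) := by
  have ho := mism_open D h hlt
  obtain ⟨hij, hst, hst', he, hr⟩ := h
  have hs'S := D.sd _ _ hst'
  have hsS := D.sd _ _ hst
  have hjv : j ∈ ts (g i s) := by
    have h1 := D.cmem j s' hs'S.1
    rw [← he] at h1
    exact ((D.mem j _).1 h1).1
  have hw : g i t ∈ vs i := D.cmem i t hsS.2.1
  have hjw : j ∈ ts (g i t) :=
    D.seg j s' t' hs'S.1 hs'S.2.1 _ (openSegment_subset_segment ℝ _ _ ho)
  refine ⟨hjv, (D.mem j _).2 ⟨hjw, ((D.mem i _).1 hw).2⟩, ?_, s, t, s', t', hst, hst', he.symm,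
    ho, (g i).dist_eq s t⟩
  intro hcon
  apply D.openc j s' t' _ hst' hcon
  rw [(g j).apply_symm_apply]
  exact ho

private theorem mism_ex (D : Dat n S θ Sd g vs ts) {a b c : Pl} (T : Tri S θ a b c)
    (hab : θ a < θ b) (hbc : θ b < θ c) {v : Pl} (_hv : 3 ≤ (ts v).card)
    (hm : Mix (N g ts a v) (N g ts b v) (N g ts c v) (stc S g ts v)) :
    ∃ j w, MW Sd g S vs ts v j w := by
  by_contra hcon
  push Not at hcon
  obtain ⟨h0, hpar⟩ := hm
  have ha : a ∈ S := (T.mem a).2 (Or.inl rfl)
  have hb : b ∈ S := (T.mem b).2 (Or.inr (Or.inl rfl))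
  have hc : c ∈ S := (T.mem c).2 (Or.inr (Or.inr rfl))
  have hf : ∀ j ∈ ts v, (g j).symm v ∈ S := by
    intro j hj
    by_contra hjs
    unfold stc at h0
    rw [Finset.card_eq_zero] at h0
    have : j ∈ (∅ : Finset ι) := by
      rw [← h0]
      exact Finset.mem_filter.2 ⟨hj, hjs⟩
    simp at this
  have hall : ∀ i s t j s' t', g i s = v → Prt Sd g i s t j s' t' →
      (s = s' ∧ t = t') ∨ (s = t' ∧ t = s') := by
    intro i s t j s' t' hi hp
    have hs := D.sd _ _ hp.2.1
    have hs' := D.sd _ _ hp.2.2.1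
    apply mism_pair D T hab hbc hs.1 hs.2.1 hs'.1 hs'.2.1 hs.2.2 hs'.2.2
    apply le_antisymm
    · by_contra hlt
      push Not at hlt
      have := mism_w D (mism_symm hp) hlt
      rw [← hp.2.2.2.1, hi] at this
      exact hcon _ _ this
    · by_contra hlt
      push Not at hlt
      have := mism_w D hp hlt
      rw [hi] at this
      exact hcon _ _ this
  exact hpar ⟨mism_even D T hf ha hb T.ab hall, mism_even D T hf hb hc T.bc hall,
    mism_even D T hf ha hc T.ac hall⟩

/-- Common part of the two theorems. -/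
private theorem mism_core (D : Dat n S θ Sd g vs ts) {a b c : Pl} (T : Tri S θ a b c)
    (hab : θ a < θ b) (hbc : θ b < θ c) (k : ℕ)
    (hk : ∀ (j : ι) (w : Pl) (V : Finset Pl), (∀ v ∈ V, MW Sd g S vs ts v j w) → V.card ≤ k) :
    ∃ M : ι → Pl → ℝ, (∀ i v, M i v = 0 ∨ M i v = 1) ∧
      (∀ v, 3 ≤ (ts v).card → Mix (N g ts a v) (N g ts b v) (N g ts c v) (stc S g ts v) →
        ∑ i ∈ ts v, M i v = 1) ∧
      (∀ v, 3 ≤ (ts v).card → ¬ Mix (N g ts a v) (N g ts b v) (N g ts c v) (stc S g ts v) →
        ∑ i ∈ ts v, M i v = 0) ∧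
      ∀ i, ∑ v ∈ vs i, M i v ≤ k * scount S g vs i := by
  classical
  let mx : Pl → Prop := fun v => 3 ≤ (ts v).card ∧
    Mix (N g ts a v) (N g ts b v) (N g ts c v) (stc S g ts v)
  have hex : ∀ v, ∃ p : ι × Pl, mx v → MW Sd g S vs ts v p.1 p.2 := by
    intro v
    by_cases hv : mx v
    · obtain ⟨j, w, h⟩ := mism_ex D T hab hbc hv.1 hv.2
      exact ⟨(j, w), fun _ => h⟩
    · by_cases hι : Nonempty ι
      · exact ⟨(hι.some, 0), fun h => absurd h hv⟩
      · exfalso
        exact hι ((D.ap (fun _ _ => 0) {0} (fun _ _ _ => by simp) (fun _ _ => by simp)).nonempty)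
  choose p hp using hex
  refine ⟨fun i v => if mx v ∧ (p v).1 = i then 1 else 0, ?_, ?_, ?_, ?_⟩
  · intro i v
    by_cases h : mx v ∧ (p v).1 = i
    · right
      simp [h]
    · left
      simp only [h, if_false]
  · intro v hv hm
    have hmx : mx v := ⟨hv, hm⟩
    have : ∀ i ∈ ts v, (if mx v ∧ (p v).1 = i then (1 : ℝ) else 0) =
        if (p v).1 = i then 1 else 0 := by
      intro i _
      simp [hmx]
    rw [Finset.sum_congr rfl this, Finset.sum_ite_eq]
    rw [if_pos (hp v hmx).1]
  · intro v hv hm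
    have hmx : ¬ mx v := fun h => hm h.2
    apply Finset.sum_eq_zero
    intro i _
    simp [hmx]
  · intro i
    have h1 : ∑ v ∈ vs i, (if mx v ∧ (p v).1 = i then (1 : ℝ) else 0) =
        (((vs i).filter (fun v => mx v ∧ (p v).1 = i)).card : ℝ) := by
      rw [Finset.sum_boole]
    rw [h1]
    have h2 : ((vs i).filter (fun v => mx v ∧ (p v).1 = i)).card ≤ k * scount S g vs i := by
      unfold scount
      apply Finset.card_le_mul_card_image_of_maps_to (f := fun v => (p v).2)
      · intro v hv
        obtain ⟨_, hm, hpi⟩ := Finset.mem_filter.1 hv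
        have := hp v hm
        rw [hpi] at this
        exact Finset.mem_filter.2 ⟨this.2.1, this.2.2.1⟩
      · intro w _
        apply hk i w
        intro v hv
        obtain ⟨hv1, hw⟩ := Finset.mem_filter.1 hv
        obtain ⟨_, hm, hpi⟩ := Finset.mem_filter.1 hv1
        have := hp v hm
        rw [hpi, hw] at this
        exact this
    exact_mod_cast h2

/-- Two vertices with the same side vertex are equal or the two ends of a side. -/
private theorem mism_two (D : Dat n S θ Sd g vs ts) {j : ι} {w v v' : Pl}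
    (h : MW Sd g S vs ts v j w) (h' : MW Sd g S vs ts v' j w) (hne : v ≠ v') :
    ∃ s t, Sd s t ∧ g j s = v ∧ g j t = v' ∧ w ∈ openSegment ℝ v v' := by
  obtain ⟨_, _, _, _, _, s', t', _, hst', hs', hw, _⟩ := h
  obtain ⟨_, _, _, _, _, s'', t'', _, hst'', hs'', hw', _⟩ := h'
  rcases D.same j s' t' s'' t'' w hst' hst'' hw hw' with he | he
  · exfalso
    apply hne
    rw [← hs', ← hs'', he.1]
  · refine ⟨s', t', hst', hs', ?_, ?_⟩
    · rw [he.2, hs'']
    · rw [hs', he.2, hs''] at hw
      exact hw

theorem mism1 (D : Dat n S θ Sd g vs ts) {a b c : Pl} (T : Tri S θ a b c)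
    (hab : θ a < θ b) (hbc : θ b < θ c) (h1 : 2 * dist b c ≠ dist a c)
    (h2 : 2 * dist b c ≠ dist a b) :
    ∃ M : ι → Pl → ℝ, (∀ i v, M i v = 0 ∨ M i v = 1) ∧
      (∀ v, 3 ≤ (ts v).card → Mix (N g ts a v) (N g ts b v) (N g ts c v) (stc S g ts v) →
        ∑ i ∈ ts v, M i v = 1) ∧
      (∀ v, 3 ≤ (ts v).card → ¬ Mix (N g ts a v) (N g ts b v) (N g ts c v) (stc S g ts v) →
        ∑ i ∈ ts v, M i v = 0) ∧
      ∀ i, ∑ v ∈ vs i, M i v ≤ scount S g vs i := by
  have := mism_core D T hab hbc 1 (by
    intro j w V hV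
    rw [Finset.card_le_one]
    intro v hv v' hv'
    by_contra hne
    obtain ⟨s, t, hst, hs, ht, hw⟩ := mism_two D (hV v hv) (hV v' hv') hne
    obtain ⟨_, _, _, s1, t1, _, _, hst1, _, _, _, hd1⟩ := hV v hv
    obtain ⟨_, _, _, s2, t2, _, _, hst2, _, _, _, hd2⟩ := hV v' hv'
    have hadd := dist_add_dist_of_mem_segment (openSegment_subset_segment ℝ _ _ hw)
    rw [dist_comm w v', hd1, hd2, ← hs, ← ht, (g j).dist_eq] at hadd
    obtain ⟨_, k0, k1, k2, k3⟩ := mism_len D T hab hbc
    rcases mism_three D T hst1 with e1 | e1 | e1 <;>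
      rcases mism_three D T hst2 with e2 | e2 | e2 <;>
      rcases mism_three D T hst with e3 | e3 | e3 <;>
      rw [e1, e2, e3] at hadd <;>
      first
      | (exfalso; linarith)
      | exact h1 (by linarith)
      | exact h2 (by linarith))
  simpa using this

theorem mism2 (D : Dat n S θ Sd g vs ts) {a b c : Pl} (T : Tri S θ a b c)
    (hab : θ a < θ b) (hbc : θ b < θ c) :
    ∃ M : ι → Pl → ℝ, (∀ i v, M i v = 0 ∨ M i v = 1) ∧
      (∀ v, 3 ≤ (ts v).card → Mix (N g ts a v) (N g ts b v) (N g ts c v) (stc S g ts v) →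
        ∑ i ∈ ts v, M i v = 1) ∧
      (∀ v, 3 ≤ (ts v).card → ¬ Mix (N g ts a v) (N g ts b v) (N g ts c v) (stc S g ts v) →
        ∑ i ∈ ts v, M i v = 0) ∧
      ∀ i, ∑ v ∈ vs i, M i v ≤ 2 * scount S g vs i := by
  classical
  have := mism_core D T hab hbc 2 (by
    intro j w V hV
    by_contra hcard
    push Not at hcard
    obtain ⟨x, y, z, hx, hy, hz, hxy, hxz, hyz⟩ := Finset.two_lt_card_iff.1 hcard
    obtain ⟨s, t, hst, hs, ht, hw⟩ := mism_two D (hV x hx) (hV y hy) hxy
    obtain ⟨s', t', hst', hs', ht', hw'⟩ := mism_two D (hV x hx) (hV z hz) hxz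
    rw [← hs, ← ht] at hw
    rw [← hs', ← ht'] at hw'
    rcases D.same j s t s' t' w hst hst' hw hw' with he | he
    · apply hyz
      rw [← ht, ← ht', he.2]
    · apply hxy
      rw [← hs', ← ht, he.2])
  simpa using this

end Pool.Agent.Work.MP_bd00dd_co
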