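import Pool.Agent.Work.MP_bd00dd_co.C.P22a
import Pool.Agent.Work.MP_bd00dd_co.C.Ring4

/-!
The triangle with angles 1/10, 4/10, 5/10 and n = 22, part 2 (notation as in part 1). Let w be a
vertex with five corners b, deg w = 5. Call a tile i at w an N tile if deg (g i a) = 20. Then at
most three of the five tiles at w are N tiles.

Proof. An N tile i has no side vertices (p22s). Its partner X for the side b c at w (D.ray) has a
side b t' there, which is at least as long as dist b c (the shortest length), so g i c lies on it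
and X ∈ ts (g i c) (D.seg): X is the tile across the side b c of i.
CLAIM: X is not an N tile. Suppose it is. By ns_eq (C/Ring4.lean) the sides are equal, t' = c,
C := g i c = g X c, degree 3 (p22c): the tiles at C are i, X, Z and Z is straight at C (1/2 + 1/2
+ 1 = 2). The tile across the side c a of i (D.across) contains C and A0 := g i a; it is not X
(i, X would share w, C, A0, D.share), so it is Z. A0 has degree 20, so Z has a corner there. Z is
straight at C: C ∈ openSegment (g Z s) (g Z t) (D.strt); by D.line A0 is in the segment, and as a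
corner it is an end of it (D.openc). In the same way the tile across the side c a of X contains C
and Y := g X a, it is not i, so it is Z, and Y is in segment (g Z s) (g Z t). Y ≠ A0 (D.share for
i, X). Now dist C A0 = dist c a = dist C Y, the three points are on the line of the segment and
A0 is an end of it: so dist A0 Y = 2 dist a c. But dist A0 Y <= dist (g Z s) (g Z t)
<= dist a b < dist a c + dist c b < 2 dist a c (D.tineq). Contradiction.
COUNTING: a tile X at w is the partner of at most two N tiles: Prt i b c X b t' with t' = a or c,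
and i is determined by X and t' (D.rayu, Prt is symmetric). So #N <= 2 (5 - #N), #N <= 3.
-/

namespace Pool.Agent.Work.MP_bd00dd_co

variable {ι : Type*} {n : ℕ} {S : Finset Pl} {θ : Pl → ℝ} {Sd : Pl → Pl → Prop}
  {g : ι → Pl ≃ᵢ Pl} {vs : ι → Finset Pl} {ts : Pl → Finset ι}

private theorem p22b_line {P0 Q0 C Y : Pl} {ℓ : ℝ} (hC : C ∈ openSegment ℝ P0 Q0)
    (hY : Y ∈ segment ℝ P0 Q0) (hne : Y ≠ P0) (h1 : dist C P0 = ℓ) (h2 : dist C Y = ℓ) :
    2 * ℓ ≤ dist P0 Q0 := by
  rw [openSegment_eq_image'] at hC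
  rw [segment_eq_image'] at hY
  obtain ⟨r, ⟨hr0, hr1⟩, rfl⟩ := hC
  obtain ⟨r', ⟨hr0', hr1'⟩, rfl⟩ := hY
  have e1 : dist (P0 + r • (Q0 - P0)) P0 = r * ‖Q0 - P0‖ := by
    rw [dist_eq_norm, add_sub_cancel_left, norm_smul, Real.norm_of_nonneg hr0.le]
  have e2 : dist (P0 + r • (Q0 - P0)) (P0 + r' • (Q0 - P0)) = |r - r'| * ‖Q0 - P0‖ := by
    rw [dist_eq_norm, add_sub_add_left_eq_sub, ← sub_smul, norm_smul, Real.norm_eq_abs]
  have h1' : r * ‖Q0 - P0‖ = ℓ := by rw [← h1]; exact e1.symm
  have h2' : |r - r'| * ‖Q0 - P0‖ = ℓ := by rw [← h2]; exact e2.symm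
  have e3 : dist P0 Q0 = ‖Q0 - P0‖ := by rw [dist_comm, dist_eq_norm]
  rw [e3]
  have hn := norm_nonneg (Q0 - P0)
  rcases hn.eq_or_lt with h0 | h0
  · rw [← h0] at h1'
    rw [← h0, ← h1']
    norm_num
  · have h3 : |r - r'| = r := by
      have h4 : (|r - r'| - r) * ‖Q0 - P0‖ = 0 := by
        rw [sub_mul, h1', h2', sub_self]
      rcases mul_eq_zero.1 h4 with h5 | h5
      · linarith
      · exact absurd h5 h0.ne'
    have hr'0 : r' ≠ 0 := by
      rintro rfl
      apply hne
      show P0 + (0 : ℝ) • (Q0 - P0) = P0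
      rw [zero_smul, add_zero]
    rcases abs_cases (r - r') with ⟨h5, -⟩ | ⟨h5, -⟩
    · exact absurd (by linarith) hr'0
    · have h6 : r' = 2 * r := by linarith
      rw [← h1']
      nlinarith

/-- the third tile at the vertex C = g i c = g X c -/
private theorem p22b_third {F : Finset ι} (h : F.card = 3) {i j k l : ι} (hi : i ∈ F) (hj : j ∈ F)
    (hk : k ∈ F) (hl : l ∈ F) (hij : i ≠ j) (hik : i ≠ k) (hjk : j ≠ k) (hli : l ≠ i)
    (hlj : l ≠ j) : l = k := by
  classical
  have hF : F = {i, j, k} := by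
    symm
    apply Finset.eq_of_subset_of_card_le
    · intro y hy
      simp only [Finset.mem_insert, Finset.mem_singleton] at hy
      rcases hy with rfl | rfl | rfl <;> assumption
    · rw [h, Finset.card_eq_three.2 ⟨i, j, k, hij, hik, hjk, rfl⟩]
  rw [hF] at hl
  simp only [Finset.mem_insert, Finset.mem_singleton] at hl
  rcases hl with rfl | rfl | rfl
  · exact absurd rfl hli
  · exact absurd rfl hlj
  · rfl

private theorem p22b_across (D : Dat n S θ Sd g vs ts) {j : ι} (hns : NS S g vs j) {x y : Pl}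
    (hxy : Sd x y) : ∃ X, X ≠ j ∧ X ∈ ts (g j x) ∧ X ∈ ts (g j y) := by
  obtain ⟨X, h1, h2, h3, -⟩ := D.across j x y hxy fun w hw hwo => by
    have h1 := D.openc j x y ((g j).symm w) hxy (hns w hw)
    rw [(g j).apply_symm_apply] at h1
    exact h1 hwo
  exact ⟨X, h1, h2, h3⟩

/-- The claim of the header. -/
theorem p22x (D : Dat n S θ Sd g vs ts) {a b c : Pl} (T : Tri S θ a b c) (hn : n = 22)
    (ha : θ a = 1 / 10) (hb : θ b = 2 / 5) (hc : θ c = 1 / 2) {i X : ι} {t' : Pl}
    (hP : Prt Sd g i b c X b t') (hw : (ts (g i b)).card = 5) (hl : N g ts b (g i b) = 5)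
    (hi : (ts (g i a)).card = 20) (hX : (ts (g X a)).card = 20) : False := by
  have haS : a ∈ S := (T.mem a).2 (Or.inl rfl)
  have hbS : b ∈ S := (T.mem b).2 (Or.inr (Or.inl rfl))
  have hcS : c ∈ S := (T.mem c).2 (Or.inr (Or.inr rfl))
  obtain ⟨hl1, hl2⟩ := p22a_len D T (by rw [ha, hb]; norm_num) (by rw [hb, hc]; norm_num)
  have hiX := hP.1
  have hbX : g i b = g X b := hP.2.2.2.1
  have hwX : (ts (g X b)).card = 5 := by rw [← hbX]; exact hw
  have hnsi := p22s D T hn ha hb hc hi hw
  have hnsX := p22s D T hn ha hb hc hX hwX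
  have ht' : t' = c := by
    have h1 := D.sd _ _ hP.2.2.1
    rcases (T.mem t').1 h1.2.1 with rfl | rfl | rfl
    · exfalso
      have h2 := p22a_lt D hP (by rw [dist_comm b t']; exact hl1.trans hl2)
      exact h2.2 (hnsX _ h2.1)
    · exact absurd rfl h1.2.2
    · rfl
  subst ht'
  have hC : g i t' = g X t' := p22a_eq D hP rfl
  obtain ⟨hdC, -, -⟩ := p22c D T hn ha hb hc hi
  obtain ⟨iC, -⟩ := p22a_deg D i hcS
  obtain ⟨XC, -⟩ := p22a_deg D X hcS
  obtain ⟨ib, -⟩ := p22a_deg D i hbS
  obtain ⟨ia, -⟩ := p22a_deg D i haS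
  obtain ⟨Xa, -⟩ := p22a_deg D X haS
  have XC' : X ∈ ts (g i t') := by rw [hC]; exact XC
  -- the straight tile
  obtain ⟨y1, y2, y3⟩ := p22a_ty D T ha hb hc (v := g i t') (by omega)
  have hN := p22a_two (g := g) (ts := ts) hiX iC XC' rfl hC.symm
  have hst : stc S g ts (g i t') = 1 := by omega
  obtain ⟨Z, hZ, hZs⟩ : Half S g ts (g i t') := (half_iff D (by omega)).2 hst
  have hZi : i ≠ Z := by
    rintro rfl
    apply hZs
    rw [(g i).symm_apply_apply]
    exact hcS
  have hZX : X ≠ Z := by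
    rintro rfl
    apply hZs
    rw [hC, (g X).symm_apply_apply]
    exact hcS
  have hvsi : g i t' ∈ vs i := D.cmem i t' hcS
  have hvsX : g i t' ∈ vs X := by rw [hC]; exact D.cmem X t' hcS
  have hbi : g i b ∈ vs i := D.cmem i b hbS
  have hbX' : g i b ∈ vs X := by rw [hbX]; exact D.cmem X b hbS
  have hbc' : g i b ≠ g i t' := fun h => T.bc ((g i).injective h)
  have hba : g i b ≠ g i a := fun h => T.ab ((g i).injective h).symm
  have hca : g i t' ≠ g i a := fun h => T.ac ((g i).injective h).symm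
  have hba' : g i b ≠ g X a := by rw [hbX]; exact fun h => T.ab ((g X).injective h).symm
  have hca' : g i t' ≠ g X a := by rw [hC]; exact fun h => T.ac ((g X).injective h).symm
  -- X does not contain A0, i does not contain Y
  have hXA : X ∉ ts (g i a) := fun h =>
    D.share i X hiX (g i b) hbi (g i t') hvsi (g i a) (D.cmem i a haS) hbX' hvsX
      ((D.mem X _).2 ⟨h, by omega⟩) hbc' hca hba
  have hiY : i ∉ ts (g X a) := fun h =>
    D.share i X hiX (g i b) hbi (g i t') hvsi (g X a) ((D.mem i _).2 ⟨h, by omega⟩) hbX' hvsX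
      (D.cmem X a haS) hbc' hca' hba'
  -- Z contains A0 and Y
  have hZA : Z ∈ ts (g i a) := by
    obtain ⟨W, w1, w2, w3⟩ := p22b_across D hnsi (T.side D hcS haS T.ac.symm)
    have hW : W = Z := p22b_third hdC iC XC' hZ w2 hiX hZi hZX w1 (by
      rintro rfl
      exact hXA w3)
    rw [← hW]
    exact w3
  have hZY : Z ∈ ts (g X a) := by
    obtain ⟨W, w1, w2, w3⟩ := p22b_across D hnsX (T.side D hcS haS T.ac.symm)
    rw [← hC] at w2
    have hW : W = Z := p22b_third hdC XC' iC hZ w2 hiX.symm hZX hZi w1 (by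
      rintro rfl
      exact hiY w3)
    rw [← hW]
    exact w3
  -- the corner of Z at A0
  obtain ⟨a1, a2, a3⟩ := p22a_ty D T ha hb hc (v := g i a) (by omega)
  have hall : ∀ k ∈ ts (g i a), g k a = g i a := p22a_all (s := a) (by omega)
  have hZa : g Z a = g i a := hall Z hZA
  have hCZ : g i t' ∈ vs Z := (D.mem Z _).2 ⟨hZ, by omega⟩
  have hAZ : g i a ∈ vs Z := (D.mem Z _).2 ⟨hZA, by omega⟩
  have hYZ : g X a ∈ vs Z := (D.mem Z _).2 ⟨hZY, by omega⟩
  obtain ⟨s, t, hSd, hopen⟩ := D.strt Z _ hCZ hZs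
  have hAseg := D.line Z i (g i t') (g i a) s t hZi.symm hSd hopen hCZ iC hAZ ia
  have hYseg := D.line Z X (g i t') (g X a) s t hZX.symm hSd hopen hCZ XC' hYZ Xa
  have hAopen : g i a ∉ openSegment ℝ (g Z s) (g Z t) := by
    rw [← hZa]
    exact D.openc Z s t a hSd haS
  have hYA : g X a ≠ g i a := by
    intro h
    apply hXA
    rw [← h]
    exact Xa
  have hd1 : dist (g i t') (g i a) = dist a t' := by rw [(g i).dist_eq, dist_comm]
  have hd2 : dist (g i t') (g X a) = dist a t' := by rw [hC, (g X).dist_eq, dist_comm]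
  have hend : g i a = g Z s ∨ g i a = g Z t := by
    by_contra hcon
    rw [not_or] at hcon
    exact hAopen (mem_openSegment_of_ne_left_right (Ne.symm hcon.1) (Ne.symm hcon.2) hAseg)
  have hlen : 2 * dist a t' ≤ dist s t := by
    rcases hend with h | h
    · rw [h] at hd1 hYA
      have := p22b_line hopen hYseg hYA hd1 hd2
      rwa [(g Z).dist_eq] at this
    · rw [h] at hd1 hYA
      rw [openSegment_symm] at hopen
      rw [segment_symm] at hYseg
      have := p22b_line hopen hYseg hYA hd1 hd2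
      rw [(g Z).dist_eq] at this
      rw [dist_comm s t]
      exact this
  have hmax : dist s t ≤ dist a b := by
    have h1 := D.sd s t hSd
    have hcb : dist t' b = dist b t' := dist_comm _ _
    have hca : dist t' a = dist a t' := dist_comm _ _
    have hba : dist b a = dist a b := dist_comm _ _
    rcases (T.mem s).1 h1.1 with e1 | e1 | e1 <;> rcases (T.mem t).1 h1.2.1 with e2 | e2 | e2
    · exact absurd (e1.trans e2.symm) h1.2.2
    · rw [e1, e2]
    · rw [e1, e2]; exact hl2.le
    · rw [e1, e2]; exact hba.le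
    · exact absurd (e1.trans e2.symm) h1.2.2
    · rw [e1, e2]; exact (hl1.trans hl2).le
    · rw [e1, e2, hca]; exact hl2.le
    · rw [e1, e2, hcb]; exact (hl1.trans hl2).le
    · exact absurd (e1.trans e2.symm) h1.2.2
  have htri := D.tineq a haS t' hcS b hbS T.ac T.bc.symm T.ab
  rw [dist_comm t' b] at htri
  linarith

open Classical in
theorem p22n (D : Dat n S θ Sd g vs ts) {a b c : Pl} (T : Tri S θ a b c) (hn : n = 22)
    (ha : θ a = 1 / 10) (hb : θ b = 2 / 5) (hc : θ c = 1 / 2) {w : Pl}
    (hw : (ts w).card = 5) (hl : N g ts b w = 5) :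
    ((ts w).filter (fun i => g i b = w ∧ (ts (g i a)).card = 20)).card ≤ 3 := by
  have hbS : b ∈ S := (T.mem b).2 (Or.inr (Or.inl rfl))
  have hcS : c ∈ S := (T.mem c).2 (Or.inr (Or.inr rfl))
  have hall : ∀ k ∈ ts w, g k b = w := p22a_all (s := b) (by omega)
  set F := (ts w).filter (fun i => g i b = w ∧ (ts (g i a)).card = 20) with hF
  have hne : (ts w).Nonempty := Finset.card_pos.1 (by omega)
  haveI : Nonempty ι := ⟨hne.choose⟩
  have hex : ∀ i ∈ F, ∃ y : ι × Pl, y ∈ (ts w \ F) ×ˢ ({a, c} : Finset Pl) ∧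
      Prt Sd g i b c y.1 b y.2 := by
    intro i hi
    obtain ⟨hi1, hi2, hi3⟩ := Finset.mem_filter.1 hi
    obtain ⟨X, s', t', hP⟩ := D.ray i b c (T.side D hbS hcS T.bc) (by
      intro k hk
      rw [hi2] at hk ⊢
      rw [← hall k hk, (g k).symm_apply_apply]
      exact hbS)
    have h1 := D.sd _ _ hP.2.2.1
    have hXw : X ∈ ts w := by
      rw [← hi2, hP.2.2.2.1]
      exact (p22a_deg D X h1.1).1
    have hs' : s' = b := by
      apply (g X).injective
      rw [← hP.2.2.2.1, hi2, hall X hXw]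
    subst hs'
    refine ⟨(X, t'), ?_, hP⟩
    rw [Finset.mem_product, Finset.mem_sdiff]
    refine ⟨⟨hXw, fun hXF => ?_⟩, ?_⟩
    · obtain ⟨-, -, hX3⟩ := Finset.mem_filter.1 hXF
      exact p22x D T hn ha hb hc hP (by rw [hi2]; exact hw) (by rw [hi2]; exact hl) hi3 hX3
    · show t' ∈ ({a, c} : Finset Pl)
      rcases (T.mem t').1 h1.2.1 with h2 | h2 | h2
      · rw [h2]; exact Finset.mem_insert_self _ _
      · exact absurd h2.symm h1.2.2
      · rw [h2]; exact Finset.mem_insert_of_mem (Finset.mem_singleton_self _)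
  choose! f hf using hex
  have hinj : Set.InjOn f F := by
    intro i hi k hk hik
    have h1 := p22a_symm D (hf i hi).2
    have h2 := p22a_symm D (hf k hk).2
    rw [← hik] at h2
    exact (D.rayu _ _ _ _ _ _ _ _ _ h1 h2).1
  have hcard := Finset.card_le_card_of_injOn f (fun i hi => (hf i hi).1) hinj
  have hsub : F ⊆ ts w := Finset.filter_subset _ _
  rw [Finset.card_product, Finset.card_pair T.ac, Finset.card_sdiff_of_subset hsub, hw] at hcard
  have hF5 : F.card ≤ 5 := by
    rw [← hw]
    exact Finset.card_le_card hsub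
  omega

end Pool.Agent.Work.MP_bd00dd_co
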