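import Pool.Agent.Work.MP_bd00dd_co.Defs

/-!
Real inequality about the vertices of one tile with four corners (notation as in C/TL.lean).
Transport: at a half vertex of degree n - 2 each corner tile pays 1/60 and the straight tile
gets (n - 3)/60.
-/

namespace Pool.Agent.Work.MP_bd00dd_co

private theorem tl4_phi (d : ℕ) (h : Prop) (hd : 3 ≤ d) :
    1 - 3 / (d : ℝ) ≤ phi d h ∧ 0 ≤ phi d h ∧ (h → 1 / 6 ≤ phi d h) ∧ (4 ≤ d → 1 / 4 ≤ phi d h) := by
  have h1 : (3 : ℝ) ≤ d := by exact_mod_cast hd
  have a1 : 1 - 3 / (d : ℝ) ≤ phi d h := by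
    unfold phi
    split_ifs
    · have : 5 / (2 * (d : ℝ)) ≤ 3 / (d : ℝ) := by
        rw [div_le_div_iff₀ (by linarith) (by linarith)]
        nlinarith
      linarith
    · exact le_rfl
  refine ⟨a1, ?_, ?_, ?_⟩
  · have h2 : 3 / (d : ℝ) ≤ 1 := by
      rw [div_le_one (by linarith)]
      exact h1
    linarith
  · intro hh
    unfold phi
    rw [if_pos hh]
    have : 5 / (2 * (d : ℝ)) ≤ 5 / 6 :=
      div_le_div_of_nonneg_left (by norm_num) (by norm_num) (by linarith)
    linarith
  · intro h4
    have h5 : (4 : ℝ) ≤ d := by exact_mod_cast h4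
    have : 3 / (d : ℝ) ≤ 3 / 4 :=
      div_le_div_of_nonneg_left (by norm_num) (by norm_num) h5
    linarith

open Classical in
/-- Four corners, degrees >= 3, half vertices have degree <= n - 2, cost + transport <= 1: then the
tile has no side vertices, one full corner of degree n - 1 and three full corners of degree 3.
Proof. Let D = max d = d v0, N = s.card.
(i) Every cost is >= (d - 3)/D >= 0, a half vertex costs >= 1/6, a vertex of degree >= 4 costs
>= 1/4. Two different vertices cannot both have degree n - 2 (2 (n - 4) + 2 <= n is false), so the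
transport is -1/60 (v0 a half corner of degree n - 2), (n - 3)/60 (v0 a side vertex of degree
n - 2) or 0; the cost is <= 1 + 1/60.
(ii) The N - 4 side vertices cost >= 1/6 each, so N <= 10; (n - N)/D <= 1 + 1/60, so D >= 12; now
v0 costs >= 3/4 and the other side vertices >= 1/6 each: at most one side vertex differs from v0,
so N <= 6 and D >= 16.
(iii) If some v ≠ v0 has degree >= 4: cost >= 1 - 3/D + 1/4 > 1 + 1/60. So all v ≠ v0 have
degree 3 and D = n + 3 - N >= 19.
(iv) If v0 is full the transport is 0 and no v ≠ v0 is half (1 - 3/19 + 1/6 > 1); if v0 is half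
no v ≠ v0 is half either (1 - 5/(2 * 19) + 1/6 - 1/60 > 1). So the only possible side vertex is
v0. If v0 is a side vertex then N = 5, D = n - 2, cost + transport
= 1 - 5/(2 (n - 2)) + (n - 3)/60 > 1. So N = 4, s = K, D = n - 1, and v0 is not half as half
vertices have degree <= n - 2. -/
theorem tl4 {V : Type*} (s K : Finset V) (hK : K ⊆ s) (hc : K.card = 4) (d : V → ℕ)
    (h : V → Prop) (n : ℕ) (hn : 22 ≤ n) (hd : ∀ v ∈ s, 3 ≤ d v) (hh : ∀ v ∈ s, v ∉ K → h v)
    (hhalf : ∀ v ∈ s, h v → d v ≤ n - 2)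
    (hs : ∑ v ∈ s, d v = n + 2 * s.card)
    (hcost : ∑ v ∈ s, (phi (d v) (h v) +
      (if h v ∧ d v = n - 2 then (if v ∈ K then -(1 / 60) else ((n : ℝ) - 3) / 60) else 0)) ≤ 1) :
    s = K ∧ ∃ v0 ∈ K, ¬ h v0 ∧ d v0 = n - 1 ∧ ∀ v ∈ K, v ≠ v0 → d v = 3 ∧ ¬ h v := by
  have hN4 : 4 ≤ s.card := by
    rw [← hc]
    exact Finset.card_le_card hK
  have hne : s.Nonempty := Finset.card_pos.1 (by omega)
  obtain ⟨v0, hv0, hmax⟩ := Finset.exists_max_image s d hne
  have hD3 : 3 ≤ d v0 := hd v0 hv0
  have hDr : (0 : ℝ) < d v0 := by exact_mod_cast (by omega : 0 < d v0)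
  have hnr : (22 : ℝ) ≤ n := by exact_mod_cast hn
  have hsr : (∑ v ∈ s, (d v : ℝ)) = (n : ℝ) + 2 * s.card := by exact_mod_cast hs
  have hphi := fun v (hv : v ∈ s) => tl4_phi (d v) (h v) (hd v hv)
  have hphi0 : ∀ v ∈ s, 0 ≤ phi (d v) (h v) := fun v hv => (hphi v hv).2.1
  set t : V → ℝ := fun v => (if h v ∧ d v = n - 2 then
    (if v ∈ K then -(1 / 60) else ((n : ℝ) - 3) / 60) else 0) with ht
  have htn : ∀ v, -(1 / 60) ≤ t v := by
    intro v
    rw [ht]
    beta_reduce
    split_ifs
    · exact le_rfl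
    · have : 0 ≤ ((n : ℝ) - 3) / 60 := div_nonneg (by linarith) (by norm_num)
      linarith
    · norm_num
  -- two vertices of degree n - 2 are impossible
  have htwo : ∀ v ∈ s, ∀ w ∈ s, v ≠ w → d v = n - 2 → d w = n - 2 → False := by
    intro v hv w hw hvw h1 h2
    have e1 := Finset.add_sum_erase s d hv
    have hw' : w ∈ s.erase v := Finset.mem_erase.2 ⟨hvw.symm, hw⟩
    have e2 := Finset.add_sum_erase (s.erase v) d hw'
    have e3 : ∑ u ∈ (s.erase v).erase w, 3 ≤ ∑ u ∈ (s.erase v).erase w, d u :=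
      Finset.sum_le_sum fun u hu => hd u (Finset.mem_of_mem_erase (Finset.mem_of_mem_erase hu))
    rw [Finset.sum_const, Finset.card_erase_of_mem hw', Finset.card_erase_of_mem hv,
      smul_eq_mul] at e3
    omega
  have htsum : -(1 / 60) ≤ ∑ v ∈ s, t v := by
    by_cases hex : ∃ v ∈ s, t v ≠ 0
    · obtain ⟨v, hv, htv⟩ := hex
      have e1 : ∑ u ∈ s, t u = t v := by
        refine Finset.sum_eq_single_of_mem v hv fun u hu huv => ?_
        by_contra hc'
        have g1 : h v ∧ d v = n - 2 := by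
          by_contra g
          apply htv
          rw [ht]
          beta_reduce
          rw [if_neg g]
        have g2 : h u ∧ d u = n - 2 := by
          by_contra g
          apply hc'
          rw [ht]
          beta_reduce
          rw [if_neg g]
        exact htwo u hu v hv huv g2.2 g1.2
      rw [e1]
      exact htn v
    · push Not at hex
      rw [Finset.sum_eq_zero hex]
      norm_num
  have hcost' : ∑ v ∈ s, phi (d v) (h v) + ∑ v ∈ s, t v ≤ 1 := by
    rw [← Finset.sum_add_distrib]
    exact hcost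
  have hC : ∑ v ∈ s, phi (d v) (h v) ≤ 61 / 60 := by linarith
  -- side vertices
  have hside : ∀ v ∈ s \ K, 1 / 6 ≤ phi (d v) (h v) := by
    intro v hv
    rw [Finset.mem_sdiff] at hv
    exact (hphi v hv.1).2.2.1 (hh v hv.1 hv.2)
  have hcardK : (s \ K).card + 4 = s.card := by
    have h1 := Finset.card_sdiff_add_card_eq_card hK
    omega
  have hN10 : s.card ≤ 10 := by
    have h1 : ((s \ K).card : ℝ) * (1 / 6) ≤ 61 / 60 := by
      calc ((s \ K).card : ℝ) * (1 / 6) = ∑ v ∈ s \ K, (1 / 6 : ℝ) := by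
            rw [Finset.sum_const, nsmul_eq_mul]
        _ ≤ ∑ v ∈ s \ K, phi (d v) (h v) := Finset.sum_le_sum hside
        _ ≤ ∑ v ∈ s, phi (d v) (h v) :=
            Finset.sum_le_sum_of_subset_of_nonneg Finset.sdiff_subset fun v hv _ => hphi0 v hv
        _ ≤ _ := hC
    have h2 : ((s \ K).card : ℝ) < 7 := by linarith
    have h3 : (s \ K).card < 7 := by exact_mod_cast h2
    omega
  have hlow : ((n : ℝ) - s.card) / d v0 ≤ 61 / 60 := by
    have e1 : ((n : ℝ) - s.card) / d v0 = ∑ v ∈ s, ((d v : ℝ) - 3) / d v0 := by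
      rw [← Finset.sum_div, Finset.sum_sub_distrib, hsr, Finset.sum_const, nsmul_eq_mul]
      ring
    rw [e1]
    refine (Finset.sum_le_sum fun v hv => ?_).trans hC
    refine le_trans ?_ (hphi v hv).1
    have h2 : (3 : ℝ) ≤ d v := by exact_mod_cast hd v hv
    have h3 : (d v : ℝ) ≤ d v0 := by exact_mod_cast hmax v hv
    have h4 : 1 - 3 / (d v : ℝ) = ((d v : ℝ) - 3) / d v := by
      field_simp
    rw [h4]
    exact div_le_div_of_nonneg_left (by linarith) (by linarith) h3
  rw [div_le_iff₀ hDr] at hlow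
  have hD12 : 12 ≤ d v0 := by
    have h1 : (s.card : ℝ) ≤ 10 := by exact_mod_cast hN10
    have h2 : (11 : ℝ) < d v0 := by linarith
    have h3 : 11 < d v0 := by exact_mod_cast h2
    omega
  have hphiv0 : 3 / 4 ≤ phi (d v0) (h v0) := by
    have h1 : (12 : ℝ) ≤ d v0 := by exact_mod_cast hD12
    have h2 : 3 / (d v0 : ℝ) ≤ 3 / 12 :=
      div_le_div_of_nonneg_left (by norm_num) (by norm_num) h1
    have := (hphi v0 hv0).1
    linarith
  have hN6 : s.card ≤ 6 := by
    have h1 : (((s \ K).erase v0).card : ℝ) * (1 / 6) + 3 / 4 ≤ 61 / 60 := by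
      have e1 := Finset.add_sum_erase s (fun v => phi (d v) (h v)) hv0
      have e2 : (((s \ K).erase v0).card : ℝ) * (1 / 6) ≤
          ∑ v ∈ s.erase v0, phi (d v) (h v) := by
        calc (((s \ K).erase v0).card : ℝ) * (1 / 6) = ∑ v ∈ (s \ K).erase v0, (1 / 6 : ℝ) := by
              rw [Finset.sum_const, nsmul_eq_mul]
          _ ≤ ∑ v ∈ (s \ K).erase v0, phi (d v) (h v) :=
              Finset.sum_le_sum fun v hv => hside v (Finset.mem_of_mem_erase hv)
          _ ≤ ∑ v ∈ s.erase v0, phi (d v) (h v) :=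
              Finset.sum_le_sum_of_subset_of_nonneg (Finset.erase_subset_erase _
                Finset.sdiff_subset) fun v hv _ => hphi0 v (Finset.mem_of_mem_erase hv)
      beta_reduce at e1
      linarith
    have h2 : (((s \ K).erase v0).card : ℝ) < 2 := by linarith
    have h3 : ((s \ K).erase v0).card < 2 := by exact_mod_cast h2
    have h4 := Finset.pred_card_le_card_erase (s := s \ K) (a := v0)
    omega
  have hD16 : (15.7 : ℝ) < d v0 := by
    have h1 : (s.card : ℝ) ≤ 6 := by exact_mod_cast hN6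
    linarith
  have hD16' : 16 ≤ d v0 := by
    have h3 : (15 : ℝ) < d v0 := by linarith
    have h3 : 15 < d v0 := by exact_mod_cast h3
    omega
  have hpair : ∀ v ∈ s, v ≠ v0 → phi (d v0) (h v0) + phi (d v) (h v) ≤
      ∑ u ∈ s, phi (d u) (h u) := by
    intro v hv hne'
    have e1 := Finset.add_sum_erase s (fun v => phi (d v) (h v)) hv0
    have e2 := Finset.single_le_sum (f := fun v => phi (d v) (h v)) (s := s.erase v0)
      (fun u hu => hphi0 u (Finset.mem_of_mem_erase hu)) (Finset.mem_erase.2 ⟨hne', hv⟩)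
    beta_reduce at e1 e2
    linarith
  -- all other degrees are 3
  have hthree : ∀ v ∈ s, v ≠ v0 → d v = 3 := by
    intro v hv hne'
    by_contra hc'
    have h4 : 4 ≤ d v := by
      have := hd v hv
      omega
    have h5 := (hphi v hv).2.2.2 h4
    have h6 : 3 / (d v0 : ℝ) ≤ 3 / 15.7 :=
      div_le_div_of_nonneg_left (by norm_num) (by norm_num) hD16.le
    have h7 := (hphi v0 hv0).1
    have h8 := hpair v hv hne'
    norm_num at h6
    linarith
  have hDval : d v0 + 3 * (s.card - 1) = n + 2 * s.card := by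
    have e1 := Finset.add_sum_erase s d hv0
    rw [hs, Finset.sum_congr rfl fun v hv => hthree v (Finset.mem_of_mem_erase hv)
      (Finset.ne_of_mem_erase hv), Finset.sum_const, Finset.card_erase_of_mem hv0,
      smul_eq_mul] at e1
    omega
  have hD19 : 19 ≤ d v0 := by omega
  have hD19' : (19 : ℝ) ≤ d v0 := by exact_mod_cast hD19
  have ht0 : ∀ v ∈ s, v ≠ v0 → t v = 0 := by
    intro v hv hne'
    rw [ht]
    beta_reduce
    rw [if_neg]
    rintro ⟨-, h1⟩
    have := hthree v hv hne'
    omega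
  have htsum2 : ∑ v ∈ s, t v = t v0 :=
    Finset.sum_eq_single_of_mem v0 hv0 fun u hu huv => ht0 u hu huv
  rw [htsum2] at hcost'
  by_cases hhv : h v0
  · exfalso
    have h1 := hhalf v0 hv0 hhv
    have hN5 : 5 ≤ s.card := by omega
    have hphiv : phi (d v0) (h v0) = 1 - 5 / (2 * (d v0 : ℝ)) := by
      unfold phi
      rw [if_pos hhv]
    have h2 : 5 / (2 * (d v0 : ℝ)) ≤ 5 / 38 :=
      div_le_div_of_nonneg_left (by norm_num) (by norm_num) (by linarith)
    have hnohalf : ∀ v ∈ s, v ≠ v0 → ¬ h v := by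
      intro v hv hne' hhv'
      have h3 := (hphi v hv).2.2.1 hhv'
      have h4 := hpair v hv hne'
      have h5 := htn v0
      linarith
    have hsub : s \ K ⊆ {v0} := by
      intro v hv
      rw [Finset.mem_sdiff] at hv
      rw [Finset.mem_singleton]
      by_contra hne'
      exact hnohalf v hv.1 hne' (hh v hv.1 hv.2)
    have h3 : (s \ K).card ≤ 1 := by
      have := Finset.card_le_card hsub
      rwa [Finset.card_singleton] at this
    have hN : s.card = 5 := by omega
    have hv0K : v0 ∉ K := by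
      have h4 : (s \ K).Nonempty := Finset.card_pos.1 (by omega)
      obtain ⟨v, hv⟩ := h4
      have h5 := Finset.mem_singleton.1 (hsub hv)
      rw [← h5]
      exact (Finset.mem_sdiff.1 hv).2
    have hDn : d v0 = n - 2 := by omega
    have htv : t v0 = ((n : ℝ) - 3) / 60 := by
      rw [ht]
      beta_reduce
      rw [if_pos ⟨hhv, hDn⟩, if_neg hv0K]
    have h6 := Finset.single_le_sum (f := fun v => phi (d v) (h v)) hphi0 hv0
    beta_reduce at h6
    rw [hphiv] at h6
    rw [htv] at hcost'
    linarith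
  · have htv : t v0 = 0 := by
      rw [ht]
      beta_reduce
      rw [if_neg fun g => hhv g.1]
    have hnohalf : ∀ v ∈ s, v ≠ v0 → ¬ h v := by
      intro v hv hne' hhv'
      have h3 := (hphi v hv).2.2.1 hhv'
      have h4 := hpair v hv hne'
      have h5 := (hphi v0 hv0).1
      have h6 : 3 / (d v0 : ℝ) ≤ 3 / 19 :=
        div_le_div_of_nonneg_left (by norm_num) (by norm_num) hD19'
      linarith
    have hsK : s = K := by
      refine Finset.Subset.antisymm (fun v hv => ?_) hK
      by_contra hvK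
      by_cases hvv : v = v0
      · rw [hvv] at hvK
        exact hhv (hh v0 hv0 hvK)
      · exact hnohalf v hv hvv (hh v hv hvK)
    have hcs : s.card = 4 := by rw [hsK, hc]
    refine ⟨hsK, v0, hsK ▸ hv0, hhv, by omega, fun v hv hvv => ?_⟩
    rw [← hsK] at hv
    exact ⟨hthree v hv hvv, hnohalf v hv hvv⟩

end Pool.Agent.Work.MP_bd00dd_co
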