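import Pool.Agent.Work.MP_bd00dd_co.C.Cost
import Pool.Agent.Work.MP_bd00dd_co.C.TL4

/-!
Quadrilaterals, n >= 22: there is a tile with a full corner v0 of degree n - 1 whose other three
corners are full of degree 3.

Proof. (i) A half vertex v has degree <= n - 2: the straight tile j at v has v and its four corners
in vs j, so (deg v - 2) + 4 <= n by sub_le. (ii) Apply cost with the transport
τ i v = if Half v ∧ deg v = n - 2 then (if the tile i has a corner at v then -1/60 else
(n - 3)/60) else 0: at such a v exactly one tile is straight, the other n - 3 pay 1/60, sum 0.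
(iii) Apply tl4 to the tile i obtained, s = vs i, K = S.image (g i).
-/

namespace Pool.Agent.Work.MP_bd00dd_co

variable {ι : Type*} {n : ℕ} {S : Finset Pl} {θ : Pl → ℝ} {Sd : Pl → Pl → Prop}
  {g : ι → Pl ≃ᵢ Pl} {vs : ι → Finset Pl} {ts : Pl → Finset ι}

private theorem q1_half (D : Dat n S θ Sd g vs ts) (hk : S.card = 4) {v : Pl}
    (hv : 3 ≤ (ts v).card) (hh : Half S g ts v) : (ts v).card ≤ n - 2 := by
  classical
  obtain ⟨j, hj, hjS⟩ := hh
  have hvF : v ∉ S.image (g j) := by
    intro h
    obtain ⟨s, hs, hsv⟩ := Finset.mem_image.1 h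
    apply hjS
    rw [← hsv, (g j).symm_apply_apply]
    exact hs
  have hcard : (S.image (g j)).card = 4 := by
    rw [Finset.card_image_of_injective _ (g j).injective, hk]
  have hF : insert v (S.image (g j)) ⊆ vs j := by
    intro w hw
    rcases Finset.mem_insert.1 hw with rfl | hw
    · exact (D.mem j _).2 ⟨hj, hv⟩
    · obtain ⟨s, hs, rfl⟩ := Finset.mem_image.1 hw
      exact D.cmem j s hs
  have h1 := sub_le D hF
  have h2 := Finset.card_le_card hF
  rw [Finset.card_insert_of_notMem hvF, hcard] at h1 h2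
  rw [Finset.sum_insert hvF] at h1
  have h3 : (S.image (g j)).card * 3 ≤ ∑ w ∈ S.image (g j), (ts w).card := by
    rw [← smul_eq_mul]
    refine Finset.card_nsmul_le_sum _ _ _ fun w hw => ?_
    obtain ⟨s, hs, rfl⟩ := Finset.mem_image.1 hw
    exact ((D.mem j _).1 (D.cmem j s hs)).2
  rw [hcard] at h3
  omega

theorem q1 (D : Dat n S θ Sd g vs ts) (hn : 22 ≤ n) (hk : S.card = 4) :
    ∃ i, ∃ s0 ∈ S, (ts (g i s0)).card = n - 1 ∧ ¬ Half S g ts (g i s0) ∧
      ∀ s ∈ S, s ≠ s0 → (ts (g i s)).card = 3 ∧ ¬ Half S g ts (g i s) := by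
  classical
  set τ : ι → Pl → ℝ := fun i v => if Half S g ts v ∧ (ts v).card = n - 2 then
    (if (g i).symm v ∈ S then -(1 / 60) else ((n : ℝ) - 3) / 60) else 0 with hτdef
  have key1 : ∀ i, ∀ v ∈ vs i, τ i v ∈ ({-(1 / 60), ((n : ℝ) - 3) / 60, 0} : Finset ℝ) := by
    intro i v _
    simp only [hτdef, Finset.mem_insert, Finset.mem_singleton]
    split_ifs
    · exact Or.inl rfl
    · exact Or.inr (Or.inl rfl)
    · exact Or.inr (Or.inr rfl)
  have key2 : ∀ v, 3 ≤ (ts v).card → ∑ i ∈ ts v, τ i v ≤ 0 := by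
    intro v hv
    by_cases hc : Half S g ts v ∧ (ts v).card = n - 2
    · have h1 : ∀ i, τ i v = -(1 / 60) + ((n : ℝ) - 2) / 60 *
          (if (g i).symm v ∉ S then 1 else 0) := by
        intro i
        simp only [hτdef]
        rw [if_pos hc]
        split_ifs with h2
        · ring
        · ring
      have hst : ∑ i ∈ ts v, (if (g i).symm v ∉ S then (1 : ℝ) else 0) = stc S g ts v := by
        rw [Finset.sum_boole]
        rfl
      rw [Finset.sum_congr rfl fun i _ => h1 i, Finset.sum_add_distrib, ← Finset.mul_sum, hst,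
        (half_iff D hv).1 hc.1, Finset.sum_const, nsmul_eq_mul, hc.2]
      have hn' : ((n - 2 : ℕ) : ℝ) = (n : ℝ) - 2 := by
        rw [Nat.cast_sub (by omega)]
        norm_num
      rw [hn']
      push_cast
      apply le_of_eq
      ring
    · have h1 : ∀ i ∈ ts v, τ i v = 0 := by
        intro i _
        simp only [hτdef]
        rw [if_neg hc]
      rw [Finset.sum_congr rfl h1, Finset.sum_const_zero]
  obtain ⟨i, hi⟩ := cost D τ _ key1 key2
  have hinj : ∀ {s : Pl}, (g i).symm (g i s) = s := fun {s} => (g i).symm_apply_apply s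
  have hKmem : ∀ v, v ∈ S.image (g i) ↔ (g i).symm v ∈ S := by
    intro v
    rw [Finset.mem_image]
    constructor
    · rintro ⟨s, hs, rfl⟩
      rw [hinj]; exact hs
    · intro h
      exact ⟨_, h, (g i).apply_symm_apply v⟩
  have hKsub : S.image (g i) ⊆ vs i := by
    intro v hv
    obtain ⟨s, hs, rfl⟩ := Finset.mem_image.1 hv
    exact D.cmem i s hs
  have hKcard : (S.image (g i)).card = 4 := by
    rw [Finset.card_image_of_injective _ (g i).injective, hk]
  obtain ⟨-, v0, hv0, hv0h, hv0d, hrest⟩ := tl4 (vs i) (S.image (g i)) hKsub hKcard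
    (fun v => (ts v).card) (fun v => Half S g ts v) n hn
    (fun v hv => ((D.mem i v).1 hv).2)
    (fun v hv hvK => ⟨i, ((D.mem i v).1 hv).1, fun h => hvK ((hKmem v).2 h)⟩)
    (fun v hv hh => q1_half D hk ((D.mem i v).1 hv).2 hh)
    (D.cnt i) (by
      refine le_trans (le_of_eq ?_) (hi.trans (by rw [hk]; norm_num))
      refine Finset.sum_congr rfl fun v _ => ?_
      simp only [hτdef]
      congr 1
      by_cases hcc : Half S g ts v ∧ (ts v).card = n - 2
      · rw [if_pos hcc, if_pos hcc]
        by_cases hm : (g i).symm v ∈ S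
        · rw [if_pos hm, if_pos ((hKmem v).2 hm)]
        · rw [if_neg hm, if_neg (fun h => hm ((hKmem v).1 h))]
      · rw [if_neg hcc, if_neg hcc])
  obtain ⟨s0, hs0, rfl⟩ := Finset.mem_image.1 hv0
  refine ⟨i, s0, hs0, hv0d, hv0h, fun s hs hss => ?_⟩
  exact hrest (g i s) (Finset.mem_image_of_mem _ hs) (fun h => hss ((g i).injective h))

/-- At a vertex v of degree n - 1 all tiles are without side vertices and their other three
corners have degree 3 (sub_le with F = the corners: (n - 3) + 3 = n, equality). -/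
theorem q2 (D : Dat n S θ Sd g vs ts) (hn : 22 ≤ n) (hk : S.card = 4) {v : Pl}
    (hv : (ts v).card = n - 1) (hf : ¬ Half S g ts v) :
    ∀ j ∈ ts v, NS S g vs j ∧ ∀ s ∈ S, g j s ≠ v → (ts (g j s)).card = 3 := by
  classical
  intro j hj
  have hvS : (g j).symm v ∈ S := by
    by_contra h
    exact hf ⟨j, hj, h⟩
  have hvK : v ∈ S.image (g j) :=
    Finset.mem_image.2 ⟨_, hvS, (g j).apply_symm_apply v⟩
  have hKsub : S.image (g j) ⊆ vs j := by
    intro w hw
    obtain ⟨s, hs, rfl⟩ := Finset.mem_image.1 hw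
    exact D.cmem j s hs
  have hKcard : (S.image (g j)).card = 4 := by
    rw [Finset.card_image_of_injective _ (g j).injective, hk]
  have h1 := sub_le D hKsub
  have h2 := Finset.card_le_card hKsub
  rw [hKcard] at h1 h2
  rw [← Finset.add_sum_erase _ _ hvK, hv] at h1
  have hE : ((S.image (g j)).erase v).card = 3 := by
    rw [Finset.card_erase_of_mem hvK, hKcard]
  have h3 : ∀ w ∈ (S.image (g j)).erase v, 3 ≤ (ts w).card := by
    intro w hw
    exact ((D.mem j _).1 (hKsub (Finset.mem_of_mem_erase hw))).2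
  have h4 : ((S.image (g j)).erase v).card * 3 ≤ ∑ w ∈ (S.image (g j)).erase v, (ts w).card := by
    rw [← smul_eq_mul]
    exact Finset.card_nsmul_le_sum _ _ _ h3
  rw [hE] at h4
  have h5 : (vs j).card ≤ 4 := by omega
  have h6 : S.image (g j) = vs j := Finset.eq_of_subset_of_card_le hKsub (by rw [hKcard]; exact h5)
  have h7 : ∑ w ∈ (S.image (g j)).erase v, (ts w).card = ∑ w ∈ (S.image (g j)).erase v, 3 := by
    rw [Finset.sum_const, smul_eq_mul, hE]
    omega
  have h8 := (Finset.sum_eq_sum_iff_of_le (s := (S.image (g j)).erase v) (f := fun _ => 3)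
    (g := fun w => (ts w).card) h3).1 h7.symm
  refine ⟨fun w hw => ?_, fun s hs hsv => ?_⟩
  · rw [← h6] at hw
    obtain ⟨s, hs, rfl⟩ := Finset.mem_image.1 hw
    rw [(g j).symm_apply_apply]
    exact hs
  · exact (h8 (g j s) (Finset.mem_erase.2 ⟨hsv, Finset.mem_image_of_mem _ hs⟩)).symm

end Pool.Agent.Work.MP_bd00dd_co
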