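import Pool.Agent.Work.MP_bd00dd_co.C.Q1

/-!
Angles of a quadrilateral which tiles with n >= 22.
-/

namespace Pool.Agent.Work.MP_bd00dd_co

private theorem q3_sort3 (θ : Pl → ℝ) (T : Finset Pl) (hT : T.card = 3) :
    ∃ b c d, b ≠ c ∧ b ≠ d ∧ c ≠ d ∧ (∀ s, s ∈ T ↔ s = b ∨ s = c ∨ s = d) ∧
      θ b ≤ θ c ∧ θ c ≤ θ d := by
  classical
  obtain ⟨x, y, z, hxy, hxz, hyz, rfl⟩ := Finset.card_eq_three.1 hT
  have hmem : ∀ s, s ∈ ({x, y, z} : Finset Pl) ↔ s = x ∨ s = y ∨ s = z := by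
    intro s
    simp
  rcases le_total (θ x) (θ y) with h1 | h1
  · rcases le_total (θ y) (θ z) with h2 | h2
    · exact ⟨x, y, z, hxy, hxz, hyz, hmem, h1, h2⟩
    · rcases le_total (θ x) (θ z) with h3 | h3
      · exact ⟨x, z, y, hxz, hxy, hyz.symm, fun s => by rw [hmem]; tauto, h3, h2⟩
      · exact ⟨z, x, y, hxz.symm, hyz.symm, hxy, fun s => by rw [hmem]; tauto, h3, h1⟩
  · rcases le_total (θ x) (θ z) with h2 | h2
    · exact ⟨y, x, z, hxy.symm, hyz, hxz, fun s => by rw [hmem]; tauto, h1, h2⟩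
    · rcases le_total (θ y) (θ z) with h3 | h3
      · exact ⟨y, z, x, hyz, hxy.symm, hxz.symm, fun s => by rw [hmem]; tauto, h3, h2⟩
      · exact ⟨z, y, x, hyz.symm, hxz.symm, hxy.symm, fun s => by rw [hmem]; tauto, h3, h1⟩

private theorem q3_F1 {S : Finset Pl} {θ : Pl → ℝ} {a b c d : Pl}
    (hS : ∀ s, s ∈ S ↔ s = a ∨ s = b ∨ s = c ∨ s = d) (h0 : 0 < θ a) (h1 : θ a ≤ θ b)
    (h2 : θ b ≤ θ c) (h3 : θ c ≤ θ d) (hs : θ a + θ b + θ c + θ d = 2)
    (h : ∃ x ∈ S, ∃ y ∈ S, θ a + θ x + θ y = 2) : θ a + 2 * θ d = 2 := by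
  obtain ⟨x, hx, y, hy, h⟩ := h
  rw [hS] at hx hy
  rcases hx with rfl | rfl | rfl | rfl <;> rcases hy with rfl | rfl | rfl | rfl <;> linarith

private theorem q3_F2 {S : Finset Pl} {θ : Pl → ℝ} {a b c d : Pl}
    (hS : ∀ s, s ∈ S ↔ s = a ∨ s = b ∨ s = c ∨ s = d) (h0 : 0 < θ a) (h1 : θ a ≤ θ b)
    (h2 : θ b ≤ θ c) (h3 : θ c ≤ θ d) (hs : θ a + θ b + θ c + θ d = 2)
    (h : ∃ x ∈ S, ∃ y ∈ S, θ b + θ x + θ y = 2) : θ b + 2 * θ d = 2 := by
  obtain ⟨x, hx, y, hy, h⟩ := h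
  rw [hS] at hx hy
  rcases hx with rfl | rfl | rfl | rfl <;> rcases hy with rfl | rfl | rfl | rfl <;> linarith

private theorem q3_F3 {S : Finset Pl} {θ : Pl → ℝ} {a b c d : Pl}
    (hS : ∀ s, s ∈ S ↔ s = a ∨ s = b ∨ s = c ∨ s = d) (h0 : 0 < θ a) (h1 : θ a ≤ θ b)
    (h2 : θ b ≤ θ c) (h3 : θ c ≤ θ d) (hs : θ a + θ b + θ c + θ d = 2)
    (h : ∃ x ∈ S, ∃ y ∈ S, θ c + θ x + θ y = 2) :
    θ c + 2 * θ d = 2 ∨ 2 * θ c + θ d = 2 ∨ 3 * θ c = 2 := by
  obtain ⟨x, hx, y, hy, h⟩ := h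
  rw [hS] at hx hy
  rcases hx with rfl | rfl | rfl | rfl <;> rcases hy with rfl | rfl | rfl | rfl <;>
    first
    | (exfalso; linarith)
    | (left; linarith)
    | (right; left; linarith)
    | (right; right; linarith)

private theorem q3_sum {S : Finset Pl} {θ : Pl → ℝ} {a b c d : Pl}
    (hS : ∀ s, s ∈ S ↔ s = a ∨ s = b ∨ s = c ∨ s = d) (hab : a ≠ b) (hac : a ≠ c) (had : a ≠ d)
    (hbc : b ≠ c) (hbd : b ≠ d) (hcd : c ≠ d) (hsum : ∑ s ∈ S, θ s = 2) :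
    θ a + θ b + θ c + θ d = 2 := by
  classical
  have h1 : S = {a, b, c, d} := by
    ext s
    rw [hS]
    simp
  rw [h1, Finset.sum_insert (by simp [hab, hac, had]), Finset.sum_insert (by simp [hbc, hbd]),
    Finset.sum_pair hcd] at hsum
  linarith

/-- Pure arithmetic. θ s + θ x + θ y = 2 means that the corner s can lie at a full vertex of
degree 3, θ s + θ x = 1 that it can lie at a half vertex of degree 3.

Proof. Order S as a, b, c, d with angles α ≤ β ≤ γ ≤ δ, choose a = s0 if θ s0 is minimal. By h3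
α ≤ 2/21. FACT 1: if α + x + y = 2 with x ≤ y angles then x = y = δ > γ, since otherwise
α + x + y ≤ α + γ + δ = 2 - β; so δ = 1 - α/2 and β + γ = 1 - α/2. FACT 2: if β + x + y = 2 then
x = y = δ > γ (otherwise the sum is ≤ β + γ + δ = 2 - α), β = 2 - 2δ, δ = α + γ.
(ii) Suppose θ s0 > α. Then h1 for a and FACT 1: δ = 1 - α/2, β + γ = δ.
 s0 = b (so β > α): if R = {b} then β ≤ 2/21 by h3, γ ≥ 1 - 3/21, and h1 for c is impossible (list
 the pairs); otherwise h2 for b: T3: FACT 2 gives β = 2 - 2δ = α, no; H3: β + x = 1: x = α: γ = α/2,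
 x = β: β = 1/2 > γ = 1/2 - α/2, x = γ: β + γ < 1, x = δ: β = α/2: all impossible.
 s0 = c or d: h1 for b and FACT 2 give β = α, γ = 1 - 3α/2. Then γ + x + y = 2 is impossible
 ((δ,δ): γ = α; (γ,δ): α = 2/7; (γ,γ): α = 2/9; the others are < 2 as γ + δ + α = 2 - α) and
 γ + x = 1 is impossible (x = 3α/2). If s0 = d this contradicts h1 for c. If s0 = c and R = {c}
 then γ ≤ 2/21, no; if R contains t ≠ c this contradicts h2 for c.
(i) So a = s0. h1 for b and FACT 2: δ = α + γ, β = 2 - 2α - 2γ. h1 for c: γ + x + y = 2 with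
(x,y) = (δ,δ): family 1, (γ,δ): family 2, (γ,γ): family 3; the others are < 2.
If t ∈ R, t ≠ s0, then h2 for s0: T3: FACT 1 gives δ = 1 - α/2, so β = α, which gives α = 2/5,
2/7, 2/9 in the families; H3: α + x = 1 gives α = 1, 1/4, 1/2, 1/5, 1/3, 1/6 or no solution.
All contradict α ≤ 2/21. -/
theorem q3a (S : Finset Pl) (θ : Pl → ℝ) (hc : S.card = 4) (hpos : ∀ s ∈ S, 0 < θ s)
    (hlt : ∀ s ∈ S, θ s < 1) (hsum : ∑ s ∈ S, θ s = 2) (R : Finset Pl) (hR : R ⊆ S) (s0 : Pl)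
    (hs0 : s0 ∈ R)
    (h1 : ∀ s ∈ S, s ≠ s0 → ∃ x ∈ S, ∃ y ∈ S, θ s + θ x + θ y = 2)
    (h2 : ∀ t ∈ R, ∀ s ∈ S, s ≠ t → (∃ x ∈ S, ∃ y ∈ S, θ s + θ x + θ y = 2) ∨
      ∃ x ∈ S, θ s + θ x = 1)
    (h3 : ∃ t ∈ R, θ t ≤ 2 / 21) :
    (∀ t ∈ R, t = s0) ∧ ∃ b ∈ S, ∃ c ∈ S, ∃ d ∈ S, s0 ≠ b ∧ s0 ≠ c ∧ s0 ≠ d ∧ b ≠ c ∧ b ≠ d ∧
      c ≠ d ∧ θ s0 ≤ 2 / 21 ∧
      ((θ b = (2 - 2 * θ s0) / 3 ∧ θ c = (2 - 2 * θ s0) / 3 ∧ θ d = (2 + θ s0) / 3) ∨
       (θ b = (2 - 4 * θ s0) / 3 ∧ θ c = (2 - θ s0) / 3 ∧ θ d = (2 + 2 * θ s0) / 3) ∨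
       (θ b = 2 / 3 - 2 * θ s0 ∧ θ c = 2 / 3 ∧ θ d = 2 / 3 + θ s0)) := by
  classical
  obtain ⟨t0, ht0, ht0'⟩ := h3
  have hs0S := hR hs0
  by_cases hmin : ∀ s ∈ S, θ s0 ≤ θ s
  · -- s0 is minimal
    have hT : (S.erase s0).card = 3 := by
      rw [Finset.card_erase_of_mem hs0S, hc]
    obtain ⟨b, c, d, hbc, hbd, hcd, hmem, hle1, hle2⟩ := q3_sort3 θ _ hT
    have hb := (hmem b).2 (Or.inl rfl)
    have hc' := (hmem c).2 (Or.inr (Or.inl rfl))
    have hd := (hmem d).2 (Or.inr (Or.inr rfl))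
    rw [Finset.mem_erase] at hb hc' hd
    have hS : ∀ s, s ∈ S ↔ s = s0 ∨ s = b ∨ s = c ∨ s = d := by
      intro s
      rw [← hmem s, Finset.mem_erase]
      constructor
      · intro h
        by_cases hs : s = s0
        · exact Or.inl hs
        · exact Or.inr ⟨hs, h⟩
      · rintro (h | h)
        · rw [h]
          exact hs0S
        · exact h.2
    have hs4 := q3_sum hS hb.1.symm hc'.1.symm hd.1.symm hbc hbd hcd hsum
    have hp := hpos s0 hs0S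
    have hle0 := hmin b hb.2
    have hα : θ s0 ≤ 2 / 21 := (hmin t0 (hR ht0)).trans ht0'
    have f2 := q3_F2 hS hp hle0 hle1 hle2 hs4 (h1 b hb.2 hb.1)
    have f3 := q3_F3 hS hp hle0 hle1 hle2 hs4 (h1 c hc'.2 hc'.1)
    refine ⟨fun t ht => ?_, b, hb.2, c, hc'.2, d, hd.2, hb.1.symm, hc'.1.symm, hd.1.symm, hbc,
      hbd, hcd, hα, ?_⟩
    · by_contra hne
      rcases h2 t ht s0 hs0S (fun h => hne h.symm) with h | ⟨x, hx, h⟩
      · have f1 := q3_F1 hS hp hle0 hle1 hle2 hs4 h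
        rcases f3 with f3 | f3 | f3 <;> linarith
      · rw [hS] at hx
        rcases hx with rfl | rfl | rfl | rfl <;> rcases f3 with f3 | f3 | f3 <;> linarith
    · rcases f3 with f3 | f3 | f3
      · left
        refine ⟨?_, ?_, ?_⟩ <;> linarith
      · right
        left
        refine ⟨?_, ?_, ?_⟩ <;> linarith
      · right
        right
        refine ⟨?_, ?_, ?_⟩ <;> linarith
  · -- s0 is not minimal
    exfalso
    push Not at hmin
    obtain ⟨s1, hs1, hs1'⟩ := hmin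
    obtain ⟨a, ha, hamin⟩ := Finset.exists_min_image S θ ⟨s0, hs0S⟩
    have has0 : θ a < θ s0 := (hamin s1 hs1).trans_lt hs1'
    have hane : a ≠ s0 := fun h => by
      rw [h] at has0
      exact lt_irrefl _ has0
    have hT : (S.erase a).card = 3 := by
      rw [Finset.card_erase_of_mem ha, hc]
    obtain ⟨b, c, d, hbc, hbd, hcd, hmem, hle1, hle2⟩ := q3_sort3 θ _ hT
    have hb := (hmem b).2 (Or.inl rfl)
    have hc' := (hmem c).2 (Or.inr (Or.inl rfl))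
    have hd := (hmem d).2 (Or.inr (Or.inr rfl))
    rw [Finset.mem_erase] at hb hc' hd
    have hS : ∀ s, s ∈ S ↔ s = a ∨ s = b ∨ s = c ∨ s = d := by
      intro s
      rw [← hmem s, Finset.mem_erase]
      constructor
      · intro h
        by_cases hs : s = a
        · exact Or.inl hs
        · exact Or.inr ⟨hs, h⟩
      · rintro (h | h)
        · rw [h]
          exact ha
        · exact h.2
    have hs4 := q3_sum hS hb.1.symm hc'.1.symm hd.1.symm hbc hbd hcd hsum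
    have hp := hpos a ha
    have hle0 := hamin b hb.2
    have hα : θ a ≤ 2 / 21 := (hamin t0 (hR ht0)).trans ht0'
    have f1 := q3_F1 hS hp hle0 hle1 hle2 hs4 (h1 a ha hane)
    have hs0T := (hmem s0).1 (Finset.mem_erase.2 ⟨hane.symm, hs0S⟩)
    rcases hs0T with h | h | h
    · -- s0 = b
      subst h
      have f3 := q3_F3 hS hp hle0 hle1 hle2 hs4 (h1 c hc'.2 hbc.symm)
      by_cases hRb : ∀ t ∈ R, t = s0
      · have h4 := hRb t0 ht0
        rw [h4] at ht0'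
        rcases f3 with f3 | f3 | f3 <;> linarith
      · push Not at hRb
        obtain ⟨t, ht, hts⟩ := hRb
        rcases h2 t ht s0 hs0S hts.symm with h | ⟨x, hx, h⟩
        · have f2 := q3_F2 hS hp hle0 hle1 hle2 hs4 h
          linarith
        · rw [hS] at hx
          rcases hx with rfl | rfl | rfl | rfl <;> linarith
    · -- s0 = c
      subst h
      have f2 := q3_F2 hS hp hle0 hle1 hle2 hs4 (h1 b hb.2 hbc)
      by_cases hRb : ∀ t ∈ R, t = s0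
      · have h4 := hRb t0 ht0
        rw [h4] at ht0'
        linarith
      · push Not at hRb
        obtain ⟨t, ht, hts⟩ := hRb
        rcases h2 t ht s0 hs0S hts.symm with h | ⟨x, hx, h⟩
        · have f3 := q3_F3 hS hp hle0 hle1 hle2 hs4 h
          rcases f3 with f3 | f3 | f3 <;> linarith
        · rw [hS] at hx
          rcases hx with rfl | rfl | rfl | rfl <;> linarith
    · -- s0 = d
      subst h
      have f2 := q3_F2 hS hp hle0 hle1 hle2 hs4 (h1 b hb.2 hbd)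
      have f3 := q3_F3 hS hp hle0 hle1 hle2 hs4 (h1 c hc'.2 hcd)
      rcases f3 with f3 | f3 | f3 <;> linarith

end Pool.Agent.Work.MP_bd00dd_co
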