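import Pool.Agent.Work.MP_bd00dd_co.C.Q3

/-!
The hub of a quadrilateral tiling with n >= 22.
-/

namespace Pool.Agent.Work.MP_bd00dd_co

variable {ι : Type*} {n : ℕ} {S : Finset Pl} {θ : Pl → ℝ} {Sd : Pl → Pl → Prop}
  {g : ι → Pl ≃ᵢ Pl} {vs : ι → Finset Pl} {ts : Pl → Finset ι}

/-- three different elements of a set with three elements -/
private theorem q4_three {ι : Type*} {F : Finset ι} (h : F.card = 3) {i : ι} (hi : i ∈ F) :
    ∃ k l, k ∈ F ∧ l ∈ F ∧ ∀ f : ι → ℝ, ∑ x ∈ F, f x = f i + f k + f l := by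
  classical
  have h1 : (F.erase i).card = 2 := by
    rw [Finset.card_erase_of_mem hi, h]
  obtain ⟨k, l, hkl, hF⟩ := Finset.card_eq_two.1 h1
  have hk : k ∈ F.erase i := by rw [hF]; simp
  have hl : l ∈ F.erase i := by rw [hF]; simp
  refine ⟨k, l, Finset.mem_of_mem_erase hk, Finset.mem_of_mem_erase hl, fun f => ?_⟩
  rw [← Finset.add_sum_erase _ _ hi, hF, Finset.sum_pair hkl]
  ring

private theorem q4_A {ι : Type*} (θ : Pl → ℝ) (S : Finset Pl) (g : ι → Pl ≃ᵢ Pl) (i : ι) (v : Pl) :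
    ((g i).symm v ∈ S ∧ A S θ g i v = θ ((g i).symm v)) ∨
      ((g i).symm v ∉ S ∧ A S θ g i v = 1) := by
  by_cases h : (g i).symm v ∈ S
  · left
    refine ⟨h, ?_⟩
    unfold A
    rw [if_pos h]
  · right
    refine ⟨h, ?_⟩
    unfold A
    rw [if_neg h]

/-- the sides of a quadrilateral form a 4-cycle -/
private theorem q4_cycle (D : Dat n S θ Sd g vs ts) {a o p q : Pl}
    (mem : ∀ s, s ∈ S ↔ s = a ∨ s = o ∨ s = p ∨ s = q) (ao : a ≠ o) (ap : a ≠ p) (aq : a ≠ q)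
    (op : o ≠ p) (oq : o ≠ q) (pq : p ≠ q) (nao : ¬ Sd a o) :
    Sd a p ∧ Sd a q ∧ Sd p o ∧ Sd q o ∧ ¬ Sd p q := by
  have haS : a ∈ S := (mem a).2 (Or.inl rfl)
  have hoS : o ∈ S := (mem o).2 (Or.inr (Or.inl rfl))
  have hpS : p ∈ S := (mem p).2 (Or.inr (Or.inr (Or.inl rfl)))
  have hqS : q ∈ S := (mem q).2 (Or.inr (Or.inr (Or.inr rfl)))
  have noa : ¬ Sd o a := fun h => nao (D.sdsymm _ _ h)
  obtain ⟨t, u, htu, ht, hu, -⟩ := D.two a haS
  obtain ⟨t', u', htu', ht', hu', -⟩ := D.two o hoS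
  have h1 : Sd a p ∧ Sd a q := by
    have e1 := D.sd a t ht
    have e2 := D.sd a u hu
    have e3 := (mem t).1 e1.2.1
    have e4 := (mem u).1 e2.2.1
    have e5 := e1.2.2
    have e6 := e2.2.2
    rcases e3 with rfl | rfl | rfl | rfl
    · exact absurd rfl e5
    · exact absurd ht nao
    · rcases e4 with rfl | rfl | rfl | rfl
      · exact absurd rfl e6
      · exact absurd hu nao
      · exact absurd rfl htu
      · exact ⟨ht, hu⟩
    · rcases e4 with rfl | rfl | rfl | rfl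
      · exact absurd rfl e6
      · exact absurd hu nao
      · exact ⟨hu, ht⟩
      · exact absurd rfl htu
  have h2 : Sd o p ∧ Sd o q := by
    have e1 := D.sd o t' ht'
    have e2 := D.sd o u' hu'
    have e3 := (mem t').1 e1.2.1
    have e4 := (mem u').1 e2.2.1
    have e5 := e1.2.2
    have e6 := e2.2.2
    rcases e3 with rfl | rfl | rfl | rfl
    · exact absurd ht' noa
    · exact absurd rfl e5
    · rcases e4 with rfl | rfl | rfl | rfl
      · exact absurd hu' noa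
      · exact absurd rfl e6
      · exact absurd rfl htu'
      · exact ⟨ht', hu'⟩
    · rcases e4 with rfl | rfl | rfl | rfl
      · exact absurd hu' noa
      · exact absurd rfl e6
      · exact ⟨hu', ht'⟩
      · exact absurd rfl htu'
  refine ⟨h1.1, h1.2, D.sdsymm _ _ h2.1, D.sdsymm _ _ h2.2, fun hpq => ?_⟩
  obtain ⟨t, u, -, -, -, hw⟩ := D.two p hpS
  have f1 := hw a (D.sdsymm _ _ h1.1)
  have f2 := hw o (D.sdsymm _ _ h2.1)
  have f3 := hw q hpq
  rcases f1 with rfl | rfl <;> rcases f2 with rfl | rfl <;> rcases f3 with rfl | rfl <;>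
    first
      | exact ao rfl
      | exact aq rfl
      | exact oq rfl

/-- Proof. Take i, s0 from q1, v0 = g i s0, R the set of the labels (g j).symm v0, j ∈ ts v0.
q3a applies: h1: at the full vertex g i s of degree 3 (D.tot) the three tiles have corners s, x, y;
h2: by q2 all other corners of the tiles j ∈ ts v0 have degree 3 (full: θ s + θ x + θ y = 2, half:
θ s + θ x + 1 = 2; two straight tiles are impossible as θ s > 0); h3: the sum of the n - 1 >= 21
angles at v0 is 2 (D.tot). So all tiles at v0 have the corner a = s0 at v0. By D.two and D.sdsymm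
the sides of the quadrilateral form a 4-cycle: a has two neighbours p, q; o is the remaining
corner; o is not adjacent to a, so it is adjacent to p and q, and p, q are not adjacent. The
values of θ at p, q, o are the values at b, c, d in some order; by the symmetry p <-> q each family
has the listed cases. -/
theorem q4 (D : Dat n S θ Sd g vs ts) (hn : 22 ≤ n) (hk : S.card = 4) :
    ∃ v0 a o p q, Hub4 S Sd g vs ts v0 a o p q ∧ θ a ≤ 2 / 21 ∧
      ((θ o = (2 + θ a) / 3 ∧ θ p = (2 - 2 * θ a) / 3 ∧ θ q = (2 - 2 * θ a) / 3) ∨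
       (θ o = (2 - 2 * θ a) / 3 ∧ θ p = (2 - 2 * θ a) / 3 ∧ θ q = (2 + θ a) / 3) ∨
       (θ o = (2 - 4 * θ a) / 3 ∧ θ p = (2 - θ a) / 3 ∧ θ q = (2 + 2 * θ a) / 3) ∨
       (θ o = (2 - θ a) / 3 ∧ θ p = (2 - 4 * θ a) / 3 ∧ θ q = (2 + 2 * θ a) / 3) ∨
       (θ o = (2 + 2 * θ a) / 3 ∧ θ p = (2 - 4 * θ a) / 3 ∧ θ q = (2 - θ a) / 3) ∨
       (θ o = 2 / 3 - 2 * θ a ∧ θ p = 2 / 3 ∧ θ q = 2 / 3 + θ a) ∨
       (θ o = 2 / 3 ∧ θ p = 2 / 3 - 2 * θ a ∧ θ q = 2 / 3 + θ a) ∨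
       (θ o = 2 / 3 + θ a ∧ θ p = 2 / 3 - 2 * θ a ∧ θ q = 2 / 3)) := by
  classical
  obtain ⟨i, s0, hs0, hdeg, hfull, hrest⟩ := q1 D hn hk
  set v0 := g i s0 with hv0
  have hq2 := q2 D hn hk hdeg hfull
  have hsymS : ∀ j ∈ ts v0, (g j).symm v0 ∈ S := by
    intro j hj
    by_contra h
    exact hfull ⟨j, hj, h⟩
  set R : Finset Pl := (ts v0).image (fun j => (g j).symm v0) with hR
  have hRS : R ⊆ S := by
    intro t ht
    obtain ⟨j, hj, rfl⟩ := Finset.mem_image.1 ht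
    exact hsymS j hj
  have hi0 : i ∈ ts v0 := ((D.mem i _).1 (D.cmem i s0 hs0)).1
  have hs0R : s0 ∈ R := by
    refine Finset.mem_image.2 ⟨i, hi0, ?_⟩
    show (g i).symm (g i s0) = s0
    exact (g i).symm_apply_apply s0
  have h1 : ∀ s ∈ S, s ≠ s0 → ∃ x ∈ S, ∃ y ∈ S, θ s + θ x + θ y = 2 := by
    intro s hs hss
    obtain ⟨hd3, hf⟩ := hrest s hs hss
    have hi1 : i ∈ ts (g i s) := ((D.mem i _).1 (D.cmem i s hs)).1
    obtain ⟨k, l, hk1, hl1, hsum⟩ := q4_three hd3 hi1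
    have htot := D.tot (g i s) (by omega)
    rw [hsum] at htot
    rcases q4_A θ S g i (g i s) with ⟨-, e1⟩ | ⟨e1, -⟩
    · rcases q4_A θ S g k (g i s) with ⟨e2, e2'⟩ | ⟨e2, -⟩
      · rcases q4_A θ S g l (g i s) with ⟨e3, e3'⟩ | ⟨e3, -⟩
        · rw [e1, e2', e3', (g i).symm_apply_apply] at htot
          exact ⟨_, e2, _, e3, htot⟩
        · exact (hf ⟨l, hl1, e3⟩).elim
      · exact (hf ⟨k, hk1, e2⟩).elim
    · exact (hf ⟨i, hi1, e1⟩).elim
  have h2 : ∀ t ∈ R, ∀ s ∈ S, s ≠ t → (∃ x ∈ S, ∃ y ∈ S, θ s + θ x + θ y = 2) ∨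
      ∃ x ∈ S, θ s + θ x = 1 := by
    intro t ht s hs hst
    obtain ⟨j, hj, rfl⟩ := Finset.mem_image.1 ht
    have hne : g j s ≠ v0 := by
      intro h
      apply hst
      rw [← h, (g j).symm_apply_apply]
    have hd3 := (hq2 j hj).2 s hs hne
    have hj1 : j ∈ ts (g j s) := ((D.mem j _).1 (D.cmem j s hs)).1
    obtain ⟨k, l, hk1, hl1, hsum⟩ := q4_three hd3 hj1
    have htot := D.tot (g j s) (by omega)
    rw [hsum] at htot
    have hsS := D.pos s hs
    rcases q4_A θ S g j (g j s) with ⟨-, e1⟩ | ⟨e1, -⟩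
    · rw [(g j).symm_apply_apply] at e1
      rcases q4_A θ S g k (g j s) with ⟨e2, e2'⟩ | ⟨e2, e2'⟩
      · rcases q4_A θ S g l (g j s) with ⟨e3, e3'⟩ | ⟨e3, e3'⟩
        · left
          rw [e1, e2', e3'] at htot
          exact ⟨_, e2, _, e3, htot⟩
        · right
          rw [e1, e2', e3'] at htot
          exact ⟨_, e2, by linarith⟩
      · rcases q4_A θ S g l (g j s) with ⟨e3, e3'⟩ | ⟨e3, e3'⟩
        · right
          rw [e1, e2', e3'] at htot
          exact ⟨_, e3, by linarith⟩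
        · exfalso
          rw [e1, e2', e3'] at htot
          linarith
    · exfalso
      rw [(g j).symm_apply_apply] at e1
      exact e1 hs
  have h3 : ∃ t ∈ R, θ t ≤ 2 / 21 := by
    by_contra hcon
    push Not at hcon
    have htot := D.tot v0 (by omega)
    have hlt : ∑ j ∈ ts v0, (2 / 21 : ℝ) < ∑ j ∈ ts v0, A S θ g j v0 := by
      refine Finset.sum_lt_sum_of_nonempty ⟨i, hi0⟩ fun j hj => ?_
      rcases q4_A θ S g j v0 with ⟨e1, e1'⟩ | ⟨e1, -⟩
      · rw [e1']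
        exact hcon _ (Finset.mem_image.2 ⟨j, hj, rfl⟩)
      · exact absurd (hsymS j hj) e1
    rw [htot, Finset.sum_const, nsmul_eq_mul, hdeg] at hlt
    have hn1 : (21 : ℝ) ≤ ((n - 1 : ℕ) : ℝ) := by
      have : 21 ≤ n - 1 := by omega
      exact_mod_cast this
    linarith
  have hsum : ∑ s ∈ S, θ s = 2 := by
    rw [D.sum, hk]; norm_num
  obtain ⟨hRall, b, hb, c, hc, d, hd, hab, hac, had, hbc, hbd, hcd, hα, hfam⟩ :=
    q3a S θ hk D.pos D.lt1 hsum R hRS s0 hs0R h1 h2 h3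
  have hS : S = {s0, b, c, d} := by
    symm
    apply Finset.eq_of_subset_of_card_le
    · intro y hy
      simp only [Finset.mem_insert, Finset.mem_singleton] at hy
      rcases hy with rfl | rfl | rfl | rfl <;> assumption
    · rw [hk, Finset.card_insert_of_notMem (by simp [hab, hac, had]),
        Finset.card_insert_of_notMem (by simp [hbc, hbd]), Finset.card_pair hcd]
  have hlab : ∀ j ∈ ts v0, g j s0 = v0 := by
    intro j hj
    have h4 : (g j).symm v0 = s0 := hRall _ (Finset.mem_image.2 ⟨j, hj, rfl⟩)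
    rw [← h4, (g j).apply_symm_apply]
  have hmk : ∀ o p q : Pl, (∀ s, s ∈ S ↔ s = s0 ∨ s = o ∨ s = p ∨ s = q) → s0 ≠ o → s0 ≠ p →
      s0 ≠ q → o ≠ p → o ≠ q → p ≠ q → ¬ Sd s0 o → Hub4 S Sd g vs ts v0 s0 o p q := by
    intro o p q mem ao ap aq op oq pq nao
    obtain ⟨e1, e2, e3, e4, e5⟩ := q4_cycle D mem ao ap aq op oq pq nao
    exact { mem := mem, ao := ao, ap := ap, aq := aq, op := op, oq := oq, pq := pq, sap := e1,
            saq := e2, spo := e3, sqo := e4, nao := nao, npq := e5, lab := hlab,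
            ne := ⟨i, hi0⟩, vx := by omega, ns := fun j hj => (hq2 j hj).1,
            deg := fun j hj s hs hsa => (hq2 j hj).2 s hs (by
              rw [← hlab j hj]
              exact fun h => hsa ((g j).injective h)) }
  have hnb : ¬ Sd s0 b ∨ ¬ Sd s0 c ∨ ¬ Sd s0 d := by
    by_contra hcon
    push Not at hcon
    obtain ⟨nb, nc, nd⟩ := hcon
    obtain ⟨t, u, -, -, -, hw⟩ := D.two s0 hs0
    have f1 := hw b nb
    have f2 := hw c nc
    have f3 := hw d nd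
    rcases f1 with rfl | rfl <;> rcases f2 with rfl | rfl <;> rcases f3 with rfl | rfl <;>
      first
        | exact hbc rfl
        | exact hbd rfl
        | exact hcd rfl
  rcases hnb with hn1 | hn1 | hn1
  · refine ⟨v0, s0, b, c, d, hmk b c d ?_ hab hac had hbc hbd hcd hn1, hα, ?_⟩
    · intro s; rw [hS]; simp
    · rcases hfam with ⟨f1, f2, f3⟩ | ⟨f1, f2, f3⟩ | ⟨f1, f2, f3⟩
      · exact Or.inr (Or.inl ⟨f1, f2, f3⟩)
      · exact Or.inr (Or.inr (Or.inl ⟨f1, f2, f3⟩))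
      · exact Or.inr (Or.inr (Or.inr (Or.inr (Or.inr (Or.inl ⟨f1, f2, f3⟩)))))
  · refine ⟨v0, s0, c, b, d, hmk c b d ?_ hac hab had hbc.symm hcd hbd hn1, hα, ?_⟩
    · intro s; rw [hS]; simp; tauto
    · rcases hfam with ⟨f1, f2, f3⟩ | ⟨f1, f2, f3⟩ | ⟨f1, f2, f3⟩
      · exact Or.inr (Or.inl ⟨f2, f1, f3⟩)
      · exact Or.inr (Or.inr (Or.inr (Or.inl ⟨f2, f1, f3⟩)))
      · exact Or.inr (Or.inr (Or.inr (Or.inr (Or.inr (Or.inr (Or.inl ⟨f2, f1, f3⟩))))))
  · refine ⟨v0, s0, d, b, c, hmk d b c ?_ had hab hac hbd.symm hcd.symm hbc hn1, hα, ?_⟩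
    · intro s; rw [hS]; simp; tauto
    · rcases hfam with ⟨f1, f2, f3⟩ | ⟨f1, f2, f3⟩ | ⟨f1, f2, f3⟩
      · exact Or.inl ⟨f3, f1, f2⟩
      · exact Or.inr (Or.inr (Or.inr (Or.inr (Or.inl ⟨f3, f1, f2⟩))))
      · exact Or.inr (Or.inr (Or.inr (Or.inr (Or.inr (Or.inr (Or.inr ⟨f3, f1, f2⟩))))))

end Pool.Agent.Work.MP_bd00dd_co
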