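import Pool.Agent.Work.MP_bd00dd_co.C.Tri0
import Pool.Agent.Work.MP_bd00dd_co.C.Ring4

/-!
Full vertices of triangle tilings at which no tile has side vertices; α < β < γ.
-/

namespace Pool.Agent.Work.MP_bd00dd_co

variable {ι : Type*} {n : ℕ} {S : Finset Pl} {θ : Pl → ℝ} {Sd : Pl → Pl → Prop}
  {g : ι → Pl ≃ᵢ Pl} {vs : ι → Finset Pl} {ts : Pl → Finset ι}

private theorem ringT_pair (D : Dat n S θ Sd g vs ts) {a b c : Pl} (T : Tri S θ a b c)
    (hab : θ a < θ b) (hbc : θ b < θ c) {s t s' t' : Pl} (hs : s ∈ S) (ht : t ∈ S)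
    (hs' : s' ∈ S) (ht' : t' ∈ S) (hst : s ≠ t) (hst' : s' ≠ t')
    (h : dist s t = dist s' t') : (s = s' ∧ t = t') ∨ (s = t' ∧ t = s') := by
  classical
  have hS : S = {a, b, c} := by
    ext s
    rw [T.mem s]
    simp
  have h3 : S.card = 3 := by
    rw [hS]
    exact Finset.card_eq_three.2 ⟨a, b, c, T.ab, T.ac, T.bc, rfl⟩
  have ha : a ∈ S := (T.mem a).2 (Or.inl rfl)
  have hb : b ∈ S := (T.mem b).2 (Or.inr (Or.inl rfl))
  have hc : c ∈ S := (T.mem c).2 (Or.inr (Or.inr rfl))
  have h1 := D.trilt h3 a ha b hb c hc T.ab T.bc T.ac hab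
  have h2 := D.trilt h3 b hb c hc a ha T.bc T.ac.symm T.ab.symm hbc
  have e1 := dist_comm a b
  have e2 := dist_comm a c
  have e3 := dist_comm b c
  rcases (T.mem s).1 hs with rfl | rfl | rfl <;> rcases (T.mem t).1 ht with rfl | rfl | rfl <;>
    first
    | exact absurd rfl hst
    | (rcases (T.mem s').1 hs' with rfl | rfl | rfl <;>
        rcases (T.mem t').1 ht' with rfl | rfl | rfl <;>
        first
        | exact absurd rfl hst'
        | exact Or.inl ⟨rfl, rfl⟩
        | exact Or.inr ⟨rfl, rfl⟩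
        | (exfalso; linarith))

/-- The partner of the side s t of the tile i at v has the same side there. Proof: D.ray gives
j, s', t' with Prt; ns_eq: dist s t = dist s' t' and g i t = g j t'. The three side lengths are
different (D.trilt), so s' t' is the side s t or t s. -/
theorem ringT (D : Dat n S θ Sd g vs ts) {a b c : Pl} (T : Tri S θ a b c) (hab : θ a < θ b)
    (hbc : θ b < θ c) {v : Pl} (hv : 3 ≤ (ts v).card) (hf : ¬ Half S g ts v)
    (hns : ∀ j ∈ ts v, NS S g vs j) {i : ι} (hi : i ∈ ts v) {s t : Pl} (hs : s ∈ S) (ht : t ∈ S)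
    (hst : s ≠ t) (his : g i s = v) :
    ∃ j ∈ ts v, j ≠ i ∧ ((Prt Sd g i s t j s t ∧ g j s = v ∧ g j t = g i t) ∨
      (Prt Sd g i s t j t s ∧ g j t = v ∧ g j s = g i t)) := by
  obtain ⟨j, s', t', hp⟩ := D.ray i s t (T.side D hs ht hst) (by
    rw [his]
    intro j hj
    by_contra hcon
    exact hf ⟨j, hj, hcon⟩)
  have hst' := D.sd _ _ hp.2.2.1
  have hjs : g j s' = v := by rw [← hp.2.2.2.1, his]
  have hj : j ∈ ts v := by
    have h1 := D.cmem j s' hst'.1
    rw [hjs] at h1
    exact ((D.mem j v).1 h1).1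
  obtain ⟨h1, h2⟩ := ns_eq D hp (hns i hi) (hns j hj)
  refine ⟨j, hj, hp.1.symm, ?_⟩
  rcases ringT_pair D T hab hbc hs ht hst'.1 hst'.2.1 hst hst'.2.2 h1 with h | h
  · left
    rw [← h.1, ← h.2] at hp
    rw [← h.1] at hjs
    rw [← h.2] at h2
    exact ⟨hp, hjs, h2.symm⟩
  · right
    rw [← h.1, ← h.2] at hp
    rw [← h.2] at hjs
    rw [← h.1] at h2
    exact ⟨hp, hjs, h2.symm⟩

/-- If no two tiles with corner a at v are partners for the side a b then there are at least as
many corners b as corners a at v. Proof: by ringT each tile i with corner a at v has a partner j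
with Prt i a b j b a; i -> j is injective (Prt is symmetric, D.rayu). -/
theorem countT (D : Dat n S θ Sd g vs ts) {a b c : Pl} (T : Tri S θ a b c) (hab : θ a < θ b)
    (hbc : θ b < θ c) {v : Pl} (hv : 3 ≤ (ts v).card) (hf : ¬ Half S g ts v)
    (hns : ∀ j ∈ ts v, NS S g vs j)
    (h : ∀ i ∈ ts v, ∀ j ∈ ts v, g i a = v → ¬ Prt Sd g i a b j a b) :
    N g ts a v ≤ N g ts b v := by
  classical
  have ha : a ∈ S := (T.mem a).2 (Or.inl rfl)
  have hb : b ∈ S := (T.mem b).2 (Or.inr (Or.inl rfl))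
  have key : ∀ i ∈ (ts v).filter (fun i => (g i).symm v = a),
      ∃ j ∈ (ts v).filter (fun i => (g i).symm v = b), Prt Sd g i a b j b a := by
    intro i hi
    obtain ⟨hi1, hi2⟩ := Finset.mem_filter.1 hi
    have hia : g i a = v := by
      rw [← hi2]
      exact (g i).apply_symm_apply v
    obtain ⟨j, hj, _, hc⟩ := ringT D T hab hbc hv hf hns hi1 ha hb T.ab hia
    rcases hc with hc | hc
    · exact absurd hc.1 (h i hi1 j hj hia)
    · refine ⟨j, Finset.mem_filter.2 ⟨hj, ?_⟩, hc.1⟩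
      rw [← hc.2.1]
      exact (g j).symm_apply_apply b
  choose! f hf1 hf2 using key
  unfold N
  apply Finset.card_le_card_of_injOn f
  · intro i hi
    have := hf1 i (by simpa using hi)
    simpa using this
  · intro i hi i' hi' he
    have h1 := hf2 i (by simpa using hi)
    have h2 := hf2 i' (by simpa using hi')
    rw [he] at h1
    have k1 : Prt Sd g (f i') b a i a b :=
      ⟨h1.1.symm, h1.2.2.1, h1.2.1, h1.2.2.2.1.symm, h1.2.2.2.2.symm⟩
    have k2 : Prt Sd g (f i') b a i' a b :=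
      ⟨h2.1.symm, h2.2.2.1, h2.2.1, h2.2.2.2.1.symm, h2.2.2.2.2.symm⟩
    exact (D.rayu _ _ _ _ _ _ _ _ _ k1 k2).1

/-- Sums over the vertices of one tile of a triangle tiling. -/
theorem ringT_sum (D : Dat n S θ Sd g vs ts) {a b c : Pl} (T : Tri S θ a b c) (i : ι) :
    3 ≤ (vs i).card ∧
      ((vs i).card = 3 → NS S g vs i ∧
        (ts (g i a)).card + (ts (g i b)).card + (ts (g i c)).card = n + 6) ∧
      ((∀ v, 3 ≤ (ts v).card → 4 ≤ (ts v).card) →
        (ts (g i a)).card + (ts (g i b)).card + (ts (g i c)).card + 2 * (vs i).card ≤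
          n + 12) := by
  classical
  have ha : a ∈ S := (T.mem a).2 (Or.inl rfl)
  have hb : b ∈ S := (T.mem b).2 (Or.inr (Or.inl rfl))
  have hc : c ∈ S := (T.mem c).2 (Or.inr (Or.inr rfl))
  have hS : S = {a, b, c} := by
    ext s
    rw [T.mem s]
    simp
  have h3 : S.card = 3 := by
    rw [hS]
    exact Finset.card_eq_three.2 ⟨a, b, c, T.ab, T.ac, T.bc, rfl⟩
  set F := S.image (g i) with hF
  have hsub : F ⊆ vs i := by
    intro w hw
    obtain ⟨s, hs, rfl⟩ := Finset.mem_image.1 hw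
    exact D.cmem i s hs
  have hFc : F.card = 3 := by
    rw [hF, Finset.card_image_of_injective _ (g i).injective, h3]
  have hFs : ∑ w ∈ F, (ts w).card =
      (ts (g i a)).card + (ts (g i b)).card + (ts (g i c)).card := by
    rw [hF, Finset.sum_image (fun x _ y _ h => (g i).injective h), hS,
      Finset.sum_insert (by simp [T.ab, T.ac]), Finset.sum_insert (by simp [T.bc]),
      Finset.sum_singleton]
    ring
  have hcnt := D.cnt i
  have hle := Finset.card_le_card hsub
  refine ⟨by omega, ?_, ?_⟩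
  · intro h
    have hFe : F = vs i := Finset.eq_of_subset_of_card_le hsub (by omega)
    refine ⟨?_, ?_⟩
    · intro w hw
      rw [← hFe] at hw
      obtain ⟨s, hs, rfl⟩ := Finset.mem_image.1 hw
      rw [(g i).symm_apply_apply]
      exact hs
    · rw [← hFs, hFe, hcnt, h]
  · intro h4
    have hsd : ∑ w ∈ vs i \ F, (ts w).card + ∑ w ∈ F, (ts w).card = ∑ w ∈ vs i, (ts w).card :=
      Finset.sum_sdiff hsub
    have hge : (vs i \ F).card * 4 ≤ ∑ w ∈ vs i \ F, (ts w).card := by
      rw [← smul_eq_mul]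
      apply Finset.card_nsmul_le_sum
      intro w hw
      exact h4 w ((D.mem i w).1 (Finset.mem_sdiff.1 hw).1).2
    have hcs : (vs i \ F).card = (vs i).card - 3 := by
      rw [Finset.card_sdiff_of_subset hsub, hFc]
    rw [hcs] at hge
    omega

/-- Two tiles with the same label. -/
theorem ringT_two {i j : ι} {s w : Pl} (hij : i ≠ j) (hi : i ∈ ts w) (hj : j ∈ ts w)
    (hi' : g i s = w) (hj' : g j s = w) : 2 ≤ N g ts s w := by
  classical
  unfold N
  have : 1 < ((ts w).filter (fun i => (g i).symm w = s)).card := by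
    rw [Finset.one_lt_card]
    refine ⟨i, Finset.mem_filter.2 ⟨hi, ?_⟩, j, Finset.mem_filter.2 ⟨hj, ?_⟩, hij⟩
    · rw [← hi']
      exact (g i).symm_apply_apply s
    · rw [← hj']
      exact (g j).symm_apply_apply s
  exact this

/-- One tile with a label. -/
theorem ringT_one {i : ι} {s w : Pl} (hi : i ∈ ts w) (hi' : g i s = w) : 1 ≤ N g ts s w := by
  classical
  unfold N
  apply Finset.card_pos.2
  refine ⟨i, Finset.mem_filter.2 ⟨hi, ?_⟩⟩
  rw [← hi']
  exact (g i).symm_apply_apply s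

/-- A tile contains its corners. -/
theorem ringT_mem (D : Dat n S θ Sd g vs ts) {i : ι} {s : Pl} (hs : s ∈ S) :
    i ∈ ts (g i s) ∧ 3 ≤ (ts (g i s)).card :=
  (D.mem i _).1 (D.cmem i s hs)

/-- A full vertex has no straight tile. -/
theorem ringT_full {v : Pl} (hf : ¬ Half S g ts v) :
    (∀ j ∈ ts v, (g j).symm v ∈ S) ∧ stc S g ts v = 0 := by
  classical
  have h : ∀ j ∈ ts v, (g j).symm v ∈ S := by
    intro j hj
    by_contra hcon
    exact hf ⟨j, hj, hcon⟩
  refine ⟨h, ?_⟩
  unfold stc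
  rw [Finset.card_eq_zero, Finset.filter_eq_empty_iff]
  intro j hj hcon
  exact hcon (h j hj)

end Pool.Agent.Work.MP_bd00dd_co
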